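import Pool.Agent.H90.Mx.Twin

/-!
# Amalgamation of twins, indices of kind A (module AMA)

It remains to check the requirements for two atoms `(a, k)` of `p` and `(a', k')` of
`q` of the same index `i`.  By `Twin.mem'` `a' = π a2`, `k' = π k2`, where `(a2, k2)` is an atom of
`p`; also `(π a, π k)` is an atom of `q` (`Twin.mem`).  Call `x ∈ N` fixed if `x < ξ0`, `π x = x`, moved if
`ξ0 < x < m ≤ π x`.

**Kind A** (`kd i = .A E`, `m ∈ E`; `UnaA` for the atoms of `p` and `q`, `BinA` of `(a,k), (a2,k2)` in `p`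
and of `(π a, π k), (π a2, π k2)` in `q`):
* `(a, k) = (a2, k2)`.  If `k` is moved then `m ≤ π k`, so `m ≤ π a` by `UnaA`, `a` is moved.  So if `a` is
  fixed then `(π a, π k) = (a, k)`.  If `a` is moved: `t` decides the pair `a, π a` with first difference `ξ0`;
  if `k` is fixed use the first alternative of `Lk` (`γ ≤ k < ξ0`); if `k` is moved the second
  (`k, π k` also has first difference `ξ0`, in the same direction).
* `Lk E p.t.Tri (a, k) (a2, k2)`, with `Tri a a2 δ` (the case of `Lk` in the other direction is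
  symmetric).  `δ ∈ N` by `tN`.
  - `δ < ξ0`.  Then `π δ = δ` and `q.t.Tri (π a) (π a2) δ` (`tt`), `t.Tri a (π a2) δ`.
    + `k = k2` and `∀ γ ∈ E, γ ≤ k → γ ≤ δ`.  If `k` is fixed: first alternative of `Lk` in `t`.  If `k` is moved:
      `BinA` for `(π a, π k), (π a2, π k)` in `q` gives (by `Tri.unique`, `Tri.asymm`, `Tri.ne`) that
      `∀ γ ∈ E, γ ≤ π k → γ ≤ δ`, but `m ≤ π k` and `δ < ξ0 < m`: contradiction.
    + `Tri k k2 δ'` and `∀ γ ∈ E, γ ≤ δ ↔ γ ≤ δ'`.  `BinA` in `q` gives `∀ γ ∈ E, γ ≤ δ ↔ γ ≤ π δ'`, so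
      `π δ' < m`, so `δ' < ξ0`, and `t.Tri k (π k2) δ'`.
  - `ξ0 < δ`.  Then `a`, `a2` are moved (`δ ≤ a, a2`), `t` decides the pair `a, π a2` with first difference
    `ξ0` (third clause of `SE.exists_combine`).
    + `k = k2`: if `k` is fixed: first alternative (`γ ≤ k < ξ0`); if `k` is moved: second clause for `k, π k`.
    + `Tri k k2 δ'`: `BinA` in `q` gives `∀ γ ∈ E, γ ≤ π δ ↔ γ ≤ π δ'`; `m ≤ π δ`, so `m ≤ π δ'`, so
      `ξ0 < δ'`; third clause for `k, π k2`.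
-/

set_option autoImplicit false

namespace Pool.Agent.H90.Mx

open Pool.Agent.H90.SN

/-- what `BinA` in `q` says about a decided pair -/
theorem Twin.binA_q {p q : CP} {N : Finset Om} {π : Om → Om} {ξ0 m : Om}
    (h : Twin p q N π ξ0 m) {E : Set Om} {x kx y ky : Om} (hkx : kx ∈ N) (hky : ky ∈ N)
    (hb : BinA E q.t.Tri (π x, π kx) (π y, π ky)) {δ : Om} (hδ : p.t.Tri x y δ) :
    (kx = ky → ∀ γ ∈ E, γ ≤ π kx → γ ≤ π δ) ∧
      ∀ δ', p.t.Tri kx ky δ' → ∀ γ ∈ E, γ ≤ π δ ↔ γ ≤ π δ' := by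
  have hq := h.tt x y δ hδ
  rcases hb with hb | ⟨δ1, h1, h2⟩ | ⟨δ1, h1, h2⟩
  · exact absurd (congrArg Prod.fst hb) hq.ne
  · have e1 : δ1 = π δ := SE.Tri.unique h1 hq
    subst e1
    rcases h2 with ⟨h3, h4⟩ | ⟨δ2, h3, h4⟩
    · have e2 : kx = ky := h.inj hkx hky h3
      refine ⟨fun _ => h4, fun δ' hδ' => absurd e2 hδ'.ne⟩
    · refine ⟨fun e2 => ?_, fun δ' hδ' => ?_⟩
      · have h5 : π kx ≠ π ky := SE.Tri.ne h3
        exact absurd (congrArg π e2) h5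
      · have e3 : δ2 = π δ' := SE.Tri.unique h3 (h.tt _ _ _ hδ')
        rw [← e3]
        exact h4
  · exact (SE.Tri.asymm h1 hq).elim

/-- both cross requirements for a pair of atoms in the relation `Lk` -/
theorem Twin.binA_aux {p q : CP} {N : Finset Om} {π : Om → Om} {ξ0 m : Om}
    (h : Twin p q N π ξ0 m) {b : Bool} {t : SE}
    (h1 : ∀ x ∈ N, ξ0 < x → if b then t.Tri x (π x) ξ0 else t.Tri (π x) x ξ0)
    (h2 : ∀ x ∈ N, ∀ y ∈ N, ∀ δ, p.t.Tri x y δ → δ < ξ0 →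
        t.Tri x (π y) δ ∧ t.Tri (π x) y δ ∧ t.Tri (π x) (π y) δ)
    (h3 : ∀ x ∈ N, ∀ y ∈ N, ∀ δ, p.t.Tri x y δ → ξ0 < δ →
        if b then t.Tri x (π y) ξ0 ∧ t.Tri y (π x) ξ0
        else t.Tri (π y) x ξ0 ∧ t.Tri (π x) y ξ0)
    {E : Set Om} (hm : m ∈ E) {x kx y ky : Om} (hx : x ∈ N) (hkx : kx ∈ N) (hy : y ∈ N)
    (hky : ky ∈ N) (hp : Lk E p.t.Tri (x, kx) (y, ky))
    (hb : BinA E q.t.Tri (π x, π kx) (π y, π ky)) :
    BinA E t.Tri (x, kx) (π y, π ky) ∧ BinA E t.Tri (π x, π kx) (y, ky) := by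
  obtain ⟨δ, hδ, hcase⟩ := hp
  change p.t.Tri x y δ at hδ
  obtain ⟨hQ1, hQ2⟩ := h.binA_q hkx hky hb hδ
  have hδN : δ ∈ N := (h.tN _ hδ).2.2
  rcases h.dich δ hδN with ⟨hd1, hd2⟩ | ⟨hd1, hd2, hd3⟩
  · -- the first difference is below `ξ0`
    obtain ⟨t1, t2, -⟩ := h2 x hx y hy δ hδ hd1
    rcases hcase with ⟨hk, hγ⟩ | ⟨δ', hδ', hγ⟩
    · change kx = ky at hk
      subst hk
      rcases h.dich kx hkx with ⟨hf1, hf2⟩ | ⟨hf1, hf2, hf3⟩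
      · rw [hf2]
        exact ⟨Or.inr (Or.inl ⟨δ, t1, Or.inl ⟨rfl, hγ⟩⟩),
          Or.inr (Or.inl ⟨δ, t2, Or.inl ⟨rfl, hγ⟩⟩)⟩
      · exfalso
        have h4 := hQ1 rfl m hm hf3
        rw [hd2] at h4
        exact lt_irrefl _ ((h4.trans_lt hd1).trans (hf1.trans hf2))
    · change p.t.Tri kx ky δ' at hδ'
      have h4 := hQ2 δ' hδ' m hm
      rw [hd2] at h4
      have hδ'N : δ' ∈ N := (h.tN _ hδ').2.2
      rcases h.dich δ' hδ'N with ⟨he1, he2⟩ | ⟨he1, he2, he3⟩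
      · obtain ⟨t3, t4, -⟩ := h2 kx hkx ky hky δ' hδ' he1
        exact ⟨Or.inr (Or.inl ⟨δ, t1, Or.inr ⟨δ', t3, hγ⟩⟩),
          Or.inr (Or.inl ⟨δ, t2, Or.inr ⟨δ', t4, hγ⟩⟩)⟩
      · exfalso
        exact lt_irrefl _ (((h4.2 he3).trans_lt hd1).trans (he1.trans he2))
  · -- the first difference is above `ξ0`
    have t1 := h3 x hx y hy δ hδ hd1
    rcases hcase with ⟨hk, hγ⟩ | ⟨δ', hδ', hγ⟩
    · change kx = ky at hk
      subst hk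
      rcases h.dich kx hkx with ⟨hf1, hf2⟩ | ⟨hf1, hf2, hf3⟩
      · rw [hf2]
        have hg : ∀ γ ∈ E, γ ≤ kx → γ ≤ ξ0 := fun γ _ hγk => hγk.trans hf1.le
        cases b
        · have t1' : t.Tri (π y) x ξ0 ∧ t.Tri (π x) y ξ0 := by simpa using t1
          exact ⟨Or.inr (Or.inr ⟨ξ0, t1'.1, Or.inl ⟨rfl, hg⟩⟩),
            Or.inr (Or.inl ⟨ξ0, t1'.2, Or.inl ⟨rfl, hg⟩⟩)⟩
        · have t1' : t.Tri x (π y) ξ0 ∧ t.Tri y (π x) ξ0 := by simpa using t1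
          exact ⟨Or.inr (Or.inl ⟨ξ0, t1'.1, Or.inl ⟨rfl, hg⟩⟩),
            Or.inr (Or.inr ⟨ξ0, t1'.2, Or.inl ⟨rfl, hg⟩⟩)⟩
      · have t2 := h1 kx hkx hf1
        cases b
        · have t1' : t.Tri (π y) x ξ0 ∧ t.Tri (π x) y ξ0 := by simpa using t1
          have t2' : t.Tri (π kx) kx ξ0 := by simpa using t2
          exact ⟨Or.inr (Or.inr ⟨ξ0, t1'.1, Or.inr ⟨ξ0, t2', fun _ _ => Iff.rfl⟩⟩),
            Or.inr (Or.inl ⟨ξ0, t1'.2, Or.inr ⟨ξ0, t2', fun _ _ => Iff.rfl⟩⟩)⟩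
        · have t1' : t.Tri x (π y) ξ0 ∧ t.Tri y (π x) ξ0 := by simpa using t1
          have t2' : t.Tri kx (π kx) ξ0 := by simpa using t2
          exact ⟨Or.inr (Or.inl ⟨ξ0, t1'.1, Or.inr ⟨ξ0, t2', fun _ _ => Iff.rfl⟩⟩),
            Or.inr (Or.inr ⟨ξ0, t1'.2, Or.inr ⟨ξ0, t2', fun _ _ => Iff.rfl⟩⟩)⟩
    · change p.t.Tri kx ky δ' at hδ'
      have h4 := (hQ2 δ' hδ' m hm).1 hd3
      have hδ'N : δ' ∈ N := (h.tN _ hδ').2.2
      rcases h.dich δ' hδ'N with ⟨he1, he2⟩ | ⟨he1, he2, he3⟩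
      · exfalso
        rw [he2] at h4
        exact lt_irrefl _ ((h4.trans_lt he1).trans (hd1.trans hd2))
      · have t2 := h3 kx hkx ky hky δ' hδ' he1
        cases b
        · have t1' : t.Tri (π y) x ξ0 ∧ t.Tri (π x) y ξ0 := by simpa using t1
          have t2' : t.Tri (π ky) kx ξ0 ∧ t.Tri (π kx) ky ξ0 := by simpa using t2
          exact ⟨Or.inr (Or.inr ⟨ξ0, t1'.1, Or.inr ⟨ξ0, t2'.1, fun _ _ => Iff.rfl⟩⟩),
            Or.inr (Or.inl ⟨ξ0, t1'.2, Or.inr ⟨ξ0, t2'.2, fun _ _ => Iff.rfl⟩⟩)⟩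
        · have t1' : t.Tri x (π y) ξ0 ∧ t.Tri y (π x) ξ0 := by simpa using t1
          have t2' : t.Tri kx (π ky) ξ0 ∧ t.Tri ky (π kx) ξ0 := by simpa using t2
          exact ⟨Or.inr (Or.inl ⟨ξ0, t1'.1, Or.inr ⟨ξ0, t2'.1, fun _ _ => Iff.rfl⟩⟩),
            Or.inr (Or.inr ⟨ξ0, t1'.2, Or.inr ⟨ξ0, t2'.2, fun _ _ => Iff.rfl⟩⟩)⟩

theorem Twin.binA {p q : CP} {N : Finset Om} {π : Om → Om} {ξ0 m : Om}
    (h : Twin p q N π ξ0 m) {b : Bool} {t : SE}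
    (h1 : ∀ x ∈ N, ξ0 < x → if b then t.Tri x (π x) ξ0 else t.Tri (π x) x ξ0)
    (h2 : ∀ x ∈ N, ∀ y ∈ N, ∀ δ, p.t.Tri x y δ → δ < ξ0 →
        t.Tri x (π y) δ ∧ t.Tri (π x) y δ ∧ t.Tri (π x) (π y) δ)
    (h3 : ∀ x ∈ N, ∀ y ∈ N, ∀ δ, p.t.Tri x y δ → ξ0 < δ →
        if b then t.Tri x (π y) ξ0 ∧ t.Tri y (π x) ξ0
        else t.Tri (π y) x ξ0 ∧ t.Tri (π x) y ξ0)
    {i : CI} {E : Set Om} (hi : kd i = .A E) {a k a' k' : Om} (ha : At p i a k)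
    (ha' : At q i a' k') : BinA E t.Tri (a, k) (a', k') := by
  obtain ⟨a2, k2, hp2, rfl, rfl⟩ := h.mem' i ⟨a, k, ha⟩ a' k' ha'
  have hm : m ∈ E := h.cl i E ⟨a, k, ha⟩ ⟨_, _, ha'⟩ hi
  obtain ⟨haN, hkN, hqa⟩ := h.mem i ⟨_, _, ha'⟩ a k ha
  obtain ⟨ha2N, hk2N, -⟩ := h.mem i ⟨_, _, ha'⟩ a2 k2 hp2
  have hbq : BinA E q.t.Tri (π a, π k) (π a2, π k2) := hqa.binA ha' hi
  rcases ha.binA hp2 hi with hb | hb | hb
  · -- the same atom
    have e1 : a = a2 := congrArg Prod.fst hb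
    have e2 : k = k2 := congrArg Prod.snd hb
    subst e1 e2
    rcases h.dich a haN with ⟨ha1, ha2⟩ | ⟨ha1, ha2, ha3⟩
    · rcases h.dich k hkN with ⟨hk1, hk2⟩ | ⟨hk1, hk2, hk3⟩
      · rw [ha2, hk2]
        exact Or.inl rfl
      · exfalso
        have h4 : m ≤ π a := (hqa.unaA hi).2 m hm hk3
        rw [ha2] at h4
        exact lt_irrefl _ ((h4.trans_lt ha1).trans (hk1.trans hk2))
    · have t1 := h1 a haN ha1
      rcases h.dich k hkN with ⟨hk1, hk2⟩ | ⟨hk1, hk2, hk3⟩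
      · rw [hk2]
        have hg : ∀ γ ∈ E, γ ≤ k → γ ≤ ξ0 := fun γ _ hγk => hγk.trans hk1.le
        cases b
        · have t1' : t.Tri (π a) a ξ0 := by simpa using t1
          exact Or.inr (Or.inr ⟨ξ0, t1', Or.inl ⟨rfl, hg⟩⟩)
        · have t1' : t.Tri a (π a) ξ0 := by simpa using t1
          exact Or.inr (Or.inl ⟨ξ0, t1', Or.inl ⟨rfl, hg⟩⟩)
      · have t2 := h1 k hkN hk1
        cases b
        · have t1' : t.Tri (π a) a ξ0 := by simpa using t1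
          have t2' : t.Tri (π k) k ξ0 := by simpa using t2
          exact Or.inr (Or.inr ⟨ξ0, t1', Or.inr ⟨ξ0, t2', fun _ _ => Iff.rfl⟩⟩)
        · have t1' : t.Tri a (π a) ξ0 := by simpa using t1
          have t2' : t.Tri k (π k) ξ0 := by simpa using t2
          exact Or.inr (Or.inl ⟨ξ0, t1', Or.inr ⟨ξ0, t2', fun _ _ => Iff.rfl⟩⟩)
  · exact (h.binA_aux h1 h2 h3 hm haN hkN ha2N hk2N hb hbq).1
  · exact ((h.binA_aux h1 h2 h3 hm ha2N hk2N haN hkN hb hbq.symm).2).symm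

end Pool.Agent.H90.Mx
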