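import Pool.Agent.H90.Mx.Twin

/-!
# Amalgamation of twins, indices of kind R (module AMR)

It remains to check the requirements for two atoms `(a, k)` of `p` and `(a', k')` of
`q` of the same index `i`.  By `Twin.mem'` `a' = π a2`, `k' = π k2`, where `(a2, k2)` is an atom of
`p`; also `(π a, π k)` is an atom of `q` (`Twin.mem`).  Call `x ∈ N` fixed if `x < ξ0`, `π x = x`, moved if
`ξ0 < x < m ≤ π x`.

**Kind R** (`kd i = .R e`, `e ≤ ξ0`, `UnaR` for the atoms of `p` and `q`; `BinR` of `(a,k), (a2,k2)` in `p`):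
* `(a, k) = (a2, k2)`.  If `k` is moved then `π k ≥ m > e`, so `bl (π a) = bl (π k)` and `m ≤ π a` (`blk`),
  so `a` is moved.  So if `a` is fixed, `k` is fixed and `(π a, π k) = (a, k)`.  If `a` is moved and
  `k` is fixed then `bl (π a) = bl (π k) = bl k` is impossible (`blk`), so `k < e` by `UnaR` for
  `(π a, π k)`: second alternative.  If both are moved: `Lt r a (π a)`, `Lt r k (π k)` (or both reversed
  for `b = false`).
* `k = k2 < e`: then `k < ξ0` is fixed, `π k2 = k`: second alternative.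
* `Lt a a2` and `Lt k k2`, or both reversed: last clause of `SR.exists_combine`.

-/

set_option autoImplicit false

namespace Pool.Agent.H90.Mx

open Pool.Agent.H90.SN

theorem Twin.binR {p q : CP} {N : Finset Om} {π : Om → Om} {ξ0 m : Om}
    (h : Twin p q N π ξ0 m) {b : Bool} {r : SR}
    (h1 : ∀ x ∈ N, π x ≠ x → if b then r.Lt x (π x) else r.Lt (π x) x)
    (h2 : ∀ x ∈ N, ∀ y ∈ N, p.r.Lt x y → r.Lt x (π y) ∧ r.Lt (π x) y ∧ r.Lt (π x) (π y))
    {i : CI} {e : Om} (hi : kd i = .R e) {a k a' k' : Om} (ha : At p i a k) (ha' : At q i a' k') :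
    BinR e r.Lt (a, k) (a', k') := by
  obtain ⟨a2, k2, hp2, rfl, rfl⟩ := h.mem' i ⟨a, k, ha⟩ a' k' ha'
  have he : e ≤ ξ0 := h.le i e ⟨a, k, ha⟩ ⟨_, _, ha'⟩ hi
  obtain ⟨haN, hkN, hqa⟩ := h.mem i ⟨_, _, ha'⟩ a k ha
  obtain ⟨ha2N, hk2N, -⟩ := h.mem i ⟨_, _, ha'⟩ a2 k2 hp2
  rcases ha.binR hp2 hi with hb | ⟨hb1, hb2⟩ | ⟨hb1, hb2⟩ | ⟨hb1, hb2⟩
  · have e1 : a = a2 := congrArg Prod.fst hb
    have e2 : k = k2 := congrArg Prod.snd hb
    subst e1 e2
    have hu := hqa.unaR hi
    rcases h.dich a haN with ⟨ha1, ha2⟩ | ⟨ha1, ha2, ha3⟩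
    · rcases h.dich k hkN with ⟨hk1, hk2⟩ | ⟨hk1, hk2, hk3⟩
      · rw [ha2, hk2]
        exact Or.inl rfl
      · exfalso
        rcases hu with hu | hu
        · change π k < e at hu
          exact lt_irrefl _ (((hk1.trans hk2).trans_le hk3).trans (hu.trans_le he))
        · change bl (π a) = bl (π k) at hu
          have h3 := (h.blk _ _ hu).1 (by rw [ha2]; exact ha1.trans (hk1.trans hk2))
          exact absurd h3 (not_lt.2 hk3)
    · have hane : π a ≠ a := fun hc => (ha2.trans_le ha3).ne hc.symm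
      rcases h.dich k hkN with ⟨hk1, hk2⟩ | ⟨hk1, hk2, hk3⟩
      · rcases hu with hu | hu
        · change π k < e at hu
          rw [hk2] at hu ⊢
          exact Or.inr (Or.inl ⟨rfl, hu⟩)
        · exfalso
          change bl (π a) = bl (π k) at hu
          have h3 := (h.blk _ _ hu).2 (by rw [hk2]; exact hk1.trans (ha1.trans ha2))
          exact absurd h3 (not_lt.2 ha3)
      · have hkne : π k ≠ k := fun hc => (hk2.trans_le hk3).ne hc.symm
        have t1 := h1 a haN hane
        have t2 := h1 k hkN hkne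
        cases b
        · have t1' : r.Lt (π a) a := by simpa using t1
          have t2' : r.Lt (π k) k := by simpa using t2
          exact Or.inr (Or.inr (Or.inr ⟨t1', t2'⟩))
        · have t1' : r.Lt a (π a) := by simpa using t1
          have t2' : r.Lt k (π k) := by simpa using t2
          exact Or.inr (Or.inr (Or.inl ⟨t1', t2'⟩))
  · change k = k2 at hb1
    change k < e at hb2
    subst hb1
    have hk : π k = k := by
      rcases h.dich k hkN with ⟨-, hk2⟩ | ⟨hk1, -⟩
      · exact hk2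
      · exact absurd hk1 (not_lt.2 (hb2.le.trans he))
    rw [hk]
    exact Or.inr (Or.inl ⟨rfl, hb2⟩)
  · exact Or.inr (Or.inr (Or.inl ⟨(h2 a haN a2 ha2N hb1).1, (h2 k hkN k2 hk2N hb2).1⟩))
  · exact Or.inr (Or.inr (Or.inr ⟨(h2 a2 ha2N a haN hb1).2.1, (h2 k2 hk2N k hkN hb2).2.1⟩))

end Pool.Agent.H90.Mx
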