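import Pool.Agent.H90.Mx.AmR
import Pool.Agent.H90.Mx.AmA

/-!
# Amalgamation of twins
-/

set_option autoImplicit false

namespace Pool.Agent.H90.Mx

open Pool.Agent.H90.SN

theorem Twin.amalg {p q : CP} {N : Finset Om} {π : Om → Om} {ξ0 m : Om}
    (h : Twin p q N π ξ0 m) (b : Bool) : ∃ s : CP, s ≤ p ∧ s ≤ q ∧
      (∀ x ∈ N, ξ0 < x → if b then s.r.Lt x (π x) ∧ s.t.Tri x (π x) ξ0
        else s.r.Lt (π x) x ∧ s.t.Tri (π x) x ξ0) ∧
      (∀ x ∈ N, ∀ y ∈ N, p.r.Lt x y → s.r.Lt (π x) y) ∧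
      (∀ x ∈ N, ∀ y ∈ N, ∀ δ, p.t.Tri x y δ → ξ0 < δ →
        if b then s.t.Tri x (π y) ξ0 ∧ s.t.Tri y (π x) ξ0
        else s.t.Tri (π y) x ξ0 ∧ s.t.Tri (π x) y ξ0) := by
  have hd : ∀ x ∈ N, π x = x ∨ π x ∉ N := by
    intro x hx
    rcases h.dich x hx with ⟨-, h1⟩ | ⟨h1, h2, h3⟩
    · exact Or.inl h1
    · refine Or.inr fun hn => ?_
      rcases h.dich (π x) hn with ⟨h4, h5⟩ | ⟨h4, h5, h6⟩
      · exact absurd (h.inj hn hx h5) (fun h6 => (h2.trans_le h3).ne h6.symm)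
      · exact absurd (h5.trans_le h3) (lt_irrefl _)
  obtain ⟨r, r1, r2, r3, r4⟩ := SR.exists_combine p.r q.r N π b h.inj h.rN h.r' hd
  obtain ⟨t, t1, t2, t3, t4, t5⟩ := SE.exists_combine p.t q.t N π ξ0 m b h.inj h.tN h.t' h.dich
  obtain ⟨s, s1, s2, s3, s4⟩ := CP.exists_amalgam p q r1 t1 r2 t2
    (fun i e hi a k a' k' ha ha' => h.binR r3 r4 hi ha ha')
    (fun i E hi a k a' k' ha ha' => h.binA t3 t4 t5 hi ha ha')
  refine ⟨s, s1, s2, fun x hx hx0 => ?_, fun x hx y hy hxy => ?_, fun x hx y hy δ h1 h2 => ?_⟩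
  · have hne : π x ≠ x := by
      rcases h.dich x hx with ⟨h1, -⟩ | ⟨-, h2, h3⟩
      · exact absurd h1 (not_lt.2 hx0.le)
      · exact fun h4 => (h2.trans_le h3).ne h4.symm
    have e1 := r3 x hx hne
    have e2 := t3 x hx hx0
    rw [s3, s4]
    cases b
    · exact ⟨by simpa using e1, by simpa using e2⟩
    · exact ⟨by simpa using e1, by simpa using e2⟩
  · rw [s3]
    exact (r4 x hx y hy hxy).2.1
  · rw [s4]
    exact t5 x hx y hy δ h1 h2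

end Pool.Agent.H90.Mx
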