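import Pool.Agent.H90.SN.Sys

/-!
# Finite approximations of a generic tree order on `ω₁`

Realizers are functions `φ : Om → Om → ℤ` with `φ α ξ = 0 ↔ α ≤ ξ` (`Row`): the sequence of `α` is a
sequence of nonzero integers of length `α`, continued by zeros.  `Dl φ α β δ`: the sequences of `α`, `β`
first differ at `δ`, and `φ α δ < φ β δ`.  This is a lexicographic order; `δ ≤ α, β`.

`SE`: finite sets `D` of triples `(α, β, δ)` which have a realizer `φ` (`Dl φ α β δ` for all triples).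
`Tri s α β δ`: `s` decides `α < β` with first difference `δ`.
-/

set_option autoImplicit false

namespace Pool.Agent.H90.Mx

open Pool.Agent.H90.SN

def Row (φ : Om → Om → ℤ) : Prop := ∀ α ξ, φ α ξ = 0 ↔ α ≤ ξ

def Dl (φ : Om → Om → ℤ) (α β δ : Om) : Prop := (∀ ξ < δ, φ α ξ = φ β ξ) ∧ φ α δ < φ β δ

def RzE (φ : Om → Om → ℤ) (D : Finset (Om × Om × Om)) : Prop :=
  Row φ ∧ ∀ x ∈ D, Dl φ x.1 x.2.1 x.2.2

/-! ### Lexicographic orders -/

section

variable {φ : Om → Om → ℤ} {α β γ δ δ' : Om}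

theorem Dl.ne (h : Dl φ α β δ) : α ≠ β := by
  rintro rfl
  exact lt_irrefl _ h.2

theorem Dl.unique (h : Dl φ α β δ) (h' : Dl φ α β δ') : δ = δ' := by
  rcases lt_trichotomy δ δ' with h1 | h1 | h1
  · exact absurd (h'.1 δ h1) h.2.ne
  · exact h1
  · exact absurd (h.1 δ' h1) h'.2.ne

theorem Dl.asymm (h : Dl φ α β δ) (h' : Dl φ β α δ') : False := by
  rcases lt_trichotomy δ δ' with h1 | h1 | h1
  · exact h.2.ne (h'.1 δ h1).symm
  · subst h1
    exact lt_asymm h.2 h'.2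
  · exact h'.2.ne (h.1 δ' h1).symm

theorem Dl.le_left (hφ : Row φ) (h : Dl φ α β δ) : δ ≤ α := by
  by_contra hcon
  push Not at hcon
  have h1 := h.1 α hcon
  rw [(hφ α α).2 le_rfl] at h1
  have h2 : β ≤ α := (hφ β α).1 h1.symm
  have h3 := h.2
  rw [(hφ α δ).2 hcon.le, (hφ β δ).2 (h2.trans hcon.le)] at h3
  exact lt_irrefl _ h3

theorem Dl.le_right (hφ : Row φ) (h : Dl φ α β δ) : δ ≤ β := by
  by_contra hcon
  push Not at hcon
  have h1 := h.1 β hcon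
  rw [(hφ β β).2 le_rfl] at h1
  have h2 : α ≤ β := (hφ α β).1 h1
  have h3 := h.2
  rw [(hφ β δ).2 hcon.le, (hφ α δ).2 (h2.trans hcon.le)] at h3
  exact lt_irrefl _ h3

theorem exists_dl (hφ : Row φ) (h : α ≠ β) : ∃ δ, Dl φ α β δ ∨ Dl φ β α δ := by
  have h1 : ∃ ξ, φ α ξ ≠ φ β ξ := by
    by_contra hcon
    push Not at hcon
    refine h (le_antisymm ?_ ?_)
    · rw [← hφ, hcon β, hφ]
    · rw [← hφ, ← hcon α, hφ]
  have hwf : WellFounded ((· < ·) : Om → Om → Prop) := IsWellFounded.wf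
  obtain ⟨δ, hδ, hmin⟩ := hwf.has_min {ξ | φ α ξ ≠ φ β ξ} h1
  have h2 : ∀ ξ < δ, φ α ξ = φ β ξ := by
    intro ξ hξ
    by_contra hne
    exact hmin ξ hne hξ
  rcases lt_or_gt_of_ne (show φ α δ ≠ φ β δ from hδ) with h3 | h3
  · exact ⟨δ, Or.inl ⟨h2, h3⟩⟩
  · exact ⟨δ, Or.inr ⟨fun ξ hξ => (h2 ξ hξ).symm, h3⟩⟩

/-- `α < β < γ`: then `α < γ`, and the first difference of `α, γ` is the minimum of the two others -/
theorem Dl.trans (h : Dl φ α β δ) (h' : Dl φ β γ δ') : Dl φ α γ (min δ δ') := by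
  refine ⟨fun ξ hξ => ?_, ?_⟩
  · rw [lt_min_iff] at hξ
    rw [h.1 ξ hξ.1, h'.1 ξ hξ.2]
  · rcases lt_trichotomy δ δ' with h1 | h1 | h1
    · rw [min_eq_left h1.le, ← h'.1 δ h1]
      exact h.2
    · subst h1
      rw [min_self]
      exact h.2.trans h'.2
    · rw [min_eq_right h1.le, h.1 δ' h1]
      exact h'.2

/-- if `α` and `α'` agree up to `δ` (inclusive) then they are in the same relation to `β` -/
theorem Dl.congr_left {α' : Om} (h : Dl φ α β δ) (h' : ∀ ξ ≤ δ, φ α' ξ = φ α ξ) : Dl φ α' β δ := by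
  refine ⟨fun ξ hξ => ?_, ?_⟩
  · rw [h' ξ hξ.le, h.1 ξ hξ]
  · rw [h' δ le_rfl]
    exact h.2

theorem Dl.congr_right {β' : Om} (h : Dl φ α β δ) (h' : ∀ ξ ≤ δ, φ β' ξ = φ β ξ) :
    Dl φ α β' δ := by
  refine ⟨fun ξ hξ => ?_, ?_⟩
  · rw [h' ξ hξ.le, h.1 ξ hξ]
  · rw [h' δ le_rfl]
    exact h.2

end

/-! ### The conditions -/

def SE : Type := {D : Finset (Om × Om × Om) // ∃ φ, RzE φ D}

theorem exists_row : ∃ φ, Row φ := by
  refine ⟨fun α ξ => if α ≤ ξ then 0 else 1, fun α ξ => ?_⟩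
  by_cases h : α ≤ ξ
  · simp [h]
  · simp [h]

instance : PartialOrder SE where
  le s t := t.1 ⊆ s.1
  le_refl s := Finset.Subset.refl s.1
  le_trans _ _ _ h h' := Finset.Subset.trans h' h
  le_antisymm s t h h' := Subtype.ext (Finset.Subset.antisymm h' h)

instance : OrderTop SE where
  top := ⟨∅, by
    obtain ⟨φ, hφ⟩ := exists_row
    exact ⟨φ, hφ, by simp⟩⟩
  le_top s := Finset.empty_subset _

namespace SE

theorem le_def {s t : SE} : s ≤ t ↔ t.1 ⊆ s.1 := Iff.rfl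

/-- `s` decides `α < β` with first difference `δ` -/
def Tri (s : SE) (α β δ : Om) : Prop := (α, β, δ) ∈ s.1

variable {s t : SE} {α β γ δ δ' : Om}

theorem Tri.mono (h : Tri s α β δ) (ht : t ≤ s) : Tri t α β δ := ht h

theorem Tri.dl (h : Tri s α β δ) {φ : Om → Om → ℤ} (hφ : RzE φ s.1) : Dl φ α β δ := hφ.2 _ h

theorem Tri.ne (h : Tri s α β δ) : α ≠ β := by
  obtain ⟨φ, hφ⟩ := s.2
  exact (h.dl hφ).ne

theorem Tri.unique (h : Tri s α β δ) (h' : Tri s α β δ') : δ = δ' := by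
  obtain ⟨φ, hφ⟩ := s.2
  exact (h.dl hφ).unique (h'.dl hφ)

theorem Tri.asymm (h : Tri s α β δ) (h' : Tri s β α δ') : False := by
  obtain ⟨φ, hφ⟩ := s.2
  exact (h.dl hφ).asymm (h'.dl hφ)

theorem Tri.le_left (h : Tri s α β δ) : δ ≤ α := by
  obtain ⟨φ, hφ⟩ := s.2
  exact (h.dl hφ).le_left hφ.1

theorem Tri.le_right (h : Tri s α β δ) : δ ≤ β := by
  obtain ⟨φ, hφ⟩ := s.2
  exact (h.dl hφ).le_right hφ.1

end SE

end Pool.Agent.H90.Mx
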