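import Pool.Agent.H90.Mx.SReal
import Pool.Agent.H90.Mx.STree

/-!
# Cardinalities (module CARDD)

`SR × SE` and `Om × Om` have at most `ℵ₁` elements (`Cardinal.mk_finset_of_infinite`, `om_card`,
`Cardinal.mul_eq_self`), and `Kd` is equivalent to `Om ⊕ Set Om` (`Cardinal.mk_set`), so it has at most
`ℵ₁ + 2 ^ ℵ₁` elements.
-/

set_option autoImplicit false

namespace Pool.Agent.H90.Mx

open Pool.Agent.H90.SN

inductive Kd where
  | R (e : Om) : Kd
  | A (E : Set Om) : Kd

theorem card_om_pow : Cardinal.mk Om ≤ 2 ^ Cardinal.aleph 1 := by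
  rw [om_card]
  exact (Cardinal.cantor _).le

def kdEquiv : Kd ≃ Om ⊕ Set Om where
  toFun
    | .R e => Sum.inl e
    | .A E => Sum.inr E
  invFun
    | Sum.inl e => .R e
    | Sum.inr E => .A E
  left_inv := by rintro (e | E) <;> rfl
  right_inv := by rintro (e | E) <;> rfl

theorem card_SR : Cardinal.mk SR ≤ Cardinal.aleph 1 := by
  have hi : Infinite Om := by
    rw [Cardinal.infinite_iff, om_card]
    exact Cardinal.aleph0_le_aleph 1
  have h1 : Cardinal.mk SR ≤ Cardinal.mk (Finset (Om × ℚ × ℚ)) := Cardinal.mk_subtype_le _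
  have h2 : Cardinal.mk (Om × ℚ × ℚ) = Cardinal.aleph 1 := by
    rw [Cardinal.mk_prod, Cardinal.mk_prod, om_card]
    simp only [Cardinal.lift_id, Cardinal.mk_denumerable]
    rw [Cardinal.aleph0_mul_aleph0]
    exact Cardinal.mul_eq_left (Cardinal.aleph0_le_aleph 1) (Cardinal.aleph0_le_aleph 1)
      Cardinal.aleph0_ne_zero
  refine h1.trans ?_
  rw [Cardinal.mk_finset_of_infinite, h2]

theorem card_SE : Cardinal.mk SE ≤ Cardinal.aleph 1 := by
  have hi : Infinite Om := by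
    rw [Cardinal.infinite_iff, om_card]
    exact Cardinal.aleph0_le_aleph 1
  have h1 : Cardinal.mk SE ≤ Cardinal.mk (Finset (Om × Om × Om)) := Cardinal.mk_subtype_le _
  have h2 : Cardinal.mk (Om × Om × Om) = Cardinal.aleph 1 := by
    rw [Cardinal.mk_prod, Cardinal.mk_prod, om_card]
    simp only [Cardinal.lift_id]
    rw [Cardinal.mul_eq_self (Cardinal.aleph0_le_aleph 1),
      Cardinal.mul_eq_self (Cardinal.aleph0_le_aleph 1)]
  refine h1.trans ?_
  rw [Cardinal.mk_finset_of_infinite, h2]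

theorem card_data : Cardinal.mk (SR × SE) ≤ 2 ^ Cardinal.aleph 1 ∧
    Cardinal.mk (Om × Om) ≤ 2 ^ Cardinal.aleph 1 ∧ Cardinal.mk Kd ≤ 2 ^ Cardinal.aleph 1 := by
  have h0 : Cardinal.aleph0 ≤ Cardinal.aleph 1 := Cardinal.aleph0_le_aleph 1
  have h1 : Cardinal.aleph 1 ≤ 2 ^ Cardinal.aleph 1 := (Cardinal.cantor _).le
  refine ⟨?_, ?_, ?_⟩
  · rw [Cardinal.mk_prod, Cardinal.lift_id, Cardinal.lift_id]
    refine (mul_le_mul' card_SR card_SE).trans ?_
    rw [Cardinal.mul_eq_self h0]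
    exact h1
  · rw [Cardinal.mk_prod, Cardinal.lift_id, om_card, Cardinal.mul_eq_self h0]
    exact h1
  · rw [Cardinal.mk_congr kdEquiv, Cardinal.mk_sum, Cardinal.lift_id, Cardinal.lift_id,
      Cardinal.mk_set, om_card]
    refine (add_le_add h1 le_rfl).trans ?_
    rw [Cardinal.add_eq_self (h0.trans h1)]

end Pool.Agent.H90.Mx
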