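import Pool.Agent.H90.Mx.Key

/-!
# No `ω₁`-chains in the Aronszajn line, combinatorial part (module CHAIN)

* `no_chain` (`b = false`: no increasing sequence, `b = true`: no decreasing sequence).
  `ψ ξ c q`: `q` forces `F(ξ) = c`.  First: for every `ν` there are `ξ ≥ ν`, `q ≤ p`, `c ≥ ν` with `ψ ξ c q`.
  Otherwise choose (by `tot`) for every `ξ` some `q ξ ≤ p` and `c ξ` with `ψ ξ (c ξ) (q ξ)`; for
  `ξ ≥ ν` we have `c ξ < ν`.  `Set.Iio ν` is countable, so there is an uncountable set of `ξ ≥ ν` on which `c` is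
  constant (`exists_fiber_set` with `V` := `Option (Set.Iio ν)` or so, `S` := `Set.Ici ν`, uncountable); re-index by
  an injection of `Om` into it (see `exists_fiber` in `SN/OmD.lean`) and use `co_ccc`: there are
  `ξ < ξ'` with `c ξ = c ξ'` and `q ≤ q ξ, q ξ'`, contradicting the first part of `inc`.
  Now choose such `X ν ≥ ν`, `q ν`, `c ν ≥ ν` for all `ν`, and apply `keyA` with `c = d`, `F = X`, any `ξ`:
  `ν < μ`, `X ν < μ ≤ X μ`, `s ≤ q ν, q μ` with `Tri (c ν) (c μ) δ` (`b = true`) or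
  `Tri (c μ) (c ν) δ` (`b = false`) in `s`: contradiction to `inc`.

-/

set_option autoImplicit false

namespace Pool.Agent.H90.Mx

open Pool.Agent.H90.SN

private theorem ch_inj {S : Set Om} (hS : ¬ S.Countable) :
    ∃ e : Om → Om, Function.Injective e ∧ ∀ i, e i ∈ S := by
  have hle : Cardinal.mk Om ≤ Cardinal.mk S := by
    rw [om_card, ← Cardinal.succ_aleph0, Order.succ_le_iff]
    exact not_le.1 fun h => hS (Cardinal.le_aleph0_iff_set_countable.1 h)
  obtain ⟨e⟩ := hle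
  exact ⟨fun i => (e i).1, fun i j hij => e.injective (Subtype.ext hij), fun i => (e i).2⟩

private theorem ch_Ici (ν : Om) : ¬ (Set.Ici ν).Countable := by
  intro h
  refine om_not_countable ?_
  rw [← Set.countable_univ_iff]
  refine (h.union (om_countable_Iio ν)).mono fun i _ => ?_
  rcases le_or_gt ν i with h1 | h1
  · exact Or.inl h1
  · exact Or.inr h1

theorem no_chain (b : Bool) {p : CP} {ψ : Om → Om → CP → Prop}
    (anti : ∀ ξ c q q', q' ≤ q → ψ ξ c q → ψ ξ c q')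
    (tot : ∀ ξ, ∀ q ≤ p, ∃ r ≤ q, ∃ c, ψ ξ c r)
    (inc : ∀ ξ ξ' c c' q, q ≤ p → ξ < ξ' → ψ ξ c q → ψ ξ' c' q →
      c ≠ c' ∧ ∀ δ, if b then ¬ q.t.Tri c c' δ else ¬ q.t.Tri c' c δ) : False := by
  classical
  have h1 : ∀ ν : Om, ∃ ξ, ν ≤ ξ ∧ ∃ q ≤ p, ∃ c, ν ≤ c ∧ ψ ξ c q := by
    intro ν
    by_contra hcon
    push Not at hcon
    choose q hq c hc using fun ξ => tot ξ p le_rfl
    have hlt : ∀ ξ, ν ≤ ξ → c ξ < ν := by
      intro ξ hξ
      by_contra h
      exact hcon ξ hξ (q ξ) (hq ξ) (c ξ) (not_lt.1 h) (hc ξ)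
    haveI : Countable (Set.Iio ν) := (om_countable_Iio ν).to_subtype
    let v : Om → Option (Set.Iio ν) := fun ξ => if h : c ξ < ν then some ⟨c ξ, h⟩ else none
    obtain ⟨k, hk⟩ := exists_fiber_set v (ch_Ici ν)
    obtain ⟨e, he, hek⟩ := ch_inj hk
    obtain ⟨i, j, hij, s, hs1, hs2⟩ := co_ccc (fun i => q (e i))
    have hce : c (e i) = c (e j) := by
      have h2 : v (e i) = v (e j) := by rw [(hek i).2, (hek j).2]
      have h3 : v (e i) = some ⟨c (e i), hlt _ (hek i).1⟩ := dif_pos (hlt _ (hek i).1)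
      have h4 : v (e j) = some ⟨c (e j), hlt _ (hek j).1⟩ := dif_pos (hlt _ (hek j).1)
      rw [h3, h4] at h2
      have h5 := Option.some.inj h2
      exact congrArg Subtype.val h5
    have hsp : s ≤ p := hs1.trans (hq _)
    have hi : ψ (e i) (c (e i)) s := anti _ _ _ _ hs1 (hc _)
    have hj : ψ (e j) (c (e j)) s := anti _ _ _ _ hs2 (hc _)
    rcases lt_trichotomy (e i) (e j) with h2 | h2 | h2
    · exact (inc _ _ _ _ s hsp h2 hi hj).1 hce
    · exact hij (he h2)
    · exact (inc _ _ _ _ s hsp h2 hj hi).1 hce.symm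
  choose X hX q hq c hc hψ using h1
  obtain ⟨ν, μ, hνμ, hF, -, s, hs1, hs2, δ, -, h3⟩ :=
    keyA q c c hc hc (fun _ => Or.inl rfl) X (Classical.arbitrary Om) b
  have h4 := h3 (c ν) (Or.inl rfl) (c μ) (Or.inl rfl)
  have h5 := (inc (X ν) (X μ) (c ν) (c μ) s (hs1.trans (hq _)) (hF.trans_le (hX μ))
    (anti _ _ _ _ hs1 (hψ ν)) (anti _ _ _ _ hs2 (hψ μ))).2 δ
  cases b
  · simp only [Bool.false_eq_true, if_false] at h4 h5
    exact h5 h4
  · simp only [if_true] at h4 h5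
    exact h5 h4

end Pool.Agent.H90.Mx
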