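import Pool.Agent.H90.Mx.SReal

/-!
# Separation of finitely many generic reals (module SRSEP)

* `exists_sep`: let `ε > 0` be less than half of all positive differences `f ζ - f η`, `η ζ ∈ Z`; add
  the triples `(η, f η - ε, f η + ε)`, `η ∈ Z`.
* `exists_inj`: change `f` a little on `Z`: by induction on `Z` (`Finset.induction`), the value at a
  new point `a` can be any rational in an open interval (if `ε` is small then
  `(f a - ε, f a + ε)` is contained in all intervals of `s` for `a`), which is infinite, so it can avoid the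
  finitely many values at the other points.
-/

set_option autoImplicit false

namespace Pool.Agent.H90.Mx

open Pool.Agent.H90.SN

namespace SR

theorem exists_eps (D : Finset ℚ) (hD : ∀ x ∈ D, 0 < x) : ∃ ε : ℚ, 0 < ε ∧ ∀ x ∈ D, ε ≤ x := by
  classical
  induction D using Finset.induction_on with
  | empty => exact ⟨1, one_pos, by simp⟩
  | insert a D _ ih =>
    obtain ⟨ε, h1, h2⟩ := ih (fun x hx => hD x (Finset.mem_insert_of_mem hx))
    refine ⟨min ε a, lt_min h1 (hD a (Finset.mem_insert_self _ _)), fun x hx => ?_⟩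
    rcases Finset.mem_insert.1 hx with rfl | hx
    · exact min_le_right _ _
    · exact (min_le_left _ _).trans (h2 x hx)

theorem exists_sep {s : SR} {f : Om → ℚ} (hf : RzR f s.1) (Z : Finset Om) :
    ∃ s' ≤ s, RzR f s'.1 ∧ ∀ η ∈ Z, ∀ ζ ∈ Z, f η < f ζ → Lt s' η ζ := by
  classical
  obtain ⟨ε, hε, h⟩ := exists_eps
    (((Z ×ˢ Z).filter fun z => f z.1 < f z.2).image fun z => (f z.2 - f z.1) / 2) (by
      intro x hx
      obtain ⟨z, hz, rfl⟩ := Finset.mem_image.1 hx
      have := (Finset.mem_filter.1 hz).2
      linarith)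
  have hR : RzR f (s.1 ∪ Z.image fun η => (η, f η - ε, f η + ε)) := by
    intro x hx
    rcases Finset.mem_union.1 hx with hx | hx
    · exact hf x hx
    · obtain ⟨η, -, rfl⟩ := Finset.mem_image.1 hx
      constructor <;> simp [hε]
  refine ⟨⟨_, f, hR⟩, Finset.subset_union_left, hR, fun η hη ζ hζ hlt => ?_⟩
  refine ⟨(η, f η - ε, f η + ε), Finset.mem_union_right _ (Finset.mem_image_of_mem _ hη),
    (ζ, f ζ - ε, f ζ + ε), Finset.mem_union_right _ (Finset.mem_image_of_mem _ hζ), rfl, rfl, ?_⟩
  have := h ((f ζ - f η) / 2) (Finset.mem_image.2 ⟨(η, ζ), Finset.mem_filter.2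
    ⟨Finset.mem_product.2 ⟨hη, hζ⟩, hlt⟩, rfl⟩)
  change f η + ε ≤ f ζ - ε
  linarith

/-- a realizer can be made injective on a finite set (change it a little on this set) -/
theorem exists_inj (s : SR) (Z : Finset Om) : ∃ f, RzR f s.1 ∧ Set.InjOn f (Z : Set Om) := by
  classical
  induction Z using Finset.induction_on with
  | empty =>
    obtain ⟨f, hf⟩ := s.2
    exact ⟨f, hf, by simp⟩
  | insert a Z haZ ih =>
    obtain ⟨f, hf, hinj⟩ := ih
    obtain ⟨ε, hε, h⟩ := exists_eps
      (s.1.image fun x => if x.1 = a then min (f a - x.2.1) (x.2.2 - f a) else 1) (by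
        intro y hy
        obtain ⟨x, hx, rfl⟩ := Finset.mem_image.1 hy
        split_ifs with hxa
        · have := hf x hx
          rw [hxa] at this
          exact lt_min (by linarith [this.1]) (by linarith [this.2])
        · exact one_pos)
    have hinf : (Set.Ioo (f a - ε) (f a + ε)).Infinite := Set.Ioo_infinite (by linarith)
    obtain ⟨c, hc, hcZ⟩ := hinf.exists_notMem_finset (Z.image f)
    refine ⟨Function.update f a c, ?_, ?_⟩
    · intro x hx
      by_cases hxa : x.1 = a
      · have h1 := h _ (Finset.mem_image_of_mem _ hx)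
        simp only [if_pos hxa] at h1
        have h2 := h1.trans (min_le_left _ _)
        have h3 := h1.trans (min_le_right _ _)
        rw [hxa, Function.update_self]
        exact ⟨by linarith [hc.1], by linarith [hc.2]⟩
      · rw [Function.update_of_ne hxa]
        exact hf x hx
    · intro x hx y hy hxy
      rw [Finset.coe_insert, Set.mem_insert_iff, Finset.mem_coe] at hx hy
      have key : ∀ z ∈ Z, Function.update f a c z = f z := fun z hz =>
        Function.update_of_ne (by rintro rfl; exact haZ hz) _ _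
      rcases hx with rfl | hx <;> rcases hy with rfl | hy
      · rfl
      · rw [Function.update_self, key y hy] at hxy
        exact absurd (Finset.mem_image.2 ⟨y, hy, hxy.symm⟩) hcZ
      · rw [Function.update_self, key x hx] at hxy
        exact absurd (Finset.mem_image.2 ⟨x, hx, hxy⟩) hcZ
      · rw [key x hx, key y hy] at hxy
        exact hinj hx hy hxy

/-- all pairs from a finite set can be decided -/
theorem exists_decide (s : SR) (Z : Finset Om) :
    ∃ s' ≤ s, ∀ η ∈ Z, ∀ ζ ∈ Z, η ≠ ζ → Lt s' η ζ ∨ Lt s' ζ η := by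
  obtain ⟨f, hf, hinj⟩ := exists_inj s Z
  obtain ⟨s', hs, -, h⟩ := exists_sep hf Z
  refine ⟨s', hs, fun η hη ζ hζ hne => ?_⟩
  rcases lt_trichotomy (f η) (f ζ) with h1 | h1 | h1
  · exact Or.inl (h η hη ζ hζ h1)
  · exact absurd (hinj hη hζ h1) hne
  · exact Or.inr (h ζ hζ η hη h1)

end SR

end Pool.Agent.H90.Mx
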