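import Pool.Agent.H90.Mx.CutN
import Pool.Agent.H90.Mx.SRealSep

/-!
# The generic reals are pairwise distinct (module CUTI)

* `inj_xN`: if `η ≠ ζ` and `x = x_η = x_ζ`, some `p ∈ G` forces `xN ρ η = xN ρ ζ` (`Fc.truth` with `Dfn.eq`);
  by `SR.exists_decide` some `q ≤ p` has `Lt η ζ` or `Lt ζ η`; a generic `g' ∋ q` with the names
  `onN ω`, `ltN` denoted contradicts `lt_xN`.
-/

set_option autoImplicit false

namespace Pool.Agent.H90.Mx

open Frc Ordinal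
open Pool.Agent.H90.SN (Om)

variable {P : Type} [PartialOrder P] [OrderTop P] {ρ : P → SR} {g : Gen P}

theorem inj_xN (hρ : RealPart ρ) (g : Gen P) (η ζ : Om) (x : g.M) (hx : g.Den (xN ρ η) x)
    (hy : g.Den (xN ρ ζ) x) : η = ζ := by
  by_contra hne
  obtain ⟨p, hp, hf⟩ := (Fc.truth (v := ![xN ρ η, xN ρ ζ]) (a := ![x, x])
    (R := fun _ _ v => v 0 = v 1) (Dfn.eq 0 1)
    (by
      intro i
      fin_cases i
      · exact hx
      · exact hy)).1 rfl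
  obtain ⟨s, hs, h⟩ := SR.exists_decide (ρ p) {η, ζ}
  obtain ⟨q, hq, hqs⟩ := hρ.ext p hs
  obtain ⟨g', hg', a, ha⟩ := exists_gen_fin q ![onN P ω, xN ρ η, xN ρ ζ]
  have e0 : g'.Den (onN P ω) (a 0) := ha 0
  have e1 : g'.Den (xN ρ η) (a 1) := ha 1
  have e2 : g'.Den (xN ρ ζ) (a 2) := ha 2
  have heq : a 1 = a 2 := hf g' (g'.up q hg' p hq) ![a 1, a 2] (by
    intro i
    fin_cases i
    · exact e1
    · exact e2)
  have hη : η ∈ ({η, ζ} : Finset Om) := by simp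
  have hζ : ζ ∈ ({η, ζ} : Finset Om) := by simp
  rcases h η hη ζ hζ hne with h1 | h1
  · exact (lt_xN hρ e0 e1 e2 hg' (by rw [hqs]; exact h1)).2 heq
  · exact (lt_xN hρ e0 e2 e1 hg' (by rw [hqs]; exact h1)).2 heq.symm

end Pool.Agent.H90.Mx
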