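import Pool.Agent.H90.Mx.Inst

/-!
# Density for the Aronszajn line: totality (modules VALUE and DENSA)

This file contains the combinatorial part `exists_value` (module VALUE); `GoodA.total` is in
`DensA.lean` (module DENSA).

Notation: `q` a condition, `A` the finite set of all pairs `(a', k')` with `At q i a' k'`, `φ` a realizer of
the tree part.  For distinct `α, β` let `Δ(α, β)` be the first difference, `α < β` the order given by `φ`.
For `x : Om` let `E(x)` be the greatest element of `E` which is `≤ x` (it exists as `E` is closed; the least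
element of `Om` is in `E`, by `closed`).

We may assume that `a` is not a first component in `A`, and (extending the tree part, `SE.exists_decide`,
`CP.exists_static`) that all pairs of distinct ordinals among `a` and the ordinals in `A` are decided, so
`Tri α β δ ↔ Dl φ α β δ` for these.  `k'` will always be a new value with `Kin i k'`, then `(a, k')` is added
by `CP.exists_addA`.

* `A = ∅`: let `γ1` be the least nonzero element of `E` (`unb`).  By `ne` and `up` (with `γ = γ1`, `ξ` the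
  least element of `Om`) there are `r ≤ q`, `k' < γ1` with `Kin i k' r`.  Use `thin`.  `UnaA`: an element
  `γ ≤ k'` of `E` is the least element of `Om`.
* `A ≠ ∅`.  Let `γ0` be the greatest of all `E(Δ(a, x.1))`, `x ∈ A`, `I0 = {x ∈ A | γ0 ≤ Δ(a, x.1)}`,
  nonempty, and `γ⁺` the least element of `E` larger than `γ0`.  So `Δ(a, x.1) < γ⁺` for all `x ∈ A`,
  and `γ0 ≤ a`.
  (O) For `z ∈ A \ I0` and `x ∈ I0`: `Δ(x.1, z.1) = Δ(a, z.1) < γ0`, `a` and `x.1` are on the same side of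
  `z.1` (`Dl.congr_left`, ...).
  1. Some `x ∈ I0` has `x.2 < γ0`.  Add `(a, x.2)`.  `UnaA`: `γ ≤ x.2` gives `γ ≤ γ0 ≤ a`.  `BinA` with
     `z ∈ I0`: `Δ(x.1, z.1) ≥ γ0` (if `x.1 ≠ z.1`), so `Δ(x.2, z.2) ≥ γ0` is impossible (it is `≤ x.2 < γ0`),
     so by `BinA` for `x, z` we have `z.2 = x.2`; first alternative of `Lk`: `γ ≤ x.2 → γ ≤ γ0 ≤ Δ(a, z.1)`.
     `BinA` with `z ∈ A \ I0`: by (O) the same statement as `BinA` for `x, z`.
  2. All `x ∈ I0` have `γ0 ≤ x.2`.  Call `k'` suitable if `k' < γ⁺` and for all `x ∈ I0`: `k' = x.2`, or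
     `Δ(k', x.2) ≥ γ0` and `k', x.2` are in the same order as `a, x.1`.  Claim: if `k'` is
     suitable then `(a, k')` can be added.  `UnaA`: `γ ≤ k' < γ⁺`, `γ ∈ E` gives `γ ≤ γ0 ≤ a`.  `BinA` with
     `x ∈ I0`: if `k' = x.2`: `γ ≤ k' → γ ≤ γ0 ≤ Δ(a, x.1)`.  Otherwise `γ0 ≤ Δ(a, x.1), Δ(k', x.2) < γ⁺`
     (`Δ(k', x.2) ≤ k' < γ⁺`), so for `γ ∈ E`: `γ ≤ Δ(a, x.1) ↔ γ ≤ γ0 ↔ γ ≤ Δ(k', x.2)`.
     `BinA` with `z ∈ A \ I0`: fix `x ∈ I0`.  `x.2 ≠ z.2`, as otherwise (`BinA` for `x, z`) `γ0 ≤ x.2` would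
     give `γ0 ≤ Δ(x.1, z.1)`, contradicting (O).  So `Δ(x.2, z.2)` is below `γ0` (it is
     `E`-equivalent to `Δ(x.1, z.1) < γ0`).  As `k' = x.2` or `Δ(k', x.2) ≥ γ0`,
     `Δ(k', z.2) = Δ(x.2, z.2)`, same side; so `BinA` for `(a, k'), z` is the same as for `x, z`.
     Existence of a suitable `k'`: for `x, z ∈ I0`, `x.1 ≠ z.1`, we have `Δ(x.1, z.1) ≥ γ0`, so `x.2 = z.2` or
     (`Δ(x.2, z.2) ≥ γ0` and the same order) `(*)`.  Let `x` be the element of `I0` with the greatest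
     `x.1 < a` (if any), `y` the one with the least `y.1 > a` (if any).
     - If `x` exists and `x.2 < γ⁺` then `k' = x.2` is suitable (by `(*)`); the same for `y`.
     - Both exist, `x.2, y.2 ≥ γ⁺`.  `x.1 < a < y.1`, `Δ(x.1, y.1) = min(Δ(x.1, a), Δ(a, y.1)) < γ⁺`
       (`Dl.trans`), so `x.2 ≠ y.2` (otherwise `γ⁺ ≤ x.2` gives `γ⁺ ≤ Δ(x.1, y.1)`), so `x.2 < y.2` and
       `δ' := Δ(x.2, y.2)` satisfies `γ0 ≤ δ' < γ⁺`.  By `lim` there is `ξ` with `δ' < ξ < γ⁺`.  By `up`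
       for `k = x.2`, `γ⁺`, `ξ` there are `r ≤ q`, `k' < γ⁺`, `Kin i k' r`, `Tri (x.2) k' δ`, `ξ ≤ δ`
       (`k' ≠ x.2` as `x.2 ≥ γ⁺`).  So `x.2 < k'`, and `k'`, `x.2` agree up to `δ'`, so `k' < y.2`,
       `Δ(k', y.2) = δ'`.  `k'` is suitable (use `(*)` for the others).  Use `thin` to get rid of new atoms;
       note that one should take a realizer of the new tree part.
     - Only `x` exists, `x.2 ≥ γ⁺`: `up` for `k = x.2`, `γ = γ⁺`, `ξ = γ0`.  Only `y` exists: `dn`.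

Suggestion: prove a purely combinatorial lemma about `φ` (`Row φ`), a finite set `A : Finset (Om × Om)`
with pairwise `BinA E (Dl φ)`, and `a`; conclusion: either some `k'` which is a second component of `A` is
such that `(a, k')` satisfies `UnaA` and `BinA E (Dl φ)` with all elements of `A`, or there are
`x ∈ A`, `γ⁺ ∈ E`, `ξ < γ⁺`, `γ⁺ ≤ x.2` such that every `k' < γ⁺` with `Dl φ (x.2) k' δ`, `ξ ≤ δ` is such,
or the same with `Dl φ k' (x.2) δ`; apply it to the realizer of the *final* condition (the hypotheses for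
`A` are inherited by stronger conditions, and `Dl φ` agrees with `Tri` on decided pairs; to have the pairs
with `k'` decided use `SE.exists_all` once more before adding the atom).
-/

set_option autoImplicit false

namespace Pool.Agent.H90.Mx

open Pool.Agent.H90.SN

variable {E : Set Om}

namespace Val

/-! ### Agreement below an ordinal -/

/-- the sequences of `α` and `β` agree below `γ` -/
def Ag (f : Om → Om → ℤ) (γ α β : Om) : Prop := ∀ ξ < γ, f α ξ = f β ξ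

/-- the order given by `f` -/
def Lf (f : Om → Om → ℤ) (α β : Om) : Prop := ∃ δ, Dl f α β δ

/-- `α, β` and `α', β'` are in the same order -/
def Same (L : Om → Om → Prop) (α β α' β' : Om) : Prop := (L α β ∧ L α' β') ∨ (L β α ∧ L β' α')

section

variable {f : Om → Om → ℤ} {α β γ δ α' β' γ' : Om}

theorem Ag.symm (h : Ag f γ α β) : Ag f γ β α := fun ξ hξ => (h ξ hξ).symm

theorem Ag.trans (h : Ag f γ α β) (h' : Ag f γ β α') : Ag f γ α α' :=
  fun ξ hξ => (h ξ hξ).trans (h' ξ hξ)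

theorem Ag.mono (h : Ag f γ α β) (h' : γ' ≤ γ) : Ag f γ' α β :=
  fun ξ hξ => h ξ (lt_of_lt_of_le hξ h')

theorem Ag.refl (f : Om → Om → ℤ) (γ α : Om) : Ag f γ α α := fun _ _ => rfl

theorem dl_ag_iff (h : Dl f α β δ) : Ag f γ α β ↔ γ ≤ δ := by
  constructor
  · intro h1
    by_contra hcon
    push Not at hcon
    exact h.2.ne (h1 δ hcon)
  · intro h1 ξ hξ
    exact h.1 ξ (lt_of_lt_of_le hξ h1)

theorem dl_ag_iff' (h : Dl f β α δ) : Ag f γ α β ↔ γ ≤ δ := by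
  rw [← dl_ag_iff h]
  exact ⟨Ag.symm, Ag.symm⟩

/-- agreement beyond the length of one of the sequences -/
theorem Ag.eq (hf : Row f) (h : Ag f γ α β) (h' : α < γ) : α = β := by
  have h1 := h α h'
  rw [(hf α α).2 le_rfl] at h1
  have h2 : β ≤ α := (hf β α).1 h1.symm
  have h3 := h β (lt_of_le_of_lt h2 h')
  rw [(hf β β).2 le_rfl] at h3
  exact le_antisymm ((hf α β).1 h3) h2

theorem Lf.ne (h : Lf f α β) : α ≠ β := by
  obtain ⟨δ, h⟩ := h
  exact h.ne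

theorem Lf.trans (h : Lf f α β) (h' : Lf f β γ) : Lf f α γ := by
  obtain ⟨δ, h⟩ := h
  obtain ⟨δ', h'⟩ := h'
  exact ⟨_, h.trans h'⟩

theorem Lf.asymm (h : Lf f α β) (h' : Lf f β α) : False := by
  obtain ⟨δ, h⟩ := h
  obtain ⟨δ', h'⟩ := h'
  exact h.asymm h'

theorem Lf.total (hf : Row f) (h : α ≠ β) : Lf f α β ∨ Lf f β α := by
  obtain ⟨δ, h1 | h1⟩ := exists_dl hf h
  · exact Or.inl ⟨δ, h1⟩
  · exact Or.inr ⟨δ, h1⟩

/-- convexity -/
theorem Lf.convex (h : Lf f α β) (h' : Lf f β α') (hg : Ag f γ α α') : Ag f γ α β := by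
  obtain ⟨δ, h⟩ := h
  obtain ⟨δ', h'⟩ := h'
  rw [dl_ag_iff (h.trans h')] at hg
  rw [dl_ag_iff h]
  exact hg.trans (min_le_left _ _)

theorem Lf.congr_left (h : Lf f α β) (hn : ¬ Ag f γ α β) (hg : Ag f γ α' α) : Lf f α' β := by
  obtain ⟨δ, h⟩ := h
  rw [dl_ag_iff h] at hn
  push Not at hn
  exact ⟨δ, h.congr_left fun ξ hξ => hg ξ (lt_of_le_of_lt hξ hn)⟩

theorem Lf.congr_right (h : Lf f β α) (hn : ¬ Ag f γ α β) (hg : Ag f γ α' α) : Lf f β α' := by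
  obtain ⟨δ, h⟩ := h
  rw [dl_ag_iff' h] at hn
  push Not at hn
  exact ⟨δ, h.congr_right fun ξ hξ => hg ξ (lt_of_le_of_lt hξ hn)⟩

/-- the observation (O) -/
theorem ag_congr {η : Om} (hg : Ag f γ α' α) (hn : ¬ Ag f γ α β) :
    Ag f η α' β ↔ Ag f η α β := by
  rcases le_total η γ with h | h
  · exact ⟨fun h1 => (hg.mono h).symm.trans h1, fun h1 => (hg.mono h).trans h1⟩
  · exact ⟨fun h1 => absurd (hg.symm.trans (h1.mono h)) hn, fun h1 => absurd (h1.mono h) hn⟩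

theorem same_congr {x y : Om} (h : Same (Lf f) α β x y) (hn : ¬ Ag f γ α β) (hg : Ag f γ α' α) :
    Same (Lf f) α' β x y := by
  rcases h with ⟨h1, h2⟩ | ⟨h1, h2⟩
  · exact Or.inl ⟨h1.congr_left hn hg, h2⟩
  · exact Or.inr ⟨h1.congr_right hn hg, h2⟩

theorem Same.swap {L : Om → Om → Prop} {x y : Om} (h : Same L α β x y) : Same L x y α β := by
  rcases h with ⟨h1, h2⟩ | ⟨h1, h2⟩
  · exact Or.inl ⟨h2, h1⟩
  · exact Or.inr ⟨h2, h1⟩

theorem binA_iff (hf : Row f) {x y : Om × Om} : BinA E (Dl f) x y ↔ x = y ∨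
    (x.2 = y.2 ∧ x.1 ≠ y.1 ∧ ∀ γ ∈ E, γ ≤ x.2 → Ag f γ x.1 y.1) ∨
    (Same (Lf f) x.1 y.1 x.2 y.2 ∧ ∀ γ ∈ E, (Ag f γ x.1 y.1 ↔ Ag f γ x.2 y.2)) := by
  constructor
  · rintro (h | ⟨δ, h1, ⟨h2, h3⟩ | ⟨δ', h2, h3⟩⟩ | ⟨δ, h1, ⟨h2, h3⟩ | ⟨δ', h2, h3⟩⟩)
    · exact Or.inl h
    · exact Or.inr (Or.inl ⟨h2, h1.ne, fun γ hγ hx => (dl_ag_iff h1).2 (h3 γ hγ hx)⟩)
    · exact Or.inr (Or.inr ⟨Or.inl ⟨⟨δ, h1⟩, ⟨δ', h2⟩⟩, fun γ hγ =>
        (dl_ag_iff h1).trans ((h3 γ hγ).trans (dl_ag_iff h2).symm)⟩)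
    · exact Or.inr (Or.inl ⟨h2.symm, h1.ne.symm, fun γ hγ hx =>
        (dl_ag_iff' h1).2 (h3 γ hγ (h2 ▸ hx))⟩)
    · exact Or.inr (Or.inr ⟨Or.inr ⟨⟨δ, h1⟩, ⟨δ', h2⟩⟩, fun γ hγ =>
        (dl_ag_iff' h1).trans ((h3 γ hγ).trans (dl_ag_iff' h2).symm)⟩)
  · rintro (h | ⟨h2, h1, h3⟩ | ⟨⟨⟨δ, h1⟩, ⟨δ', h2⟩⟩ | ⟨⟨δ, h1⟩, ⟨δ', h2⟩⟩, h3⟩)
    · exact Or.inl h
    · obtain ⟨δ, h4 | h4⟩ := exists_dl hf h1
      · exact Or.inr (Or.inl ⟨δ, h4, Or.inl ⟨h2, fun γ hγ hx => (dl_ag_iff h4).1 (h3 γ hγ hx)⟩⟩)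
      · exact Or.inr (Or.inr ⟨δ, h4, Or.inl ⟨h2.symm, fun γ hγ hx =>
          (dl_ag_iff' h4).1 (h3 γ hγ (h2 ▸ hx))⟩⟩)
    · exact Or.inr (Or.inl ⟨δ, h1, Or.inr ⟨δ', h2, fun γ hγ =>
        (dl_ag_iff h1).symm.trans ((h3 γ hγ).trans (dl_ag_iff h2))⟩⟩)
    · exact Or.inr (Or.inr ⟨δ, h1, Or.inr ⟨δ', h2, fun γ hγ =>
        (dl_ag_iff' h1).symm.trans ((h3 γ hγ).trans (dl_ag_iff' h2))⟩⟩)

end

/-! ### The greatest element of the club below an ordinal and its successor -/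

theorem exists_blk (hE : IsCl E) (m : Om) : ∃ γ0 ∈ E, ∃ γ1 ∈ E, γ0 ≤ m ∧ m < γ1 ∧ γ0 < γ1 ∧
    ∀ γ ∈ E, γ < γ1 → γ ≤ γ0 := by
  have hwf : WellFounded ((· < ·) : Om → Om → Prop) := IsWellFounded.wf
  obtain ⟨γ0, h0, hmin⟩ := hwf.has_min {b | ∀ γ ∈ E, γ ≤ m → γ ≤ b} ⟨m, fun γ _ h => h⟩
  have hle : γ0 ≤ m := by
    by_contra hcon
    push Not at hcon
    exact hmin m (fun γ _ h => h) hcon
  have h0E : γ0 ∈ E := by
    by_contra hn
    refine hn (hE.closed γ0 fun b hb => ?_)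
    have h1 : ¬ ∀ γ ∈ E, γ ≤ m → γ ≤ b := fun h2 => hmin b h2 hb
    push Not at h1
    obtain ⟨γ', h2, h3, h4⟩ := h1
    refine ⟨γ', h2, h4, lt_of_le_of_ne (h0 γ' h2 h3) ?_⟩
    rintro rfl
    exact hn h2
  obtain ⟨γ1, ⟨h1E, h1⟩, hmin1⟩ := hwf.has_min {γ | γ ∈ E ∧ γ0 < γ} (by
    obtain ⟨γ, h1, h2⟩ := hE.unb γ0
    exact ⟨γ, h1, h2⟩)
  refine ⟨γ0, h0E, γ1, h1E, hle, ?_, h1, fun γ hγ h2 => ?_⟩
  · by_contra hcon
    push Not at hcon
    exact absurd (h0 γ1 h1E hcon) (not_le.2 h1)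
  · by_contra hcon
    push Not at hcon
    exact hmin1 γ ⟨hγ, hcon⟩ h2

/-! ### Suitable values -/

/-- `k'` is suitable (given the finite set `A` and the new point `a`) -/
def Suit (L : Om → Om → Prop) (f : Om → Om → ℤ) (A : Finset (Om × Om)) (a γ0 k : Om) : Prop :=
  ∀ x ∈ A, Ag f γ0 a x.1 → k = x.2 ∨ (Ag f γ0 k x.2 ∧ Same L a x.1 k x.2)

theorem Suit.bin {f : Om → Om → ℤ} (hf : Row f) {A : Finset (Om × Om)} {a γ0 γ1 k : Om}
    (h0 : γ0 ∈ E) (h1 : γ1 ∈ E) (hsucc : ∀ γ ∈ E, γ < γ1 → γ ≤ γ0)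
    (hA : ∀ x ∈ A, ∀ y ∈ A, BinA E (Dl f) x y) (ha : ∀ x ∈ A, x.1 ≠ a) (h0a : γ0 ≤ a)
    (hlt : ∀ x ∈ A, ¬ Ag f γ1 a x.1) (hge : ∀ x ∈ A, Ag f γ0 a x.1 → γ0 ≤ x.2)
    (hex : ∃ x ∈ A, Ag f γ0 a x.1) (hk : k < γ1) (hs : Suit (Lf f) f A a γ0 k) :
    UnaA E (a, k) ∧ ∀ y ∈ A, BinA E (Dl f) (a, k) y := by
  refine ⟨fun γ hγ hle => (hsucc γ hγ (lt_of_le_of_lt hle hk)).trans h0a, fun z hz => ?_⟩
  rw [binA_iff hf]
  right
  by_cases hzI : Ag f γ0 a z.1
  · rcases hs z hz hzI with h2 | ⟨h2, h3⟩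
    · left
      exact ⟨h2, (ha z hz).symm, fun γ hγ hle =>
        hzI.mono (hsucc γ hγ (lt_of_le_of_lt hle hk))⟩
    · right
      refine ⟨h3, fun γ hγ => ?_⟩
      rcases le_or_gt γ γ0 with h4 | h4
      · exact ⟨fun _ => h2.mono h4, fun _ => hzI.mono h4⟩
      · have h5 : γ1 ≤ γ := by
          by_contra hcon
          push Not at hcon
          exact absurd (hsucc γ hγ hcon) (not_le.2 h4)
        refine ⟨fun h6 => absurd (h6.mono h5) (hlt z hz), fun h6 => ?_⟩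
        have h7 : k = z.2 := (h6.mono h5).eq hf hk
        exfalso
        rcases h3 with ⟨-, h8⟩ | ⟨-, h8⟩
        · exact h8.ne h7
        · exact h8.ne h7.symm
  · obtain ⟨x, hx, hxI⟩ := hex
    right
    have hnx : ¬ Ag f γ0 x.1 z.1 := fun h2 => hzI (hxI.trans h2)
    have hb := (binA_iff hf).1 (hA x hx z hz)
    rcases hb with h2 | ⟨h2, -, h4⟩ | ⟨h2, h3⟩
    · subst h2
      exact absurd hxI hzI
    · exact absurd (h4 γ0 h0 (hge x hx hxI)) hnx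
    · have hn2 : ¬ Ag f γ0 x.2 z.2 := fun h4 => hnx ((h3 γ0 h0).2 h4)
      have hkx : Ag f γ0 k x.2 := by
        rcases hs x hx hxI with h4 | ⟨h4, -⟩
        · rw [h4]
          exact Ag.refl _ _ _
        · exact h4
      refine ⟨?_, fun γ hγ => ?_⟩
      · exact (same_congr (same_congr h2 hnx hxI).swap hn2 hkx).swap
      · rw [ag_congr hxI hnx, ag_congr hkx hn2]
        exact h3 γ hγ

/-- a strict linear order (to use the symmetry) -/
structure Lin (L : Om → Om → Prop) : Prop where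
  trans : ∀ {α β γ : Om}, L α β → L β γ → L α γ
  asymm : ∀ {α β : Om}, L α β → L β α → False
  total : ∀ {α β : Om}, α ≠ β → L α β ∨ L β α

theorem lin_lf {f : Om → Om → ℤ} (hf : Row f) : Lin (Lf f) :=
  ⟨fun h h' => h.trans h', fun h h' => h.asymm h', fun h => Lf.total hf h⟩

theorem Lin.flip {L : Om → Om → Prop} (h : Lin L) : Lin (fun α β => L β α) :=
  ⟨fun h1 h2 => h.trans h2 h1, fun h1 h2 => h.asymm h2 h1, fun h1 => (h.total h1).symm⟩

theorem suit_flip {L : Om → Om → Prop} {f : Om → Om → ℤ} {A : Finset (Om × Om)} {a γ0 k : Om}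
    (h : Suit (fun α β => L β α) f A a γ0 k) : Suit L f A a γ0 k := by
  intro x hx hxI
  rcases h x hx hxI with h1 | ⟨h1, h2 | h2⟩
  · exact Or.inl h1
  · exact Or.inr ⟨h1, Or.inr h2⟩
  · exact Or.inr ⟨h1, Or.inl h2⟩

/-- the pairs in the block of the new point -/
def Star (L : Om → Om → Prop) (f : Om → Om → ℤ) (A : Finset (Om × Om)) (a γ0 : Om) : Prop :=
  ∀ x ∈ A, Ag f γ0 a x.1 → ∀ z ∈ A, Ag f γ0 a z.1 → x = z ∨ x.2 = z.2 ∨
    (Ag f γ0 x.2 z.2 ∧ Same L x.1 z.1 x.2 z.2)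

theorem star_flip {L : Om → Om → Prop} {f : Om → Om → ℤ} {A : Finset (Om × Om)} {a γ0 : Om}
    (h : Star L f A a γ0) : Star (fun α β => L β α) f A a γ0 := by
  intro x hx hxI z hz hzI
  rcases h x hx hxI z hz hzI with h1 | h1 | ⟨h1, h2 | h2⟩
  · exact Or.inl h1
  · exact Or.inr (Or.inl h1)
  · exact Or.inr (Or.inr ⟨h1, Or.inr h2⟩)
  · exact Or.inr (Or.inr ⟨h1, Or.inl h2⟩)

theorem star_lf {f : Om → Om → ℤ} (hf : Row f) {A : Finset (Om × Om)} {a γ0 : Om} (h0 : γ0 ∈ E)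
    (hA : ∀ x ∈ A, ∀ y ∈ A, BinA E (Dl f) x y) : Star (Lf f) f A a γ0 := by
  intro x hx hxI z hz hzI
  rcases (binA_iff hf).1 (hA x hx z hz) with h1 | ⟨h1, -, -⟩ | ⟨h1, h2⟩
  · exact Or.inl h1
  · exact Or.inr (Or.inl h1)
  · exact Or.inr (Or.inr ⟨(h2 γ0 h0).1 (hxI.symm.trans hzI), h1⟩)

/-- `x` is the greatest pair below the new point -/
def Top' (L : Om → Om → Prop) (f : Om → Om → ℤ) (A : Finset (Om × Om)) (a γ0 : Om)
    (x : Om × Om) : Prop :=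
  x ∈ A ∧ Ag f γ0 a x.1 ∧ L x.1 a ∧ ∀ z ∈ A, Ag f γ0 a z.1 → L z.1 a → z.1 = x.1 ∨ L z.1 x.1

theorem exists_top {L : Om → Om → Prop} (hL : Lin L) {f : Om → Om → ℤ} {A : Finset (Om × Om)}
    {a γ0 : Om} (h : ∃ x ∈ A, Ag f γ0 a x.1 ∧ L x.1 a) : ∃ x, Top' L f A a γ0 x := by
  classical
  have key : ∀ B : Finset (Om × Om), (∃ x ∈ B, Ag f γ0 a x.1 ∧ L x.1 a) →
      ∃ x, Top' L f B a γ0 x := by
    intro B
    induction B using Finset.induction_on with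
    | empty =>
      rintro ⟨x, hx, -⟩
      simp at hx
    | insert y B hy ih =>
      intro hB
      by_cases hB' : ∃ x ∈ B, Ag f γ0 a x.1 ∧ L x.1 a
      · obtain ⟨x, hx, hxI, hxa, hm⟩ := ih hB'
        by_cases hyI : Ag f γ0 a y.1 ∧ L y.1 a
        · by_cases hyx : y.1 = x.1 ∨ L y.1 x.1
          · refine ⟨x, Finset.mem_insert_of_mem hx, hxI, hxa, fun z hz h1 h2 => ?_⟩
            rcases Finset.mem_insert.1 hz with rfl | hz
            · exact hyx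
            · exact hm z hz h1 h2
          · push Not at hyx
            have hxy : L x.1 y.1 := (hL.total hyx.1).resolve_left hyx.2
            refine ⟨y, Finset.mem_insert_self _ _, hyI.1, hyI.2, fun z hz h1 h2 => ?_⟩
            rcases Finset.mem_insert.1 hz with rfl | hz
            · exact Or.inl rfl
            · rcases hm z hz h1 h2 with h3 | h3
              · rw [h3]
                exact Or.inr hxy
              · exact Or.inr (hL.trans h3 hxy)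
        · refine ⟨x, Finset.mem_insert_of_mem hx, hxI, hxa, fun z hz h1 h2 => ?_⟩
          rcases Finset.mem_insert.1 hz with rfl | hz
          · exact absurd ⟨h1, h2⟩ hyI
          · exact hm z hz h1 h2
      · obtain ⟨x, hx, hxI, hxa⟩ := hB
        rcases Finset.mem_insert.1 hx with rfl | hx
        · refine ⟨x, Finset.mem_insert_self _ _, hxI, hxa, fun z hz h1 h2 => ?_⟩
          rcases Finset.mem_insert.1 hz with rfl | hz
          · exact Or.inl rfl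
          · exact absurd ⟨z, hz, h1, h2⟩ hB'
        · exact absurd ⟨x, hx, hxI, hxa⟩ hB'
  exact key A h

/-- the second components below the new point -/
theorem Top'.below {L : Om → Om → Prop} (hL : Lin L) {f : Om → Om → ℤ} {A : Finset (Om × Om)}
    {a γ0 : Om} {x : Om × Om} (hx : Top' L f A a γ0 x) (hS : Star L f A a γ0) {z : Om × Om}
    (hz : z ∈ A) (hzI : Ag f γ0 a z.1) (hza : L z.1 a) : z.2 = x.2 ∨
      (Ag f γ0 z.2 x.2 ∧ L z.2 x.2) := by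
  obtain ⟨hxA, hxI, hxa, hm⟩ := hx
  rcases hS z hz hzI x hxA hxI with h1 | h1 | ⟨h1, ⟨-, h2⟩ | ⟨h2, h3⟩⟩
  · left
    rw [h1]
  · exact Or.inl h1
  · exact Or.inr ⟨h1, h2⟩
  · exfalso
    rcases hm z hz hzI hza with h4 | h4
    · rw [h4] at h2
      exact hL.asymm h2 h2
    · exact hL.asymm h2 h4

/-- the value of the greatest pair below the new point is suitable -/
theorem Top'.suit {L : Om → Om → Prop} (hL : Lin L) {f : Om → Om → ℤ} {A : Finset (Om × Om)}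
    {a γ0 : Om} {x : Om × Om} (hx : Top' L f A a γ0 x) (hS : Star L f A a γ0)
    (ha : ∀ x ∈ A, x.1 ≠ a) : Suit L f A a γ0 x.2 := by
  intro z hz hzI
  obtain ⟨hxA, hxI, hxa, hm⟩ := id hx
  rcases hL.total (ha z hz) with h1 | h1
  · rcases hx.below hL hS hz hzI h1 with h2 | ⟨h2, h3⟩
    · exact Or.inl h2.symm
    · exact Or.inr ⟨h2.symm, Or.inr ⟨h1, h3⟩⟩
  · rcases hS x hxA hxI z hz hzI with h2 | h2 | ⟨h2, ⟨-, h3⟩ | ⟨h3, -⟩⟩
    · left
      rw [h2]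
    · exact Or.inl h2
    · exact Or.inr ⟨h2, Or.inl ⟨h1, h3⟩⟩
    · exact absurd (hL.trans hxa h1) fun h4 => hL.asymm h3 h4

/-- a value slightly above the value of the greatest pair below the new point is suitable -/
theorem Top'.suit_above {L : Om → Om → Prop} (hL : Lin L) {f : Om → Om → ℤ}
    {A : Finset (Om × Om)}
    {a γ0 k : Om} {x : Om × Om} (hx : Top' L f A a γ0 x) (hS : Star L f A a γ0)
    (ha : ∀ x ∈ A, x.1 ≠ a) (hk : Ag f γ0 x.2 k) (hk' : L x.2 k)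
    (habove : ∀ z ∈ A, Ag f γ0 a z.1 → L a z.1 → L k z.2) : Suit L f A a γ0 k := by
  intro z hz hzI
  obtain ⟨hxA, hxI, hxa, hm⟩ := id hx
  rcases hL.total (ha z hz) with h1 | h1
  · rcases hx.below hL hS hz hzI h1 with h2 | ⟨h2, h3⟩
    · right
      rw [h2]
      exact ⟨hk.symm, Or.inr ⟨h1, hk'⟩⟩
    · exact Or.inr ⟨(h2.trans hk).symm, Or.inr ⟨h1, hL.trans h3 hk'⟩⟩
  · right
    refine ⟨?_, Or.inl ⟨h1, habove z hz hzI h1⟩⟩
    rcases hS x hxA hxI z hz hzI with h2 | h2 | ⟨h2, -⟩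
    · rw [← h2]
      exact hk.symm
    · rw [← h2]
      exact hk.symm
    · exact hk.symm.trans h2

/-! ### Transfer to an extension -/

/-- `g` decides the relevant pairs as `f` does -/
def Ext (f g : Om → Om → ℤ) (A : Finset (Om × Om)) (a : Om) : Prop :=
  ∀ α β δ, (∃ y ∈ A, α = y.1 ∨ α = y.2 ∨ α = a) → (∃ y ∈ A, β = y.1 ∨ β = y.2 ∨ β = a) →
    Dl f α β δ → Dl g α β δ

section

variable {f g : Om → Om → ℤ} {A : Finset (Om × Om)} {a : Om}

theorem Ext.ag (hf : Row f) (h : Ext f g A a) {α β γ : Om}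
    (hα : ∃ y ∈ A, α = y.1 ∨ α = y.2 ∨ α = a) (hβ : ∃ y ∈ A, β = y.1 ∨ β = y.2 ∨ β = a) :
    Ag g γ α β ↔ Ag f γ α β := by
  by_cases hne : α = β
  · subst hne
    exact ⟨fun _ => Ag.refl _ _ _, fun _ => Ag.refl _ _ _⟩
  · obtain ⟨δ, h1 | h1⟩ := exists_dl hf hne
    · rw [dl_ag_iff h1, dl_ag_iff (h α β δ hα hβ h1)]
    · rw [dl_ag_iff' h1, dl_ag_iff' (h β α δ hβ hα h1)]

theorem Ext.lf (h : Ext f g A a) {α β : Om}
    (hα : ∃ y ∈ A, α = y.1 ∨ α = y.2 ∨ α = a) (hβ : ∃ y ∈ A, β = y.1 ∨ β = y.2 ∨ β = a)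
    (hl : Lf f α β) : Lf g α β := by
  obtain ⟨δ, h1⟩ := hl
  exact ⟨δ, h α β δ hα hβ h1⟩

theorem Ext.lk (h : Ext f g A a) {x y : Om × Om} (hx : x ∈ A) (hy : y ∈ A)
    (hl : Lk E (Dl f) x y) : Lk E (Dl g) x y := by
  have h11 : ∀ z ∈ A, ∃ y ∈ A, z.1 = y.1 ∨ z.1 = y.2 ∨ z.1 = a := fun z hz =>
    ⟨z, hz, Or.inl rfl⟩
  have h22 : ∀ z ∈ A, ∃ y ∈ A, z.2 = y.1 ∨ z.2 = y.2 ∨ z.2 = a := fun z hz =>
    ⟨z, hz, Or.inr (Or.inl rfl)⟩
  obtain ⟨δ, h1, h2 | ⟨δ', h2, h3⟩⟩ := hl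
  · exact ⟨δ, h _ _ _ (h11 x hx) (h11 y hy) h1, Or.inl h2⟩
  · exact ⟨δ, h _ _ _ (h11 x hx) (h11 y hy) h1,
      Or.inr ⟨δ', h _ _ _ (h22 x hx) (h22 y hy) h2, h3⟩⟩

theorem Ext.bin (h : Ext f g A a) {x y : Om × Om} (hx : x ∈ A) (hy : y ∈ A)
    (hb : BinA E (Dl f) x y) : BinA E (Dl g) x y := by
  rcases hb with h1 | h1 | h1
  · exact Or.inl h1
  · exact Or.inr (Or.inl (h.lk hx hy h1))
  · exact Or.inr (Or.inr (h.lk hy hx h1))

end

end Val

open Val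

/-- the combinatorial part: what can be the value at a new point -/
theorem exists_value {f : Om → Om → ℤ} (hf : Row f) (hE : IsCl E) (A : Finset (Om × Om))
    (hne : A.Nonempty) (hu : ∀ x ∈ A, UnaA E x) (hA : ∀ x ∈ A, ∀ y ∈ A, BinA E (Dl f) x y) {a : Om}
    (ha : ∀ x ∈ A, x.1 ≠ a) :
    (∃ x ∈ A, UnaA E (a, x.2) ∧ ∀ y ∈ A, BinA E (Dl f) (a, x.2) y) ∨
    (∃ x ∈ A, ∃ γ ∈ E, γ ≤ x.2 ∧ ∃ ξ < γ,
      ((∀ g : Om → Om → ℤ, Row g → (∀ α β δ, (∃ y ∈ A, α = y.1 ∨ α = y.2 ∨ α = a) →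
          (∃ y ∈ A, β = y.1 ∨ β = y.2 ∨ β = a) → Dl f α β δ → Dl g α β δ) →
        ∀ k' < γ, ∀ δ, ξ ≤ δ → Dl g x.2 k' δ →
          UnaA E (a, k') ∧ ∀ y ∈ A, BinA E (Dl g) (a, k') y) ∨
      (∀ g : Om → Om → ℤ, Row g → (∀ α β δ, (∃ y ∈ A, α = y.1 ∨ α = y.2 ∨ α = a) →
          (∃ y ∈ A, β = y.1 ∨ β = y.2 ∨ β = a) → Dl f α β δ → Dl g α β δ) →
        ∀ k' < γ, ∀ δ, ξ ≤ δ → Dl g k' x.2 δ →
          UnaA E (a, k') ∧ ∀ y ∈ A, BinA E (Dl g) (a, k') y))) := by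
  classical
  -- the block of the new point
  obtain ⟨x0, hx0, hmax⟩ : ∃ x0 ∈ A, ∀ x ∈ A, ∀ γ, Ag f γ a x.1 → Ag f γ a x0.1 := by
    have key : ∀ B : Finset (Om × Om), B ⊆ A → B.Nonempty →
        ∃ x0 ∈ B, ∀ x ∈ B, ∀ γ, Ag f γ a x.1 → Ag f γ a x0.1 := by
      intro B
      induction B using Finset.induction_on with
      | empty =>
        rintro - ⟨x, hx⟩
        simp at hx
      | insert y B hy ih =>
        intro hBA _
        by_cases hB : B.Nonempty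
        · obtain ⟨x0, hx0, hm⟩ := ih ((Finset.subset_insert _ _).trans hBA) hB
          have hx0A : x0 ∈ A := hBA (Finset.mem_insert_of_mem hx0)
          have hyA : y ∈ A := hBA (Finset.mem_insert_self _ _)
          have hd : ∀ z ∈ A, ∃ δ, ∀ γ, Ag f γ a z.1 ↔ γ ≤ δ := by
            intro z hz
            obtain ⟨δ, h1 | h1⟩ := exists_dl hf (ha z hz)
            · exact ⟨δ, fun γ => dl_ag_iff' h1⟩
            · exact ⟨δ, fun γ => dl_ag_iff h1⟩
          obtain ⟨δ1, hδ1⟩ := hd x0 hx0A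
          obtain ⟨δ2, hδ2⟩ := hd y hyA
          rcases le_total δ2 δ1 with h | h
          · refine ⟨x0, Finset.mem_insert_of_mem hx0, fun x hx γ hg => ?_⟩
            rcases Finset.mem_insert.1 hx with rfl | hx
            · exact (hδ1 γ).2 (((hδ2 γ).1 hg).trans h)
            · exact hm x hx γ hg
          · refine ⟨y, Finset.mem_insert_self _ _, fun x hx γ hg => ?_⟩
            rcases Finset.mem_insert.1 hx with rfl | hx
            · exact hg
            · exact (hδ2 γ).2 (((hδ1 γ).1 (hm x hx γ hg)).trans h)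
        · refine ⟨y, Finset.mem_insert_self _ _, fun x hx γ hg => ?_⟩
          rcases Finset.mem_insert.1 hx with rfl | hx
          · exact hg
          · exact absurd ⟨x, hx⟩ hB
    exact key A (Finset.Subset.refl _) hne
  obtain ⟨m, hma, hm⟩ : ∃ m ≤ a, ∀ γ, Ag f γ a x0.1 ↔ γ ≤ m := by
    obtain ⟨δ, h1 | h1⟩ := exists_dl hf (ha x0 hx0)
    · exact ⟨δ, h1.le_right hf, fun γ => dl_ag_iff' h1⟩
    · exact ⟨δ, h1.le_left hf, fun γ => dl_ag_iff h1⟩
  obtain ⟨γ0, h0, γ1, h1, h0m, hm1, h01, hsucc⟩ := exists_blk hE m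
  have hlt : ∀ x ∈ A, ¬ Ag f γ1 a x.1 := by
    intro x hx h2
    exact absurd ((hm γ1).1 (hmax x hx γ1 h2)) (not_le.2 hm1)
  have h0a : γ0 ≤ a := h0m.trans hma
  have hx0I : Ag f γ0 a x0.1 := (hm γ0).2 h0m
  by_cases hcase : ∃ x ∈ A, Ag f γ0 a x.1 ∧ x.2 < γ0
  · -- case 1
    obtain ⟨x, hx, hxI, hx2⟩ := hcase
    refine Or.inl ⟨x, hx, fun γ _ hle => (hle.trans hx2.le).trans h0a, fun y hy => ?_⟩
    rw [binA_iff hf]
    right
    rcases (binA_iff hf).1 (hA x hx y hy) with h2 | ⟨h2, -, h3⟩ | ⟨h2, h3⟩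
    · subst h2
      exact Or.inl ⟨rfl, (ha x hx).symm, fun γ _ hle => hxI.mono (hle.trans hx2.le)⟩
    · exact Or.inl ⟨h2, (ha y hy).symm, fun γ hγ hle =>
        (hxI.mono (hle.trans hx2.le)).trans (h3 γ hγ hle)⟩
    · right
      have hnx2 : ¬ Ag f γ0 x.2 y.2 := by
        intro h4
        have h5 : x.2 = y.2 := h4.eq hf hx2
        rcases h2 with ⟨-, h6⟩ | ⟨-, h6⟩
        · exact h6.ne h5
        · exact h6.ne h5.symm
      have hnx : ¬ Ag f γ0 x.1 y.1 := fun h4 => hnx2 ((h3 γ0 h0).1 h4)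
      refine ⟨same_congr h2 hnx hxI, fun γ hγ => ?_⟩
      rw [ag_congr hxI hnx]
      exact h3 γ hγ
  · -- case 2
    push Not at hcase
    -- the claim for extensions
    have hmain : ∀ g : Om → Om → ℤ, Row g → Ext f g A a → ∀ k < γ1, Suit (Lf g) g A a γ0 k →
        UnaA E (a, k) ∧ ∀ y ∈ A, BinA E (Dl g) (a, k) y := by
      intro g hg hext k hk hs
      have haA : ∃ y ∈ A, a = y.1 ∨ a = y.2 ∨ a = a := ⟨x0, hx0, Or.inr (Or.inr rfl)⟩
      have h11 : ∀ z ∈ A, ∃ y ∈ A, z.1 = y.1 ∨ z.1 = y.2 ∨ z.1 = a := fun z hz =>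
        ⟨z, hz, Or.inl rfl⟩
      refine Suit.bin hg h0 h1 hsucc (fun x hx y hy => hext.bin hx hy (hA x hx y hy)) ha h0a
        (fun x hx => ?_) (fun x hx hxI => ?_) ⟨x0, hx0, ?_⟩ hk hs
      · rw [hext.ag hf haA (h11 x hx)]
        exact hlt x hx
      · rw [hext.ag hf haA (h11 x hx)] at hxI
        exact hcase x hx hxI
      · rw [hext.ag hf haA (h11 x0 hx0)]
        exact hx0I
    have hstar : Star (Lf f) f A a γ0 := star_lf hf h0 hA
    -- the transfer of the order facts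
    have haA : ∃ y ∈ A, a = y.1 ∨ a = y.2 ∨ a = a := ⟨x0, hx0, Or.inr (Or.inr rfl)⟩
    have h11 : ∀ z ∈ A, ∃ y ∈ A, z.1 = y.1 ∨ z.1 = y.2 ∨ z.1 = a := fun z hz =>
      ⟨z, hz, Or.inl rfl⟩
    have h22 : ∀ z ∈ A, ∃ y ∈ A, z.2 = y.1 ∨ z.2 = y.2 ∨ z.2 = a := fun z hz =>
      ⟨z, hz, Or.inr (Or.inl rfl)⟩
    have hlg : ∀ g : Om → Om → ℤ, Row g → Ext f g A a → ∀ {α β : Om},
        (∃ y ∈ A, α = y.1 ∨ α = y.2 ∨ α = a) → (∃ y ∈ A, β = y.1 ∨ β = y.2 ∨ β = a) →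
        Lf g α β → Lf f α β := by
      intro g hg hext α β hα hβ hl
      rcases Lf.total hf hl.ne with h2 | h2
      · exact h2
      · exact (hl.asymm (hext.lf hβ hα h2)).elim
    have htop : ∀ g : Om → Om → ℤ, Row g → Ext f g A a → ∀ x, Top' (Lf f) f A a γ0 x →
        Top' (Lf g) g A a γ0 x := by
      rintro g hg hext x ⟨hxA, hxI, hxa, hmx⟩
      refine ⟨hxA, (hext.ag hf haA (h11 x hxA)).2 hxI, hext.lf (h11 x hxA) haA hxa,
        fun z hz hzI hza => ?_⟩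
      rcases hmx z hz ((hext.ag hf haA (h11 z hz)).1 hzI) (hlg g hg hext (h11 z hz) haA hza)
        with h2 | h2
      · exact Or.inl h2
      · exact Or.inr (hext.lf (h11 z hz) (h11 x hxA) h2)
    have hbot : ∀ g : Om → Om → ℤ, Row g → Ext f g A a →
        ∀ x, Top' (fun α β => Lf f β α) f A a γ0 x →
        Top' (fun α β => Lf g β α) g A a γ0 x := by
      rintro g hg hext x ⟨hxA, hxI, hxa, hmx⟩
      refine ⟨hxA, (hext.ag hf haA (h11 x hxA)).2 hxI, hext.lf haA (h11 x hxA) hxa,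
        fun z hz hzI hza => ?_⟩
      rcases hmx z hz ((hext.ag hf haA (h11 z hz)).1 hzI) (hlg g hg hext haA (h11 z hz) hza)
        with h2 | h2
      · exact Or.inl h2
      · exact Or.inr (hext.lf (h11 x hxA) (h11 z hz) h2)
    have hextf : Ext f f A a := fun α β δ _ _ h => h
    -- the neighbours
    by_cases hbel : ∃ x ∈ A, Ag f γ0 a x.1 ∧ Lf f x.1 a
    · obtain ⟨x, hx⟩ := exists_top (lin_lf hf) hbel
      by_cases hx2 : x.2 < γ1
      · refine Or.inl ⟨x, hx.1, hmain f hf hextf x.2 hx2 (hx.suit (lin_lf hf) hstar ha)⟩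
      push Not at hx2
      by_cases habo : ∃ x ∈ A, Ag f γ0 a x.1 ∧ Lf f a x.1
      · obtain ⟨y, hy⟩ := exists_top (L := fun α β => Lf f β α) (lin_lf hf).flip habo
        by_cases hy2 : y.2 < γ1
        · refine Or.inl ⟨y, hy.1, hmain f hf hextf y.2 hy2 (suit_flip
            (hy.suit (lin_lf hf).flip (star_flip hstar) ha))⟩
        push Not at hy2
        -- both neighbours, far values
        have hxy : Lf f x.1 y.1 := hx.2.2.1.trans hy.2.2.1
        have hnag : ¬ Ag f γ1 x.1 y.1 := by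
          intro h2
          exact hlt x hx.1 (hx.2.2.1.convex hy.2.2.1 h2).symm
        obtain ⟨hxy2, hag0, hnag2⟩ : Lf f x.2 y.2 ∧ Ag f γ0 x.2 y.2 ∧ ¬ Ag f γ1 x.2 y.2 := by
          rcases (binA_iff hf).1 (hA x hx.1 y hy.1) with h2 | ⟨-, -, h3⟩ | ⟨h2, h3⟩
          · exact absurd (congrArg Prod.fst h2) hxy.ne
          · exact absurd (h3 γ1 h1 hx2) hnag
          · refine ⟨?_, (h3 γ0 h0).1 (hx.2.1.symm.trans hy.2.1), fun h4 => hnag ((h3 γ1 h1).2 h4)⟩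
            rcases h2 with ⟨-, h4⟩ | ⟨h4, -⟩
            · exact h4
            · exact (hxy.asymm h4).elim
        obtain ⟨δ', hδ'⟩ := hxy2
        have hd0 : γ0 ≤ δ' := (dl_ag_iff hδ').1 hag0
        have hd1 : δ' < γ1 := by
          rw [dl_ag_iff hδ'] at hnag2
          exact not_le.1 hnag2
        obtain ⟨ξ, hξ1, hξ2⟩ := hE.lim γ1 h1 δ' hd1
        refine Or.inr ⟨x, hx.1, γ1, h1, hx2, ξ, hξ2, Or.inl ?_⟩
        intro g hg hext k hk δ hδ hd
        replace hext : Ext f g A a := hext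
        refine hmain g hg hext k hk ?_
        have hgs : Star (Lf g) g A a γ0 :=
          star_lf hg h0 (fun x hx y hy => hext.bin hx hy (hA x hx y hy))
        have hgx := htop g hg hext x hx
        have hgy := hbot g hg hext y hy
        have hky : Lf g k y.2 := by
          have h2 : Dl g x.2 y.2 δ' := hext _ _ _ (h22 x hx.1) (h22 y hy.1) hδ'
          exact ⟨δ', h2.congr_left fun η hη =>
            (hd.1 η (lt_of_lt_of_le (lt_of_le_of_lt hη hξ1) hδ)).symm⟩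
        refine hgx.suit_above (lin_lf hg) hgs ha
          ((dl_ag_iff hd).2 (hd0.trans (hξ1.le.trans hδ))) ⟨δ, hd⟩ fun z hz hzI hza => ?_
        rcases hgy.below (lin_lf hg).flip (star_flip hgs) hz hzI hza with h2 | ⟨-, h2⟩
        · rw [h2]
          exact hky
        · exact hky.trans h2
      · -- only a neighbour below
        refine Or.inr ⟨x, hx.1, γ1, h1, hx2, γ0, h01, Or.inl ?_⟩
        intro g hg hext k hk δ hδ hd
        replace hext : Ext f g A a := hext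
        refine hmain g hg hext k hk ?_
        have hgs : Star (Lf g) g A a γ0 :=
          star_lf hg h0 (fun x hx y hy => hext.bin hx hy (hA x hx y hy))
        have hgx := htop g hg hext x hx
        refine hgx.suit_above (lin_lf hg) hgs ha ((dl_ag_iff hd).2 hδ) ⟨δ, hd⟩
          fun z hz hzI hza => ?_
        exact absurd ⟨z, hz, (hext.ag hf haA (h11 z hz)).1 hzI,
          hlg g hg hext haA (h11 z hz) hza⟩ habo
    · -- only a neighbour above
      have habo : ∃ x ∈ A, Ag f γ0 a x.1 ∧ Lf f a x.1 := by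
        refine ⟨x0, hx0, hx0I, ?_⟩
        rcases Lf.total hf (ha x0 hx0) with h2 | h2
        · exact absurd ⟨x0, hx0, hx0I, h2⟩ hbel
        · exact h2
      obtain ⟨y, hy⟩ := exists_top (L := fun α β => Lf f β α) (lin_lf hf).flip habo
      by_cases hy2 : y.2 < γ1
      · refine Or.inl ⟨y, hy.1, hmain f hf hextf y.2 hy2 (suit_flip
          (hy.suit (lin_lf hf).flip (star_flip hstar) ha))⟩
      push Not at hy2
      refine Or.inr ⟨y, hy.1, γ1, h1, hy2, γ0, h01, Or.inr ?_⟩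
      intro g hg hext k hk δ hδ hd
      replace hext : Ext f g A a := hext
      refine hmain g hg hext k hk (suit_flip ?_)
      have hgs : Star (Lf g) g A a γ0 :=
        star_lf hg h0 (fun x hx y hy => hext.bin hx hy (hA x hx y hy))
      have hgy := hbot g hg hext y hy
      refine hgy.suit_above (lin_lf hg).flip (star_flip hgs) ha ((dl_ag_iff' hd).2 hδ) ⟨δ, hd⟩
        fun z hz hzI hza => ?_
      exact absurd ⟨z, hz, (hext.ag hf haA (h11 z hz)).1 hzI,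
        hlg g hg hext (h11 z hz) haA hza⟩ hbel

end Pool.Agent.H90.Mx
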