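import Pool.Agent.H90.Mx.Good
import Pool.Agent.H90.Mx.Value

/-!
# Density for the Aronszajn line: totality (module DENSA)

The outline of the proof is in the header of `Value.lean`; the combinatorial part is `exists_value`.
Let `A` be the finite set of all pairs `(a', k')` with `At q i a' k'` (`CP.finite_at`).  If `a` is a first
component take `r = q`.  Extend the tree part of `q` (`SE.exists_decide`, `CP.exists_static`; the atoms
stay the same) to get `q1` which decides all pairs of distinct ordinals among `a` and the ordinals in `A`;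
let `f` be a realizer of `q1.t`.  So for these `Tri α β δ ↔ Dl f α β δ`.
* `A = ∅`: see the header of `Value.lean`.
* `A ≠ ∅`: `exists_value`; the hypotheses are `At.unaA`, `At.binA` (`BinA.mono`).  In the first case add
  `(a, x.2)` (`At.kin`; `BinA.mono` can not be used for `Dl f → Tri`, since this holds only for the ordinals
  concerned; unfold `BinA`, `Lk`).  In the second case (`γ`, `ξ`, first alternative) apply `GoodA.up` to
  `k = x.2` (`ξ < γ ≤ x.2`): `r ≤ q1`, `k' < γ`, `Kin i k' r`, and `k' = x.2` is impossible, so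
  `Tri x.2 k' δ` in `r`, `ξ ≤ δ`.  Replace `r` by `r'` from `thin` (atoms of index `i`: only those of `q1`,
  that is `A`; the same tree part), then extend the tree part by `SE.exists_all` for a realizer `g` of `r'.t`
  and the set of `a`, `k'` and the ordinals in `A`: `r''`, `g` is a realizer of `r''.t`, and
  `Dl g α β δ → Tri α β δ` in `r''` for these.  `Dl f α β δ → Dl g α β δ` for the ordinals of `A` and `a` since
  these pairs are decided by `q1`.  Add `(a, k')` to `r''`.  The second alternative: `GoodA.dn`.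
-/

set_option autoImplicit false

namespace Pool.Agent.H90.Mx

open Pool.Agent.H90.SN

variable {i : CI} {E : Set Om} {p : CP} {φ : Om → CP → Prop}

theorem At.funA {q : CP} {a k k' : Om} (hi : kd i = .A E) (h : At q i a k) (h' : At q i a k') :
    k = k' := by
  rcases h.binA h' hi with h1 | ⟨δ, h1, -⟩ | ⟨δ, h1, -⟩
  · exact (Prod.mk.inj h1).2
  · exact absurd rfl h1.ne
  · exact absurd rfl h1.ne

theorem At.monoA {q : CP} {a k a' k' δ : Om} (hi : kd i = .A E) (h : At q i a k)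
    (h' : At q i a' k') (hlt : q.t.Tri a a' δ) : k = k' ∨ ∃ δ', q.t.Tri k k' δ' := by
  rcases h.binA h' hi with h1 | ⟨δ1, h1, h2 | ⟨δ', h2, -⟩⟩ | ⟨δ1, h1, h2⟩
  · exact Or.inl (Prod.mk.inj h1).2
  · exact Or.inl h2.1
  · exact Or.inr ⟨δ', h2⟩
  · exact absurd h1 (fun h3 => hlt.asymm h3)

/-- the finite set of atoms of index `i` -/
theorem CP.finite_atA (p : CP) (i : CI) : ∃ A : Finset (Om × Om), ∀ a k, At p i a k ↔ (a, k) ∈ A := by
  classical
  obtain ⟨A, hA⟩ := p.finite_at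
  refine ⟨(A.filter (fun x => x.1 = i)).image (fun x => x.2), fun a k => ?_⟩
  rw [hA, Finset.mem_image]
  constructor
  · intro h
    exact ⟨(i, a, k), Finset.mem_filter.2 ⟨h, rfl⟩, rfl⟩
  · rintro ⟨⟨j, b⟩, h, rfl⟩
    obtain ⟨h1, h2⟩ := Finset.mem_filter.1 h
    have h3 : j = i := h2
    subst h3
    exact h1

/-- transfer of `BinA` from a realizer to the condition -/
theorem BinA.toTri {g : Om → Om → ℤ} {t : SE} {Z : Finset Om}
    (hall : ∀ α ∈ Z, ∀ β ∈ Z, ∀ δ, Dl g α β δ → t.Tri α β δ) {x y : Om × Om}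
    (hx1 : x.1 ∈ Z) (hx2 : x.2 ∈ Z) (hy1 : y.1 ∈ Z) (hy2 : y.2 ∈ Z) (h : BinA E (Dl g) x y) :
    BinA E t.Tri x y := by
  rcases h with h | ⟨δ, h1, h2 | ⟨δ', h2, h3⟩⟩ | ⟨δ, h1, h2 | ⟨δ', h2, h3⟩⟩
  · exact Or.inl h
  · exact Or.inr (Or.inl ⟨δ, hall _ hx1 _ hy1 _ h1, Or.inl h2⟩)
  · exact Or.inr (Or.inl ⟨δ, hall _ hx1 _ hy1 _ h1, Or.inr ⟨δ', hall _ hx2 _ hy2 _ h2, h3⟩⟩)
  · exact Or.inr (Or.inr ⟨δ, hall _ hy1 _ hx1 _ h1, Or.inl h2⟩)
  · exact Or.inr (Or.inr ⟨δ, hall _ hy1 _ hx1 _ h1, Or.inr ⟨δ', hall _ hy2 _ hx2 _ h2, h3⟩⟩)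

theorem GoodA.total (h : GoodA i E p φ) : ∀ q ≤ p, ∀ a, ∃ r ≤ q, ∃ k, At r i a k := by
  classical
  intro q hq a
  by_cases hex : ∃ k, At q i a k
  · obtain ⟨k, hk⟩ := hex
    exact ⟨q, le_rfl, k, hk⟩
  obtain ⟨A, hA⟩ := q.finite_atA i
  rcases A.eq_empty_or_nonempty with rfl | hne
  · -- no atoms
    have hwf : WellFounded ((· < ·) : Om → Om → Prop) := IsWellFounded.wf
    obtain ⟨m, -, hm⟩ := hwf.has_min (Set.univ : Set Om) ⟨a, trivial⟩
    have hm' : ∀ x : Om, m ≤ x := fun x => not_lt.1 (hm x trivial)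
    obtain ⟨γ1, ⟨hγ1, hmγ1⟩, hmin⟩ := hwf.has_min {γ | γ ∈ E ∧ m < γ} (h.cl.unb m)
    obtain ⟨r0, hr0, k, hk⟩ := h.ne q hq
    obtain ⟨r, hr, k', hk', hkin, -⟩ := h.up r0 k hk γ1 hγ1 m hmγ1 (hm' k)
    obtain ⟨r', h1, h2, h3, h4, h5, h6⟩ := h.thin q r (hr.trans hr0)
    obtain ⟨s, hs, hat⟩ := r'.exists_addA h.kd h.cl (a := a) (k := k') (by
      intro γ hγ hγk
      have h7 : ¬ m < γ := fun h7 => hmin γ ⟨hγ, h7⟩ (lt_of_le_of_lt hγk hk')
      exact (not_lt.1 h7).trans (hm' a)) (h6 k' hkin) (by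
      intro a' k'' hat
      have := (hA _ _).1 (h5 _ _ hat)
      simp at this)
    exact ⟨s, hs.trans h2, k', hat⟩
  set Z : Finset Om := insert a (A.image Prod.fst ∪ A.image Prod.snd) with hZ
  obtain ⟨s', hs', hdec⟩ := SE.exists_decide q.t Z
  obtain ⟨q1, hq1, -, hq1t, hat⟩ := q.exists_static (le_refl q.r) hs'
  have hdec1 : ∀ α ∈ Z, ∀ β ∈ Z, α ≠ β → ∃ δ, q1.t.Tri α β δ ∨ q1.t.Tri β α δ := by
    rw [hq1t]
    exact hdec
  have haZ : a ∈ Z := Finset.mem_insert_self _ _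
  have hZ1 : ∀ x ∈ A, x.1 ∈ Z := fun x hx => Finset.mem_insert_of_mem
    (Finset.mem_union_left _ (Finset.mem_image_of_mem _ hx))
  have hZ2 : ∀ x ∈ A, x.2 ∈ Z := fun x hx => Finset.mem_insert_of_mem
    (Finset.mem_union_right _ (Finset.mem_image_of_mem _ hx))
  have hmemA : ∀ x ∈ A, At q1 i x.1 x.2 := fun x hx => (hat _ _ _).2 ((hA _ _).2 hx)
  have hAmem : ∀ a' k', At q1 i a' k' → (a', k') ∈ A := fun a' k' h1 =>
    (hA _ _).1 ((hat _ _ _).1 h1)
  have hane : ∀ x ∈ A, x.1 ≠ a := by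
    rintro x hx rfl
    exact hex ⟨x.2, (hA _ _).2 hx⟩
  obtain ⟨f, hf⟩ := q1.t.2
  -- `Dl f` gives `Tri` for decided pairs
  have hDT : ∀ α ∈ Z, ∀ β ∈ Z, ∀ δ, Dl f α β δ → q1.t.Tri α β δ := by
    intro α hα β hβ δ h1
    obtain ⟨δ', h2 | h2⟩ := hdec1 α hα β hβ h1.ne
    · rw [h1.unique (h2.dl hf)]
      exact h2
    · exact (h1.asymm (h2.dl hf)).elim
  have hbinA : ∀ x ∈ A, ∀ y ∈ A, BinA E (Dl f) x y := fun x hx y hy =>
    ((hmemA x hx).binA (hmemA y hy) h.kd).mono fun _ _ _ h => h.dl hf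
  have hu : ∀ x ∈ A, UnaA E x := fun x hx => ((hmemA x hx).unaA h.kd).2
  -- the common end of the second and the third case
  have fin : ∀ (x : Om × Om), x ∈ A → ∀ γ ∈ E, γ ≤ x.2 → ∀ ξ < γ, ∀ r ≤ q1, ∀ k' < γ,
      Kin i k' r → (∀ g : Om → Om → ℤ, RzE g r.t.1 → UnaA E (a, k') ∧
        ∀ y ∈ A, BinA E (Dl g) (a, k') y) → ∃ r ≤ q, ∃ k, At r i a k := by
    intro x hx γ hγ hγx ξ hξ r hr k' hk' hkin hg'
    obtain ⟨r', h1, h2, h3, h4, h5, h6⟩ := h.thin q1 r hr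
    obtain ⟨g, hg⟩ := r'.t.2
    obtain ⟨t2, ht2, hgt2, hall⟩ := SE.exists_all hg (insert k' Z)
    obtain ⟨r2, hr2, -, hr2t, hat2⟩ := r'.exists_static (le_refl r'.r) ht2
    have hgr : RzE g r.t.1 := by
      rw [← h4]
      exact hg
    obtain ⟨hun, hbin⟩ := hg' g hgr
    obtain ⟨s, hs, has⟩ := r2.exists_addA h.kd h.cl (a := a) (k := k') hun
      ((h6 k' hkin).mono hr2) (by
      intro a' k'' hak
      have hy : (a', k'') ∈ A := hAmem _ _ (h5 _ _ ((hat2 _ _ _).1 hak))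
      rw [hr2t]
      exact (hbin _ hy).toTri hall (Finset.mem_insert_of_mem haZ) (Finset.mem_insert_self _ _)
        (Finset.mem_insert_of_mem (hZ1 _ hy)) (Finset.mem_insert_of_mem (hZ2 _ hy)))
    exact ⟨s, hs.trans (hr2.trans (h2.trans hq1)), k', has⟩
  have hpair : ∀ α, (∃ y ∈ A, α = y.1 ∨ α = y.2 ∨ α = a) → α ∈ Z := by
    rintro α ⟨y, hy, rfl | rfl | rfl⟩
    · exact hZ1 y hy
    · exact hZ2 y hy
    · exact haZ
  have htrans : ∀ r ≤ q1, ∀ g : Om → Om → ℤ, RzE g r.t.1 →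
      ∀ α β δ, (∃ y ∈ A, α = y.1 ∨ α = y.2 ∨ α = a) →
        (∃ y ∈ A, β = y.1 ∨ β = y.2 ∨ β = a) → Dl f α β δ → Dl g α β δ := by
    intro r hr g hg α β δ hα hβ h1
    exact ((hDT α (hpair α hα) β (hpair β hβ) δ h1).mono (CP.t_mono hr)).dl hg
  rcases exists_value hf.1 h.cl A hne hu hbinA hane with ⟨x, hx, hun, hb⟩ |
    ⟨x, hx, γ, hγ, hγx, ξ, hξ, hcase⟩
  · obtain ⟨s, hs, has⟩ := q1.exists_addA h.kd h.cl (a := a) (k := x.2) hun (hmemA x hx).kin (by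
      intro a' k' hak
      have hy : (a', k') ∈ A := hAmem _ _ hak
      exact (hb _ hy).toTri hDT haZ (hZ2 x hx) (hZ1 _ hy) (hZ2 _ hy))
    exact ⟨s, hs.trans hq1, x.2, has⟩
  · have hξx : ξ ≤ x.2 := hξ.le.trans hγx
    rcases hcase with hcase | hcase
    · obtain ⟨r, hr, k', hk', hkin, heq | ⟨δ, hδ, htri⟩⟩ :=
        h.up q1 x.2 (hmemA x hx).kin γ hγ ξ hξ hξx
      · exact absurd (heq ▸ hk') (not_lt.2 hγx)
      · exact fin x hx γ hγ hγx ξ hξ r hr k' hk' hkin (fun g hg =>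
          hcase g hg.1 (htrans r hr g hg) k' hk' δ hδ (htri.dl hg))
    · obtain ⟨r, hr, k', hk', hkin, heq | ⟨δ, hδ, htri⟩⟩ :=
        h.dn q1 x.2 (hmemA x hx).kin γ hγ ξ hξ hξx
      · exact absurd (heq ▸ hk') (not_lt.2 hγx)
      · exact fin x hx γ hγ hγx ξ hξ r hr k' hk' hkin (fun g hg =>
          hcase g hg.1 (htrans r hr g hg) k' hk' δ hδ (htri.dl hg))

end Pool.Agent.H90.Mx
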