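import Pool.Agent.H90.Mx.Inst

/-!
# Density for the Aronszajn line: surjectivity (modules SEQA and DENSB)

This file contains the combinatorial part `exists_seq` (module SEQA); `GoodA.surj` is in `DensB.lean`
(module DENSB).  See also the header of `Value.lean` for the notation.

Notation as in `DensA.lean`.  Let `Kin i k q`.  If `k` is the second component of some `x ∈ A` take `r = q`.
Otherwise extend the tree part such that all pairs of distinct ordinals among `k` and the ordinals in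
`A` are decided (`q1`), and let `f` be a realizer of `q1.t`.  We find a new ordinal `a`, larger than `k`, than
all ordinals occurring in `q1.t` and in `A`, and a sequence `u` for it (`SE.exists_new`; afterwards
`SE.exists_all`), such that `(a, k)` can be added (`CP.exists_addA`).  `UnaA` holds since `k ≤ a`.
* `A = ∅`: any such `a` (no condition).
* `A ≠ ∅`.  Let `γ0` be the greatest of all `E(Δ(k, x.2))`, `x ∈ A`; `I0 = {x ∈ A | γ0 ≤ Δ(k, x.2)}`,
  nonempty; `γ⁺` the least element of `E` larger than `γ0`.  So `Δ(k, x.2) < γ⁺` for all `x ∈ A`.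
  For `x ∈ I0`: `γ0 ≤ Δ(k, x.2) ≤ x.2, k`, so `γ0 ≤ x.1` (`UnaA`).  For `x, y ∈ I0` with `x.1 ≠ y.1`:
  `Δ(x.1, y.1) ≥ γ0` `(*)` (if `x.2 = y.2` because `γ0 ≤ x.2`, otherwise because `Δ(x.2, y.2) ≥ γ0`).
  For `z ∈ A \ I0`, `x ∈ I0`: `Δ(x.2, z.2) = Δ(k, z.2) < γ0`, same side, so `Δ(x.1, z.1) < γ0` and `BinA` for
  `(a, k), z` follows from `BinA` for `x, z` as soon as `a` and `x.1` agree below `γ0` (then
  `Δ(a, z.1) = Δ(x.1, z.1)`, same side).
  For `x ∈ I0`: `BinA` for `(a, k), x` holds as soon as `γ0 ≤ Δ(a, x.1) < γ⁺` and `a, x.1` are in the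
  same order as `k, x.2` (as `γ0 ≤ Δ(k, x.2) < γ⁺`, both have the same relation to all `γ ∈ E`).
  So we want: `γ0 ≤ Δ(a, x.1) < γ⁺` and the same order as `k, x.2`, for all `x ∈ I0`.
  Let `x ∈ I0` be the one with `x.2 < k` with the greatest `x.1` (if any), `y ∈ I0` the one with `k < y.2`
  with the least `y.1` (if any).  For all `x', y' ∈ I0` with `x'.2 < k < y'.2` we have `x'.2 < y'.2`,
  so `x'.1 < y'.1`.
  - Both exist.  `δ := Δ(x.1, y.1)`; `γ0 ≤ δ` by `(*)`; `Δ(x.2, y.2) = min(Δ(x.2, k), Δ(k, y.2)) < γ⁺`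
    (`Dl.trans`), so `δ < γ⁺` (`BinA` for `x, y`).  Let `u ξ = 3 * f x.1 ξ` for `ξ < δ`,
    `u δ = 3 * f x.1 δ + 1` (it is not `0`), `u ξ = 1` for `δ < ξ < a`, `u ξ = 0` for `a ≤ ξ`.  Since
    `f x.1 δ < f y.1 δ` we get `3 * f x.1 δ < u δ < 3 * f y.1 δ`: `Δ(x.1, a) = δ = Δ(a, y.1)`, `x.1 < a < y.1`.
    For another `z ∈ I0` with `z.2 < k`: `z.1 < x.1 < a`, `Δ(z.1, a) = min(Δ(z.1, x.1), δ)`, which is in
    `[γ0, γ⁺)` by `(*)`.  Similarly above.  (If `z.1 = x.1` then `z = x` by `BinA`.)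
  - Only `x` exists.  Let `u ξ = 3 * f x.1 ξ` for `ξ < γ0`, `u γ0` positive and larger than all
    `3 * f z.1 γ0`, `z ∈ I0`; `u ξ = 1` for `γ0 < ξ < a`.  Then `Δ(z.1, a) = γ0`, `z.1 < a` for all `z ∈ I0`.
  - Only `y` exists: `u γ0` negative and smaller than all `3 * f z.1 γ0`.
-/

set_option autoImplicit false

namespace Pool.Agent.H90.Mx

open Pool.Agent.H90.SN

variable {E : Set Om}

theorem IsCl.exists_max (hE : IsCl E) (δ : Om) :
    ∃ γ ∈ E, γ ≤ δ ∧ ∀ γ' ∈ E, γ' ≤ δ → γ' ≤ γ := by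
  have hwf : WellFounded ((· < ·) : Om → Om → Prop) := IsWellFounded.wf
  obtain ⟨s, hs, hmin⟩ := hwf.has_min {b | ∀ γ ∈ E, γ ≤ δ → γ ≤ b} ⟨δ, fun γ _ h => h⟩
  have hsδ : s ≤ δ := by
    by_contra hcon
    push Not at hcon
    exact hmin δ (fun γ _ h => h) hcon
  have hsE : s ∈ E := by
    by_contra hns
    have h1 : ¬ ∀ a < s, ∃ γ' ∈ E, a < γ' ∧ γ' < s := fun h => hns (hE.closed s h)
    push Not at h1
    obtain ⟨b, hb, h2⟩ := h1
    have h3 : ¬ ∀ γ ∈ E, γ ≤ δ → γ ≤ b := fun h => hmin b h hb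
    push Not at h3
    obtain ⟨γ, hγ, hγδ, hbγ⟩ := h3
    have h4 := hs γ hγ hγδ
    have h5 : γ ≠ s := by
      rintro rfl
      exact hns hγ
    exact absurd (lt_of_le_of_ne h4 h5) (not_lt.2 (h2 γ hγ hbγ))
  exact ⟨s, hsE, hsδ, hs⟩

theorem exists_topDl {f : Om → Om → ℤ} (hf : Row f) {S : Finset Om} (hS : S.Nonempty) :
    ∃ m ∈ S, ∀ s ∈ S, s = m ∨ ∃ δ, Dl f s m δ := by
  classical
  induction hS using Finset.Nonempty.cons_induction with
  | singleton a => exact ⟨a, by simp, fun s hs => Or.inl (by simpa using hs)⟩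
  | cons a S ha hS ih =>
    obtain ⟨m, hm, h⟩ := ih
    have ham : a ≠ m := by
      rintro rfl
      exact ha hm
    obtain ⟨δ, h1 | h1⟩ := exists_dl hf ham
    · refine ⟨m, Finset.mem_cons_of_mem hm, fun s hs => ?_⟩
      rcases Finset.mem_cons.1 hs with rfl | hs
      · exact Or.inr ⟨δ, h1⟩
      · exact h s hs
    · refine ⟨a, Finset.mem_cons_self _ _, fun s hs => ?_⟩
      rcases Finset.mem_cons.1 hs with rfl | hs
      · exact Or.inl rfl
      · rcases h s hs with rfl | ⟨δ', h2⟩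
        · exact Or.inr ⟨δ, h1⟩
        · exact Or.inr ⟨_, h2.trans h1⟩

theorem exists_botDl {f : Om → Om → ℤ} (hf : Row f) {S : Finset Om} (hS : S.Nonempty) :
    ∃ m ∈ S, ∀ s ∈ S, s = m ∨ ∃ δ, Dl f m s δ := by
  classical
  induction hS using Finset.Nonempty.cons_induction with
  | singleton a => exact ⟨a, by simp, fun s hs => Or.inl (by simpa using hs)⟩
  | cons a S ha hS ih =>
    obtain ⟨m, hm, h⟩ := ih
    have ham : a ≠ m := by
      rintro rfl
      exact ha hm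
    obtain ⟨δ, h1 | h1⟩ := exists_dl hf ham
    · refine ⟨a, Finset.mem_cons_self _ _, fun s hs => ?_⟩
      rcases Finset.mem_cons.1 hs with rfl | hs
      · exact Or.inl rfl
      · rcases h s hs with rfl | ⟨δ', h2⟩
        · exact Or.inr ⟨δ, h1⟩
        · exact Or.inr ⟨_, h1.trans h2⟩
    · refine ⟨m, Finset.mem_cons_of_mem hm, fun s hs => ?_⟩
      rcases Finset.mem_cons.1 hs with rfl | hs
      · exact Or.inr ⟨δ, h1⟩
      · exact h s hs

/-- the combinatorial part: a sequence for the new point -/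
theorem exists_seq {f : Om → Om → ℤ} (hf : Row f) (hE : IsCl E) (A : Finset (Om × Om))
    (hu : ∀ x ∈ A, UnaA E x) (hA : ∀ x ∈ A, ∀ y ∈ A, BinA E (Dl f) x y) {k : Om}
    (hk : ∀ x ∈ A, x.2 ≠ k) {a : Om} (hka : k < a) (ha : ∀ x ∈ A, x.1 < a ∧ x.2 < a) :
    ∃ u : Om → ℤ, (∀ ξ, u ξ = 0 ↔ a ≤ ξ) ∧
      ∀ g : Om → Om → ℤ, Row g → (∀ ξ, g a ξ = u ξ) → (∀ α, α ≠ a → ∀ ξ, g α ξ = 3 * f α ξ) →
        ∀ x ∈ A, BinA E (Dl g) (a, k) x := by
  classical
  haveI : Nonempty Om := ⟨k⟩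
  rcases A.eq_empty_or_nonempty with rfl | hne
  · refine ⟨fun ξ => if a ≤ ξ then 0 else 1, fun ξ => ?_, fun g _ _ _ x hx => by simp at hx⟩
    by_cases h : a ≤ ξ <;> simp [h]
  -- the first differences of `k` and the values
  have hd' : ∀ x ∈ A, ∃ δ, Dl f k x.2 δ ∨ Dl f x.2 k δ := fun x hx =>
    exists_dl hf (hk x hx).symm
  choose! d hd using hd'
  obtain ⟨x0, hx0, hmax⟩ := Finset.exists_max_image A d hne
  obtain ⟨γ0, hγ0, hγ0d, hγ0max⟩ := hE.exists_max (d x0)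
  -- `δ` is in the same interval as `γ0`
  set N : Om → Prop := fun δ => γ0 ≤ δ ∧ ∀ γ ∈ E, γ ≤ δ → γ ≤ γ0 with hN
  have hNN : ∀ δ δ', N δ → N δ' → ∀ γ ∈ E, γ ≤ δ ↔ γ ≤ δ' := fun δ δ' h h' γ hγ =>
    ⟨fun h1 => (h.2 γ hγ h1).trans h'.1, fun h1 => (h'.2 γ hγ h1).trans h.1⟩
  have hdmax : ∀ x ∈ A, ∀ γ ∈ E, γ ≤ d x → γ ≤ γ0 := fun x hx γ hγ h =>
    hγ0max γ hγ (h.trans (hmax x hx))
  have hNd : ∀ x ∈ A, γ0 ≤ d x → N (d x) := fun x hx h => ⟨h, hdmax x hx⟩
  have hdx : ∀ x ∈ A, ∀ ξ < d x, f x.2 ξ = f k ξ := by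
    intro x hx ξ hξ
    rcases hd x hx with h | h
    · exact (h.1 ξ hξ).symm
    · exact h.1 ξ hξ
  have hdk : ∀ x ∈ A, d x ≤ k := by
    intro x hx
    rcases hd x hx with h | h
    · exact h.le_left hf
    · exact h.le_right hf
  have hd2 : ∀ x ∈ A, d x ≤ x.2 := by
    intro x hx
    rcases hd x hx with h | h
    · exact h.le_right hf
    · exact h.le_left hf
  have hγ1 : ∀ x ∈ A, γ0 ≤ d x → γ0 ≤ x.1 := fun x hx h => hu x hx γ0 hγ0 (h.trans (hd2 x hx))
  -- (*)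
  have hstar' : ∀ x ∈ A, γ0 ≤ d x → ∀ y ∈ A, γ0 ≤ d y → Lk E (Dl f) x y →
      ∀ ξ < γ0, f x.1 ξ = f y.1 ξ := by
    rintro x hx hxd y hy hyd ⟨δ, h1, h2⟩ ξ hξ
    have h3 : γ0 ≤ δ := by
      rcases h2 with ⟨-, h2⟩ | ⟨δ', h2, h4⟩
      · exact h2 γ0 hγ0 (hxd.trans (hd2 x hx))
      · rw [h4 γ0 hγ0]
        by_contra hcon
        push Not at hcon
        have h5 := hdx x hx δ' (hcon.trans_le hxd)
        have h6 := hdx y hy δ' (hcon.trans_le hyd)
        exact h2.2.ne (h5.trans h6.symm)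
    exact h1.1 ξ (hξ.trans_le h3)
  have hstar : ∀ x ∈ A, γ0 ≤ d x → ∀ y ∈ A, γ0 ≤ d y → ∀ ξ < γ0, f x.1 ξ = f y.1 ξ := by
    intro x hx hxd y hy hyd ξ hξ
    rcases hA x hx y hy with h | h | h
    · rw [h]
    · exact hstar' x hx hxd y hy hyd h ξ hξ
    · exact (hstar' y hy hyd x hx hxd h ξ hξ).symm
  have hge : ∀ x ∈ A, γ0 ≤ d x → ∀ y ∈ A, γ0 ≤ d y → ∀ δ, Dl f x.1 y.1 δ → γ0 ≤ δ := by
    intro x hx hxd y hy hyd δ h
    by_contra hcon
    push Not at hcon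
    exact h.2.ne (hstar x hx hxd y hy hyd δ hcon)
  -- the core
  have core : ∀ u : Om → ℤ, (∀ ξ, u ξ = 0 ↔ a ≤ ξ) → (∀ ξ < γ0, u ξ = 3 * f x0.1 ξ) →
      (∀ g : Om → Om → ℤ, (∀ ξ, g a ξ = u ξ) → (∀ α, α ≠ a → ∀ ξ, g α ξ = 3 * f α ξ) →
        ∀ x ∈ A, γ0 ≤ d x → (Dl f x.2 k (d x) → ∃ δ, N δ ∧ Dl g x.1 a δ) ∧
          (Dl f k x.2 (d x) → ∃ δ, N δ ∧ Dl g a x.1 δ)) →
      ∃ u : Om → ℤ, (∀ ξ, u ξ = 0 ↔ a ≤ ξ) ∧
        ∀ g : Om → Om → ℤ, Row g → (∀ ξ, g a ξ = u ξ) → (∀ α, α ≠ a → ∀ ξ, g α ξ = 3 * f α ξ) →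
          ∀ x ∈ A, BinA E (Dl g) (a, k) x := by
    intro u hu0 hu1 hu2
    refine ⟨u, hu0, fun g _ hga hg z hz => ?_⟩
    have hscale : ∀ α β δ, α ≠ a → β ≠ a → Dl f α β δ → Dl g α β δ := by
      intro α β δ hα hβ h
      refine ⟨fun ξ hξ => ?_, ?_⟩
      · rw [hg α hα, hg β hβ, h.1 ξ hξ]
      · rw [hg α hα, hg β hβ]
        have := h.2
        omega
    have hkne : k ≠ a := hka.ne
    have hz2 : z.2 ≠ a := (ha z hz).2.ne
    have hz1 : z.1 ≠ a := (ha z hz).1.ne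
    by_cases hzd : γ0 ≤ d z
    · rcases hd z hz with h | h
      · obtain ⟨δ, h1, h2⟩ := (hu2 g hga hg z hz hzd).2 h
        exact Or.inr (Or.inl ⟨δ, h2, Or.inr ⟨d z, hscale _ _ _ hkne hz2 h,
          hNN _ _ h1 (hNd z hz hzd)⟩⟩)
      · obtain ⟨δ, h1, h2⟩ := (hu2 g hga hg z hz hzd).1 h
        exact Or.inr (Or.inr ⟨δ, h2, Or.inr ⟨d z, hscale _ _ _ hz2 hkne h,
          hNN _ _ h1 (hNd z hz hzd)⟩⟩)
    · push Not at hzd
      have hagree : ∀ ξ ≤ d z, f x0.2 ξ = f k ξ := fun ξ hξ =>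
        hdx x0 hx0 ξ ((hξ.trans_lt hzd).trans_le hγ0d)
      have hu3 : ∀ ξ < γ0, g a ξ = g x0.1 ξ := by
        intro ξ hξ
        rw [hga, hu1 ξ hξ, hg _ (ha x0 hx0).1.ne]
      rcases hd z hz with h | h
      · have h1 : Dl f x0.2 z.2 (d z) := h.congr_left hagree
        rcases hA x0 hx0 z hz with h2 | ⟨δ, h2, h3 | ⟨δ', h3, h4⟩⟩ | ⟨δ, h2, h3 | ⟨δ', h3, h4⟩⟩
        · exact absurd (congrArg Prod.snd h2) h1.ne
        · exact absurd h3.1 h1.ne
        · have h5 := h3.unique h1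
          subst h5
          have h6 : δ < γ0 := by
            by_contra hcon
            push Not at hcon
            exact absurd ((h4 γ0 hγ0).1 hcon) (not_le.2 hzd)
          have h7 : Dl g x0.1 z.1 δ := hscale _ _ _ (ha x0 hx0).1.ne hz1 h2
          have h8 : Dl g a z.1 δ := h7.congr_left fun ξ hξ => hu3 ξ (hξ.trans_lt h6)
          exact Or.inr (Or.inl ⟨δ, h8, Or.inr ⟨d z, hscale _ _ _ hkne hz2 h, h4⟩⟩)
        · exact absurd h3.1.symm h1.ne
        · exact (h1.asymm h3).elim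
      · have h1 : Dl f z.2 x0.2 (d z) := h.congr_right hagree
        rcases hA x0 hx0 z hz with h2 | ⟨δ, h2, h3 | ⟨δ', h3, h4⟩⟩ | ⟨δ, h2, h3 | ⟨δ', h3, h4⟩⟩
        · exact absurd (congrArg Prod.snd h2).symm h1.ne
        · exact absurd h3.1.symm h1.ne
        · exact (h1.asymm h3).elim
        · exact absurd h3.1 h1.ne
        · have h5 := h3.unique h1
          subst h5
          have h6 : δ < γ0 := by
            by_contra hcon
            push Not at hcon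
            exact absurd ((h4 γ0 hγ0).1 hcon) (not_le.2 hzd)
          have h7 : Dl g z.1 x0.1 δ := hscale _ _ _ hz1 (ha x0 hx0).1.ne h2
          have h8 : Dl g z.1 a δ := h7.congr_right fun ξ hξ => hu3 ξ (hξ.trans_lt h6)
          exact Or.inr (Or.inr ⟨δ, h8, Or.inr ⟨d z, hscale _ _ _ hz2 hkne h, h4⟩⟩)
  set Lo := A.filter (fun x => γ0 ≤ d x ∧ Dl f x.2 k (d x)) with hLo
  set Up := A.filter (fun x => γ0 ≤ d x ∧ Dl f k x.2 (d x)) with hUp
  have hγ0a : γ0 < a := (hγ0d.trans (hdk x0 hx0)).trans_lt hka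
  have hNγ0 : N γ0 := ⟨le_rfl, fun γ _ h => h⟩
  -- the sequence when only one of the sets is nonempty
  have one : ∀ M : ℤ, M ≠ 0 →
      (∀ ξ, (if a ≤ ξ then (0 : ℤ) else if ξ < γ0 then 3 * f x0.1 ξ else if ξ = γ0 then M
        else 1) = 0 ↔ a ≤ ξ) := by
    intro M hM ξ
    by_cases h1 : a ≤ ξ
    · simp [h1]
    · rw [if_neg h1]
      refine iff_of_false ?_ h1
      by_cases h2 : ξ < γ0
      · rw [if_pos h2]
        have h3 : f x0.1 ξ ≠ 0 := by
          rw [Ne, hf, not_le]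
          exact h2.trans_le (hγ1 x0 hx0 hγ0d)
        omega
      · rw [if_neg h2]
        by_cases h3 : ξ = γ0
        · rw [if_pos h3]
          exact hM
        · rw [if_neg h3]
          exact one_ne_zero
  by_cases hLn : Lo.Nonempty
  · by_cases hUn : Up.Nonempty
    · -- both
      obtain ⟨b, hb, hbmax⟩ := exists_topDl hf (hLn.image Prod.fst)
      obtain ⟨c, hc, hcmin⟩ := exists_botDl hf (hUn.image Prod.fst)
      obtain ⟨x, hx, hxb⟩ := Finset.mem_image.1 hb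
      obtain ⟨y, hy, hyc⟩ := Finset.mem_image.1 hc
      obtain ⟨hxA, hxd, hxk⟩ := Finset.mem_filter.1 hx
      obtain ⟨hyA, hyd, hyk⟩ := Finset.mem_filter.1 hy
      subst hxb
      subst hyc
      have htr : Dl f x.2 y.2 (min (d x) (d y)) := hxk.trans hyk
      have hNm : N (min (d x) (d y)) := ⟨le_min hxd hyd, fun γ hγ h =>
        hdmax x hxA γ hγ (h.trans (min_le_left _ _))⟩
      obtain ⟨δ, hδ, hNδ⟩ : ∃ δ, Dl f x.1 y.1 δ ∧ N δ := by
        rcases hA x hxA y hyA with h2 | ⟨δ, h2, h3 | ⟨δ', h3, h4⟩⟩ |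
          ⟨δ, h2, h3 | ⟨δ', h3, h4⟩⟩
        · exact absurd (congrArg Prod.snd h2) htr.ne
        · exact absurd h3.1 htr.ne
        · have h5 := h3.unique htr
          subst h5
          exact ⟨δ, h2, (h4 γ0 hγ0).2 hNm.1, fun γ hγ h => hNm.2 γ hγ ((h4 γ hγ).1 h)⟩
        · exact absurd h3.1.symm htr.ne
        · exact (htr.asymm h3).elim
      have hδa : δ < a := (hδ.le_left hf).trans_lt (ha x hxA).1
      refine core (fun ξ => if a ≤ ξ then 0 else if ξ < δ then 3 * f x.1 ξ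
        else if ξ = δ then 3 * f x.1 δ + 1 else 1) ?_ ?_ ?_
      · intro ξ
        by_cases h1 : a ≤ ξ
        · simp [h1]
        · show (if a ≤ ξ then (0 : ℤ) else if ξ < δ then 3 * f x.1 ξ
            else if ξ = δ then 3 * f x.1 δ + 1 else 1) = 0 ↔ a ≤ ξ
          rw [if_neg h1]
          refine iff_of_false ?_ h1
          by_cases h2 : ξ < δ
          · rw [if_pos h2]
            have h3 : f x.1 ξ ≠ 0 := by
              rw [Ne, hf, not_le]
              exact h2.trans_le (hδ.le_left hf)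
            omega
          · rw [if_neg h2]
            by_cases h3 : ξ = δ
            · rw [if_pos h3]
              omega
            · rw [if_neg h3]
              exact one_ne_zero
      · intro ξ hξ
        have h1 : ¬ a ≤ ξ := not_le.2 (hξ.trans hγ0a)
        have h2 : ξ < δ := hξ.trans_le hNδ.1
        show (if a ≤ ξ then (0 : ℤ) else if ξ < δ then 3 * f x.1 ξ
            else if ξ = δ then 3 * f x.1 δ + 1 else 1) = _
        rw [if_neg h1, if_pos h2, hstar x hxA hxd x0 hx0 hγ0d ξ hξ]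
      · intro g hga hg z hz hzd
        have hscale : ∀ α β δ, α ≠ a → β ≠ a → Dl f α β δ → Dl g α β δ := by
          intro α β δ hα hβ h
          refine ⟨fun ξ hξ => ?_, ?_⟩
          · rw [hg α hα, hg β hβ, h.1 ξ hξ]
          · rw [hg α hα, hg β hβ]
            have := h.2
            omega
        have hlow : ∀ ξ < δ, g a ξ = 3 * f x.1 ξ := by
          intro ξ hξ
          rw [hga]
          show (if a ≤ ξ then (0 : ℤ) else if ξ < δ then 3 * f x.1 ξ
            else if ξ = δ then 3 * f x.1 δ + 1 else 1) = _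
          rw [if_neg (not_le.2 (hξ.trans hδa)), if_pos hξ]
        have hat : g a δ = 3 * f x.1 δ + 1 := by
          rw [hga]
          show (if a ≤ δ then (0 : ℤ) else if δ < δ then 3 * f x.1 δ
            else if δ = δ then 3 * f x.1 δ + 1 else 1) = _
          rw [if_neg (not_le.2 hδa), if_neg (lt_irrefl _), if_pos rfl]
        have hxa : Dl g x.1 a δ := by
          refine ⟨fun ξ hξ => ?_, ?_⟩
          · rw [hlow ξ hξ, hg _ (ha x hxA).1.ne]
          · rw [hat, hg _ (ha x hxA).1.ne]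
            omega
        have hay : Dl g a y.1 δ := by
          refine ⟨fun ξ hξ => ?_, ?_⟩
          · rw [hlow ξ hξ, hg _ (ha y hyA).1.ne, hδ.1 ξ hξ]
          · rw [hat, hg _ (ha y hyA).1.ne]
            have := hδ.2
            omega
        refine ⟨fun h => ?_, fun h => ?_⟩
        · have hzL : z ∈ Lo := Finset.mem_filter.2 ⟨hz, hzd, h⟩
          rcases hbmax z.1 (Finset.mem_image_of_mem _ hzL) with h1 | ⟨δ1, h1⟩
          · rw [h1]
            exact ⟨δ, hNδ, hxa⟩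
          · refine ⟨min δ1 δ, ⟨le_min (hge z hz hzd x hxA hxd δ1 h1) hNδ.1, fun γ hγ h2 =>
              hNδ.2 γ hγ (h2.trans (min_le_right _ _))⟩,
              (hscale _ _ _ (ha z hz).1.ne (ha x hxA).1.ne h1).trans hxa⟩
        · have hzU : z ∈ Up := Finset.mem_filter.2 ⟨hz, hzd, h⟩
          rcases hcmin z.1 (Finset.mem_image_of_mem _ hzU) with h1 | ⟨δ1, h1⟩
          · rw [h1]
            exact ⟨δ, hNδ, hay⟩
          · refine ⟨min δ δ1, ⟨le_min hNδ.1 (hge y hyA hyd z hz hzd δ1 h1), fun γ hγ h2 =>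
              hNδ.2 γ hγ (h2.trans (min_le_left _ _))⟩,
              hay.trans (hscale _ _ _ (ha y hyA).1.ne (ha z hz).1.ne h1)⟩
    · -- only below
      obtain ⟨M, hM0, hM⟩ : ∃ M : ℤ, 0 < M ∧ ∀ z ∈ A, 3 * f z.1 γ0 < M := by
        refine ⟨1 + ∑ z ∈ A, |3 * f z.1 γ0|, ?_, fun z hz => ?_⟩
        · have : 0 ≤ ∑ z ∈ A, |3 * f z.1 γ0| := Finset.sum_nonneg fun z _ => abs_nonneg _
          omega
        · have h1 := Finset.single_le_sum (f := fun z : Om × Om => |3 * f z.1 γ0|)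
            (fun z _ => abs_nonneg _) hz
          have h2 := le_abs_self (3 * f z.1 γ0)
          omega
      refine core (fun ξ => if a ≤ ξ then 0 else if ξ < γ0 then 3 * f x0.1 ξ
        else if ξ = γ0 then M else 1) (one M hM0.ne') ?_ ?_
      · intro ξ hξ
        show (if a ≤ ξ then (0 : ℤ) else if ξ < γ0 then 3 * f x0.1 ξ
          else if ξ = γ0 then M else 1) = _
        rw [if_neg (not_le.2 (hξ.trans hγ0a)), if_pos hξ]
      · intro g hga hg z hz hzd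
        refine ⟨fun _ => ⟨γ0, hNγ0, fun ξ hξ => ?_, ?_⟩, fun h => ?_⟩
        · rw [hga, hg _ (ha z hz).1.ne]
          show _ = (if a ≤ ξ then (0 : ℤ) else if ξ < γ0 then 3 * f x0.1 ξ
            else if ξ = γ0 then M else 1)
          rw [if_neg (not_le.2 (hξ.trans hγ0a)), if_pos hξ, hstar z hz hzd x0 hx0 hγ0d ξ hξ]
        · rw [hga, hg _ (ha z hz).1.ne]
          show _ < (if a ≤ γ0 then (0 : ℤ) else if γ0 < γ0 then 3 * f x0.1 γ0
            else if γ0 = γ0 then M else 1)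
          rw [if_neg (not_le.2 hγ0a), if_neg (lt_irrefl _), if_pos rfl]
          exact hM z hz
        · exact absurd ⟨z, Finset.mem_filter.2 ⟨hz, hzd, h⟩⟩ hUn
  · -- only above
    obtain ⟨M, hM0, hM⟩ : ∃ M : ℤ, M < 0 ∧ ∀ z ∈ A, M < 3 * f z.1 γ0 := by
      refine ⟨-(1 + ∑ z ∈ A, |3 * f z.1 γ0|), ?_, fun z hz => ?_⟩
      · have : 0 ≤ ∑ z ∈ A, |3 * f z.1 γ0| := Finset.sum_nonneg fun z _ => abs_nonneg _
        omega
      · have h1 := Finset.single_le_sum (f := fun z : Om × Om => |3 * f z.1 γ0|)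
          (fun z _ => abs_nonneg _) hz
        have h2 := neg_abs_le (3 * f z.1 γ0)
        omega
    refine core (fun ξ => if a ≤ ξ then 0 else if ξ < γ0 then 3 * f x0.1 ξ
      else if ξ = γ0 then M else 1) (one M hM0.ne) ?_ ?_
    · intro ξ hξ
      show (if a ≤ ξ then (0 : ℤ) else if ξ < γ0 then 3 * f x0.1 ξ
        else if ξ = γ0 then M else 1) = _
      rw [if_neg (not_le.2 (hξ.trans hγ0a)), if_pos hξ]
    · intro g hga hg z hz hzd
      refine ⟨fun h => ?_, fun _ => ⟨γ0, hNγ0, fun ξ hξ => ?_, ?_⟩⟩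
      · exact absurd ⟨z, Finset.mem_filter.2 ⟨hz, hzd, h⟩⟩ hLn
      · rw [hga, hg _ (ha z hz).1.ne]
        show (if a ≤ ξ then (0 : ℤ) else if ξ < γ0 then 3 * f x0.1 ξ
          else if ξ = γ0 then M else 1) = _
        rw [if_neg (not_le.2 (hξ.trans hγ0a)), if_pos hξ, hstar z hz hzd x0 hx0 hγ0d ξ hξ]
      · rw [hga, hg _ (ha z hz).1.ne]
        show (if a ≤ γ0 then (0 : ℤ) else if γ0 < γ0 then 3 * f x0.1 γ0
          else if γ0 = γ0 then M else 1) < _
        rw [if_neg (not_le.2 hγ0a), if_neg (lt_irrefl _), if_pos rfl]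
        exact hM z hz

end Pool.Agent.H90.Mx
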