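import Pool.Agent.H90.Mx.Good
import Pool.Agent.H90.Mx.SeqA

/-!
# Density for the Aronszajn line: surjectivity (module DENSB)

The outline of the proof is in the header of `SeqA.lean`; the combinatorial part is `exists_seq`.
Let `A` be the finite set of all pairs `(a', k')` with `At q i a' k'` (`CP.finite_at`).  If `k` is the second
component of some element of `A` take `r = q`.  Otherwise let `f` be a realizer of `q.t`, `a` larger than `k`,
than all ordinals occurring in `A` and than all first and second components of the triples of `q.t`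
(`om_bounded`, finite sets are countable), `u` from `exists_seq` (hypotheses: `At.unaA`, `At.binA`,
`BinA.mono`, `Tri.dl`), `g` from `SE.exists_new` (a realizer of `q.t`), then `SE.exists_all` for `g` and the set
of `a`, `k` and the ordinals in `A`, `CP.exists_static`.  Add `(a, k)` (`CP.exists_addA`, `UnaA` since `k ≤ a`).
-/

set_option autoImplicit false

namespace Pool.Agent.H90.Mx

open Pool.Agent.H90.SN

variable {i : CI} {E : Set Om} {p : CP} {φ : Om → CP → Prop}

theorem GoodA.surj (h : GoodA i E p φ) : ∀ q k, Kin i k q → ∃ r ≤ q, ∃ a, At r i a k := by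
  classical
  intro q k hk
  obtain ⟨S, hS⟩ := CP.finite_at q
  let A : Finset (Om × Om) := (S.filter (fun x => x.1 = i)).image (fun x => x.2)
  have hA : ∀ x : Om × Om, x ∈ A ↔ At q i x.1 x.2 := by
    intro x
    rw [hS, Finset.mem_image]
    constructor
    · rintro ⟨y, hy, rfl⟩
      obtain ⟨h1, h2⟩ := Finset.mem_filter.1 hy
      have h3 : y = (i, y.2.1, y.2.2) := Prod.ext h2 rfl
      rw [← h3]
      exact h1
    · intro h1
      exact ⟨(i, x.1, x.2), Finset.mem_filter.2 ⟨h1, rfl⟩, rfl⟩
  by_cases hex : ∃ x ∈ A, x.2 = k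
  · obtain ⟨x, hx, rfl⟩ := hex
    exact ⟨q, le_rfl, x.1, (hA x).1 hx⟩
  · have hk' : ∀ x ∈ A, x.2 ≠ k := fun x hx h1 => hex ⟨x, hx, h1⟩
    obtain ⟨f, hf⟩ := q.t.2
    let Z0 : Finset Om := insert k (A.image (fun x => x.1) ∪ (A.image (fun x => x.2) ∪
      (q.t.1.image (fun x => x.1) ∪ q.t.1.image (fun x => x.2.1))))
    obtain ⟨a, ha⟩ := om_bounded (s := (Z0 : Set Om)) Z0.countable_toSet
    have hka : k < a := ha k (by simp [Z0])
    have haA : ∀ x ∈ A, x.1 < a ∧ x.2 < a := by
      intro x hx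
      refine ⟨ha _ ?_, ha _ ?_⟩
      · exact Finset.mem_coe.2 (Finset.mem_insert_of_mem (Finset.mem_union_left _
          (Finset.mem_image_of_mem (fun x : Om × Om => x.1) hx)))
      · exact Finset.mem_coe.2 (Finset.mem_insert_of_mem (Finset.mem_union_right _
          (Finset.mem_union_left _ (Finset.mem_image_of_mem (fun x : Om × Om => x.2) hx))))
    have hat : ∀ x ∈ q.t.1, x.1 ≠ a ∧ x.2.1 ≠ a := by
      intro x hx
      refine ⟨(ha _ ?_).ne, (ha _ ?_).ne⟩
      · exact Finset.mem_coe.2 (Finset.mem_insert_of_mem (Finset.mem_union_right _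
          (Finset.mem_union_right _ (Finset.mem_union_left _
            (Finset.mem_image_of_mem (fun x : Om × Om × Om => x.1) hx)))))
      · exact Finset.mem_coe.2 (Finset.mem_insert_of_mem (Finset.mem_union_right _
          (Finset.mem_union_right _ (Finset.mem_union_right _
            (Finset.mem_image_of_mem (fun x : Om × Om × Om => x.2.1) hx)))))
    have hu : ∀ x ∈ A, UnaA E x := fun x hx => (((hA x).1 hx).unaA h.kd).2
    have hb : ∀ x ∈ A, ∀ y ∈ A, BinA E (Dl f) x y := by
      intro x hx y hy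
      exact BinA.mono (((hA x).1 hx).binA ((hA y).1 hy) h.kd) fun α β δ h1 => h1.dl hf
    obtain ⟨u, hu0, hu1⟩ := exists_seq hf.1 h.cl A hu hb hk' hka haA
    obtain ⟨g, hg, hga, hgo⟩ := SE.exists_new hf hat u hu0
    obtain ⟨s', hs', hgs, hall⟩ := SE.exists_all hg (insert a Z0)
    obtain ⟨q', hq', h1, h2, h3⟩ := CP.exists_static q (r := q.r) (t := s') le_rfl hs'
    have hZ : ∀ x ∈ A, x.1 ∈ insert a Z0 := fun x hx =>
      Finset.mem_insert_of_mem (Finset.mem_insert_of_mem (Finset.mem_union_left _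
        (Finset.mem_image_of_mem (fun x : Om × Om => x.1) hx)))
    have hZ' : ∀ x ∈ A, x.2 ∈ insert a Z0 := fun x hx =>
      Finset.mem_insert_of_mem (Finset.mem_insert_of_mem (Finset.mem_union_right _
        (Finset.mem_union_left _ (Finset.mem_image_of_mem (fun x : Om × Om => x.2) hx))))
    have hZa : a ∈ insert a Z0 := Finset.mem_insert_self _ _
    have hZk : k ∈ insert a Z0 := Finset.mem_insert_of_mem (Finset.mem_insert_self _ _)
    have hlk : ∀ x y : Om × Om, x.1 ∈ insert a Z0 → x.2 ∈ insert a Z0 → y.1 ∈ insert a Z0 →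
        y.2 ∈ insert a Z0 → Lk E (Dl g) x y → Lk E q'.t.Tri x y := by
      rintro x y hx1 hx2 hy1 hy2 ⟨δ, h4, h5⟩
      refine ⟨δ, ?_, ?_⟩
      · rw [h2]
        exact hall _ hx1 _ hy1 _ h4
      · rcases h5 with h5 | ⟨δ', h5, h6⟩
        · exact Or.inl h5
        · refine Or.inr ⟨δ', ?_, h6⟩
          rw [h2]
          exact hall _ hx2 _ hy2 _ h5
    obtain ⟨r, hr, h4⟩ := CP.exists_addA q' (i := i) (a := a) (k := k) h.kd h.cl
      (fun γ _ hγ => (show γ ≤ k from hγ).trans hka.le) (hk.mono hq') (by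
        intro a' k' h5
        have h6 : (a', k') ∈ A := (hA (a', k')).2 ((h3 i a' k').1 h5)
        rcases hu1 g hg.1 hga hgo (a', k') h6 with h7 | h7 | h7
        · exact Or.inl h7
        · exact Or.inr (Or.inl (hlk _ _ hZa hZk (hZ _ h6) (hZ' _ h6) h7))
        · exact Or.inr (Or.inr (hlk _ _ (hZ _ h6) (hZ' _ h6) hZa hZk h7)))
    exact ⟨r, hr.trans hq', a, h4⟩

end Pool.Agent.H90.Mx
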