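import Pool.Agent.H90.Mx.Good

/-!
# Density for the line of reals (module DENSR)

**`GoodR.total`.**  Let `A` be the finite set of all pairs `(a', k')` with `At q i a' k'`.  If `a` is the first
component of one of them take `r = q`.  Otherwise first extend the real part of `q` (`SR.exists_decide`,
`CP.exists_static`) to `q1`, which decides all pairs of distinct ordinals among `a` and the ordinals in `A`.
Let `L = {x ∈ A | Lt x.1 a}`, `U = {x ∈ A | Lt a x.1}`; `A = L ∪ U`.  Choose (if `L ≠ ∅`) `x ∈ L` with the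
greatest `x.1` in the order `Lt` of `q1`, (if `U ≠ ∅`) `y ∈ U` with the least `y.1`.  (Work with a realizer `f`
of `q1.r`: `Lt q1.r η ζ ↔ f η < f ζ` for the ordinals concerned; `Finset.exists_max_image`.)
Let `k₋ = x.2`, `k₊ = y.2`.  For `z ∈ L`: `BinR` for `z, x` gives `z.2 = k₋` or `Lt z.2 k₋`; for `z ∈ U`:
`z.2 = k₊` or `Lt k₊ z.2`; and `k₋ = k₊` or `Lt k₋ k₊` (`BinR` for `x, y`).
1. `L, U ≠ ∅`, `k₋ = k₊`.  Then `k₋ < e` (`BinR` for `x ≠ y`), and `(a, k₋)` can be added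
   (`CP.exists_addR`): `UnaR` by `k₋ < e`; `Kin i k₋` by `At.kin`; `BinR` for `(a, k₋)` and `z`: if
   `z.2 = k₋` the second alternative; otherwise the third or fourth.
2. `L, U ≠ ∅`, `Lt k₋ k₊`.  By `GoodR.md` there are `r ≤ q1`, `δ < e` with `Kin i δ r`, (`δ = k₋` or
   `Lt k₋ δ`), (`δ = k₊` or `Lt δ k₊`).  By `GoodR.thin` we may replace `r` by `r'` with `r'.r = r.r`, the same
   atoms of index `i` as `q1`, and `Kin i δ r'`.  Now `(a, δ)` can be added to `r'`: for `z ∈ L`: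
   `Lt z.1 a` and (`z.2 = δ < e` or `Lt z.2 δ`); for `z ∈ U` similarly.
3. `L ≠ ∅`, `U = ∅`: the same with `GoodR.up`; `L = ∅`, `U ≠ ∅`: with `GoodR.dn`; `A = ∅`: with `ne` and `up`
   (only `δ < e` is needed).

-/

set_option autoImplicit false

namespace Pool.Agent.H90.Mx

open Pool.Agent.H90.SN

variable {i : CI} {e : Om} {p : CP} {φ : Om → CP → Prop}

theorem At.funR {q : CP} {a k k' : Om} (hi : kd i = .R e) (h : At q i a k) (h' : At q i a k') :
    k = k' := by
  rcases h.binR h' hi with h1 | ⟨h1, -⟩ | ⟨h1, -⟩ | ⟨h1, -⟩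
  · exact (Prod.mk.inj h1).2
  · exact h1
  · exact absurd rfl h1.ne
  · exact absurd rfl h1.ne

theorem At.monoR {q : CP} {a k a' k' : Om} (hi : kd i = .R e) (h : At q i a k)
    (h' : At q i a' k') (hlt : q.r.Lt a a') : k = k' ∨ q.r.Lt k k' := by
  rcases h.binR h' hi with h1 | ⟨h1, -⟩ | ⟨-, h1⟩ | ⟨h1, -⟩
  · exact Or.inl (Prod.mk.inj h1).2
  · exact Or.inl h1
  · exact Or.inr h1
  · exact absurd h1 hlt.asymm

/-- the finite set of atoms of index `i` -/
theorem CP.finite_ati (p : CP) (i : CI) : ∃ A : Finset (Om × Om), ∀ a k, At p i a k ↔ (a, k) ∈ A := by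
  classical
  obtain ⟨A, hA⟩ := p.finite_at
  refine ⟨(A.filter (fun x => x.1 = i)).image (fun x => x.2), fun a k => ?_⟩
  rw [hA, Finset.mem_image]
  constructor
  · intro h
    exact ⟨(i, a, k), Finset.mem_filter.2 ⟨h, rfl⟩, rfl⟩
  · rintro ⟨⟨j, b⟩, h, rfl⟩
    obtain ⟨h1, h2⟩ := Finset.mem_filter.1 h
    have h3 : j = i := h2
    subst h3
    exact h1

/-- adding an atom whose value is in the right place -/
theorem GoodR.addR (h : GoodR i e p φ) {q1 : CP} {a δ : Om} (hδ : δ < e)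
    (hdec : ∀ a' k', At q1 i a' k' → q1.r.Lt a' a ∨ q1.r.Lt a a') {r : CP} (hr : r ≤ q1)
    (hk : Kin i δ r)
    (hL : ∀ a' k', At q1 i a' k' → q1.r.Lt a' a → k' = δ ∨ r.r.Lt k' δ)
    (hU : ∀ a' k', At q1 i a' k' → q1.r.Lt a a' → k' = δ ∨ r.r.Lt δ k') :
    ∃ s ≤ q1, ∃ k, At s i a k := by
  obtain ⟨r', h1, h2, h3, -, h5, h6⟩ := h.thin q1 r hr
  have hmono : r'.r ≤ q1.r := CP.r_mono h2
  obtain ⟨s, hs, hat⟩ := r'.exists_addR h.kd (a := a) (k := δ) (Or.inl hδ) (h6 δ hk) (by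
    intro a' k' hak
    have hak1 := h5 a' k' hak
    rcases hdec a' k' hak1 with hlt | hlt
    · rcases hL a' k' hak1 hlt with h7 | h7
      · exact Or.inr (Or.inl ⟨h7.symm, hδ⟩)
      · refine Or.inr (Or.inr (Or.inr ⟨hlt.mono hmono, ?_⟩))
        show r'.r.Lt k' δ
        rw [h3]
        exact h7
    · rcases hU a' k' hak1 hlt with h7 | h7
      · exact Or.inr (Or.inl ⟨h7.symm, hδ⟩)
      · refine Or.inr (Or.inr (Or.inl ⟨hlt.mono hmono, ?_⟩))
        show r'.r.Lt δ k'
        rw [h3]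
        exact h7)
  exact ⟨s, hs.trans h2, δ, hat⟩

theorem GoodR.total (h : GoodR i e p φ) : ∀ q ≤ p, ∀ a, ∃ r ≤ q, ∃ k, At r i a k := by
  classical
  intro q hq a
  by_cases hex : ∃ k, At q i a k
  · obtain ⟨k, hk⟩ := hex
    exact ⟨q, le_rfl, k, hk⟩
  obtain ⟨A, hA⟩ := q.finite_ati i
  set Z : Finset Om := insert a (A.image Prod.fst ∪ A.image Prod.snd) with hZ
  obtain ⟨s', hs', hdec⟩ := SR.exists_decide q.r Z
  obtain ⟨q1, hq1, hq1r, -, hat⟩ := q.exists_static hs' (le_refl q.t)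
  have hdec1 : ∀ η ∈ Z, ∀ ζ ∈ Z, η ≠ ζ → q1.r.Lt η ζ ∨ q1.r.Lt ζ η := by
    rw [hq1r]
    exact hdec
  have haZ : a ∈ Z := Finset.mem_insert_self _ _
  have hfst : ∀ a' k', At q1 i a' k' → a' ∈ Z := by
    intro a' k' h1
    exact Finset.mem_insert_of_mem (Finset.mem_union_left _
      (Finset.mem_image.2 ⟨(a', k'), (hA _ _).1 ((hat _ _ _).1 h1), rfl⟩))
  have hne : ∀ a' k', At q1 i a' k' → a' ≠ a := by
    rintro a' k' h1 rfl
    exact hex ⟨k', (hat _ _ _).1 h1⟩
  have hLU : ∀ a' k', At q1 i a' k' → q1.r.Lt a' a ∨ q1.r.Lt a a' := fun a' k' h1 =>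
    hdec1 _ (hfst _ _ h1) _ haZ (hne _ _ h1)
  have hq1p : q1 ≤ p := hq1.trans hq
  obtain ⟨f, hf⟩ := q1.r.2
  set L := A.filter (fun x => q1.r.Lt x.1 a) with hLdef
  set U := A.filter (fun x => q1.r.Lt a x.1) with hUdef
  have hmemA : ∀ x ∈ A, At q1 i x.1 x.2 := fun x hx => (hat _ _ _).2 ((hA _ _).2 hx)
  have hAmem : ∀ a' k', At q1 i a' k' → (a', k') ∈ A := fun a' k' h1 =>
    (hA _ _).1 ((hat _ _ _).1 h1)
  -- comparison with the greatest element of `L`
  have hLmax : L.Nonempty → ∃ b c, At q1 i b c ∧ q1.r.Lt b a ∧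
      ∀ a' k', At q1 i a' k' → q1.r.Lt a' a → k' = c ∨ q1.r.Lt k' c := by
    intro hLn
    obtain ⟨x, hx, hmax⟩ := Finset.exists_max_image L (fun x => f x.1) hLn
    obtain ⟨hxA, hxL⟩ := Finset.mem_filter.1 hx
    refine ⟨x.1, x.2, hmemA x hxA, hxL, fun a' k' h1 hlt => ?_⟩
    have hz : (a', k') ∈ L := Finset.mem_filter.2 ⟨hAmem _ _ h1, hlt⟩
    have hle : f a' ≤ f x.1 := hmax _ hz
    by_cases he : a' = x.1
    · subst he
      exact Or.inl (At.funR h.kd h1 (hmemA x hxA))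
    · rcases hdec1 a' (hfst _ _ h1) x.1 (hfst _ _ (hmemA x hxA)) he with h2 | h2
      · exact At.monoR h.kd h1 (hmemA x hxA) h2
      · exact absurd (h2.lt hf) (not_lt.2 hle)
  have hUmin : U.Nonempty → ∃ b c, At q1 i b c ∧ q1.r.Lt a b ∧
      ∀ a' k', At q1 i a' k' → q1.r.Lt a a' → k' = c ∨ q1.r.Lt c k' := by
    intro hUn
    obtain ⟨x, hx, hmin⟩ := Finset.exists_min_image U (fun x => f x.1) hUn
    obtain ⟨hxA, hxL⟩ := Finset.mem_filter.1 hx
    refine ⟨x.1, x.2, hmemA x hxA, hxL, fun a' k' h1 hlt => ?_⟩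
    have hz : (a', k') ∈ U := Finset.mem_filter.2 ⟨hAmem _ _ h1, hlt⟩
    have hle : f x.1 ≤ f a' := hmin _ hz
    by_cases he : a' = x.1
    · subst he
      exact Or.inl (At.funR h.kd h1 (hmemA x hxA))
    · rcases hdec1 a' (hfst _ _ h1) x.1 (hfst _ _ (hmemA x hxA)) he with h2 | h2
      · exact absurd (h2.lt hf) (not_lt.2 hle)
      · rcases At.monoR h.kd (hmemA x hxA) h1 h2 with h3 | h3
        · exact Or.inl h3.symm
        · exact Or.inr h3
  have hfin : ∀ s ≤ q1, (∃ k, At s i a k) → ∃ r ≤ q, ∃ k, At r i a k :=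
    fun s hs hk => ⟨s, hs.trans hq1, hk⟩
  have hLe : ¬ L.Nonempty → ∀ a' k', At q1 i a' k' → ¬ q1.r.Lt a' a := by
    intro hLn a' k' h1 hlt
    exact hLn ⟨(a', k'), Finset.mem_filter.2 ⟨hAmem _ _ h1, hlt⟩⟩
  have hUe : ¬ U.Nonempty → ∀ a' k', At q1 i a' k' → ¬ q1.r.Lt a a' := by
    intro hUn a' k' h1 hlt
    exact hUn ⟨(a', k'), Finset.mem_filter.2 ⟨hAmem _ _ h1, hlt⟩⟩
  by_cases hLn : L.Nonempty
  · obtain ⟨b, c, hbc, hba, hLc⟩ := hLmax hLn
    by_cases hUn : U.Nonempty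
    · obtain ⟨b', c', hbc', hab', hUc⟩ := hUmin hUn
      rcases At.monoR h.kd hbc hbc' (hba.trans hab') with heq | hlt
      · -- the same value on both sides
        subst heq
        have hce : c < e := by
          rcases hbc.binR hbc' h.kd with h1 | ⟨-, h1⟩ | ⟨-, h1⟩ | ⟨h1, -⟩
          · exact absurd (Prod.mk.inj h1).1 (hba.trans hab').ne
          · exact h1
          · exact absurd rfl h1.ne
          · exact absurd h1 (hba.trans hab').asymm
        obtain ⟨s, hs, hk⟩ := h.addR hce hLU (le_refl q1) hbc.kin hLc hUc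
        exact hfin s hs hk
      · obtain ⟨r, hr, δ, hδ, hkin, h1, h2⟩ := h.md q1 c c' hbc.kin hbc'.kin hlt
        have hmono : r.r ≤ q1.r := CP.r_mono hr
        obtain ⟨s, hs, hk⟩ := h.addR hδ hLU hr hkin (fun a' k' h3 h4 => by
            rcases hLc a' k' h3 h4 with h5 | h5
            · rw [h5]
              exact h1.imp (fun h => h.symm) id
            · rcases h1 with h1 | h1
              · rw [h1]
                exact Or.inr (h5.mono hmono)
              · exact Or.inr ((h5.mono hmono).trans h1)) (fun a' k' h3 h4 => by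
            rcases hUc a' k' h3 h4 with h5 | h5
            · rw [h5]
              exact h2.imp (fun h => h.symm) id
            · rcases h2 with h2 | h2
              · rw [h2]
                exact Or.inr (h5.mono hmono)
              · exact Or.inr (h2.trans (h5.mono hmono)))
        exact hfin s hs hk
    · obtain ⟨r, hr, δ, hδ, hkin, h1⟩ := h.up q1 c hbc.kin
      have hmono : r.r ≤ q1.r := CP.r_mono hr
      obtain ⟨s, hs, hk⟩ := h.addR hδ hLU hr hkin (fun a' k' h3 h4 => by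
          rcases hLc a' k' h3 h4 with h5 | h5
          · rw [h5]
            exact h1.imp (fun h => h.symm) id
          · rcases h1 with h1 | h1
            · rw [h1]
              exact Or.inr (h5.mono hmono)
            · exact Or.inr ((h5.mono hmono).trans h1))
          (fun a' k' h3 h4 => absurd h4 (hUe hUn a' k' h3))
      exact hfin s hs hk
  · by_cases hUn : U.Nonempty
    · obtain ⟨b', c', hbc', hab', hUc⟩ := hUmin hUn
      obtain ⟨r, hr, δ, hδ, hkin, h2⟩ := h.dn q1 c' hbc'.kin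
      have hmono : r.r ≤ q1.r := CP.r_mono hr
      obtain ⟨s, hs, hk⟩ := h.addR hδ hLU hr hkin
          (fun a' k' h3 h4 => absurd h4 (hLe hLn a' k' h3)) (fun a' k' h3 h4 => by
          rcases hUc a' k' h3 h4 with h5 | h5
          · rw [h5]
            exact h2.imp (fun h => h.symm) id
          · rcases h2 with h2 | h2
            · rw [h2]
              exact Or.inr (h5.mono hmono)
            · exact Or.inr (h2.trans (h5.mono hmono)))
      exact hfin s hs hk
    · obtain ⟨r, hr, k, hk⟩ := h.ne q1 hq1p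
      obtain ⟨r2, hr2, δ, hδ, hkin, -⟩ := h.up r k hk
      obtain ⟨s, hs, hk⟩ := h.addR hδ hLU (hr2.trans hr) hkin
          (fun a' k' h3 h4 => absurd h4 (hLe hLn a' k' h3))
          (fun a' k' h3 h4 => absurd h4 (hUe hUn a' k' h3))
      exact hfin s hs hk

end Pool.Agent.H90.Mx
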