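import Pool.Agent.H90.Mx.Good

/-!
# Density for the line of reals: surjectivity (module DENSR2)

Let `A` be the finite set of all pairs `(a', k')` with `At q i a' k'` (`CP.finite_at`).
**`GoodR.surj`.**  If `k` is the second component of some element of `A` take `r = q`.  Otherwise first
decide (`q1 ≤ q`) all pairs among `k` and the ordinals in `A`.  Choose `a` in the (infinite) block of `k`
(`bl_infinite`) which does not occur in `q1.r`, nor in `A`, and is different from `k`.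
Let `L = {x.1 | x ∈ A, Lt x.2 k}`, `U = {x.1 | x ∈ A, Lt k x.2}`.  For `x, y ∈ A` with `Lt x.2 k`,
`Lt k y.2` we have `Lt x.2 y.2`, so `Lt x.1 y.1` by `BinR`.  By `SR.exists_between` and
`CP.exists_static` there is `q2 ≤ q1` with `Lt x.1 a` for `x.1 ∈ L` and `Lt a x.1` for `x.1 ∈ U`.  Add `(a, k)`:
`UnaR` as `bl a = bl k`.
-/

set_option autoImplicit false

namespace Pool.Agent.H90.Mx

open Pool.Agent.H90.SN

variable {i : CI} {e : Om} {p : CP} {φ : Om → CP → Prop}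

theorem GoodR.surj (h : GoodR i e p φ) : ∀ q k, Kin i k q → ∃ r ≤ q, ∃ a, At r i a k := by
  classical
  intro q k hk
  by_cases hex : ∃ a, At q i a k
  · exact ⟨q, le_rfl, hex⟩
  obtain ⟨A, hA⟩ := CP.finite_at q
  obtain ⟨s1, hs1, hdec⟩ := SR.exists_decide q.r (insert k (A.image (fun x => x.2.2)))
  obtain ⟨q1, hq1, hq1r, -, hq1a⟩ := CP.exists_static q hs1 le_rfl
  obtain ⟨a, hab, ha⟩ := (bl_infinite k).exists_notMem_finset
    (q1.r.1.image (fun x => x.1) ∪ (A.image (fun x => x.2.1)))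
  have hab' : bl a = bl k := hab
  rw [Finset.mem_union, not_or] at ha
  obtain ⟨ha1, ha2⟩ := ha
  have hin : ∀ a' k', At q1 i a' k' → a ≠ a' := by
    rintro a' k' h' rfl
    exact ha2 (Finset.mem_image.2 ⟨(i, a, k'), (hA _ _ _).1 ((hq1a _ _ _).1 h'), rfl⟩)
  let L : Finset Om := (A.filter (fun x => x.1 = i ∧ q1.r.Lt x.2.2 k)).image (fun x => x.2.1)
  let U : Finset Om := (A.filter (fun x => x.1 = i ∧ q1.r.Lt k x.2.2)).image (fun x => x.2.1)
  have hL : ∀ η, η ∈ L ↔ ∃ κ, At q1 i η κ ∧ q1.r.Lt κ k := by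
    intro η
    constructor
    · intro hη
      obtain ⟨⟨i', η', κ⟩, hx, rfl⟩ := Finset.mem_image.1 hη
      obtain ⟨hx1, hx2, hx3⟩ := Finset.mem_filter.1 hx
      change i' = i at hx2
      subst hx2
      exact ⟨κ, (hq1a _ _ _).2 ((hA _ _ _).2 hx1), hx3⟩
    · rintro ⟨κ, h1, h2⟩
      exact Finset.mem_image.2 ⟨(i, η, κ), Finset.mem_filter.2
        ⟨(hA _ _ _).1 ((hq1a _ _ _).1 h1), rfl, h2⟩, rfl⟩
  have hU : ∀ η, η ∈ U ↔ ∃ κ, At q1 i η κ ∧ q1.r.Lt k κ := by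
    intro η
    constructor
    · intro hη
      obtain ⟨⟨i', η', κ⟩, hx, rfl⟩ := Finset.mem_image.1 hη
      obtain ⟨hx1, hx2, hx3⟩ := Finset.mem_filter.1 hx
      change i' = i at hx2
      subst hx2
      exact ⟨κ, (hq1a _ _ _).2 ((hA _ _ _).2 hx1), hx3⟩
    · rintro ⟨κ, h1, h2⟩
      exact Finset.mem_image.2 ⟨(i, η, κ), Finset.mem_filter.2
        ⟨(hA _ _ _).1 ((hq1a _ _ _).1 h1), rfl, h2⟩, rfl⟩
  obtain ⟨s', hs', hsL, hsU⟩ := SR.exists_between q1.r (a := a)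
    (fun x hx hxa => ha1 (Finset.mem_image.2 ⟨x, hx, hxa⟩)) L U
    (fun haL => by
      obtain ⟨κ, h1, -⟩ := (hL a).1 haL
      exact hin a κ h1 rfl)
    (fun haU => by
      obtain ⟨κ, h1, -⟩ := (hU a).1 haU
      exact hin a κ h1 rfl)
    (fun η hη ζ hζ => by
      obtain ⟨κ, h1, h2⟩ := (hL η).1 hη
      obtain ⟨κ', h3, h4⟩ := (hU ζ).1 hζ
      have h5 : q1.r.Lt κ κ' := h2.trans h4
      rcases h1.binR h3 h.kd with h6 | ⟨h6, -⟩ | ⟨h6, -⟩ | ⟨-, h6⟩
      · exact absurd (Prod.mk.inj h6).2 h5.ne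
      · exact absurd h6 h5.ne
      · exact h6
      · exact absurd h6 h5.asymm)
  obtain ⟨q2, hq2, hq2r, -, hq2a⟩ := CP.exists_static q1 hs' le_rfl
  obtain ⟨r, hr, hra⟩ := CP.exists_addR q2 h.kd (a := a) (k := k) (Or.inr hab')
    (hk.mono (hq2.trans hq1)) (by
      intro a' k' h'
      have h1 : At q1 i a' k' := (hq2a _ _ _).1 h'
      have h2 : (i, a', k') ∈ A := (hA _ _ _).1 ((hq1a _ _ _).1 h1)
      have hne : k ≠ k' := by
        rintro rfl
        exact hex ⟨a', (hA _ _ _).2 h2⟩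
      have hmem : k' ∈ insert k (A.image (fun x => x.2.2)) :=
        Finset.mem_insert_of_mem (Finset.mem_image.2 ⟨_, h2, rfl⟩)
      have hle : q2.r ≤ q1.r := CP.r_mono hq2
      rcases hdec k (Finset.mem_insert_self _ _) k' hmem hne with h3 | h3
      · rw [← hq1r] at h3
        refine Or.inr (Or.inr (Or.inl ⟨?_, h3.mono hle⟩))
        have h4 := hsU a' ((hU a').2 ⟨k', h1, h3⟩)
        rw [← hq2r] at h4
        exact h4
      · rw [← hq1r] at h3
        refine Or.inr (Or.inr (Or.inr ⟨?_, h3.mono hle⟩))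
        have h4 := hsL a' ((hL a').2 ⟨k', h1, h3⟩)
        rw [← hq2r] at h4
        exact h4)
  exact ⟨r, hr.trans (hq2.trans hq1), a, hra⟩

end Pool.Agent.H90.Mx
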