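import Pool.Agent.H90.Mx.Line

/-!
# Uncountability of a generic line (module UNC)

* `line_uncountable` (UNC): word for word as `not_sizeLe_onN'` in `Pool/Agent/H90/SN/OmD.lean`, with
  `L.N α` in place of `onN α.toOrd` and `IsCcc P` in place of `X.ccc` (in the last step use
  `L.inj` instead of `onN_inj`).  `exists_fiber` is in `SN/OmD.lean`; it may be imported or copied.
-/

set_option autoImplicit false

namespace Pool.Agent.H90.Mx

open Frc Ordinal
open Pool.Agent.H90.SN (Om IsCcc om_not_countable)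

variable {P : Type} [PartialOrder P] [OrderTop P] {L : LineN P} {g : Gen P}

/-- for a countable family of sets of countable ordinals covering everything, one of them contains
an injective image of all countable ordinals -/
theorem exists_fiber' (n : Om → ℕ) :
    ∃ k, ∃ e : Om → Om, Function.Injective e ∧ ∀ i, n (e i) = k := by
  by_contra hcon
  push Not at hcon
  refine om_not_countable ?_
  rw [← Set.countable_univ_iff]
  have h1 : ∀ k, (n ⁻¹' {k}).Countable := by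
    intro k
    by_contra hk
    have hle : Cardinal.mk Om ≤ Cardinal.mk (n ⁻¹' {k}) := by
      rw [Pool.Agent.H90.SN.om_card, ← Cardinal.succ_aleph0, Order.succ_le_iff]
      exact not_le.1 fun h => hk (Cardinal.le_aleph0_iff_set_countable.1 h)
    obtain ⟨e⟩ := hle
    obtain ⟨i, hi⟩ := hcon k (fun i => (e i).1) (fun i j hij => e.injective (Subtype.ext hij))
    exact hi (e i).2
  refine (Set.countable_iUnion h1).mono fun i _ => ?_
  exact Set.mem_iUnion.2 ⟨n i, rfl⟩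

theorem line_uncountable (hP : IsCcc P) {A w : g.M} (hA : g.Den L.AN A)
    (hw : g.Den (onN P ω) w) : ¬ SizeLe g.E A w := by
  rintro ⟨f, hf⟩
  obtain ⟨φ, hφ⟩ := g.exists_den f
  refine Gen.tp (v := ![L.AN, onN P ω, φ]) (a := ![A, w, f])
    (den3 hA hw hφ) (dfn_isInj 2 0 1) (Dfn.const False) (fun p hp => ?_) hf
  exfalso
  have key : ∀ α : Om, ∃ n : ℕ, ∃ q : P, q ≤ p ∧
      Fc q ![onN P n, L.N α, φ] (fun _ E v => Rel E (v 2) (v 1) (v 0)) := by
    intro α
    obtain ⟨g', hg', -, u, hu⟩ := exists_gen_set p ![L.AN, onN P ω, φ,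
      L.N α] (L := ∅) Set.countable_empty
    have h0 : g'.Den L.AN (u 0) := hu 0
    have h1 : g'.Den (onN P ω) (u 1) := hu 1
    have h2 : g'.Den φ (u 2) := hu 2
    have h3 : g'.Den (L.N α) (u 3) := hu 3
    have hinj : IsInj g'.E (u 2) (u 0) (u 1) := hp g' hg' ![u 0, u 1, u 2] (den3 h0 h1 h2)
    obtain ⟨y, hy, hxy, -⟩ := hinj.1 (u 3) ((LineN.mem_AN h0 _).2 ⟨α, h3⟩)
    obtain ⟨η, hη, hyη⟩ := (den_onN h1 y).1 hy
    obtain ⟨n, rfl⟩ := lt_omega0.1 hη
    obtain ⟨r, hr, hfr⟩ := (Fc.truth (v := ![onN P n, L.N α, φ])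
      (a := ![y, u 3, u 2]) (dfn_rel 2 1 0) (den3 hyη h3 h2)).1 hxy
    obtain ⟨r', hr', h4, h5⟩ := g'.dir r hr p hg'
    exact ⟨n, r', h5, hfr.mono h4⟩
  choose n q hqp hq using key
  obtain ⟨k, e, he, hek⟩ := exists_fiber' n
  obtain ⟨i, j, hij, hcompat⟩ := hP (fun i => q (e i))
  obtain ⟨r, hr, hr1⟩ := hcompat
  obtain ⟨g', hg', -, u, hu⟩ := exists_gen_set r ![L.AN, onN P ω, φ,
    L.N (e i), L.N (e j), onN P k] (L := ∅) Set.countable_empty
  have h0 : g'.Den L.AN (u 0) := hu 0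
  have h1 : g'.Den (onN P ω) (u 1) := hu 1
  have h2 : g'.Den φ (u 2) := hu 2
  have h3 : g'.Den (L.N (e i)) (u 3) := hu 3
  have h4 : g'.Den (L.N (e j)) (u 4) := hu 4
  have h5 : g'.Den (onN P k) (u 5) := hu 5
  have hinj : IsInj g'.E (u 2) (u 0) (u 1) :=
    hp g' (g'.up r hg' p (hr.trans (hqp (e i)))) ![u 0, u 1, u 2] (den3 h0 h1 h2)
  have hki : g'.Den (onN P (n (e i))) (u 5) := by rw [hek]; exact h5
  have hkj : g'.Den (onN P (n (e j))) (u 5) := by rw [hek]; exact h5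
  have e1 : Rel g'.E (u 2) (u 3) (u 5) :=
    hq (e i) g' (g'.up r hg' _ hr) ![u 5, u 3, u 2] (den3 hki h3 h2)
  have e2 : Rel g'.E (u 2) (u 4) (u 5) :=
    hq (e j) g' (g'.up r hg' _ hr1) ![u 5, u 4, u 2] (den3 hkj h4 h2)
  have e3 : u 3 = u 4 := hinj.2 _ _ _ ((LineN.mem_AN h0 _).2 ⟨e i, h3⟩)
    ((LineN.mem_AN h0 _).2 ⟨e j, h4⟩) e1 e2
  rw [e3] at h3
  exact hij (he (L.inj g' _ _ _ h3 h4))

end Pool.Agent.H90.Mx
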