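import Pool.Agent.H90.Mx.LineLin
import Pool.Agent.H90.Mx.LineUnc

/-!
# The line of the countable ordinals, preservation of `ω₁`
-/

set_option autoImplicit false

namespace Pool.Agent.H90.Mx

open Frc Ordinal
open Pool.Agent.H90.SN (Om IsCcc om_not_countable)

variable {P : Type} [PartialOrder P] [OrderTop P] {L : LineN P} {g : Gen P}

/-- the line of all countable ordinals -/
noncomputable def ordLine (P : Type) [PartialOrder P] [OrderTop P] : LineN P where
  N a := onN P a.toOrd.1
  Ls a b _ := a < b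
  anti h _ := h
  tot p _ _ h := ⟨p, le_rfl, lt_or_gt_of_ne h⟩
  irrefl a _ := lt_irrefl a
  trans {_ _ _ p} h h' := ⟨p, le_rfl, lt_trans h h'⟩
  inj _ _ _ _ h h' := toOrd_inj (onN_inj h h')

theorem ordLine_AN : (ordLine P).AN = onN P (ω_ 1) := (onN_def (ω_ 1)).symm

theorem isOmega1_of_ccc (hP : IsCcc P) {w o : g.M} (hw : g.Den (onN P ω) w)
    (ho : g.Den (onN P (ω_ 1)) o) : IsOmega1 g.E w o := by
  refine ⟨onN_isOrd ho, ?_, fun b hb => ?_⟩
  · rw [← ordLine_AN] at ho
    exact line_uncountable hP ho hw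
  · obtain ⟨β, hβ, hbβ⟩ := (den_onN ho b).1 hb
    refine sizeLe_onN ?_ hbβ hw
    rw [card_omega0]
    have h1 : β < (Cardinal.aleph 1 : Cardinal.{0}).ord := by
      simpa using hβ
    rw [Cardinal.lt_ord, ← Cardinal.succ_aleph0] at h1
    exact Order.lt_succ_iff.1 h1

end Pool.Agent.H90.Mx
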