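import Pool.Agent.H90.Mx.Line

/-!
# Strong surjectivity from density (module ONTO)

`SurjData L κ p At`: `At q a k` says that `q` decides that the generic surjection sends the `a`-th point to
the `k`-th point; `κ` is a name of a subset of the line.

`line_strSurj`.  Let `K ⊆ A` be nonempty in `g`, `κ` a name of `K` (`Gen.exists_den`).  Apply `Gen.tp` with
`v = ![L.AN, L.ON, κ]`, `R = (K ⊆ A and K is nonempty)`, `S = IsOnto A r K`.  Let `p` force `R`.  For all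
`q ≤ p` there are `r ≤ q`, `a` with `r ⊩ N a ∈ κ` (`Fc.exists_mem` twice, or: take a generic `g' ∋ q`, an
element `y` of `K` in it; it is in `A`, so `y` is denoted by `N a` for some `a` (`mem_AN`), and `Fc.truth`,
`dir`).  So there is `At` with `SurjData L κ p At` (hypothesis `H`).  Take `q = p` and `Λ = {FN}`, where
`FN := relN (ι := {z : (Om × Om) × P // At z.2 z.1.1 z.1.2}) (fun z => L.N z.1.1.1)
  (fun z => L.N z.1.1.2) (fun z => z.1.2)`.
Let `g' ∋ p` be generic with `FN` denoted by `f`.  Then `Rel f x y` iff there are `a`, `k`, `q ∈ G'` with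
`At q a k` and `x = N a`, `y = N k` (`den_relN`).
* function: `x ∈ A` is `N a`.  There is `y` with `Rel f x y` and `y ∈ K`: it is enough that `p` forces this
  statement about `![L.N a, FN, κ]`: use `Fc.stable`; for `q ≤ p` take `r ≤ q`, `k` with `At r a k`
  (`total`), and show that `r` forces it by `Fc.with_names` with the extra name `L.N k`
  (`relN_exists`/`den_relN`, `into`).  Uniqueness: from `At q a k`, `At q' a k'` with `q, q' ∈ G'` take a
  common extension; `func` and `Gen.Den.unique`.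
* onto: `y ∈ K` is `N k`; some `q ∈ G'`, `q ≤ p`, forces `N k ∈ κ` (`Fc.truth`, `dir`).  Now `q` forces
  `∃ x ∈ A, Rel f x y` (for `![L.N k, FN, L.AN]`): `Fc.stable`, `surj`, `Fc.with_names` with `L.N a`.
* monotone: `Rel r x x'`, `x = N a`, `x' = N a'`, `y = N k`, `y' = N k'`: take a common extension `q ∈ G'`
  with `Ls a a' q`, `At q a k`, `At q a' k'`; use `mono`.
-/

set_option autoImplicit false

namespace Pool.Agent.H90.Mx

open Frc Ordinal
open Pool.Agent.H90.SN (Om IsCcc om_not_countable)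

variable {P : Type} [PartialOrder P] [OrderTop P] {L : LineN P} {g : Gen P}

structure SurjData (L : LineN P) (κ : Name P) (p : P) (At : P → Om → Om → Prop) : Prop where
  anti : ∀ q q' a k, At q a k → q' ≤ q → At q' a k
  into : ∀ q a k, At q a k → Fc q ![L.N k, κ] (fun _ E v => E (v 0) (v 1))
  total : ∀ q ≤ p, ∀ a, ∃ r ≤ q, ∃ k, At r a k
  surj : ∀ q ≤ p, ∀ k, Fc q ![L.N k, κ] (fun _ E v => E (v 0) (v 1)) → ∃ r ≤ q, ∃ a, At r a k
  func : ∀ q a k k', At q a k → At q a k' → k = k'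
  mono : ∀ q a k a' k', At q a k → At q a' k' → L.Ls a a' q → k = k' ∨ L.Ls k k' q

/-- the name of the generic surjection -/
def surjN (L : LineN P) (At : P → Om → Om → Prop) : Name P :=
  relN (ι := {z : (Om × Om) × P // At z.2 z.1.1 z.1.2}) (fun z => L.N z.1.1.1)
    (fun z => L.N z.1.1.2) (fun z => z.1.2)

theorem rel_surjN {At : P → Om → Om → Prop} {f : g.M} (hf : g.Den (surjN L At) f) {x y : g.M} :
    Rel g.E f x y ↔ ∃ a k, ∃ q ∈ g.G, At q a k ∧ g.Den (L.N a) x ∧ g.Den (L.N k) y := by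
  rw [surjN] at hf
  rw [den_relN hf]
  constructor
  · rintro ⟨⟨⟨⟨a, k⟩, q⟩, h⟩, hq, h1, h2⟩
    exact ⟨a, k, q, hq, h, h1, h2⟩
  · rintro ⟨a, k, q, hq, h, h1, h2⟩
    exact ⟨⟨((a, k), q), h⟩, hq, h1, h2⟩

theorem surj_total {κ : Name P} {p : P} {At : P → Om → Om → Prop} (D : SurjData L κ p At)
    (hp : p ∈ g.G) {f K : g.M} (hf : g.Den (surjN L At) f) (hK : g.Den κ K) {a : Om} {x : g.M}
    (hx : g.Den (L.N a) x) : ∃ y, g.E y K ∧ Rel g.E f x y := by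
  have key : Fc p ![L.N a, surjN L At, κ]
      (fun _ E v => ∃ y, E y (v 2) ∧ Rel E (v 1) (v 0) y) := by
    have hD : Dfn (n := 3) (fun _ E v => ∃ y, E y (v 2) ∧ Rel E (v 1) (v 0) y) :=
      .ex (.and (.mem _ _) (dfn_rel _ _ _))
    refine Fc.stable hD fun q hq => ?_
    obtain ⟨r, hr, k, hk⟩ := D.total q hq a
    refine ⟨r, hr, Fc.with_names hD (L := {L.N k}) (Set.countable_singleton _) ?_⟩
    intro g' hg' hL w hw
    obtain ⟨y, hy⟩ := hL _ rfl
    refine ⟨y, ?_, ?_⟩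
    · exact D.into r a k hk g' hg' ![y, w 2] (den2 hy (hw 2))
    · exact (rel_surjN (hw 1)).2 ⟨a, k, r, hg', hk, hw 0, hy⟩
  exact key g hp ![x, f, K] (den3 hx hf hK)

theorem surj_onto {κ : Name P} {p : P} {At : P → Om → Om → Prop} (D : SurjData L κ p At)
    {q : P} (hqp : q ≤ p) (hq : q ∈ g.G) {f A : g.M} (hf : g.Den (surjN L At) f)
    (hA : g.Den L.AN A) {k : Om}
    (hqk : Fc q ![L.N k, κ] (fun _ E v => E (v 0) (v 1))) {y : g.M}
    (hy : g.Den (L.N k) y) : ∃ x, g.E x A ∧ Rel g.E f x y := by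
  have key : Fc q ![L.N k, surjN L At, L.AN]
      (fun _ E v => ∃ x, E x (v 2) ∧ Rel E (v 1) x (v 0)) := by
    have hD : Dfn (n := 3) (fun _ E v => ∃ x, E x (v 2) ∧ Rel E (v 1) x (v 0)) :=
      .ex (.and (.mem _ _) (dfn_rel _ _ _))
    refine Fc.stable hD fun q' hq' => ?_
    obtain ⟨r, hr, a, ha⟩ := D.surj q' (hq'.trans hqp) k (hqk.mono hq')
    refine ⟨r, hr, Fc.with_names hD (L := {L.N a}) (Set.countable_singleton _) ?_⟩
    intro g' hg' hL w hw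
    obtain ⟨x, hx⟩ := hL _ rfl
    refine ⟨x, ?_, ?_⟩
    · exact (LineN.mem_AN (hw 2) x).2 ⟨a, hx⟩
    · exact (rel_surjN (hw 1)).2 ⟨a, k, r, hg', ha, hx, hw 0⟩
  exact key g hq ![y, f, A] (den3 hy hf hA)

theorem line_strSurj (H : ∀ (κ : Name P) (p : P),
    (∀ q ≤ p, ∃ r ≤ q, ∃ a, Fc r ![L.N a, κ] (fun _ E v => E (v 0) (v 1))) →
      ∃ At, SurjData L κ p At)
    {A r : g.M} (hA : g.Den L.AN A) (hr : g.Den L.ON r) : StrSurj g.E A r := by
  intro K hK hne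
  obtain ⟨κ, hκ⟩ := g.exists_den K
  have hR : Dfn (n := 3) (fun _ E w => IsSub E (w 2) (w 0) ∧ ∃ y, E y (w 2)) :=
    .and (dfn_isSub _ _) (.ex (.mem _ _))
  refine Gen.tp (g := g) (v := ![L.AN, L.ON, κ]) (a := ![A, r, K]) (den3 hA hr hκ)
    hR (dfn_isOnto 0 1 2) ?_ ⟨hK, hne⟩
  intro p hp
  have dens : ∀ q ≤ p, ∃ r ≤ q, ∃ a, Fc r ![L.N a, κ] (fun _ E v => E (v 0) (v 1)) := by
    intro q hq
    obtain ⟨g', hg', w, hw⟩ := exists_gen_fin q ![L.AN, L.ON, κ]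
    obtain ⟨hsub, y, hy⟩ := hp g' (g'.up q hg' p hq) w hw
    obtain ⟨a, ha⟩ := (LineN.mem_AN (hw 0) y).1 (hsub y hy)
    have hm : Dfn (n := 2) (fun _ E v => E (v 0) (v 1)) := .mem 0 1
    obtain ⟨p', hp', hf⟩ := (Fc.truth hm (v := ![L.N a, κ]) (a := ![y, w 2])
      (den2 ha (hw 2))).1 hy
    obtain ⟨r', -, h1, h2⟩ := g'.dir q hg' p' hp'
    exact ⟨r', h1, a, hf.mono h2⟩
  obtain ⟨At, D⟩ := H κ p dens
  refine ⟨p, le_rfl, {surjN L At}, Set.countable_singleton _, ?_⟩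
  intro g' hp' hL w hw hRw
  obtain ⟨f, hf⟩ := hL _ rfl
  have hA' : g'.Den L.AN (w 0) := hw 0
  have hr' : g'.Den L.ON (w 1) := hw 1
  have hκ' : g'.Den κ (w 2) := hw 2
  obtain ⟨hsub, -⟩ := hRw
  have hone : ∀ a k k' q q', q ∈ g'.G → q' ∈ g'.G → At q a k → At q' a k' → k = k' := by
    intro a k k' q q' hq hq' h h'
    obtain ⟨s, -, h1, h2⟩ := g'.dir q hq q' hq'
    exact D.func s a k k' (D.anti q s a k h h1) (D.anti q' s a k' h' h2)
  refine ⟨f, ?_, ?_, ?_⟩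
  · intro x hx
    obtain ⟨a, ha⟩ := (LineN.mem_AN hA' x).1 hx
    obtain ⟨y, hyK, hxy⟩ := surj_total D hp' hf hκ' ha
    refine ⟨y, hyK, hxy, fun z hz => ?_⟩
    obtain ⟨a1, k1, q1, hq1, h1, hx1, hy1⟩ := (rel_surjN hf).1 hxy
    obtain ⟨a2, k2, q2, hq2, h2, hx2, hz2⟩ := (rel_surjN hf).1 hz
    have e : a1 = a2 := L.inj g' _ _ _ hx1 hx2
    subst e
    have e' : k1 = k2 := hone _ _ _ _ _ hq1 hq2 h1 h2
    subst e'
    exact hz2.unique hy1
  · intro y hy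
    obtain ⟨k, hk⟩ := (LineN.mem_AN hA' y).1 (hsub y hy)
    have hm : Dfn (n := 2) (fun _ E v => E (v 0) (v 1)) := .mem 0 1
    obtain ⟨q, hq, hqf⟩ := (Fc.truth hm (v := ![L.N k, κ]) (a := ![y, w 2])
      (den2 hk hκ')).1 hy
    obtain ⟨s, hs, h1, h2⟩ := g'.dir q hq p hp'
    exact surj_onto D h2 hs hf hA' (hqf.mono h1) hk
  · intro x x' y y' hx hx' hxx hxy hxy'
    obtain ⟨a1, k1, q1, hq1, h1, hx1, hy1⟩ := (rel_surjN hf).1 hxy
    obtain ⟨a2, k2, q2, hq2, h2, hx2, hy2⟩ := (rel_surjN hf).1 hxy'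
    obtain ⟨q0, hq0, h0⟩ := (LineN.rel_ON hr' hx1 hx2).1 hxx
    obtain ⟨s, hs, hs1, hs2⟩ := g'.dir q1 hq1 q2 hq2
    obtain ⟨t, ht, ht1, ht2⟩ := g'.dir s hs q0 hq0
    rcases D.mono t a1 k1 a2 k2 (D.anti _ _ _ _ h1 (ht1.trans hs1))
      (D.anti _ _ _ _ h2 (ht1.trans hs2)) (L.anti h0 ht2) with e | h
    · subst e
      exact Or.inl (hy1.unique hy2)
    · exact Or.inr ((LineN.rel_ON hr' hy1 hy2).2 ⟨t, ht, h⟩)

end Pool.Agent.H90.Mx
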