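import Pool.Agent.H90.Mx.CutC
import Pool.Agent.H90.Mx.CutI
import Pool.Agent.H90.Mx.LineB
import Pool.Agent.H90.Mx.LineOnto
import Pool.Agent.H90.Mx.DensR
import Pool.Agent.H90.Mx.DensR2
import Pool.Agent.H90.Mx.DensA
import Pool.Agent.H90.Mx.DensB

/-!
# The two lines of the coexistence theorem
-/

set_option autoImplicit false

namespace Pool.Agent.H90.Mx

open Frc Ordinal
open Pool.Agent.H90.SN (Om IsCcc om_not_countable)

theorem realPart_co : RealPart CP.r where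
  mono := CP.r_mono
  ext p s hs := by
    obtain ⟨q, h1, h2, -, -⟩ := p.exists_static hs le_rfl
    exact ⟨q, h1, h2⟩

/-- the line of reals -/
noncomputable def lineR : LineN CP where
  N := xN CP.r
  Ls a b p := p.r.Lt a b
  anti h hq := h.mono (CP.r_mono hq)
  tot p a b hab := by
    obtain ⟨s, hs, h⟩ := SR.exists_decide p.r {a, b}
    obtain ⟨q, h1, h2, -, -⟩ := p.exists_static hs le_rfl
    refine ⟨q, h1, ?_⟩
    rw [h2]
    exact h a (by simp) b (by simp) hab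
  irrefl a p h := h.ne rfl
  trans {_ _ _ p} h h' := ⟨p, le_rfl, h.trans h'⟩
  inj := inj_xN realPart_co

/-- the Aronszajn line -/
noncomputable def lineA : LineN CP where
  N a := onN CP a.toOrd.1
  Ls a b p := ∃ δ, p.t.Tri a b δ
  anti := by
    rintro a b p q ⟨δ, h⟩ hq
    exact ⟨δ, h.mono (CP.t_mono hq)⟩
  tot p a b hab := by
    obtain ⟨t, ht, h⟩ := SE.exists_decide p.t {a, b}
    obtain ⟨q, h1, -, h2, -⟩ := p.exists_static le_rfl ht
    refine ⟨q, h1, ?_⟩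
    rw [h2]
    obtain ⟨δ, h3 | h3⟩ := h a (by simp) b (by simp) hab
    · exact Or.inl ⟨δ, h3⟩
    · exact Or.inr ⟨δ, h3⟩
  irrefl := by
    rintro a p ⟨δ, h⟩
    exact h.ne rfl
  trans := by
    rintro a b c p ⟨δ, h⟩ ⟨δ', h'⟩
    obtain ⟨f, hf⟩ := p.t.2
    obtain ⟨t, ht, -, h1⟩ := SE.exists_all hf {a, c}
    obtain ⟨q, h2, -, h3, -⟩ := p.exists_static le_rfl ht
    refine ⟨q, h2, min δ δ', ?_⟩
    rw [h3]
    exact h1 a (by simp) c (by simp) _ ((h.dl hf).trans (h'.dl hf))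
  inj _ _ _ _ h h' := toOrd_inj (onN_inj h h')

theorem lineA_AN : lineA.AN = onN CP (ω_ 1) := (onN_def (ω_ 1)).symm

theorem lineR_strSurj {g : Gen CP} {A r : g.M} (hA : g.Den lineR.AN A) (hr : g.Den lineR.ON r) :
    StrSurj g.E A r := by
  refine line_strSurj (fun κ p hκ => ?_) hA hr
  obtain ⟨i, e, h⟩ := exists_goodR (p := p)
    (φ := fun k q => Fc q ![lineR.N k, κ] (fun _ E v => E (v 0) (v 1)))
    (fun k q q' hq h => h.mono hq) hκ
  refine ⟨fun q a k => At q i a k, ?_, ?_, h.total, ?_, ?_, ?_⟩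
  · exact fun q q' a k h1 h2 => h1.mono h2
  · exact fun q a k h1 => h.sound k q h1.kin
  · intro q hq k hk
    obtain ⟨r, hr, h1⟩ := h.complete k q hq hk
    obtain ⟨r', hr', a, h2⟩ := h.surj r k h1
    exact ⟨r', hr'.trans hr, a, h2⟩
  · exact fun q a k k' h1 h2 => h1.funR h.kd h2
  · exact fun q a k a' k' h1 h2 h3 => h1.monoR h.kd h2 h3

theorem lineA_strSurj {g : Gen CP} {A r : g.M} (hA : g.Den lineA.AN A) (hr : g.Den lineA.ON r) :
    StrSurj g.E A r := by
  refine line_strSurj (fun κ p hκ => ?_) hA hr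
  obtain ⟨i, e, h⟩ := exists_goodA (p := p)
    (φ := fun k q => Fc q ![lineA.N k, κ] (fun _ E v => E (v 0) (v 1)))
    (fun k q q' hq h => h.mono hq) hκ
  refine ⟨fun q a k => At q i a k, ?_, ?_, h.total, ?_, ?_, ?_⟩
  · exact fun q q' a k h1 h2 => h1.mono h2
  · exact fun q a k h1 => h.sound k q h1.kin
  · intro q hq k hk
    obtain ⟨r, hr, h1⟩ := h.complete k q hq hk
    obtain ⟨r', hr', a, h2⟩ := h.surj r k h1
    exact ⟨r', hr'.trans hr, a, h2⟩
  · exact fun q a k k' h1 h2 => h1.funA h.kd h2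
  · rintro q a k a' k' h1 h2 ⟨δ, h3⟩
    exact h1.monoA h.kd h2 h3

end Pool.Agent.H90.Mx
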