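import Pool.Agent.H90.Mx.CutN
import Pool.Agent.H90.Mx.SRealSep

/-!
# The generic reals are Dedekind cuts (module CUTC)

* `isCut_xN`: by `isCut_iff` we have to check `NCut (cs g x)` (and `IsSub g.E x w`, clear).
  For a realizer `f` of `ρ p` and any `ε > 0` we can add the triple `(η, f η - ε, f η + ε)`, so:
  (1) some `q ≤ p` contains a triple for `η`; (2) if `(η, a, b) ∈ ρ p` then some `q ≤ p` contains a triple
  `(η, a', b')` with `a < a'`.  Since `IsCut E w l x` is a definable statement about the names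
  `![onN ω, ltN, xN ρ η]` it is enough to show for every `u : ℚ` etc. the corresponding statements for
  generic `g` by forcing (`Gen.tp` / `Fc.stable`).  Nonempty: (1), `Gen.tp` with `S = ∃ y, y ∈ x`.
  Proper: if `(η, a, b) ∈ ρ p`, `p ∈ G` then `b ∉ cs g x` (two triples `(η, a, b), (η, a', b')` in the same
  real part satisfy `a' < b`).  Downward closed: clear.  No maximum: for `u ∈ cs g x` apply `Gen.tp` with
  `v = ![qN u, xN ρ η, ltN]`, `R = E (v 0) (v 1)`, `S = ∃ y, E y (v 1) ∧ Rel (v 2) (v 0) y`: if `p ⊩ R`, take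
  a generic `g' ∋ p`; there is `p' ∈ G'` with `(η, a, b) ∈ ρ p'`, `u ≤ a`; take a common extension
  `q` of `p`, `p'` and extend it by (2); use the extra name `qN a'`.
-/

set_option autoImplicit false

namespace Pool.Agent.H90.Mx

open Frc Ordinal
open Pool.Agent.H90.SN (Om)

variable {P : Type} [PartialOrder P] [OrderTop P] {ρ : P → SR} {g : Gen P}

omit [OrderTop P] in
private theorem cc_ext (hρ : RealPart ρ) (p : P) (η : Om) {c d : ℚ} {f : Om → ℚ}
    (hf : RzR f (ρ p).1) (h : c < f η ∧ f η < d) : ∃ q ≤ p, (η, c, d) ∈ (ρ q).1 := by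
  classical
  have hs : RzR f (insert (η, c, d) (ρ p).1) := by
    intro x hx
    rcases Finset.mem_insert.1 hx with rfl | hx
    · exact h
    · exact hf x hx
  obtain ⟨q, hq, hqs⟩ := hρ.ext p (s := ⟨insert (η, c, d) (ρ p).1, f, hs⟩)
    (Finset.subset_insert _ _)
  refine ⟨q, hq, ?_⟩
  rw [hqs]
  exact Finset.mem_insert_self _ _

/-- a member of the generic real -/
private theorem cc_mem {g : Gen P} {η : Om} {x y : g.M} (hx : g.Den (xN ρ η) x) {u : ℚ}
    (hy : g.Den (qN P u) y) {p : P} (hp : p ∈ g.G) {a b : ℚ} (h : (η, a, b) ∈ (ρ p).1)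
    (hu : u ≤ a) : g.E y x :=
  (Gen.mem_iff hx).2 ⟨⟨(u, p), a, b, h, hu⟩, hp, hy⟩

private theorem cc_of_mem {g : Gen P} {η : Om} {x y : g.M} (hx : g.Den (xN ρ η) x)
    (h : g.E y x) : ∃ u, g.Den (qN P u) y ∧ ∃ p ∈ g.G, ∃ a b, (η, a, b) ∈ (ρ p).1 ∧ u ≤ a := by
  obtain ⟨⟨⟨u, p⟩, a, b, h1, h2⟩, hp, hy⟩ := (Gen.mem_iff hx).1 h
  exact ⟨u, hy, p, hp, a, b, h1, h2⟩

theorem isCut_xN (hρ : RealPart ρ) {η : Om} {x w l : g.M} (hw : g.Den (onN P ω) w)
    (hl : g.Den (ltN P) l) (hx : g.Den (xN ρ η) x) : IsCut g.E w l x := by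
  -- nonempty
  have hne : ∃ y, g.E y x := by
    have h1 := Gen.tp (v := ![xN ρ η]) (a := ![x]) (den1 hx) (R := fun _ _ _ => True)
      (S := fun _ E v => ∃ y, E y (v 0)) Dfn.true (.ex (.mem _ _)) (fun p _ => by
        obtain ⟨f, hf⟩ := (ρ p).2
        obtain ⟨q, hq, hq'⟩ := cc_ext hρ p η (c := f η - 1) (d := f η + 1) hf
          ⟨by linarith, by linarith⟩
        refine ⟨q, hq, {qN P (f η - 1)}, Set.countable_singleton _, ?_⟩
        intro g' hg' hL a ha _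
        obtain ⟨y, hy⟩ := hL _ rfl
        exact ⟨y, cc_mem (ha 0) hy hg' hq' le_rfl⟩) trivial
    exact h1
  rw [isCut_iff hw hl]
  refine ⟨fun z hz => ?_, ?_, ?_, ?_, ?_⟩
  · obtain ⟨u, hu, -⟩ := cc_of_mem hx hz
    exact qN_mem hw hu
  · obtain ⟨y, hy⟩ := hne
    obtain ⟨u, hu, -⟩ := cc_of_mem hx hy
    exact ⟨u, y, hu, hy⟩
  · obtain ⟨y, hy⟩ := hne
    obtain ⟨u, -, p, hp, a, b, hab, -⟩ := cc_of_mem hx hy
    refine ⟨b, ?_⟩
    rintro ⟨z, hz, hzx⟩
    obtain ⟨u', hu', p', hp', a', b', hab', hle⟩ := cc_of_mem hx hzx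
    have e1 := qN_inj hz hu'
    subst e1
    obtain ⟨r, -, h1, h2⟩ := g.dir p hp p' hp'
    obtain ⟨f, hf⟩ := (ρ r).2
    have h3 := (hf _ (hρ.mono h1 hab)).2
    have h4 := (hf _ (hρ.mono h2 hab')).1
    simp only at h3 h4
    linarith
  · rintro a ⟨y, hy, hyx⟩ b hba
    obtain ⟨u, hu, p, hp, c, d, hcd, hle⟩ := cc_of_mem hx hyx
    have e1 := qN_inj hy hu
    subst e1
    obtain ⟨z, hz⟩ := exists_qN hw b
    exact ⟨z, hz, cc_mem hx hz hp hcd (hba.le.trans hle)⟩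
  · rintro u ⟨y, hy, hyx⟩
    have h1 := Gen.tp (v := ![qN P u, xN ρ η, ltN P]) (a := ![y, x, l]) (den3 hy hx hl)
      (R := fun _ E v => E (v 0) (v 1))
      (S := fun _ E v => ∃ z, E z (v 1) ∧ Rel E (v 2) (v 0) z) (.mem _ _)
      (.ex (.and (.mem _ _) (dfn_rel _ _ _))) (fun p hp => by
        obtain ⟨g', hg', a', ha'⟩ := exists_gen_fin p ![qN P u, xN ρ η, ltN P]
        have h2 := hp g' hg' a' ha'
        obtain ⟨u', hu', p', hp', a, b, hab, hle⟩ := cc_of_mem (ha' 1) h2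
        have e1 := qN_inj (ha' 0) hu'
        subst e1
        obtain ⟨r, -, h3, h4⟩ := g'.dir p hg' p' hp'
        obtain ⟨f, hf⟩ := (ρ r).2
        have h5 := (hf _ (hρ.mono h4 hab)).1
        simp only at h5
        obtain ⟨q, hq, hq'⟩ := cc_ext hρ r η (c := (f η + a) / 2) (d := f η + 1) hf
          ⟨by linarith, by linarith⟩
        refine ⟨q, hq.trans h3, {qN P ((f η + a) / 2)}, Set.countable_singleton _, ?_⟩
        intro g'' hg'' hL c hc _
        obtain ⟨z, hz⟩ := hL _ rfl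
        exact ⟨z, cc_mem (hc 1) hz hg'' hq' le_rfl,
          (rel_ltN (hc 2) (hc 0) hz).2 (by linarith)⟩) hyx
    obtain ⟨z, hz, hyz⟩ := h1
    obtain ⟨r, hr, -⟩ := cc_of_mem hx hz
    exact ⟨r, ⟨z, hr, hz⟩, (rel_ltN hl hy hr).1 hyz⟩

end Pool.Agent.H90.Mx
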