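import Pool.Agent.H90.SN.Sys

/-!
# Finite approximations of an injection of `ω₁` into the reals 

`SR`: finite sets `J` of triples `(η, a, b)` (meaning: the real `x_η` is in the interval `(a, b)`) which have
a realizer `f : Om → ℚ`.
`Lt s η ζ`: the intervals of `s` show `x_η < x_ζ`.

-/

set_option autoImplicit false

namespace Pool.Agent.H90.Mx

open Pool.Agent.H90.SN

def RzR (f : Om → ℚ) (J : Finset (Om × ℚ × ℚ)) : Prop :=
  ∀ x ∈ J, x.2.1 < f x.1 ∧ f x.1 < x.2.2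

def SR : Type := {J : Finset (Om × ℚ × ℚ) // ∃ f, RzR f J}

instance : PartialOrder SR where
  le s t := t.1 ⊆ s.1
  le_refl s := Finset.Subset.refl s.1
  le_trans _ _ _ h h' := Finset.Subset.trans h' h
  le_antisymm s t h h' := Subtype.ext (Finset.Subset.antisymm h' h)

instance : OrderTop SR where
  top := ⟨∅, fun _ => 0, by simp [RzR]⟩
  le_top s := Finset.empty_subset _

namespace SR

theorem le_def {s t : SR} : s ≤ t ↔ t.1 ⊆ s.1 := Iff.rfl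

/-- `s` decides `x_η < x_ζ` -/
def Lt (s : SR) (η ζ : Om) : Prop :=
  ∃ x ∈ s.1, ∃ y ∈ s.1, x.1 = η ∧ y.1 = ζ ∧ x.2.2 ≤ y.2.1

theorem Lt.mono {s t : SR} {η ζ : Om} (h : Lt s η ζ) (ht : t ≤ s) : Lt t η ζ := by
  obtain ⟨x, hx, y, hy, h⟩ := h
  exact ⟨x, ht hx, y, ht hy, h⟩

theorem Lt.lt {s : SR} {η ζ : Om} (h : Lt s η ζ) {f : Om → ℚ} (hf : RzR f s.1) : f η < f ζ := by
  obtain ⟨x, hx, y, hy, rfl, rfl, h⟩ := h
  exact ((hf x hx).2.trans_le h).trans (hf y hy).1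

theorem Lt.ne {s : SR} {η ζ : Om} (h : Lt s η ζ) : η ≠ ζ := by
  obtain ⟨f, hf⟩ := s.2
  rintro rfl
  exact lt_irrefl _ (h.lt hf)

theorem Lt.asymm {s : SR} {η ζ : Om} (h : Lt s η ζ) : ¬ Lt s ζ η := by
  obtain ⟨f, hf⟩ := s.2
  exact fun h' => lt_asymm (h.lt hf) (h'.lt hf)

theorem Lt.trans {s : SR} {η ζ ξ : Om} (h : Lt s η ζ) (h' : Lt s ζ ξ) : Lt s η ξ := by
  obtain ⟨f, hf⟩ := s.2
  obtain ⟨x, hx, y, hy, rfl, rfl, h1⟩ := h
  obtain ⟨x', hx', y', hy', h2, rfl, h3⟩ := h'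
  refine ⟨x, hx, y', hy', rfl, rfl, ?_⟩
  have e1 := (hf y hy).1
  have e2 := (hf x' hx').2
  rw [h2] at e2
  linarith

end SR

end Pool.Agent.H90.Mx
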