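import Pool.Agent.H90.Frc.Fml

/-!
# The statement about strongly surjective linear orders

Everything here is about an arbitrary structure `(M, E)` with one binary relation `E`, read as
membership.  All quantifiers of the predicates below range over the elements of `M`.  The basic
vocabulary (`IsSub`, `Rel`, `SizeLe`, `IsOmega`, `IsOmega1`, `IsRat`, `IsReals`) is in
`Pool/Agent/H90/Frc/Stmt.lean`.
-/

set_option autoImplicit false

namespace Pool.Agent.H90.Mx

open Frc

section Vocabulary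

variable {M : Type} (E : M → M → Prop)

/-- `r` is a strict linear order of the set `A` -/
def IsLin (A r : M) : Prop :=
  (∀ x, E x A → ¬ Rel E r x x) ∧
  (∀ x y z, E x A → E y A → E z A → Rel E r x y → Rel E r y z → Rel E r x z) ∧
  (∀ x y, E x A → E y A → x = y ∨ Rel E r x y ∨ Rel E r y x)

/-- `f` restricted to `A` is a function from `A` to `B` -/
def IsFun (f A B : M) : Prop :=
  ∀ x, E x A → ∃ y, E y B ∧ Rel E f x y ∧ ∀ z, Rel E f x z → z = y

/-- there is a strictly increasing function from `(A, r)` to `(B, s)` (if `r` is a linear order of `A`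
and `s` a linear order of `B`: `(A, r)` is isomorphic to a suborder of `(B, s)`) -/
def Emb (A r B s : M) : Prop :=
  ∃ f, IsFun E f A B ∧ ∀ x x' y y', E x A → E x' A → Rel E r x x' → Rel E f x y →
    Rel E f x' y' → Rel E s y y'

/-- there is a weakly increasing function from `(A, r)` onto `(K, r)` -/
def IsOnto (A r K : M) : Prop :=
  ∃ f, IsFun E f A K ∧ (∀ y, E y K → ∃ x, E x A ∧ Rel E f x y) ∧
    ∀ x x' y y', E x A → E x' A → Rel E r x x' → Rel E f x y → Rel E f x' y' →
      y = y' ∨ Rel E r y y'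

/-- `(A, r)` is strongly surjective: it can be mapped onto each of its nonempty suborders -/
def StrSurj (A r : M) : Prop := ∀ K, IsSub E K A → (∃ y, E y K) → IsOnto E A r K

/-- `e` is the membership relation on `o` -/
def IsMemRel (o e : M) : Prop := ∀ x y, Rel E e x y ↔ E x o ∧ E y o ∧ E x y

/-- `e'` is the reverse of the relation `e` -/
def IsRev (e e' : M) : Prop := ∀ x y, Rel E e' x y ↔ Rel E e y x

/-- `s` is the usual strict order of the set of reals `R` (proper inclusion of Dedekind cuts) -/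
def IsRealOrd (R s : M) : Prop := ∀ x y, Rel E s x y ↔ E x R ∧ E y R ∧ IsSub E x y ∧ x ≠ y

/-- `(A, r)` is an Aronszajn line: an uncountable linear order without suborders isomorphic to
`ω₁ = (o, e)`, to its reverse `(o, e')`, or to an uncountable set of reals -/
def IsAronszajn (w o e e' R s A r : M) : Prop :=
  IsLin E A r ∧ ¬ SizeLe E A w ∧ ¬ Emb E o e A r ∧ ¬ Emb E o e' A r ∧
    ∀ B, IsSub E B A → ¬ SizeLe E B w → ¬ Emb E B r R s

/-- In `(M, E)`: there are an uncountable strongly surjective linear order `(A, r)` which is isomorphic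
to a set of reals, and a strongly surjective Aronszajn line `(B, t)`. -/
def CoexistStatement : Prop :=
  ∃ w o e e' Q lt R s, IsOmega E w ∧ IsOmega1 E w o ∧ IsMemRel E o e ∧ IsRev E e e' ∧
    IsRat E w Q lt ∧ IsReals E Q lt R ∧ IsRealOrd E R s ∧
    (∃ A r, IsLin E A r ∧ ¬ SizeLe E A w ∧ Emb E A r R s ∧ StrSurj E A r) ∧
    ∃ B t, IsAronszajn E w o e e' R s B t ∧ StrSurj E B t

end Vocabulary

section

variable {n : ℕ}

theorem dfn_isLin (i j : Fin n) : Dfn (fun _ E v => IsLin E (v i) (v j)) :=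
  .and (.all (.imp (.mem _ _) (.not (dfn_rel _ _ _)))) (.and
    (.all (.all (.all (.imp (.mem _ _) (.imp (.mem _ _) (.imp (.mem _ _)
      (.imp (dfn_rel _ _ _) (.imp (dfn_rel _ _ _) (dfn_rel _ _ _)))))))))
    (.all (.all (.imp (.mem _ _) (.imp (.mem _ _) (.or (.eq _ _)
      (.or (dfn_rel _ _ _) (dfn_rel _ _ _))))))))

theorem dfn_isFun (i j k : Fin n) : Dfn (fun _ E v => IsFun E (v i) (v j) (v k)) :=
  .all (.imp (.mem _ _) (.ex (.and (.mem _ _) (.and (dfn_rel _ _ _)
    (.all (.imp (dfn_rel _ _ _) (.eq _ _)))))))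

theorem dfn_emb (i j k l : Fin n) : Dfn (fun _ E v => Emb E (v i) (v j) (v k) (v l)) :=
  .ex (.and (dfn_isFun _ _ _) (.all (.all (.all (.all (.imp (.mem _ _) (.imp (.mem _ _)
    (.imp (dfn_rel _ _ _) (.imp (dfn_rel _ _ _) (.imp (dfn_rel _ _ _) (dfn_rel _ _ _)))))))))))

theorem dfn_isOnto (i j k : Fin n) : Dfn (fun _ E v => IsOnto E (v i) (v j) (v k)) :=
  .ex (.and (dfn_isFun _ _ _) (.and (.all (.imp (.mem _ _) (.ex (.and (.mem _ _)
    (dfn_rel _ _ _))))) (.all (.all (.all (.all (.imp (.mem _ _) (.imp (.mem _ _)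
    (.imp (dfn_rel _ _ _) (.imp (dfn_rel _ _ _) (.imp (dfn_rel _ _ _)
      (.or (.eq _ _) (dfn_rel _ _ _)))))))))))))

theorem dfn_strSurj (i j : Fin n) : Dfn (fun _ E v => StrSurj E (v i) (v j)) :=
  .all (.imp (dfn_isSub _ _) (.imp (.ex (.mem _ _)) (dfn_isOnto _ _ _)))

theorem dfn_isMemRel (i j : Fin n) : Dfn (fun _ E v => IsMemRel E (v i) (v j)) :=
  .all (.all (.iff (dfn_rel _ _ _) (.and (.mem _ _) (.and (.mem _ _) (.mem _ _)))))

theorem dfn_isRev (i j : Fin n) : Dfn (fun _ E v => IsRev E (v i) (v j)) :=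
  .all (.all (.iff (dfn_rel _ _ _) (dfn_rel _ _ _)))

theorem dfn_isRealOrd (i j : Fin n) : Dfn (fun _ E v => IsRealOrd E (v i) (v j)) :=
  .all (.all (.iff (dfn_rel _ _ _) (.and (.mem _ _) (.and (.mem _ _) (.and (dfn_isSub _ _)
    (.not (.eq _ _)))))))

theorem dfn_isAronszajn (i1 i2 i3 i4 i5 i6 i7 i8 : Fin n) :
    Dfn (fun _ E v => IsAronszajn E (v i1) (v i2) (v i3) (v i4) (v i5) (v i6) (v i7) (v i8)) :=
  .and (dfn_isLin _ _) (.and (.not (dfn_sizeLe _ _)) (.and (.not (dfn_emb _ _ _ _))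
    (.and (.not (dfn_emb _ _ _ _)) (.all (.imp (dfn_isSub _ _) (.imp (.not (dfn_sizeLe _ _))
      (.not (dfn_emb _ _ _ _))))))))

theorem dfn_coexistStatement : Dfn (n := n) (fun _ E _ => CoexistStatement E) :=
  .ex (.ex (.ex (.ex (.ex (.ex (.ex (.ex (.and (dfn_isOmega _) (.and (dfn_isOmega1 _ _)
    (.and (dfn_isMemRel _ _) (.and (dfn_isRev _ _) (.and (dfn_isRat _ _ _)
    (.and (dfn_isReals _ _ _) (.and (dfn_isRealOrd _ _)
    (.and (.ex (.ex (.and (dfn_isLin _ _) (.and (.not (dfn_sizeLe _ _)) (.and (dfn_emb _ _ _ _)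
      (dfn_strSurj _ _))))))
    (.ex (.ex (.and (dfn_isAronszajn _ _ _ _ _ _ _ _) (dfn_strSurj _ _)))))))))))))))))))

end

end Pool.Agent.H90.Mx
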