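import Pool.Agent.H90.Frc.Rats
import Pool.Agent.H90.Mx.SReal
import Pool.Agent.H90.Mx.Stmt

/-!
# Names of generic reals (module CUTN)

General situation: a forcing `P` with a function `ρ : P → SR` (the real part) which is monotone and such
that real parts can be extended arbitrarily (`RealPart`).  The real `x_η` is the Dedekind cut
`{u : ℚ | ∃ p ∈ G, ∃ (η, a, b) ∈ ρ p, u ≤ a}`.

* `mem_xN`: from `Gen.mem_iff` (the name `xN ρ η` is indexed by pairs `(u, p)`).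
* `lt_xN`: if `p ∈ G`, `Lt (ρ p) η ζ`, with triples `(η, a, b)`, `(ζ, c, d)`, `b ≤ c`: for
  `u ∈ cs g x` (`u ≤ a'`, `(η, a', b') ∈ ρ q`) a common extension shows `a' < b`, so `u < c` and `u ∈ cs g y`;
  `c ∈ cs g y`, and `c ∉ cs g x` as `b ≤ c`.
-/

set_option autoImplicit false

namespace Pool.Agent.H90.Mx

open Frc Ordinal
open Pool.Agent.H90.SN (Om)

variable {P : Type} [PartialOrder P] [OrderTop P]

structure RealPart (ρ : P → SR) : Prop where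
  mono : ∀ {p q : P}, q ≤ p → ρ q ≤ ρ p
  ext : ∀ (p : P) {s : SR}, s ≤ ρ p → ∃ q ≤ p, ρ q = s

/-- the name of the `η`-th generic real -/
noncomputable def xN (ρ : P → SR) (η : Om) : Name P :=
  .mk {z : ℚ × P // ∃ a b, (η, a, b) ∈ (ρ z.2).1 ∧ z.1 ≤ a} (fun z => qN P z.1.1)
    (fun z => z.1.2)

variable {ρ : P → SR} {g : Gen P}

theorem mem_xN {η : Om} {x w : g.M} (hw : g.Den (onN P ω) w) (hx : g.Den (xN ρ η) x) (u : ℚ) :
    u ∈ cs g x ↔ ∃ p ∈ g.G, ∃ a b, (η, a, b) ∈ (ρ p).1 ∧ u ≤ a := by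
  constructor
  · rintro ⟨z, hz, hzx⟩
    obtain ⟨⟨⟨u', p⟩, a, b, hab, hle⟩, hp, hz'⟩ := (Gen.mem_iff hx).1 hzx
    have e : u = u' := qN_inj hz hz'
    subst e
    exact ⟨p, hp, a, b, hab, hle⟩
  · rintro ⟨p, hp, a, b, hab, hle⟩
    obtain ⟨z, hz⟩ := exists_qN hw u
    exact ⟨z, hz, (Gen.mem_iff hx).2 ⟨⟨(u, p), a, b, hab, hle⟩, hp, hz⟩⟩

theorem lt_xN (hρ : RealPart ρ) {η ζ : Om} {x y w : g.M} (hw : g.Den (onN P ω) w)
    (hx : g.Den (xN ρ η) x) (hy : g.Den (xN ρ ζ) y) {p : P} (hp : p ∈ g.G)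
    (h : (ρ p).Lt η ζ) : IsSub g.E x y ∧ x ≠ y := by
  obtain ⟨⟨η', a, b⟩, h1, ⟨ζ', c, d⟩, h2, e1, e2, hbc⟩ := h
  simp only at e1 e2 hbc
  subst e1 e2
  have key : ∀ u ∈ cs g x, u < b := by
    intro u hu
    obtain ⟨q, hq, a', b', hab, hle⟩ := (mem_xN hw hx u).1 hu
    obtain ⟨r, -, hr1, hr2⟩ := g.dir p hp q hq
    obtain ⟨f, hf⟩ := (ρ r).2
    have h3 := hf _ (hρ.mono hr1 h1)
    have h4 := hf _ (hρ.mono hr2 hab)
    exact hle.trans_lt (h4.1.trans h3.2)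
  constructor
  · intro z hz
    obtain ⟨⟨⟨u, q⟩, hi⟩, hq, hz'⟩ := (Gen.mem_iff hx).1 hz
    have hzq : g.Den (qN P u) z := hz'
    have hu : u ∈ cs g x := (mem_cs hzq).2 hz
    rw [← mem_cs hzq]
    exact (mem_xN hw hy u).2 ⟨p, hp, c, d, h2, ((key u hu).trans_le hbc).le⟩
  · rintro rfl
    have hc : c ∈ cs g x := (mem_xN hw hy c).2 ⟨p, hp, c, d, h2, le_rfl⟩
    exact absurd (key c hc) (not_lt.2 hbc)

end Pool.Agent.H90.Mx
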