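import Pool.Agent.H90.Mx.DShape

/-!
# Compatibility of twins, the chain condition, and the second amalgamation (modules DCOMP, DAMALG)

* `DTwin.compat` (DCOMP): the real part is the union of the real parts; a realizer: `f` a realizer of `p.r`,
  `f'` of `q.r`, use `f` at ordinals occurring in `p.r` and `f'` elsewhere (by `ord` the triples of `q.r` for
  ordinals occurring in `p.r` are in `p.r`).  `DP.exists_amalgam`: if `DAt p i (.box n u v)` and
  `DAt q i (.out η m)` then by `box` also `DAt q i (.box n u v)`, so `DAt.bin` for `q`.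
* `DTwin.amalg` (DAMALG): let `t` be a condition all of whose ordinals and indices are in `N`, and
  `r' ≤ p, q, t`.  Let `f'` be a realizer of `r'.r`, `f` the same function with `f z := f' z'`.  Let `J` be the
  set of all triples `(η, a, b) ∈ r'.r.1` with `η ≠ z`, together with `(z, a, b)` for all
  `(z', a, b) ∈ r'.r.1`.  `f` realizes `J`.  `J` contains `p.r.1` (triples at `z` by `str` and `r' ≤ q`) and
  `t.r.1` (no triples at `z` by `zN`).  Apply `DP.exists_amalgam p t` with this `s := J`: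
  let a box `.box n u v` be an atom of index `i` of one of the two conditions, and `.out η m` of
  the same index an atom of the other one; both are atoms of `r'`, so (`DAt.bin`) `n < m` or
  `r'.r.Off η u v`.  If `η ≠ z` this gives `J.Off η u v`.  Let `η = z`.  The atom `.out z m` is not in `t` (`zN`), so
  it is in `p`, and the box is in `t`, so `.inr i ∈ N`.  By `out`, `DAt q i (.out z' m)`, so it is in `r'`, and
  `DAt.bin` in `r'` gives `n < m` or `r'.r.Off z' u v`, that is a triple `(z', a, b)`, so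
  `(z, a, b) ∈ J` shows `J.Off z u v`.
-/

set_option autoImplicit false

namespace Pool.Agent.H90.Mx

open Pool.Agent.H90.SN

theorem DTwin.compat {p q : DP} {z z' : Om} {N : Set (Om ⊕ DI)} (h : DTwin p q z z' N) :
    ∃ r : DP, r ≤ p ∧ r ≤ q := by
  classical
  obtain ⟨f, hf⟩ := p.r.2
  obtain ⟨f', hf'⟩ := q.r.2
  have hR : RzR (fun η => if ∃ a b, (η, a, b) ∈ p.r.1 then f η else f' η) (p.r.1 ∪ q.r.1) := by
    rintro ⟨η, a, b⟩ hx
    by_cases hη : ∃ a b, (η, a, b) ∈ p.r.1
    · have hx' : (η, a, b) ∈ p.r.1 := by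
        rcases Finset.mem_union.1 hx with hx | hx
        · exact hx
        · exact (h.ord η hη ⟨a, b, hx⟩ a b).2 hx
      simp only [if_pos hη]
      exact hf _ hx'
    · simp only [if_neg hη]
      rcases Finset.mem_union.1 hx with hx | hx
      · exact absurd ⟨a, b, hx⟩ hη
      · exact hf' _ hx
  obtain ⟨s, h1, h2, -⟩ := DP.exists_amalgam p q (r := (⟨p.r.1 ∪ q.r.1, _, hR⟩ : SR))
    Finset.subset_union_left Finset.subset_union_right
    (fun i n u v η m hb ho => by
      have hb' := (h.box i ⟨_, hb⟩ ⟨_, ho⟩ n u v).1 hb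
      rcases hb'.bin ho with h3 | h3
      · exact Or.inl h3
      · exact Or.inr (h3.mono Finset.subset_union_right))
    (fun i n u v η m hb ho => by
      have hb' := (h.box i ⟨_, ho⟩ ⟨_, hb⟩ n u v).2 hb
      rcases hb'.bin ho with h3 | h3
      · exact Or.inl h3
      · exact Or.inr (h3.mono Finset.subset_union_left))
  exact ⟨s, h1, h2⟩

theorem DTwin.amalg {p q : DP} {z z' : Om} {N : Set (Om ⊕ DI)} (h : DTwin p q z z' N)
    {t : DP} (ht : ∀ x, t.Occ x → x ∈ N) {r : DP} (hp : r ≤ p) (hq : r ≤ q) (hrt : r ≤ t) :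
    ∃ s ≤ p, s ≤ t ∧ (∀ η a b, η ≠ z → (η, a, b) ∈ r.r.1 → (η, a, b) ∈ s.r.1) ∧
      ∀ a b, (z', a, b) ∈ r.r.1 → (z, a, b) ∈ s.r.1 := by
  classical
  obtain ⟨f, hf⟩ := r.r.2
  let J : Finset (Om × ℚ × ℚ) := r.r.1.filter (fun x => x.1 ≠ z) ∪
    (r.r.1.filter (fun x => x.1 = z')).image (fun x => (z, x.2))
  have hJ1 : ∀ η a b, η ≠ z → (η, a, b) ∈ r.r.1 → (η, a, b) ∈ J := fun η a b hη hx =>
    Finset.mem_union_left _ (Finset.mem_filter.2 ⟨hx, hη⟩)
  have hJ2 : ∀ a b, (z', a, b) ∈ r.r.1 → (z, a, b) ∈ J := fun a b hx =>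
    Finset.mem_union_right _ (Finset.mem_image.2 ⟨(z', a, b), Finset.mem_filter.2 ⟨hx, rfl⟩, rfl⟩)
  have hR : RzR (Function.update f z (f z')) J := by
    intro x hx
    rcases Finset.mem_union.1 hx with hx | hx
    · obtain ⟨h1, h2⟩ := Finset.mem_filter.1 hx
      rw [Function.update_of_ne h2]
      exact hf x h1
    · obtain ⟨y, hy, rfl⟩ := Finset.mem_image.1 hx
      obtain ⟨h1, h2⟩ := Finset.mem_filter.1 hy
      have h3 := hf y h1
      rw [h2] at h3
      change y.2.1 < Function.update f z (f z') z ∧ Function.update f z (f z') z < y.2.2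
      rw [Function.update_self]
      exact h3
  have hzt : ∀ a b, (z, a, b) ∉ t.r.1 := fun a b hx =>
    h.zN (ht (.inl z) (Or.inl ⟨a, b, hx⟩))
  have hsubp : p.r.1 ⊆ J := by
    rintro ⟨η, a, b⟩ hx
    by_cases hη : η = z
    · subst hη
      exact hJ2 a b (DP.r_mono hq (h.str a b hx))
    · exact hJ1 η a b hη (DP.r_mono hp hx)
  have hsubt : t.r.1 ⊆ J := by
    rintro ⟨η, a, b⟩ hx
    refine hJ1 η a b ?_ (DP.r_mono hrt hx)
    rintro rfl
    exact hzt a b hx
  obtain ⟨s, h1, h2, h3⟩ := DP.exists_amalgam p t (r := (⟨J, _, hR⟩ : SR)) hsubp hsubt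
    (fun i n u v η m hb ho => by
      have hne : η ≠ z := by
        rintro rfl
        exact h.zN (ht (.inl η) (Or.inr ⟨i, m, ho⟩))
      rcases (hb.mono hp).bin (ho.mono hrt) with h4 | ⟨a, b, h4, h5⟩
      · exact Or.inl h4
      · exact Or.inr ⟨a, b, hJ1 η a b hne h4, h5⟩)
    (fun i n u v η m hb ho => by
      by_cases hη : η = z
      · subst hη
        have hi : (.inr i : Om ⊕ DI) ∈ N := ht (.inr i) ⟨_, hb⟩
        have ho' := h.out i hi m ho
        rcases (hb.mono hrt).bin (ho'.mono hq) with h4 | ⟨a, b, h4, h5⟩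
        · exact Or.inl h4
        · exact Or.inr ⟨a, b, hJ2 a b h4, h5⟩
      · rcases (hb.mono hrt).bin (ho.mono hp) with h4 | ⟨a, b, h4, h5⟩
        · exact Or.inl h4
        · exact Or.inr ⟨a, b, hJ1 η a b hη h4, h5⟩)
  refine ⟨s, h1, h2, fun η a b hη hx => ?_, fun a b hx => ?_⟩
  · rw [h3]
    exact hJ1 η a b hη hx
  · rw [h3]
    exact hJ2 a b hx

theorem dl_ccc : IsCcc DP := by
  intro f
  obtain ⟨Y, M, hY, -, h⟩ := exists_dshape f (ζ := id) (fun _ _ h => h) (fun _ => 0)
    (N := ∅) Set.countable_empty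
  have hnt : Y.Nontrivial := by
    by_contra hcon
    exact hY (Set.not_nontrivial_iff.1 hcon).finite.countable
  obtain ⟨δ, hδ, δ', hδ', hne⟩ := hnt
  exact ⟨δ, δ', hne, (h δ hδ δ' hδ' hne).compat⟩

end Pool.Agent.H90.Mx
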