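import Pool.Agent.H90.Mx.DComp
import Pool.Agent.H90.Mx.SRealSep

/-!
# Density for the Δ-set theorem (module DDENS)

`φ η k q`: `q` forces that `x_η` is in the `k`-th piece of the given partition.

* `GoodD.out`: for `q ≤ p`, `η`: by `tot` and `complete` there are `r ≤ q`, `k` with `DKin i η k r`; take `m`
  larger than `k` and larger than all `n` with `DAt r i (.box n u v)` (finitely many, `DP.finite_at`) and
  add `.out η m` (`DP.exists_out`).  (Thinning is not needed here.)
* `GoodD.box`: let `DKin i η k q`.  For all atoms `.out ζ m` of index `i` of `q` with `m ≤ k` we have `ζ ≠ η`: by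
  `DAt.need` there is `k' < m` with `DKin i ζ k' q`, and `ζ = η` would give `k' = k` (`sound`, `func`).  Let
  `Z` be the finite set of `η` and all these `ζ`, `f` a realizer of `q.r` injective on `Z` (`SR.exists_inj`),
  and (`SR.exists_sep`) `s' ≤ q.r` realized by `f` with `Lt` for all pairs of `Z`; add the triple `(η, u, v)`
  where `u < f η < v` are so close to `f η` that for all `ζ ∈ Z`, `ζ ≠ η` the real part has a triple
  `(ζ, c, d)` with `d ≤ u` or `v ≤ c`: e.g. choose `ε > 0` at most a third of all differences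
  `|f ζ - f η|` and let the new real part consist of that of `q` and the triples `(ζ, f ζ - ε, f ζ + ε)`,
  `ζ ∈ Z`; `u := f η - ε`, `v := f η + ε`.  (`SR.exists_sep` is then not needed.)  Then
  `DP.exists_static` and `DP.exists_box` with `n = k`: for `.out ζ m` in the condition either `k < m` or
  `ζ ∈ Z`, `ζ ≠ η`, so `Off ζ u v`.
-/

set_option autoImplicit false

namespace Pool.Agent.H90.Mx

open Pool.Agent.H90.SN

structure GoodD (i : DI) (p : DP) (φ : Om → ℕ → DP → Prop) : Prop where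
  le : ∀ η k q, DKin i η k q → q ≤ p
  sound : ∀ η k q, DKin i η k q → φ η k q
  complete : ∀ η k q, q ≤ p → φ η k q → ∃ r ≤ q, DKin i η k r

theorem exists_goodD {p : DP} {φ : Om → ℕ → DP → Prop}
    (hφ : ∀ η k q q', q' ≤ q → φ η k q → φ η k q') : ∃ i, GoodD i p φ := by
  obtain ⟨i, H, -, hC⟩ := Sys.exists_read (X := dl) dl_ccc () p
    (φ := fun t q => φ t.1 t.2 q) (fun t q q' h h' => hφ _ _ _ _ h h')
  exact ⟨i, fun η k q h => hC.le (η, k) q h, fun η k q h => hC.sound (η, k) q h,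
    fun η k q hq h => hC.complete (η, k) q hq h⟩

variable {i : DI} {p : DP} {φ : Om → ℕ → DP → Prop}

theorem GoodD.out (h : GoodD i p φ) (tot : ∀ q ≤ p, ∀ η, ∃ r ≤ q, ∃ k, φ η k r) :
    ∀ q ≤ p, ∀ η, ∃ r ≤ q, ∃ m, DAt r i (.out η m) := by
  classical
  intro q hq η
  obtain ⟨r1, hr1, k, hk⟩ := tot q hq η
  obtain ⟨r, hr, hK⟩ := h.complete η k r1 (hr1.trans hq) hk
  obtain ⟨A, hA⟩ := DP.finite_at r
  let nb : DI × DC → ℕ := fun z => match z.2 with
    | .box n _ _ => n + 1
    | .out _ _ => 0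
  obtain ⟨s, hs, hs'⟩ := DP.exists_out r (i := i) (η := η) (m := max (k + 1) (A.sup nb)) (k := k)
    (lt_of_lt_of_le (Nat.lt_succ_self k) (le_max_left _ _)) hK (fun n u v hb => by
      left
      have h1 : nb (i, .box n u v) ≤ A.sup nb := Finset.le_sup ((hA _ _).1 hb)
      have h2 : n + 1 ≤ A.sup nb := h1
      exact lt_of_lt_of_le (Nat.lt_succ_self n) (h2.trans (le_max_right _ _)))
  exact ⟨s, hs.trans (hr.trans hr1), _, hs'⟩

theorem GoodD.box (h : GoodD i p φ) (func : ∀ q η k k', φ η k q → φ η k' q → k = k') :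
    ∀ q η k, DKin i η k q → ∃ r ≤ q, ∃ u v, DAt r i (.box k u v) ∧ r.r.Inn η u v := by
  classical
  intro q η k hK
  obtain ⟨A, hA⟩ := DP.finite_at q
  let ze : DI × DC → Finset Om := fun z => match z.2 with
    | .box _ _ _ => ∅
    | .out ζ _ => {ζ}
  let Z : Finset Om := insert η (A.biUnion ze)
  have hZ : ∀ ζ m, DAt q i (.out ζ m) → ζ ∈ Z := by
    intro ζ m hd
    refine Finset.mem_insert_of_mem (Finset.mem_biUnion.2 ⟨(i, .out ζ m), (hA _ _).1 hd, ?_⟩)
    exact Finset.mem_singleton_self ζ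
  have hne : ∀ ζ m, DAt q i (.out ζ m) → k < m ∨ ζ ≠ η := by
    intro ζ m hd
    by_contra hcon
    push Not at hcon
    obtain ⟨hmk, rfl⟩ := hcon
    obtain ⟨k', hk', hK'⟩ := DAt.need hd
    have e := func q ζ k k' (h.sound _ _ _ hK) (h.sound _ _ _ hK')
    omega
  obtain ⟨f, hf, hinj⟩ := SR.exists_inj q.r Z
  obtain ⟨ε, hε, hεZ⟩ : ∃ ε : ℚ, 0 < ε ∧ ∀ ζ ∈ Z, ζ ≠ η → 2 * ε ≤ |f ζ - f η| := by
    have h1 : ∀ Y : Finset Om, Y ⊆ Z → ∃ ε : ℚ, 0 < ε ∧ ∀ ζ ∈ Y, ζ ≠ η → 2 * ε ≤ |f ζ - f η| := by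
      intro Y
      induction Y using Finset.induction_on with
      | empty => exact fun _ => ⟨1, one_pos, by simp⟩
      | insert a Y ha ih =>
        intro hY
        obtain ⟨ε, hε, h2⟩ := ih (fun x hx => hY (Finset.mem_insert_of_mem hx))
        by_cases hae : a = η
        · refine ⟨ε, hε, fun ζ hζ hne' => ?_⟩
          rcases Finset.mem_insert.1 hζ with rfl | hζ
          · exact absurd hae hne'
          · exact h2 ζ hζ hne'
        · have h3 : f a ≠ f η := fun e => hae (hinj (hY (Finset.mem_insert_self _ _))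
            (Finset.mem_insert_self _ _) e)
          have h4 : 0 < |f a - f η| := abs_pos.2 (sub_ne_zero.2 h3)
          refine ⟨min ε (|f a - f η| / 2), lt_min hε (by linarith), fun ζ hζ hne' => ?_⟩
          rcases Finset.mem_insert.1 hζ with rfl | hζ
          · have := min_le_right ε (|f ζ - f η| / 2)
            linarith
          · have := min_le_left ε (|f a - f η| / 2)
            have := h2 ζ hζ hne'
            linarith
    exact h1 Z (Finset.Subset.refl Z)
  have hJ : RzR f (q.r.1 ∪ Z.image fun ζ => (ζ, f ζ - ε, f ζ + ε)) := by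
    intro x hx
    rcases Finset.mem_union.1 hx with hx | hx
    · exact hf x hx
    · obtain ⟨ζ, -, rfl⟩ := Finset.mem_image.1 hx
      constructor
      · simp only; linarith
      · simp only; linarith
  let J : SR := ⟨q.r.1 ∪ Z.image fun ζ => (ζ, f ζ - ε, f ζ + ε), f, hJ⟩
  have hJm : ∀ ζ ∈ Z, (ζ, f ζ - ε, f ζ + ε) ∈ J.1 := fun ζ hζ =>
    Finset.mem_union_right _ (Finset.mem_image.2 ⟨ζ, hζ, rfl⟩)
  have hJq : J ≤ q.r := Finset.subset_union_left
  obtain ⟨q1, hq1, hq1r, hq1d⟩ := DP.exists_static q hJq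
  obtain ⟨r, hr, hrr, hrd⟩ := DP.exists_box q1 (i := i) (n := k) (u := f η - ε) (v := f η + ε)
    (fun ζ m hd => by
      rw [hq1d] at hd
      rcases hne ζ m hd with h2 | h2
      · exact Or.inl h2
      · right
        rw [hq1r]
        have h3 := hεZ ζ (hZ ζ m hd) h2
        refine ⟨f ζ - ε, f ζ + ε, hJm ζ (hZ ζ m hd), ?_⟩
        rcases le_abs.1 h3 with h4 | h4
        · right; linarith
        · left; linarith)
  refine ⟨r, hr.trans hq1, f η - ε, f η + ε, hrd, ?_⟩
  rw [hrr, hq1r]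
  exact ⟨f η - ε, f η + ε, hJm η (Finset.mem_insert_self _ _), le_rfl, le_rfl⟩

end Pool.Agent.H90.Mx
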