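import Pool.Agent.H90.Mx.DLine

/-!
# The square of the generic set is not a Δ-set (module DMODELB)

Let `e` be as in `exists_inj_nat` and `ZN` the name of the partition:
`ZN := relN (ι := Om × Om) (fun z => opN (xN DP.r z.1) (xN DP.r z.2))
  (fun z => onN DP ((if z.1 < z.2 then e z.2 z.1 else 0 : ℕ))) (fun _ => ⊤)`.
(1) In every generic `g` in which `ZN`, `lineD.AN`, `onN ω` are denoted by `z`, `X`, `w`: for `x = x_η`,
`y = x_ζ`: `Op z x y n ↔ n = onN (if η < ζ then e ζ η else 0)`; for `←` use `Gen.exists_of_fc` with the name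
`opN (xN DP.r η) (xN DP.r ζ)` (as in the proof of `den_relN`), `relN_exists'`.  `→`: `den_relN`, `den_opN`,
`IsOPair.inj`, `lineD.inj`.
Suppose that `IsDeltaSq g.E w w l X`.  Since the statement is definable, some `p ∈ G` forces it
(`Fc.truth` for `![onN DP ω, ltN DP, lineD.AN]`).  Take a generic `g' ∋ p` with these names and `ZN`
denoted (`exists_gen_set`).  By (1) the hypothesis on `z` holds, so there is `U` in `g'`; let `υ` be a
name of it, and `p' ∈ G'`, `p' ≤ p`, a condition which forces the three properties of `U` for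
`![onN DP ω, ltN DP, lineD.AN, ZN, υ]` (`Fc.truth`).  Apply `no_sq` to `p'`, `e` and
`V n η ζ q := Fc q ![onN DP n, xN DP.r η, xN DP.r ζ, υ] (fun _ E a => Op E (a 3) (a 1) (a 2) (a 0))`,
`B n u v q := Fc q ![onN DP n, qN DP u.1, qN DP u.2, qN DP v.1, qN DP v.2, υ, lineD.AN, onN DP ω, ltN DP]
  (fun _ E a => ∀ x y, E x (a 6) → E y (a 6) → InI E (a 7) (a 8) (a 1) (a 2) x →
    InI E (a 7) (a 8) (a 3) (a 4) y → Op E (a 5) x y (a 0))`.
* `opn`: let `V n η ζ q`.  Take a generic `g'' ∋ q` with all names denoted; the second property of `U` gives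
  rationals `u`, `v` (`exists_q_of_mem`); `Fc.truth` for `B` and for the two statements `InI`; a common extension
  of these conditions and `q`; then `inn_of_fc` twice.
* `base`: by `fc_inI`, in a generic `g'' ∋ q` with all names denoted (`Fc.with_names`).
* `cov`: by (1) and the first property of `U` (`Fc.with_names` with `ZN`, `lineD.AN`, ...).
* `pf`: take a generic `g'' ∋ q` with all names denoted; the third property gives `onN m`; some condition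
  `r ≤ q` forces `∀ n ∈ ω, Op U x_η x_ζ n → n ∈ onN m`.  If `m ≤ n`, `r' ≤ r` and `V n η ζ r'` take a generic
  structure for `r'` with `onN n`, `onN m` denoted: `onN_mem_iff` gives `n < m`.
-/

set_option autoImplicit false

namespace Pool.Agent.H90.Mx

open Frc Ordinal
open Pool.Agent.H90.SN (Om IsCcc om_not_countable Op dfn_op)

section aux

/-- the value of the partition at the pair `(η, ζ)` -/
private noncomputable def cV (e : Om → Om → ℕ) (η ζ : Om) : ℕ :=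
  open Classical in if η < ζ then e ζ η else 0

/-- the name of the partition of the square -/
private noncomputable def ZN (e : Om → Om → ℕ) : Name DP :=
  relN (ι := Om × Om) (fun z => opN (xN DP.r z.1) (xN DP.r z.2))
    (fun z => onN DP (cV e z.1 z.2 : ℕ)) (fun _ => ⊤)

private theorem op_ZN {g : Gen DP} {e : Om → Om → ℕ} {η ζ : Om} {x y z n : g.M}
    (hx : g.Den (xN DP.r η) x) (hy : g.Den (xN DP.r ζ) y) (hz : g.Den (ZN e) z) :
    Op g.E z x y n ↔ g.Den (onN DP (cV e η ζ : ℕ)) n := by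
  constructor
  · rintro ⟨c, hc, hr⟩
    obtain ⟨⟨η', ζ'⟩, -, h1, h2⟩ := (den_relN hz c n).1 hr
    obtain ⟨a, b, ha, hb, hab⟩ := den_opN h1
    obtain ⟨e1, e2⟩ := hc.inj hab
    rw [← e1] at ha
    rw [← e2] at hb
    have e3 : η = η' := inj_xN realPart_dl g _ _ _ hx ha
    have e4 : ζ = ζ' := inj_xN realPart_dl g _ _ _ hy hb
    rw [e3, e4]
    exact h2
  · intro hn
    have h1 := Gen.exists_of_fc (v := ![xN DP.r η, xN DP.r ζ, onN DP (cV e η ζ : ℕ), ZN e])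
      (a := ![x, y, n, z]) (den4 hx hy hn hz)
      (R := fun _ E w => IsOPair E (w 0) (w 1) (w 4) ∧ Rel E (w 3) (w 4) (w 2))
      ((dfn_isOPair 0 1 4).and (dfn_rel 3 4 2)) g.top_mem (opN (xN DP.r η) (xN DP.r ζ))
      (fun g' hg w hw => ⟨den_opN' (hw 4) (hw 0) (hw 1),
        (den_relN (hw 3) (w 4) (w 2)).2 ⟨(η, ζ), g'.top_mem, hw 4, hw 2⟩⟩)
    obtain ⟨c, hc⟩ := h1
    rw [ext_vec4] at hc
    exact ⟨c, hc.1, hc.2⟩

/-- the three properties of the open sets -/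
private def TP {M : Type} (E : M → M → Prop) (w l X z U : M) : Prop :=
  (∀ x y n, E x X → E y X → Op E z x y n → Op E U x y n) ∧
  (∀ x y n, E x X → E y X → E n w → Op E U x y n → ∃ a b c d, E a w ∧ E b w ∧ E c w ∧ E d w ∧
    InI E w l a b x ∧ InI E w l c d y ∧
    ∀ x' y', E x' X → E y' X → InI E w l a b x' → InI E w l c d y' → Op E U x' y' n) ∧
  ∀ x y, E x X → E y X → ∃ m, E m w ∧ ∀ n, E n w → Op E U x y n → E n m

private theorem dfn_TP {n : ℕ} (i j k m o : Fin n) :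
    Dfn (fun _ E v => TP E (v i) (v j) (v k) (v m) (v o)) := by
  refine .and ?_ (.and ?_ ?_)
  · exact .all (.all (.all (.imp (.mem _ _) (.imp (.mem _ _) (.imp (dfn_op _ _ _ _)
      (dfn_op _ _ _ _))))))
  · refine .all (.all (.all (.imp (.mem _ _) (.imp (.mem _ _) (.imp (.mem _ _)
      (.imp (dfn_op _ _ _ _) (.ex (.ex (.ex (.ex ?_))))))))))
    refine .and (.mem _ _) (.and (.mem _ _) (.and (.mem _ _) (.and (.mem _ _)
      (.and (dfn_inI _ _ _ _ _) (.and (dfn_inI _ _ _ _ _) ?_)))))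
    exact .all (.all (.imp (.mem _ _) (.imp (.mem _ _) (.imp (dfn_inI _ _ _ _ _)
      (.imp (dfn_inI _ _ _ _ _) (dfn_op _ _ _ _))))))
  · exact .all (.all (.imp (.mem _ _) (.imp (.mem _ _) (.ex (.and (.mem _ _) (.all
      (.imp (.mem _ _) (.imp (dfn_op _ _ _ _) (.mem _ _)))))))))

private theorem xN_mem {g : Gen DP} {X x : g.M} {η : Om} (hX : g.Den lineD.AN X)
    (hx : g.Den (xN DP.r η) x) : g.E x X := (LineN.mem_AN hX x).2 ⟨η, hx⟩

/-- the names for `B` -/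
private noncomputable def vB (υ : Name DP) (n : ℕ) (u v : ℚ × ℚ) : Fin 9 → Name DP :=
  ![onN DP n, qN DP u.1, qN DP u.2, qN DP v.1, qN DP v.2, υ, lineD.AN, onN DP ω, ltN DP]

private def RB : Pred 9 := fun _ E a => ∀ x y, E x (a 6) → E y (a 6) →
  InI E (a 7) (a 8) (a 1) (a 2) x → InI E (a 7) (a 8) (a 3) (a 4) y → Op E (a 5) x y (a 0)

private theorem dfn_RB : Dfn RB := .all (.all (.imp (.mem _ _) (.imp (.mem _ _)
  (.imp (dfn_inI _ _ _ _ _) (.imp (dfn_inI _ _ _ _ _) (dfn_op _ _ _ _))))))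

/-- the names for `V` -/
private noncomputable def vV (υ : Name DP) (n : ℕ) (η ζ : Om) : Fin 4 → Name DP :=
  ![onN DP n, xN DP.r η, xN DP.r ζ, υ]

private def RV : Pred 4 := fun _ E a => Op E (a 3) (a 1) (a 2) (a 0)

private theorem dfn_RV : Dfn RV := dfn_op 3 1 2 0

private def RM : Pred 5 := fun _ E a => ∀ n, E n (a 3) → Op E (a 2) (a 0) (a 1) n → E n (a 4)

private theorem dfn_RM : Dfn RM := .all (.imp (.mem _ _) (.imp (dfn_op _ _ _ _) (.mem _ _)))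

private theorem main_aux {e : Om → Om → ℕ} (he : ∀ ζ, Set.InjOn (e ζ) (Set.Iio ζ))
    {υ : Name DP} {p : DP} (H : ∀ g : Gen DP, p ∈ g.G → ∀ w l X z U : g.M,
      g.Den (onN DP ω) w → g.Den (ltN DP) l → g.Den lineD.AN X → g.Den (ZN e) z → g.Den υ U →
      TP g.E w l X z U) : False := by
  refine no_sq (p := p) he (B := fun n u v q => Fc q (vB υ n u v) RB)
    (V := fun n η ζ q => Fc q (vV υ n η ζ) RV) (fun n u v q q' h h' => h'.mono h)
    (fun n η ζ q q' h h' => h'.mono h) ?_ ?_ ?_ ?_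
  · -- opn
    intro q hq n η ζ hV
    obtain ⟨g, hg, a, ha⟩ := exists_gen_fin q
      ![onN DP n, xN DP.r η, xN DP.r ζ, υ, onN DP ω, ltN DP, lineD.AN, ZN e]
    have e0 : g.Den (onN DP n) (a 0) := ha 0
    have e1 : g.Den (xN DP.r η) (a 1) := ha 1
    have e2 : g.Den (xN DP.r ζ) (a 2) := ha 2
    have e3 : g.Den υ (a 3) := ha 3
    have e4 : g.Den (onN DP ω) (a 4) := ha 4
    have e5 : g.Den (ltN DP) (a 5) := ha 5
    have e6 : g.Den lineD.AN (a 6) := ha 6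
    have e7 : g.Den (ZN e) (a 7) := ha 7
    have h1 : Op g.E (a 3) (a 1) (a 2) (a 0) := hV g hg ![a 0, a 1, a 2, a 3] (den4 e0 e1 e2 e3)
    have h2 := (H g (g.up q hg p hq) (a 4) (a 5) (a 6) (a 7) (a 3) e4 e5 e6 e7 e3).2.1
      (a 1) (a 2) (a 0) (xN_mem e6 e1) (xN_mem e6 e2)
      ((den_onN e4 (a 0)).2 ⟨_, natCast_lt_omega0 n, e0⟩) h1
    obtain ⟨b1, b2, b3, b4, m1, m2, m3, m4, i1, i2, h3⟩ := h2
    obtain ⟨u1, d1⟩ := exists_q_of_mem e4 m1
    obtain ⟨u2, d2⟩ := exists_q_of_mem e4 m2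
    obtain ⟨v1, d3⟩ := exists_q_of_mem e4 m3
    obtain ⟨v2, d4⟩ := exists_q_of_mem e4 m4
    obtain ⟨r1, hr1, f1⟩ := (Fc.truth (v := vB υ n (u1, u2) (v1, v2)) dfn_RB
      (a := ![a 0, b1, b2, b3, b4, a 3, a 6, a 4, a 5]) (by
        intro i
        fin_cases i
        exacts [e0, d1, d2, d3, d4, e3, e6, e4, e5])).1 h3
    obtain ⟨r2, hr2, f2⟩ := (Fc.truth (v := innV DP.r η u1 u2) dfn_innR
      (a := ![a 1, b1, b2, a 4, a 5]) (den5 e1 d1 d2 e4 e5)).1 i1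
    obtain ⟨r3, hr3, f3⟩ := (Fc.truth (v := innV DP.r ζ v1 v2) dfn_innR
      (a := ![a 2, b3, b4, a 4, a 5]) (den5 e2 d3 d4 e4 e5)).1 i2
    obtain ⟨s1, hs1, k1, k2⟩ := g.dir q hg r1 hr1
    obtain ⟨s2, hs2, k3, k4⟩ := g.dir r2 hr2 r3 hr3
    obtain ⟨s3, -, k5, k6⟩ := g.dir s1 hs1 s2 hs2
    obtain ⟨t1, ht1, c1⟩ := inn_of_fc realPart_dl (f2.mono (k6.trans k3))
    obtain ⟨t2, ht2, c2⟩ := inn_of_fc realPart_dl (f3.mono (ht1.trans (k6.trans k4)))
    refine ⟨t2, ht2.trans (ht1.trans (k5.trans k1)), (u1, u2), (v1, v2),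
      c1.mono (DP.r_mono ht2), c2, ?_⟩
    exact f1.mono (ht2.trans (ht1.trans (k5.trans k2)))
  · -- base
    intro q hq n u v η ζ hB i1 i2
    refine Fc.with_names dfn_RV (L := {qN DP u.1, qN DP u.2, qN DP v.1, qN DP v.2, lineD.AN,
      onN DP ω, ltN DP}) (Set.toFinite _).countable ?_
    intro g hg hL a ha
    obtain ⟨b1, d1⟩ := hL (qN DP u.1) (by simp)
    obtain ⟨b2, d2⟩ := hL (qN DP u.2) (by simp)
    obtain ⟨b3, d3⟩ := hL (qN DP v.1) (by simp)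
    obtain ⟨b4, d4⟩ := hL (qN DP v.2) (by simp)
    obtain ⟨X, e6⟩ := hL lineD.AN (by simp)
    obtain ⟨w, e4⟩ := hL (onN DP ω) (by simp)
    obtain ⟨l, e5⟩ := hL (ltN DP) (by simp)
    have e0 : g.Den (onN DP n) (a 0) := ha 0
    have e1 : g.Den (xN DP.r η) (a 1) := ha 1
    have e2 : g.Den (xN DP.r ζ) (a 2) := ha 2
    have e3 : g.Den υ (a 3) := ha 3
    have j1 : InI g.E w l b1 b2 (a 1) :=
      fc_inI realPart_dl i1 g hg ![a 1, b1, b2, w, l] (den5 e1 d1 d2 e4 e5)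
    have j2 : InI g.E w l b3 b4 (a 2) :=
      fc_inI realPart_dl i2 g hg ![a 2, b3, b4, w, l] (den5 e2 d3 d4 e4 e5)
    exact hB g hg ![a 0, b1, b2, b3, b4, a 3, X, w, l] (by
        intro i
        fin_cases i
        exacts [e0, d1, d2, d3, d4, e3, e6, e4, e5]) (a 1) (a 2) (xN_mem e6 e1) (xN_mem e6 e2)
      j1 j2
  · -- cov
    intro q hq η ζ hηζ
    refine Fc.with_names dfn_RV (L := {lineD.AN, ZN e, onN DP ω, ltN DP})
      (Set.toFinite _).countable ?_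
    intro g hg hL a ha
    obtain ⟨X, e6⟩ := hL lineD.AN (by simp)
    obtain ⟨z, e7⟩ := hL (ZN e) (by simp)
    obtain ⟨w, e4⟩ := hL (onN DP ω) (by simp)
    obtain ⟨l, e5⟩ := hL (ltN DP) (by simp)
    have e0 : g.Den (onN DP (e ζ η : ℕ)) (a 0) := ha 0
    have e1 : g.Den (xN DP.r η) (a 1) := ha 1
    have e2 : g.Den (xN DP.r ζ) (a 2) := ha 2
    have e3 : g.Den υ (a 3) := ha 3
    have h1 : Op g.E z (a 1) (a 2) (a 0) := by
      rw [op_ZN e1 e2 e7]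
      have h2 : cV e η ζ = e ζ η := if_pos hηζ
      rw [h2]
      exact e0
    exact (H g (g.up q hg p hq) w l X z (a 3) e4 e5 e6 e7 e3).1 (a 1) (a 2) (a 0)
      (xN_mem e6 e1) (xN_mem e6 e2) h1
  · -- pf
    intro q hq η ζ
    obtain ⟨g, hg, a, ha⟩ := exists_gen_fin q
      ![xN DP.r η, xN DP.r ζ, υ, onN DP ω, ltN DP, lineD.AN, ZN e]
    have e1 : g.Den (xN DP.r η) (a 0) := ha 0
    have e2 : g.Den (xN DP.r ζ) (a 1) := ha 1
    have e3 : g.Den υ (a 2) := ha 2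
    have e4 : g.Den (onN DP ω) (a 3) := ha 3
    have e5 : g.Den (ltN DP) (a 4) := ha 4
    have e6 : g.Den lineD.AN (a 5) := ha 5
    have e7 : g.Den (ZN e) (a 6) := ha 6
    obtain ⟨m, hm, h2⟩ := (H g (g.up q hg p hq) (a 3) (a 4) (a 5) (a 6) (a 2) e4 e5 e6 e7 e3).2.2
      (a 0) (a 1) (xN_mem e6 e1) (xN_mem e6 e2)
    obtain ⟨β, hβ, hmβ⟩ := (den_onN e4 m).1 hm
    obtain ⟨k, rfl⟩ := lt_omega0.1 hβ
    obtain ⟨r1, hr1, f1⟩ := (Fc.truth (v := ![xN DP.r η, xN DP.r ζ, υ, onN DP ω, onN DP k])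
      dfn_RM (a := ![a 0, a 1, a 2, a 3, m]) (den5 e1 e2 e3 e4 hmβ)).1 h2
    obtain ⟨r, -, k1, k2⟩ := g.dir q hg r1 hr1
    refine ⟨r, k1, k, fun n hn r' hr' hV => ?_⟩
    obtain ⟨g', hg', b, hb⟩ := exists_gen_fin r'
      ![onN DP n, xN DP.r η, xN DP.r ζ, υ, onN DP ω, onN DP k]
    have c0 : g'.Den (onN DP n) (b 0) := hb 0
    have c1 : g'.Den (xN DP.r η) (b 1) := hb 1
    have c2 : g'.Den (xN DP.r ζ) (b 2) := hb 2
    have c3 : g'.Den υ (b 3) := hb 3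
    have c4 : g'.Den (onN DP ω) (b 4) := hb 4
    have c5 : g'.Den (onN DP k) (b 5) := hb 5
    have h3 : Op g'.E (b 3) (b 1) (b 2) (b 0) :=
      hV g' hg' ![b 0, b 1, b 2, b 3] (den4 c0 c1 c2 c3)
    have h4 : g'.E (b 0) (b 5) := (f1.mono (hr'.trans k2)) g' hg' ![b 1, b 2, b 3, b 4, b 5]
      (den5 c1 c2 c3 c4 c5) (b 0) ((den_onN c4 (b 0)).2 ⟨_, natCast_lt_omega0 n, c0⟩) h3
    have h5 := (onN_mem_iff c0 c5).1 h4
    have h6 : n < k := by exact_mod_cast h5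
    omega

end aux

theorem not_isDeltaSq_gen {g : Gen DP} {w l X : g.M} (hw : g.Den (onN DP ω) w)
    (hl : g.Den (ltN DP) l) (hX : g.Den lineD.AN X) : ¬ IsDeltaSq g.E w w l X := by
  intro h
  obtain ⟨e, he⟩ := exists_inj_nat
  obtain ⟨p, -, hp⟩ := (Fc.truth (v := ![onN DP ω, ltN DP, lineD.AN])
    (R := fun _ E a => IsDeltaSq E (a 0) (a 0) (a 1) (a 2)) (dfn_isDeltaSq 0 0 1 2)
    (a := ![w, l, X]) (den3 hw hl hX)).1 h
  obtain ⟨g', hg', a, ha⟩ := exists_gen_fin p ![onN DP ω, ltN DP, lineD.AN, ZN e]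
  have e0 : g'.Den (onN DP ω) (a 0) := ha 0
  have e1 : g'.Den (ltN DP) (a 1) := ha 1
  have e2 : g'.Den lineD.AN (a 2) := ha 2
  have e3 : g'.Den (ZN e) (a 3) := ha 3
  have h1 : IsDeltaSq g'.E (a 0) (a 0) (a 1) (a 2) :=
    hp g' hg' ![a 0, a 1, a 2] (den3 e0 e1 e2)
  obtain ⟨U, h2⟩ := h1 (a 3) (by
    intro x y hx hy
    obtain ⟨η, hη⟩ := (LineN.mem_AN e2 x).1 hx
    obtain ⟨ζ, hζ⟩ := (LineN.mem_AN e2 y).1 hy
    obtain ⟨n, hn⟩ := exists_den_nat e0 (cV e η ζ)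
    refine ⟨n, (den_onN e0 n).2 ⟨_, natCast_lt_omega0 _, hn⟩, (op_ZN hη hζ e3).2 hn, ?_⟩
    intro n' hn'
    exact ((op_ZN hη hζ e3).1 hn').unique hn)
  have h3 : TP g'.E (a 0) (a 1) (a 2) (a 3) U := h2
  obtain ⟨υ, hυ⟩ := g'.exists_den U
  obtain ⟨p', -, hp'⟩ := (Fc.truth (v := ![onN DP ω, ltN DP, lineD.AN, ZN e, υ])
    (R := fun _ E a => TP E (a 0) (a 1) (a 2) (a 3) (a 4)) (dfn_TP 0 1 2 3 4)
    (a := ![a 0, a 1, a 2, a 3, U]) (den5 e0 e1 e2 e3 hυ)).1 h3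
  exact main_aux he (fun g hg w l X z U f0 f1 f2 f3 f4 =>
    hp' g hg ![w, l, X, z, U] (den5 f0 f1 f2 f3 f4))

end Pool.Agent.H90.Mx
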