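import Pool.Agent.H90.Mx.DModelA
import Pool.Agent.H90.Mx.DModelB

/-!
# A Δ-set whose square is not a Δ-set
-/

set_option autoImplicit false

namespace Pool.Agent.H90.Mx

open Frc Ordinal
open Pool.Agent.H90.SN (Om IsCcc om_not_countable)

theorem exists_model_dl : ∃ (M : Type) (E : M → M → Prop), ZFC E ∧ DeltaStatement E := by
  obtain ⟨g, -, hL, -⟩ := exists_gen_set (⊤ : DP) (n := 0) Fin.elim0
    (L := {onN DP ω, ltN DP, lineD.AN}) (by simp)
  obtain ⟨w, hw⟩ := hL (onN DP ω) (by simp)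
  obtain ⟨l, hl⟩ := hL (ltN DP) (by simp)
  obtain ⟨X, hX⟩ := hL lineD.AN (by simp)
  refine ⟨g.M, g.E, g.zfc, w, w, l, X, onN_isOmega hw, isRat_ltN hw hl, fun x hx => ?_,
    isDelta_gen hw hl hX, not_isDeltaSq_gen hw hl hX⟩
  obtain ⟨a, ha⟩ := (LineN.mem_AN hX x).1 hx
  exact isCut_xN realPart_dl hw hl ha

end Pool.Agent.H90.Mx
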