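import Pool.Agent.H90.SN.Sys

/-!
# The index type (module INDEX)

`I := Om → Bool`, of cardinality `2 ^ ℵ₁ =: κ`.  The type of data
`Dt := Par × (T → ℕ → Option (S × Finset (I × C)))` has cardinality at most `κ`
(`Finset (I × C)` has at most `κ` elements, `κ ^ ℵ₀ = κ ^ ℵ₁ = κ`), so `I × Dt` has cardinality `κ` (`Dt` is
nonempty) and there is a bijection `e : I ≃ I × Dt`.  Let `par i := (e i).2.1`, `cond i := (e i).2.2`.
For given `(a, K)` and `H` the map `j ↦ e.symm (j, (a, K))` is injective on `I`, and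
`ℵ₁ < 2 ^ ℵ₁` (`Cardinal.cantor`), so some value is not in `H`.
(Useful: `Cardinal.mk_finset_of_infinite`, `Cardinal.mk_arrow`/`power_def`, `Cardinal.power_mul`,
`Cardinal.mul_eq_self`, `om_card`.)
-/

set_option autoImplicit false

namespace Pool.Agent.H90.Mx

open Pool.Agent.H90.SN

theorem exists_index (S C T Par : Type) [Nonempty Par]
    (hS : Cardinal.mk S ≤ 2 ^ Cardinal.aleph 1) (hC : Cardinal.mk C ≤ 2 ^ Cardinal.aleph 1)
    (hT : Cardinal.mk T ≤ Cardinal.aleph 1) (hP : Cardinal.mk Par ≤ 2 ^ Cardinal.aleph 1) :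
    ∃ (I : Type) (par : I → Par) (cond : I → T → ℕ → Option (S × Finset (I × C))),
      ∀ (a : Par) (K : T → ℕ → Option (S × Finset (I × C))) (H : Set I),
        Cardinal.mk H ≤ Cardinal.aleph 1 → ∃ i, i ∉ H ∧ par i = a ∧ cond i = K := by
  have h0 : Cardinal.aleph0 ≤ Cardinal.aleph 1 := Cardinal.aleph0_le_aleph 1
  have h1 : Cardinal.aleph 1 < 2 ^ Cardinal.aleph 1 := Cardinal.cantor _
  have hk0 : Cardinal.aleph0 ≤ 2 ^ Cardinal.aleph 1 := h0.trans h1.le
  set κ : Cardinal.{0} := 2 ^ Cardinal.aleph 1 with hκ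
  have hmul : κ * κ = κ := Cardinal.mul_eq_self hk0
  let I : Type := Om → Bool
  have hI : Cardinal.mk I = κ := by
    change Cardinal.mk (Om → Bool) = κ
    rw [← Cardinal.power_def, om_card]
    simp [hκ]
  have hinf : Infinite I := by
    rw [Cardinal.infinite_iff, hI]; exact hk0
  let Dt : Type := Par × (T → ℕ → Option (S × Finset (I × C)))
  have hFin : Cardinal.mk (Finset (I × C)) ≤ κ := by
    rcases isEmpty_or_nonempty C with hE | hN
    · have : IsEmpty (I × C) := inferInstance
      have : Finite (Finset (I × C)) := inferInstance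
      exact (Cardinal.lt_aleph0_of_finite _).le.trans hk0
    · have : Infinite (I × C) := inferInstance
      rw [Cardinal.mk_finset_of_infinite, Cardinal.mk_prod, Cardinal.lift_id, Cardinal.lift_id, hI]
      exact (mul_le_mul' le_rfl hC).trans hmul.le
  have hOpt : Cardinal.mk (Option (S × Finset (I × C))) ≤ κ := by
    rw [Cardinal.mk_option, Cardinal.mk_prod, Cardinal.lift_id, Cardinal.lift_id]
    refine (add_le_add ((mul_le_mul' hS hFin).trans hmul.le) le_rfl).trans ?_
    exact (Cardinal.add_one_eq hk0).le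
  have hFun : Cardinal.mk (T → ℕ → Option (S × Finset (I × C))) ≤ κ := by
    rw [← Cardinal.power_def, ← Cardinal.power_def]
    rw [← Cardinal.power_mul]
    have h2 : Cardinal.mk ℕ * Cardinal.mk T ≤ Cardinal.aleph 1 := by
      rw [Cardinal.mk_nat]
      exact (mul_le_mul' h0 hT).trans (Cardinal.mul_eq_self h0).le
    have h3 : κ ^ Cardinal.aleph 1 = κ := by
      rw [hκ, ← Cardinal.power_mul, Cardinal.mul_eq_self h0]
    calc _ ≤ κ ^ (Cardinal.mk ℕ * Cardinal.mk T) := Cardinal.power_le_power_right hOpt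
      _ ≤ κ ^ Cardinal.aleph 1 := by
          refine Cardinal.power_le_power_left ?_ h2
          intro h
          rw [h] at hk0
          exact absurd hk0 (not_le.2 Cardinal.aleph0_pos)
      _ = κ := h3
  have hDt : Cardinal.mk Dt ≤ κ := by
    change Cardinal.mk (Par × (T → ℕ → Option (S × Finset (I × C)))) ≤ κ
    rw [Cardinal.mk_prod, Cardinal.lift_id, Cardinal.lift_id]
    exact (mul_le_mul' hP hFun).trans hmul.le
  have hne : Nonempty Dt := by
    change Nonempty (Par × (T → ℕ → Option (S × Finset (I × C))))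
    infer_instance
  have hID : Cardinal.mk (I × Dt) = Cardinal.mk I := by
    rw [Cardinal.mk_prod, Cardinal.lift_id, Cardinal.lift_id, hI]
    exact Cardinal.mul_eq_left hk0 hDt (Cardinal.mk_ne_zero Dt)
  obtain ⟨e⟩ := Cardinal.eq.1 hID
  refine ⟨I, fun i => (e.symm i).2.1, fun i => (e.symm i).2.2, fun a K H hH => ?_⟩
  by_contra hcon
  push Not at hcon
  have hsub : ∀ j : I, e (j, (a, K)) ∈ H := by
    intro j
    by_contra hj
    exact hcon (e (j, (a, K))) hj (by simp) (by simp)
  have hinj : Function.Injective (fun j : I => (⟨e (j, (a, K)), hsub j⟩ : H)) := by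
    intro j j' h
    have := congrArg Subtype.val h
    simpa using this
  have h4 := Cardinal.mk_le_of_injective hinj
  rw [hI] at h4
  exact absurd (h4.trans hH) (not_le.2 h1)

end Pool.Agent.H90.Mx
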