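import Pool.Agent.H90.Mx.SRealSep

/-!
# New points and combination of two copies for generic reals (module SRCMB)

* `exists_between`: take a realizer `f`, and change the value at `a` to a number between all `f η`,
  `η ∈ L`, and all `f ζ`, `ζ ∈ U` (`Lt.lt`); `exists_sep` for `insert a (L ∪ U)`.
* `exists_combine`: let `f` be a realizer of `s` which is injective on `N`, `ε > 0` small (at most a third of
  all differences of values on `N`, and `(f x - ε, f x + ε) ⊆ (a, b)` for all `(x, a, b) ∈ s`).  Let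
  `g z := f x + ε` (`b = true`; `f x - ε` for `b = false`) if `z = π x`, `x ∈ N`, `π x ≠ x` (then `z ∉ N` and `x`
  is unique), and `g z := f z` for all other `z`.  It realizes `s` and `s'`, so their union is in `SR`;
  apply `exists_sep` to this union, `g` and `N ∪ N.image π`.
-/

set_option autoImplicit false

namespace Pool.Agent.H90.Mx

open Pool.Agent.H90.SN

namespace SR

/-- A new point: if `a` does not occur in `s` and every element of `L` is below every element of `U`
then `a` can be placed between `L` and `U`. -/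
theorem exists_between (s : SR) {a : Om} (ha : ∀ x ∈ s.1, x.1 ≠ a) (L U : Finset Om)
    (haL : a ∉ L) (haU : a ∉ U) (h : ∀ η ∈ L, ∀ ζ ∈ U, Lt s η ζ) :
    ∃ s' ≤ s, (∀ η ∈ L, Lt s' η a) ∧ ∀ ζ ∈ U, Lt s' a ζ := by
  classical
  obtain ⟨f, hf⟩ := s.2
  obtain ⟨c, hc1, hc2⟩ := Order.exists_between_finsets (L.image f) (U.image f) (by
    intro x hx y hy
    obtain ⟨η, hη, rfl⟩ := Finset.mem_image.1 hx
    obtain ⟨ζ, hζ, rfl⟩ := Finset.mem_image.1 hy
    exact (h η hη ζ hζ).lt hf)
  have hg : RzR (Function.update f a c) s.1 := by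
    intro x hx
    rw [Function.update_of_ne (ha x hx)]
    exact hf x hx
  obtain ⟨s', hs', -, h'⟩ := exists_sep hg (insert a (L ∪ U))
  refine ⟨s', hs', fun η hη => ?_, fun ζ hζ => ?_⟩
  · refine h' η (Finset.mem_insert_of_mem (Finset.mem_union_left _ hη)) a
      (Finset.mem_insert_self _ _) ?_
    rw [Function.update_self, Function.update_of_ne (by rintro rfl; exact haL hη)]
    exact hc1 _ (Finset.mem_image_of_mem _ hη)
  · refine h' a (Finset.mem_insert_self _ _) ζ
      (Finset.mem_insert_of_mem (Finset.mem_union_right _ hζ)) ?_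
    rw [Function.update_self, Function.update_of_ne (by rintro rfl; exact haU hζ)]
    exact hc2 _ (Finset.mem_image_of_mem _ hζ)

/-- Combination of two copies (see `Twin`).  `π` is injective on `N`, `J' = π J`; the points of `N` fixed by
`π` are the common ones.  `b = true`: the copy is a little above the original. -/
theorem exists_combine (s s' : SR) (N : Finset Om) (π : Om → Om) (b : Bool)
    (hinj : Set.InjOn π (N : Set Om)) (hN : ∀ x ∈ s.1, x.1 ∈ N)
    (hs' : ∀ y ∈ s'.1, ∃ x ∈ s.1, y = (π x.1, x.2))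
    (hdich : ∀ x ∈ N, π x = x ∨ π x ∉ N) :
    ∃ r : SR, r ≤ s ∧ r ≤ s' ∧
      (∀ x ∈ N, π x ≠ x → if b then Lt r x (π x) else Lt r (π x) x) ∧
      (∀ x ∈ N, ∀ y ∈ N, Lt s x y → Lt r x (π y) ∧ Lt r (π x) y ∧ Lt r (π x) (π y)) := by
  classical
  obtain ⟨f, hf⟩ := s.2
  obtain ⟨ε1, hε1, h1⟩ := exists_eps
    (((N ×ˢ N).filter fun z => f z.1 < f z.2).image fun z => (f z.2 - f z.1) / 3) (by
      intro x hx
      obtain ⟨z, hz, rfl⟩ := Finset.mem_image.1 hx
      have := (Finset.mem_filter.1 hz).2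
      linarith)
  obtain ⟨ε2, hε2, h2⟩ := exists_eps
    (s.1.image fun x => min (f x.1 - x.2.1) (x.2.2 - f x.1) / 2) (by
      intro y hy
      obtain ⟨x, hx, rfl⟩ := Finset.mem_image.1 hy
      have := hf x hx
      exact half_pos (lt_min (by linarith [this.1]) (by linarith [this.2])))
  set ε := min ε1 ε2 with hε
  have hpos : 0 < ε := lt_min hε1 hε2
  have hd : ∀ x ∈ N, ∀ y ∈ N, f x < f y → 3 * ε ≤ f y - f x := by
    intro x hx y hy hxy
    have h3 := h1 ((f y - f x) / 3) (Finset.mem_image.2 ⟨(x, y), Finset.mem_filter.2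
      ⟨Finset.mem_product.2 ⟨hx, hy⟩, hxy⟩, rfl⟩)
    have h4 : ε ≤ ε1 := min_le_left _ _
    linarith
  have hi : ∀ x ∈ s.1, x.2.1 < f x.1 - ε ∧ f x.1 + ε < x.2.2 := by
    intro x hx
    have h3 := h2 _ (Finset.mem_image_of_mem _ hx)
    have h4 : ε ≤ ε2 := min_le_right _ _
    have h5 : min (f x.1 - x.2.1) (x.2.2 - f x.1) ≤ f x.1 - x.2.1 := min_le_left _ _
    have h6 : min (f x.1 - x.2.1) (x.2.2 - f x.1) ≤ x.2.2 - f x.1 := min_le_right _ _
    have h7 := hf x hx
    constructor <;> linarith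
  let g : Om → ℚ := fun z => if h : ∃ x ∈ N, π x = z ∧ π x ≠ x then
    f h.choose + (if b then ε else -ε) else f z
  have hg1 : ∀ x ∈ N, g x = f x := by
    intro x hx
    have hno : ¬ ∃ y ∈ N, π y = x ∧ π y ≠ y := by
      rintro ⟨y, hy, hyx, hne⟩
      rcases hdich y hy with h3 | h3
      · exact hne h3
      · rw [hyx] at h3
        exact h3 hx
    exact dif_neg hno
  have hg2 : ∀ x ∈ N, π x ≠ x → g (π x) = f x + (if b then ε else -ε) := by
    intro x hx hne
    have hex : ∃ y ∈ N, π y = π x ∧ π y ≠ y := ⟨x, hx, rfl, hne⟩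
    have h3 : hex.choose = x := hinj hex.choose_spec.1 hx hex.choose_spec.2.1
    change (if h : ∃ y ∈ N, π y = π x ∧ π y ≠ y then _ else _) = _
    rw [dif_pos hex, h3]
  have hg3 : ∀ x ∈ N, f x - ε ≤ g (π x) ∧ g (π x) ≤ f x + ε := by
    intro x hx
    by_cases hne : π x = x
    · rw [hne, hg1 x hx]
      constructor <;> linarith
    · rw [hg2 x hx hne]
      cases b
      · rw [if_neg Bool.false_ne_true]
        constructor <;> linarith
      · rw [if_pos rfl]
        constructor <;> linarith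
  have hgr : RzR g (s.1 ∪ s'.1) := by
    intro y hy
    rcases Finset.mem_union.1 hy with hy | hy
    · rw [hg1 _ (hN y hy)]
      exact hf y hy
    · obtain ⟨x, hx, rfl⟩ := hs' y hy
      have h3 := hg3 x.1 (hN x hx)
      have h4 := hi x hx
      exact ⟨by linarith [h3.1, h4.1], by linarith [h3.2, h4.2]⟩
  obtain ⟨r, hr, -, hsep⟩ := exists_sep (s := ⟨s.1 ∪ s'.1, g, hgr⟩) (f := g) hgr
    (N ∪ N.image π)
  have m1 : ∀ x ∈ N, x ∈ N ∪ N.image π := fun x hx => Finset.mem_union_left _ hx
  have m2 : ∀ x ∈ N, π x ∈ N ∪ N.image π := fun x hx =>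
    Finset.mem_union_right _ (Finset.mem_image_of_mem _ hx)
  refine ⟨r, Finset.Subset.trans Finset.subset_union_left hr,
    Finset.Subset.trans Finset.subset_union_right hr, fun x hx hne => ?_, fun x hx y hy hxy => ?_⟩
  · have h3 := hg2 x hx hne
    have h4 := hg1 x hx
    cases b
    · rw [if_neg Bool.false_ne_true] at h3 ⊢
      exact hsep _ (m2 x hx) _ (m1 x hx) (by linarith)
    · rw [if_pos rfl] at h3 ⊢
      exact hsep _ (m1 x hx) _ (m2 x hx) (by linarith)
  · have h3 := hd x hx y hy (hxy.lt hf)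
    have h4 := hg3 x hx
    have h5 := hg3 y hy
    have h6 := hg1 x hx
    have h7 := hg1 y hy
    exact ⟨hsep _ (m1 x hx) _ (m2 y hy) (by linarith [h5.1]),
      hsep _ (m2 x hx) _ (m1 y hy) (by linarith [h4.2]),
      hsep _ (m2 x hx) _ (m2 y hy) (by linarith [h4.2, h5.1])⟩

end SR

end Pool.Agent.H90.Mx
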