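import Pool.Agent.H90.Mx.Read
import Pool.Agent.H90.Mx.Index
import Pool.Agent.H90.Mx.SRealCmb
import Pool.Agent.H90.Mx.CardD

/-!
# The forcing for the theorem about Δ-sets

Static part: `SR` (finite approximations of reals `x_η`, `η < ω₁`).  An index `i` codes a partition of the
set `X` of all `x_η` (a set of pairs `(η, k)`: the point `x_η` is in the `k`-th piece).  The atoms of index
`i` are `box n u v`: the interval `(u, v)` is contained in the open set `U n`; and `out η m`: the point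
`x_η` is not in `U n` for `n ≥ m`; this needs that `x_η` is in the `k`-th piece for some `k < m`.
-/

set_option autoImplicit false

namespace Pool.Agent.H90.Mx

open Pool.Agent.H90.SN

inductive DC where
  | box (n : ℕ) (u v : ℚ) : DC
  | out (η : Om) (m : ℕ) : DC

/-- the real `x_η` is not in the interval `(u, v)` -/
def SR.Off (s : SR) (η : Om) (u v : ℚ) : Prop := ∃ a b, (η, a, b) ∈ s.1 ∧ (b ≤ u ∨ v ≤ a)

/-- the real `x_η` is in the interval `(u, v)` -/
def SR.Inn (s : SR) (η : Om) (u v : ℚ) : Prop := ∃ a b, (η, a, b) ∈ s.1 ∧ u ≤ a ∧ b ≤ v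

theorem SR.Off.mono {s t : SR} {η : Om} {u v : ℚ} (h : s.Off η u v) (ht : t ≤ s) :
    t.Off η u v := by
  obtain ⟨a, b, h1, h2⟩ := h
  exact ⟨a, b, ht h1, h2⟩

theorem SR.Inn.mono {s t : SR} {η : Om} {u v : ℚ} (h : s.Inn η u v) (ht : t ≤ s) :
    t.Inn η u v := by
  obtain ⟨a, b, h1, h2⟩ := h
  exact ⟨a, b, ht h1, h2⟩

theorem SR.Inn.not_off {s : SR} {η : Om} {u v : ℚ} (h : s.Inn η u v) : ¬ s.Off η u v := by
  rintro ⟨a', b', h1', h2'⟩
  obtain ⟨a, b, h1, h2, h3⟩ := h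
  obtain ⟨f, hf⟩ := s.2
  have e1 := hf _ h1
  have e2 := hf _ h1'
  simp only at e1 e2
  rcases h2' with h | h <;> linarith

def dneed : DC → Om × ℕ → Prop
  | .box _ _ _, _ => False
  | .out η m, t => t.1 = η ∧ t.2 < m

def dfree : DC → Prop
  | .box _ _ _ => True
  | .out _ _ => False

def dbin : DC → DC → SR → Prop
  | .box n u v, .out η m, s => n < m ∨ s.Off η u v
  | .out η m, .box n u v, s => n < m ∨ s.Off η u v
  | _, _, _ => True

theorem card_dc : Cardinal.mk SR ≤ 2 ^ Cardinal.aleph 1 ∧ Cardinal.mk DC ≤ 2 ^ Cardinal.aleph 1 ∧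
    Cardinal.mk (Om × ℕ) ≤ Cardinal.aleph 1 := by
  have hinf : Cardinal.aleph0 ≤ Cardinal.aleph 1 := Cardinal.aleph0_le_aleph 1
  have hc : Cardinal.aleph 1 ≤ 2 ^ Cardinal.aleph 1 := (Cardinal.cantor _).le
  have hcount : ∀ (α : Type) [Countable α], Cardinal.mk (Om × α) ≤ Cardinal.aleph 1 := by
    intro α _
    rw [Cardinal.mk_prod, Cardinal.lift_id, Cardinal.lift_id, om_card]
    calc Cardinal.aleph 1 * Cardinal.mk α ≤ Cardinal.aleph 1 * Cardinal.aleph 1 :=
          mul_le_mul_right ((Cardinal.mk_le_aleph0 (α := α)).trans hinf) _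
      _ = Cardinal.aleph 1 := Cardinal.mul_eq_self hinf
  refine ⟨?_, ?_, hcount ℕ⟩
  · have h1 : Cardinal.mk SR ≤ Cardinal.mk (Finset (Om × ℚ × ℚ)) := Cardinal.mk_subtype_le _
    have h2 : Infinite (Om × ℚ × ℚ) := by
      have : Nonempty Om := Cardinal.mk_ne_zero_iff.1 (by
        rw [om_card]; exact (Cardinal.aleph_pos 1).ne')
      infer_instance
    rw [Cardinal.mk_finset_of_infinite] at h1
    exact h1.trans ((hcount (ℚ × ℚ)).trans hc)
  · have hf : Function.Injective (fun c : DC => match c with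
        | .box n u v => (Sum.inl (n, u, v) : (ℕ × ℚ × ℚ) ⊕ (Om × ℕ))
        | .out η m => Sum.inr (η, m)) := by
      rintro (⟨n, u, v⟩ | ⟨η, m⟩) (⟨n', u', v'⟩ | ⟨η', m'⟩) h <;> simp_all
    refine (Cardinal.mk_le_of_injective hf).trans ?_
    rw [Cardinal.mk_sum, Cardinal.lift_id, Cardinal.lift_id]
    refine le_trans (add_le_add ((Cardinal.mk_le_aleph0).trans hinf) (hcount ℕ)) ?_
    rw [Cardinal.add_eq_self hinf]
    exact hc

theorem exists_dix : ∃ (I : Type) (par : I → Unit) (cond : I → (Om × ℕ) → ℕ →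
    Option (SR × Finset (I × DC))), ∀ (a : Unit) (K : (Om × ℕ) → ℕ →
      Option (SR × Finset (I × DC))) (H : Set I),
        Cardinal.mk H ≤ Cardinal.aleph 1 → ∃ i, i ∉ H ∧ par i = a ∧ cond i = K := by
  refine exists_index SR DC (Om × ℕ) Unit card_dc.1 card_dc.2.1 card_dc.2.2 ?_
  rw [Cardinal.mk_unit, Cardinal.one_le_iff_pos]
  exact (Cardinal.cantor (Cardinal.aleph 1)).pos

/-- the system for the theorem about Δ-sets -/
noncomputable def dl : Sys where
  S := SR
  C := DC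
  T := Om × ℕ
  Par := Unit
  I := exists_dix.choose
  poS := inferInstance
  topS := inferInstance
  need _ := dneed
  free _ := dfree
  una _ _ := True
  bin _ := dbin
  bin_mono := by
    rintro - (⟨n, u, v⟩ | ⟨η, m⟩) (⟨n', u', v'⟩ | ⟨η', m'⟩) s s' hs h
    · exact h
    · exact h.imp_right fun h => h.mono hs
    · exact h.imp_right fun h => h.mono hs
    · exact h
  bin_symm := by
    rintro - (⟨n, u, v⟩ | ⟨η, m⟩) (⟨n', u', v'⟩ | ⟨η', m'⟩) s h <;> exact h
  bin_refl := by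
    rintro - (⟨n, u, v⟩ | ⟨η, m⟩) s <;> exact trivial
  card_T := card_dc.2.2
  par := exists_dix.choose_spec.choose
  cond := exists_dix.choose_spec.choose_spec.choose
  surj := exists_dix.choose_spec.choose_spec.choose_spec

/-- the forcing for the theorem about Δ-sets -/
abbrev DP : Type := dl.Pt

/-- the index type -/
abbrev DI : Type := dl.I

/-- the real part of a condition -/
def DP.r (p : DP) : SR := p.1.1

/-- the condition `p` contains the atom `c` of index `i` -/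
def DAt (p : DP) (i : DI) (c : DC) : Prop := Sys.Has (X := dl) p i c

/-- the condition `p` forces that the `η`-th point is in the `k`-th piece of the partition `i` -/
def DKin (i : DI) (η : Om) (k : ℕ) (p : DP) : Prop := Sys.Ink (X := dl) i (η, k) p

theorem DP.r_mono {p q : DP} (h : q ≤ p) : q.r ≤ p.r := h.1

theorem DAt.mono {p q : DP} {i : DI} {c : DC} (h : DAt p i c) (hq : q ≤ p) : DAt q i c :=
  Sys.Has.mono h hq

theorem DKin.mono {p q : DP} {i : DI} {η : Om} {k : ℕ} (h : DKin i η k p) (hq : q ≤ p) :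
    DKin i η k q := Sys.Ink.mono h hq

theorem DAt.need {p : DP} {i : DI} {η : Om} {m : ℕ} (h : DAt p i (.out η m)) :
    ∃ k < m, DKin i η k p := by
  rcases Sys.Has.need h with h1 | ⟨⟨η', k⟩, h1, h2⟩
  · exact h1.elim
  · obtain ⟨rfl, h3⟩ := h1
    exact ⟨k, h3, h2⟩

theorem DAt.bin {p : DP} {i : DI} {η : Om} {m n : ℕ} {u v : ℚ} (h : DAt p i (.box n u v))
    (h' : DAt p i (.out η m)) : n < m ∨ p.r.Off η u v := Sys.Has.bin h h'

theorem DP.exists_static (p : DP) {r : SR} (hr : r ≤ p.r) :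
    ∃ q ≤ p, q.r = r ∧ ∀ i c, DAt q i c ↔ DAt p i c := by
  obtain ⟨q, h1, h2, h3⟩ := Sys.exists_static (X := dl) p (s := r) hr
  refine ⟨q, h1, h2, fun i c => ?_⟩
  unfold DAt Sys.Has
  rw [h3]

theorem DP.exists_box (p : DP) {i : DI} {n : ℕ} {u v : ℚ}
    (hb : ∀ η m, DAt p i (.out η m) → n < m ∨ p.r.Off η u v) :
    ∃ q ≤ p, q.r = p.r ∧ DAt q i (.box n u v) := by
  obtain ⟨q, h1, h2, h3⟩ := Sys.exists_add (X := dl) p (i := i) (c := .box n u v) trivial
    (Or.inl trivial) (by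
      rintro (⟨n', u', v'⟩ | ⟨η', m'⟩) hd
      · exact trivial
      · exact hb η' m' hd)
  exact ⟨q, h1, h2, h3⟩

theorem DP.exists_out (p : DP) {i : DI} {η : Om} {m k : ℕ} (hk : k < m) (hK : DKin i η k p)
    (hb : ∀ n u v, DAt p i (.box n u v) → n < m ∨ p.r.Off η u v) :
    ∃ q ≤ p, DAt q i (.out η m) := by
  obtain ⟨q, h1, -, h3⟩ := Sys.exists_add (X := dl) p (i := i) (c := .out η m) trivial
    (Or.inr ⟨(η, k), ⟨rfl, hk⟩, hK⟩) (by
      rintro (⟨n', u', v'⟩ | ⟨η', m'⟩) hd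
      · exact hb n' u' v' hd
      · exact trivial)
  exact ⟨q, h1, h3⟩

/-- amalgamation of two conditions -/
theorem DP.exists_amalgam (p q : DP) {r : SR} (h1 : r ≤ p.r) (h2 : r ≤ q.r)
    (hb : ∀ i n u v η m, DAt p i (.box n u v) → DAt q i (.out η m) → n < m ∨ r.Off η u v)
    (hb' : ∀ i n u v η m, DAt q i (.box n u v) → DAt p i (.out η m) → n < m ∨ r.Off η u v) :
    ∃ s ≤ p, s ≤ q ∧ s.r = r := by
  obtain ⟨s, e1, e2, e3, -⟩ := Sys.exists_amalgam (X := dl) p q (s := r) h1 h2 (by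
    rintro i (⟨n, u, v⟩ | ⟨η, m⟩) (⟨n', u', v'⟩ | ⟨η', m'⟩) hc hd
    · exact trivial
    · exact hb i n u v η' m' hc hd
    · exact hb' i n' u' v' η m hd hc
    · exact trivial)
  exact ⟨s, e1, e2, e3⟩

theorem DP.finite_at (p : DP) : ∃ A : Finset (DI × DC), ∀ i c, DAt p i c ↔ (i, c) ∈ A :=
  ⟨p.1.2, fun _ _ => Iff.rfl⟩

/-- the ordinals and indices occurring in a condition -/
def DP.Occ (p : DP) : Om ⊕ DI → Prop
  | .inl η => (∃ a b, (η, a, b) ∈ p.r.1) ∨ ∃ i m, DAt p i (.out η m)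
  | .inr i => ∃ c, DAt p i c

end Pool.Agent.H90.Mx
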