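import Pool.Agent.H90.SN.Stmt
import Pool.Agent.H90.Mx.Stmt

/-!
# The statement about Δ-sets

Everything here is about an arbitrary structure `(M, E)` with one binary relation `E`, read as
membership.  All quantifiers of the predicates below range over the elements of `M`.  The basic
vocabulary (`IsSub`, `IsOPair`, `Rel`, `IsOmega`, `IsRat`, `IsCut`) is in
`Pool/Agent/H90/Frc/Stmt.lean`, `Op E f x y z` (that is, `f(x, y) = z`: the pair of `(x, y)` and `z` is in `f`)
in `Pool/Agent/H90/SN/Stmt.lean`, `IsFun` in `Pool/Agent/H90/Mx/Stmt.lean`.  `w` stands for `ω`, and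
`(Q, lt)` for the rationals.
-/

set_option autoImplicit false

namespace Pool.Agent.H90.Mx

open Frc
open Pool.Agent.H90.SN (Op dfn_op)

section Vocabulary

variable {M : Type} (E : M → M → Prop)

/-- the real number (Dedekind cut) `x` is in the open interval `(a, b)`: `a ∈ x`, and some `c < b` is not
in `x` -/
def InI (Q lt a b x : M) : Prop := E a x ∧ ∃ c, E c Q ∧ Rel E lt c b ∧ ¬ E c x

/-- The set of reals `X` is a Δ-set: for every partition of `X` into sets `Z_n`, `n ∈ ω` (given by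
the function `z : X → ω` with `z(x) = n` iff `x ∈ Z_n`) there are relatively open subsets `U_n` of `X`
(`Rel U n x` says `x ∈ U_n`) with `Z_n ⊆ U_n` such that every point is in only finitely many `U_n`. -/
def IsDelta (w Q lt X : M) : Prop :=
  ∀ z, IsFun E z X w → ∃ U,
    (∀ x n, E x X → Rel E z x n → Rel E U n x) ∧
    (∀ x n, E x X → E n w → Rel E U n x → ∃ a b, E a Q ∧ E b Q ∧ InI E Q lt a b x ∧
      ∀ y, E y X → InI E Q lt a b y → Rel E U n y) ∧
    ∀ x, E x X → ∃ m, E m w ∧ ∀ n, E n w → Rel E U n x → E n m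

/-- The square `X × X` is a Δ-set: for every partition of `X × X` into sets `Z_n`, `n ∈ ω` (`Op z x y n`
says `(x, y) ∈ Z_n`) there are relatively open subsets `U_n` of `X × X` (`Op U x y n` says `(x, y) ∈ U_n`)
with `Z_n ⊆ U_n` such that every point is in only finitely many `U_n`. -/
def IsDeltaSq (w Q lt X : M) : Prop :=
  ∀ z, (∀ x y, E x X → E y X → ∃ n, E n w ∧ Op E z x y n ∧ ∀ n', Op E z x y n' → n' = n) → ∃ U,
    (∀ x y n, E x X → E y X → Op E z x y n → Op E U x y n) ∧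
    (∀ x y n, E x X → E y X → E n w → Op E U x y n → ∃ a b c d, E a Q ∧ E b Q ∧ E c Q ∧ E d Q ∧
      InI E Q lt a b x ∧ InI E Q lt c d y ∧
      ∀ x' y', E x' X → E y' X → InI E Q lt a b x' → InI E Q lt c d y' → Op E U x' y' n) ∧
    ∀ x y, E x X → E y X → ∃ m, E m w ∧ ∀ n, E n w → Op E U x y n → E n m

/-- In `(M, E)` there is a Δ-set of reals whose square is not a Δ-set. -/
def DeltaStatement : Prop :=
  ∃ w Q lt X, IsOmega E w ∧ IsRat E w Q lt ∧ (∀ x, E x X → IsCut E Q lt x) ∧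
    IsDelta E w Q lt X ∧ ¬ IsDeltaSq E w Q lt X

end Vocabulary

section

variable {n : ℕ}

theorem dfn_inI (i j k l m : Fin n) :
    Dfn (fun _ E v => InI E (v i) (v j) (v k) (v l) (v m)) :=
  .and (.mem _ _) (.ex (.and (.mem _ _) (.and (dfn_rel _ _ _) (.not (.mem _ _)))))

theorem dfn_isDelta (i j k l : Fin n) : Dfn (fun _ E v => IsDelta E (v i) (v j) (v k) (v l)) :=
  .all (.imp (dfn_isFun _ _ _) (.ex (.and
    (.all (.all (.imp (.mem _ _) (.imp (dfn_rel _ _ _) (dfn_rel _ _ _)))))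
    (.and (.all (.all (.imp (.mem _ _) (.imp (.mem _ _) (.imp (dfn_rel _ _ _)
      (.ex (.ex (.and (.mem _ _) (.and (.mem _ _) (.and (dfn_inI _ _ _ _ _)
        (.all (.imp (.mem _ _) (.imp (dfn_inI _ _ _ _ _) (dfn_rel _ _ _))))))))))))))
    (.all (.imp (.mem _ _) (.ex (.and (.mem _ _) (.all (.imp (.mem _ _)
      (.imp (dfn_rel _ _ _) (.mem _ _))))))))))))

theorem dfn_isDeltaSq (i j k l : Fin n) :
    Dfn (fun _ E v => IsDeltaSq E (v i) (v j) (v k) (v l)) := by
  refine .all (.imp ?_ (.ex (.and ?_ (.and ?_ ?_))))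
  · exact .all (.all (.imp (.mem _ _) (.imp (.mem _ _) (.ex (.and (.mem _ _)
      (.and (dfn_op _ _ _ _) (.all (.imp (dfn_op _ _ _ _) (.eq _ _)))))))))
  · exact .all (.all (.all (.imp (.mem _ _) (.imp (.mem _ _) (.imp (dfn_op _ _ _ _)
      (dfn_op _ _ _ _))))))
  · refine .all (.all (.all (.imp (.mem _ _) (.imp (.mem _ _) (.imp (.mem _ _)
      (.imp (dfn_op _ _ _ _) (.ex (.ex (.ex (.ex ?_))))))))))
    refine .and (.mem _ _) (.and (.mem _ _) (.and (.mem _ _) (.and (.mem _ _)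
      (.and (dfn_inI _ _ _ _ _) (.and (dfn_inI _ _ _ _ _) ?_)))))
    exact .all (.all (.imp (.mem _ _) (.imp (.mem _ _) (.imp (dfn_inI _ _ _ _ _)
      (.imp (dfn_inI _ _ _ _ _) (dfn_op _ _ _ _))))))
  · exact .all (.all (.imp (.mem _ _) (.imp (.mem _ _) (.ex (.and (.mem _ _) (.all
      (.imp (.mem _ _) (.imp (dfn_op _ _ _ _) (.mem _ _)))))))))

theorem dfn_deltaStatement : Dfn (n := n) (fun _ E _ => DeltaStatement E) :=
  .ex (.ex (.ex (.ex (.and (dfn_isOmega _) (.and (dfn_isRat _ _ _)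
    (.and (.all (.imp (.mem _ _) (dfn_isCut _ _ _)))
    (.and (dfn_isDelta _ _ _ _) (.not (dfn_isDeltaSq _ _ _ _)))))))))

end

end Pool.Agent.H90.Mx
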