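import Pool.Agent.H90.Mx.CutC
import Pool.Agent.H90.Mx.DInst
import Pool.Agent.H90.Mx.DStmt

/-!
# Forcing that a generic real is in an interval (module DINN)

The names are `![xN ρ η, qN P u, qN P v, onN P ω, ltN P]`, the statement is that the real is in `(u, v)`.
* `fc_inI`: let `(η, a, b) ∈ (ρ p).1`, `u ≤ a`, `b ≤ v`.  Let `g ∋ p` be generic with all names denoted:
  `u ∈ x_η` by `mem_xN`.  The second part (`∃ c ∈ ω`, `c < v`, `c ∉ x_η`) is forced: use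
  `Fc.stable`: for `q ≤ p` let `f` be a realizer of `ρ q`, so `f η < b ≤ v`; take rationals
  `f η < b' < v`, `a' < f η`, and `r ≤ q` whose real part contains in addition `(η, a', b')`
  (`RealPart.ext`).  Then `r` forces `b' ∉ x_η`: otherwise (`mem_xN`, generic `g' ∋ r`) `b' ≤ a''` for some
  `(η, a'', b'') ∈ (ρ r').1`, `r' ∈ G'`, and a realizer `h` of a common extension has `h η < b' ≤ a'' < h η`.
  (Use `Fc.with_names` with the extra name `qN b'`.)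
* `inn_of_fc`: let `g ∋ p` be generic with all names denoted.  `u ∈ x_η`: there is `p1 ∈ G` with
  `(η, a, b) ∈ (ρ p1).1`, `u ≤ a`.  There is `c < v` with `c ∉ x_η` (`c` is denoted by some `qN c0`,
  `exists_q_of_mem`; `c0 < v` by `rel_ltN`).  Let `q ∈ G` be a common extension of `p`, `p1` which forces
  `c0 ∉ x_η` (`Fc.truth`), `f` a realizer of `ρ q`.  Then `f η ≤ c0`: otherwise take `c0 < a' < f η < b'` and
  `r ≤ q` with `(η, a', b') ∈ (ρ r).1`, `r` forces `c0 ∈ x_η`, contradiction (`Fc.absurd`).  So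
  `f η < v`; let `a'' := max u a < f η` (`u ≤ a < f η`), `f η < b'' ≤ v`, and `r ≤ q` with
  `(η, a'', b'') ∈ (ρ r).1`.
-/

set_option autoImplicit false

namespace Pool.Agent.H90.Mx

open Frc Ordinal
open Pool.Agent.H90.SN (Om)

variable {P : Type} [PartialOrder P] [OrderTop P] {ρ : P → SR}

/-- the statement that the real with name `xN ρ η` is in the interval `(u, v)` -/
noncomputable def innV (ρ : P → SR) (η : Om) (u v : ℚ) : Fin 5 → Name P :=
  ![xN ρ η, qN P u, qN P v, onN P ω, ltN P]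

def InnR : Pred 5 := fun _ E a => InI E (a 3) (a 4) (a 1) (a 2) (a 0)

theorem dfn_innR : Dfn InnR := dfn_inI 3 4 1 2 0

omit [OrderTop P] in
private theorem dn_ext (hρ : RealPart ρ) (p : P) (η : Om) {c d : ℚ} {f : Om → ℚ}
    (hf : RzR f (ρ p).1) (h : c < f η ∧ f η < d) : ∃ q ≤ p, (η, c, d) ∈ (ρ q).1 := by
  classical
  have hs : RzR f (insert (η, c, d) (ρ p).1) := by
    intro x hx
    rcases Finset.mem_insert.1 hx with rfl | hx
    · exact h
    · exact hf x hx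
  obtain ⟨q, hq, hqs⟩ := hρ.ext p (s := ⟨insert (η, c, d) (ρ p).1, f, hs⟩)
    (Finset.subset_insert _ _)
  refine ⟨q, hq, ?_⟩
  rw [hqs]
  exact Finset.mem_insert_self _ _

/-- a member of the generic real -/
private theorem dn_mem {g : Gen P} {η : Om} {x y : g.M} (hx : g.Den (xN ρ η) x) {u : ℚ}
    (hy : g.Den (qN P u) y) {p : P} (hp : p ∈ g.G) {a b : ℚ} (h : (η, a, b) ∈ (ρ p).1)
    (hu : u ≤ a) : g.E y x :=
  (Gen.mem_iff hx).2 ⟨⟨(u, p), a, b, h, hu⟩, hp, hy⟩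

private theorem dn_of_mem {g : Gen P} {η : Om} {x y : g.M} (hx : g.Den (xN ρ η) x) {u : ℚ}
    (hy : g.Den (qN P u) y) (h : g.E y x) : ∃ p ∈ g.G, ∃ a b, (η, a, b) ∈ (ρ p).1 ∧ u ≤ a := by
  obtain ⟨⟨⟨u', p⟩, a, b, h1, h2⟩, hp, hy'⟩ := (Gen.mem_iff hx).1 h
  have e : u = u' := qN_inj hy hy'
  subst e
  exact ⟨p, hp, a, b, h1, h2⟩

theorem fc_inI (hρ : RealPart ρ) {p : P} {η : Om} {u v : ℚ} (h : (ρ p).Inn η u v) :
    Fc p (innV ρ η u v) InnR := by
  obtain ⟨a, b, hab, hua, hbv⟩ := h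
  refine Fc.stable dfn_innR fun q hq => ?_
  obtain ⟨f, hf⟩ := (ρ q).2
  have h1 := hf _ (hρ.mono hq hab)
  simp only at h1
  obtain ⟨r, hr, hr'⟩ := dn_ext hρ q η (c := f η - 1) (d := (f η + b) / 2) hf
    ⟨by linarith, by linarith⟩
  refine ⟨r, hr, Fc.with_names dfn_innR (L := {qN P ((f η + b) / 2)})
    (Set.countable_singleton _) ?_⟩
  intro g hg hL w hw
  obtain ⟨c, hc⟩ := hL _ rfl
  have hx : g.Den (xN ρ η) (w 0) := hw 0
  have hu : g.Den (qN P u) (w 1) := hw 1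
  have hv : g.Den (qN P v) (w 2) := hw 2
  have hω : g.Den (onN P ω) (w 3) := hw 3
  have hl : g.Den (ltN P) (w 4) := hw 4
  refine ⟨dn_mem hx hu hg (hρ.mono hr (hρ.mono hq hab)) hua, c, qN_mem hω hc,
    (rel_ltN hl hc hv).2 (by linarith), fun hcx => ?_⟩
  obtain ⟨p', hp', a', b', hab', hle⟩ := dn_of_mem hx hc hcx
  obtain ⟨t, -, h2, h3⟩ := g.dir r hg p' hp'
  obtain ⟨f', hf'⟩ := (ρ t).2
  have h4 := (hf' _ (hρ.mono h2 hr')).2
  have h5 := (hf' _ (hρ.mono h3 hab')).1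
  simp only at h4 h5
  linarith

theorem inn_of_fc (hρ : RealPart ρ) {p : P} {η : Om} {u v : ℚ} (h : Fc p (innV ρ η u v) InnR) :
    ∃ q ≤ p, (ρ q).Inn η u v := by
  obtain ⟨g, hg, w, hw⟩ := exists_gen_fin p (innV ρ η u v)
  have hx : g.Den (xN ρ η) (w 0) := hw 0
  have hu : g.Den (qN P u) (w 1) := hw 1
  have hv : g.Den (qN P v) (w 2) := hw 2
  have hω : g.Den (onN P ω) (w 3) := hw 3
  have hl : g.Den (ltN P) (w 4) := hw 4
  obtain ⟨h1, c, hcω, hcv, hcx⟩ := h g hg w hw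
  obtain ⟨p1, hp1, a, b, hab, hua⟩ := dn_of_mem hx hu h1
  obtain ⟨c0, hc0⟩ := exists_q_of_mem hω hcω
  have hlt : c0 < v := (rel_ltN hl hc0 hv).1 hcv
  have hm : Dfn (n := 2) (fun _ E v => ¬ E (v 0) (v 1)) := .not (.mem 0 1)
  obtain ⟨p2, hp2, hf2⟩ := (Fc.truth hm (v := ![qN P c0, xN ρ η]) (a := ![c, w 0])
    (den2 hc0 hx)).1 hcx
  obtain ⟨q1, hq1, h2, h3⟩ := g.dir p hg p1 hp1
  obtain ⟨q, hq, h4, h5⟩ := g.dir q1 hq1 p2 hp2
  obtain ⟨f, hf⟩ := (ρ q).2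
  have h6 := (hf _ (hρ.mono (h4.trans h3) hab)).1
  simp only at h6
  have h7 : f η ≤ c0 := by
    by_contra hcon
    push Not at hcon
    obtain ⟨r, hr, hr'⟩ := dn_ext hρ q η (c := (c0 + f η) / 2) (d := f η + 1) hf
      ⟨by linarith, by linarith⟩
    have h8 : Fc r ![qN P c0, xN ρ η] (fun _ E v => E (v 0) (v 1)) := fun g' hg' w' hw' =>
      dn_mem (hw' 1) (hw' 0) hg' hr' (by linarith)
    exact h8.absurd (hf2.mono (hr.trans h5))
  obtain ⟨r, hr, hr'⟩ := dn_ext hρ q η (c := a) (d := v) hf ⟨h6, by linarith⟩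
  exact ⟨r, hr.trans (h4.trans h2), a, v, hr', hua, le_rfl⟩

end Pool.Agent.H90.Mx
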