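import Pool.Agent.H90.Mx.DComp

/-!
# The square is not a Δ-set, combinatorial part (module DNOSQ)

`B n u v q`: `q` forces that the rectangle `u × v` (pairs of rationals: open intervals) is contained in the
`n`-th open set; `V n η ζ q`: `q` forces that `(x_η, x_ζ)` is in the `n`-th open set.

Let `ζ δ` be the least ordinal larger than `δ` (injective).  By `pf` choose for every `δ` some `q δ ≤ p`, `m δ`
such that `¬ V n δ (ζ δ) r'` for all `n ≥ m δ`, `r' ≤ q δ`.  For `n, u, v` there is a countable set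
`A n u v` of conditions `t ≤ p` with `B n u v t` such that every `r ≤ p` with `B n u v r` is compatible with a
member of `A n u v` (`exists_countable` in `SN/GenSp.lean` for the predense set of all `t` such that
(`t ≤ p` and `B n u v t`) or no `r ≤ t` satisfies (`r ≤ p` and `B n u v r`), see also the header of
`Read.lean`).  `N` := the set of all `x` with `t.Occ x` for some `t ∈ A n u v`, some `n, u, v`; it is
countable (`DP.finite_at`; `Occ` is finite).  Take `Y`, `M` from `exists_dshape`.  Let `j ∈ Y` with at least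
`M + 1` elements of `Y` below `j` (`Y` is uncountable, so infinite; an infinite subset of a well order has
an element with at least `M + 1` predecessors in it; or: choose `M + 1` elements of `Y` and then
`j ∈ Y` above all of them by `unbounded_of_not_countable` and `om_bounded`).
Claim: `e (ζ j) i < M` for all `i ∈ Y`, `i < j`; this contradicts `he` (pigeonhole, `i < j < ζ j`).
Suppose `n := e (ζ j) i ≥ M`.  By `DTwin.compat` there is `r' ≤ q i, q j`; `cov` gives `V n i (ζ j) r'`, `opn`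
gives `r'' ≤ r'`, `u`, `v` with `Inn i u`, `Inn (ζ j) v` in `r''` and `B n u v r''`; there are `t ∈ A n u v`,
`r3 ≤ r'', t`.  `DTwin.amalg` (for `q i`, `q j`, `ζ i`, `ζ j`, `t`, `r3`) gives `s ≤ q i, t`; `i ≠ ζ i`, so
`s.r.Inn i u`, and `s.r.Inn (ζ i) v`; `B n u v s`, so `V n i (ζ i) s` by `base`: contradiction to the
choice of `q i`.
-/

set_option autoImplicit false

namespace Pool.Agent.H90.Mx

open Pool.Agent.H90.SN

theorem DP.finite_occ (t : DP) : {x | t.Occ x}.Finite := by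
  classical
  obtain ⟨A, hA⟩ := DP.finite_at t
  have h : {x | t.Occ x} ⊆ (((t.r.1.image (fun y => (Sum.inl y.1 : Om ⊕ DI))) ∪
      (A.image (fun y => match y.2 with
        | .out η _ => (Sum.inl η : Om ⊕ DI)
        | .box _ _ _ => Sum.inr y.1)) ∪ (A.image (fun y => (Sum.inr y.1 : Om ⊕ DI))) :
        Finset (Om ⊕ DI)) : Set (Om ⊕ DI)) := by
    rintro (η | i) hx
    · rcases hx with ⟨a, b, hx⟩ | ⟨i, m, hx⟩
      · exact Finset.mem_coe.2 (Finset.mem_union_left _ (Finset.mem_union_left _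
          (Finset.mem_image.2 ⟨_, hx, rfl⟩)))
      · exact Finset.mem_coe.2 (Finset.mem_union_left _ (Finset.mem_union_right _
          (Finset.mem_image.2 ⟨(i, .out η m), (hA _ _).1 hx, rfl⟩)))
    · obtain ⟨c, hx⟩ := hx
      exact Finset.mem_coe.2 (Finset.mem_union_right _
        (Finset.mem_image.2 ⟨(i, c), (hA _ _).1 hx, rfl⟩))
  exact (Finset.finite_toSet _).subset h

theorem no_sq {p : DP} {e : Om → Om → ℕ} (he : ∀ ζ, Set.InjOn (e ζ) (Set.Iio ζ))
    {B : ℕ → ℚ × ℚ → ℚ × ℚ → DP → Prop} {V : ℕ → Om → Om → DP → Prop}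
    (antiB : ∀ n u v q q', q' ≤ q → B n u v q → B n u v q')
    (antiV : ∀ n η ζ q q', q' ≤ q → V n η ζ q → V n η ζ q')
    (opn : ∀ q ≤ p, ∀ n η ζ, V n η ζ q → ∃ r ≤ q, ∃ u v, r.r.Inn η u.1 u.2 ∧ r.r.Inn ζ v.1 v.2 ∧
      B n u v r)
    (base : ∀ q ≤ p, ∀ n u v η ζ, B n u v q → q.r.Inn η u.1 u.2 → q.r.Inn ζ v.1 v.2 → V n η ζ q)
    (cov : ∀ q ≤ p, ∀ η ζ, η < ζ → V (e ζ η) η ζ q)
    (pf : ∀ q ≤ p, ∀ η ζ, ∃ r ≤ q, ∃ m, ∀ n, m ≤ n → ∀ r' ≤ r, ¬ V n η ζ r') : False := by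
  classical
  -- successors
  have hz : ∀ δ : Om, ∃ z, δ < z ∧ ∀ x, δ < x → z ≤ x := by
    intro δ
    obtain ⟨b, hb⟩ := om_bounded (Set.countable_singleton δ)
    have hwf : WellFounded ((· < ·) : Om → Om → Prop) := IsWellFounded.wf
    obtain ⟨z, hz1, hz2⟩ := hwf.has_min {x | δ < x} ⟨b, hb δ rfl⟩
    exact ⟨z, hz1, fun x hx => not_lt.1 (hz2 x hx)⟩
  choose ζ hζ1 hζ2 using hz
  have hζ : Function.Injective ζ := by
    intro a b hab
    rcases lt_trichotomy a b with h | h | h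
    · exact absurd hab ((hζ2 a b h).trans_lt (hζ1 b)).ne
    · exact h
    · exact absurd hab.symm ((hζ2 b a h).trans_lt (hζ1 a)).ne
  choose q hq m hm using fun δ => pf p le_rfl δ (ζ δ)
  -- countably many conditions which decide the rectangles
  have hpre : ∀ (n : ℕ) (u v : ℚ × ℚ),
      Predense {t : DP | (t ≤ p ∧ B n u v t) ∨ ∀ r ≤ t, ¬ (r ≤ p ∧ B n u v r)} := by
    intro n u v r
    by_cases h : ∃ r' ≤ r, r' ≤ p ∧ B n u v r'
    · obtain ⟨r', h1, h2⟩ := h
      exact ⟨r', Or.inl h2, r', h1, le_rfl⟩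
    · push Not at h
      exact ⟨r, Or.inr fun r' h1 h2 => h r' h1 h2.1 h2.2, r, le_rfl, le_rfl⟩
  choose A hA1 hA2 hA3 using fun n u v => exists_countable dl_ccc (hpre n u v)
  have hA4 : ∀ n u v, ∀ r ≤ p, B n u v r → ∃ t ∈ A n u v, B n u v t ∧ ∃ s, s ≤ r ∧ s ≤ t := by
    intro n u v r hr hB
    obtain ⟨t, ht, s, hs1, hs2⟩ := hA3 n u v r
    refine ⟨t, ht, ?_, s, hs1, hs2⟩
    rcases hA1 n u v ht with h | h
    · exact h.2
    · exact absurd ⟨hs1.trans hr, antiB _ _ _ _ _ hs1 hB⟩ (h s hs2)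
  let N : Set (Om ⊕ DI) := ⋃ n : ℕ, ⋃ u : ℚ × ℚ, ⋃ v : ℚ × ℚ, ⋃ t ∈ A n u v, {x | t.Occ x}
  have hN : N.Countable := Set.countable_iUnion fun n => Set.countable_iUnion fun u =>
    Set.countable_iUnion fun v => (hA2 n u v).biUnion fun t _ => t.finite_occ.countable
  have hNmem : ∀ n u v, ∀ t ∈ A n u v, ∀ x, t.Occ x → x ∈ N := by
    intro n u v t ht x hx
    exact Set.mem_iUnion.2 ⟨n, Set.mem_iUnion.2 ⟨u, Set.mem_iUnion.2 ⟨v,
      Set.mem_iUnion₂.2 ⟨t, ht, hx⟩⟩⟩⟩
  obtain ⟨Y, M, hY, hmM, htw⟩ := exists_dshape q hζ m hN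
  have hinf : Y.Infinite := fun h => hY h.countable
  obtain ⟨Fs, hF1, hF2⟩ := hinf.exists_subset_card_eq (M + 1)
  obtain ⟨b, hb⟩ := om_bounded Fs.countable_toSet
  obtain ⟨j, hj, hbj⟩ := unbounded_of_not_countable hY b
  have hFj : ∀ i ∈ Fs, i < j := fun i hi => (hb i hi).trans_le hbj
  have claim : ∀ i ∈ Fs, e (ζ j) i < M := by
    intro i hi
    by_contra hcon
    rw [not_lt] at hcon
    have hiY : i ∈ Y := hF1 hi
    have hij : i < ζ j := (hFj i hi).trans (hζ1 j)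
    have tw := htw i hiY j hj (hFj i hi).ne
    obtain ⟨r', h1, h2⟩ := tw.compat
    have hr'p : r' ≤ p := h1.trans (hq i)
    obtain ⟨r2, h3, u, v, h4, h5, h6⟩ := opn r' hr'p _ _ _ (cov r' hr'p i (ζ j) hij)
    obtain ⟨t, ht, hBt, r3, h7, h8⟩ := hA4 _ u v r2 (h3.trans hr'p) h6
    obtain ⟨s, h9, h10, h11, h12⟩ := tw.amalg (hNmem _ u v t ht) (h7.trans (h3.trans h1))
      (h7.trans (h3.trans h2)) h8
    have h13 : s.r.Inn i u.1 u.2 := by
      obtain ⟨a, b, h14, h15⟩ := h4.mono (DP.r_mono h7)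
      exact ⟨a, b, h11 i a b (hζ1 i).ne h14, h15⟩
    have h16 : s.r.Inn (ζ i) v.1 v.2 := by
      obtain ⟨a, b, h14, h15⟩ := h5.mono (DP.r_mono h7)
      exact ⟨a, b, h12 a b h14, h15⟩
    have h17 := base s (h9.trans (hq i)) _ u v i (ζ i) (antiB _ _ _ _ _ h10 hBt) h13 h16
    refine hm i _ ?_ s h9 h17
    rw [hmM i hiY]
    exact hcon
  have hcard : Fs.card ≤ (Finset.range M).card := by
    refine Finset.card_le_card_of_injOn (e (ζ j)) (fun i hi => ?_) ?_
    · exact Finset.mem_coe.2 (Finset.mem_range.2 (claim i hi))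
    · intro i hi i' hi' hii
      exact he (ζ j) (show i < ζ j from (hFj i hi).trans (hζ1 j))
        (show i' < ζ j from (hFj i' hi').trans (hζ1 j)) hii
  rw [hF2, Finset.card_range] at hcard
  omega

/-- injections of the countable ordinals into `ℕ` -/
theorem exists_inj_nat : ∃ e : Om → Om → ℕ, ∀ ζ, Set.InjOn (e ζ) (Set.Iio ζ) := by
  have h : ∀ ζ : Om, ∃ e : Om → ℕ, Set.InjOn e (Set.Iio ζ) := fun ζ =>
    Set.countable_iff_exists_injOn.1 (om_countable_Iio ζ)
  choose e he using h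
  exact ⟨e, he⟩

end Pool.Agent.H90.Mx
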