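import Pool.Agent.H90.Mx.CutI
import Pool.Agent.H90.Mx.LineB
import Pool.Agent.H90.Mx.DInn
import Pool.Agent.H90.Mx.DDens
import Pool.Agent.H90.Mx.DNoSq

/-!
# The generic set of reals for the Δ-set theorem
-/

set_option autoImplicit false

namespace Pool.Agent.H90.Mx

open Frc Ordinal
open Pool.Agent.H90.SN (Om IsCcc om_not_countable)

theorem realPart_dl : RealPart DP.r where
  mono := DP.r_mono
  ext p s hs := by
    obtain ⟨q, h1, h2, -⟩ := p.exists_static hs
    exact ⟨q, h1, h2⟩

/-- the generic set of reals -/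
noncomputable def lineD : LineN DP where
  N := xN DP.r
  Ls a b p := p.r.Lt a b
  anti h hq := h.mono (DP.r_mono hq)
  tot p a b hab := by
    obtain ⟨s, hs, h⟩ := SR.exists_decide p.r {a, b}
    obtain ⟨q, h1, h2, -⟩ := p.exists_static hs
    refine ⟨q, h1, ?_⟩
    rw [h2]
    exact h a (by simp) b (by simp) hab
  irrefl a p h := h.ne rfl
  trans {_ _ _ p} h h' := ⟨p, le_rfl, h.trans h'⟩
  inj := inj_xN realPart_dl

end Pool.Agent.H90.Mx
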