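import Pool.Agent.H90.Mx.DLine

/-!
# The generic set is a Δ-set (module DMODELA)

Let `z` be a function from `X` to `w` in `g`, `ζ` a name of `z`.  Apply `Gen.tp` with
`v = ![onN DP ω, ltN DP, lineD.AN, ζ]`, `R = IsFun z X w` and `S` the conclusion
(`∃ U, ...`, definable, see `dfn_isDelta`).  Let `p` force `R`; let
`φ η k q := Fc q ![xN DP.r η, onN DP k, ζ] (fun _ E v => Rel E (v 2) (v 0) (v 1))` (`k : ℕ`), `i` from
`exists_goodD`.  `tot`: for `q ≤ p` take a generic `g' ∋ q` with all names and `xN DP.r η` denoted; the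
value `y` of the function at `x_η` is `onN k` (`den_onN`, `lt_omega0`); `Fc.truth`, `dir`.  `func`: take a
generic `g' ∋ q` and `IsFun` (if `q` is not below `p` this may fail: use `φ' η k q := q ≤ p ∧ φ η k q` instead
of `φ`); `onN_inj`, `Nat.cast_inj`.
The name of `U`: `UN := relN (ι := {z : (ℕ × Om) × DP // ∃ u v, DAt z.2 i (.box z.1.1 u v) ∧
  z.2.r.Inn z.1.2 u v}) (fun z => onN DP z.1.1.1) (fun z => xN DP.r z.1.1.2) (fun z => z.1.2)`.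
Take `q = p` and the extra names `{UN}`.  Let `g' ∋ p` be generic with `UN` denoted by `U`, so `Rel U n x` iff
`n = onN k`, `x = x_η` for some `k`, `η` and some `q ∈ G'` has a box `.box k u v` of index `i` with
`Inn η u v`.
* covering: `x ∈ X`, `x = x_η`, `Rel z x n`, `n = onN k`.  Some `q ∈ G'`, `q ≤ p` forces it.  It is enough that `q`
  forces `Rel U n x` for `![onN k, x_η, UN]`: `Fc.stable`; for `q' ≤ q` take `r ≤ q'` with
  `DKin i η k r` (`complete`) and then `r' ≤ r` as in `GoodD.box`; a generic `g'' ∋ r'` satisfies it.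
* open: `Rel U n x`: take `q`, `u`, `v` as above; `a = qN u`, `b = qN v` (denoted: `exists_qN`);
  `InI` by `fc_inI`.  For `y ∈ X`, `y = x_η'` with `InI a b y`: `q` forces
  `InI u v x_η' → Rel U n x_η'` : for `q' ≤ q` forcing the left side take `r ≤ q'` with `r.r.Inn η' u v`
  (`inn_of_fc`); it forces `Rel U n x_η'` as it contains the box.  (Use `Fc.decide`/`Fc.stable`.)
* point-finite: `x = x_η`; `p` forces `∃ m ∈ ω, ∀ n ∈ ω, Rel U n x → n ∈ m` for `![x_η, UN, onN ω]`: for `q ≤ p`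
  take `r ≤ q` and `m` with `DAt r i (.out η m)` (`GoodD.out`), let `g'' ∋ r` be generic with `onN m` denoted; if
  `Rel U (onN k) x_η` then there is `q' ∈ G''` with `.box k u v`, `Inn η u v` (use `lineD.inj`); a common
  extension has `k < m` or `Off η u v` (`DAt.bin`), the second is impossible (`SR.Inn.not_off`).
-/

set_option autoImplicit false

namespace Pool.Agent.H90.Mx

open Frc Ordinal
open Pool.Agent.H90.SN (Om IsCcc om_not_countable)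

/-- the conclusion of `IsDelta` for the function `v 3` -/
def DelC : Pred 4 := fun _ E v => ∃ U,
  (∀ x n, E x (v 2) → Rel E (v 3) x n → Rel E U n x) ∧
  (∀ x n, E x (v 2) → E n (v 0) → Rel E U n x → ∃ a b, E a (v 0) ∧ E b (v 0) ∧
    InI E (v 0) (v 1) a b x ∧ ∀ y, E y (v 2) → InI E (v 0) (v 1) a b y → Rel E U n y) ∧
  ∀ x, E x (v 2) → ∃ m, E m (v 0) ∧ ∀ n, E n (v 0) → Rel E U n x → E n m

theorem dfn_delC : Dfn DelC :=
  (.ex (.and
    (.all (.all (.imp (.mem _ _) (.imp (dfn_rel _ _ _) (dfn_rel _ _ _)))))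
    (.and (.all (.all (.imp (.mem _ _) (.imp (.mem _ _) (.imp (dfn_rel _ _ _)
      (.ex (.ex (.and (.mem _ _) (.and (.mem _ _) (.and (dfn_inI _ _ _ _ _)
        (.all (.imp (.mem _ _) (.imp (dfn_inI _ _ _ _ _) (dfn_rel _ _ _))))))))))))))
    (.all (.imp (.mem _ _) (.ex (.and (.mem _ _) (.all (.imp (.mem _ _)
      (.imp (dfn_rel _ _ _) (.mem _ _)))))))))))

/-- the name of the sequence of open sets -/
noncomputable def UN (i : DI) : Name DP :=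
  relN (ι := {z : (ℕ × Om) × DP // ∃ u v, DAt z.2 i (.box z.1.1 u v) ∧ z.2.r.Inn z.1.2 u v})
    (fun z => onN DP (z.1.1.1 : ℕ)) (fun z => xN DP.r z.1.1.2) (fun z => z.1.2)

theorem rel_UN {g : Gen DP} {i : DI} {U n x : g.M} (hU : g.Den (UN i) U) :
    Rel g.E U n x ↔ ∃ (k : ℕ) (η : Om), ∃ q ∈ g.G,
      (∃ u v, DAt q i (.box k u v) ∧ q.r.Inn η u v) ∧ g.Den (onN DP (k : ℕ)) n ∧
        g.Den (xN DP.r η) x := by
  rw [UN] at hU
  rw [den_relN hU]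
  constructor
  · rintro ⟨⟨⟨⟨k, η⟩, q⟩, h⟩, hq, h1, h2⟩
    exact ⟨k, η, q, hq, h, h1, h2⟩
  · rintro ⟨k, η, q, hq, h, h1, h2⟩
    exact ⟨⟨((k, η), q), h⟩, hq, h1, h2⟩

/-- `x_η` is in the `k`-th piece -/
def DPhi (p : DP) (ζ : Name DP) (η : Om) (k : ℕ) (q : DP) : Prop :=
  q ≤ p ∧ Fc q ![xN DP.r η, onN DP (k : ℕ), ζ] (fun _ E v => Rel E (v 2) (v 0) (v 1))

theorem DPhi.mono {p : DP} {ζ : Name DP} {η : Om} {k : ℕ} {q q' : DP} (h : DPhi p ζ η k q)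
    (hq : q' ≤ q) : DPhi p ζ η k q' := ⟨hq.trans h.1, h.2.mono hq⟩

theorem dphi_tot {p : DP} {ζ : Name DP}
    (hp : Fc p ![onN DP ω, ltN DP, lineD.AN, ζ] (fun _ E v => IsFun E (v 3) (v 2) (v 0))) :
    ∀ q ≤ p, ∀ η, ∃ r ≤ q, ∃ k, DPhi p ζ η k r := by
  intro q hq η
  obtain ⟨g, hg, a, ha⟩ := exists_gen_fin q ![onN DP ω, ltN DP, lineD.AN, ζ, xN DP.r η]
  have h0 : g.Den (onN DP ω) (a 0) := ha 0
  have h1 : g.Den (ltN DP) (a 1) := ha 1
  have h2 : g.Den lineD.AN (a 2) := ha 2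
  have h3 : g.Den ζ (a 3) := ha 3
  have h4 : g.Den (xN DP.r η) (a 4) := ha 4
  have hf : IsFun g.E (a 3) (a 2) (a 0) :=
    hp g (g.up q hg p hq) ![a 0, a 1, a 2, a 3] (den4 h0 h1 h2 h3)
  obtain ⟨y, hy, hxy, -⟩ := hf (a 4) ((LineN.mem_AN h2 _).2 ⟨η, h4⟩)
  obtain ⟨β, hβ, hyβ⟩ := (den_onN h0 y).1 hy
  obtain ⟨k, rfl⟩ := lt_omega0.1 hβ
  obtain ⟨p', hp', hf'⟩ := (Fc.truth (dfn_rel 2 0 1) (den3 h4 hyβ h3)).1 hxy
  obtain ⟨r, -, hr1, hr2⟩ := g.dir q hg p' hp'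
  exact ⟨r, hr1, k, hr1.trans hq, hf'.mono hr2⟩

theorem dphi_func {p : DP} {ζ : Name DP}
    (hp : Fc p ![onN DP ω, ltN DP, lineD.AN, ζ] (fun _ E v => IsFun E (v 3) (v 2) (v 0))) :
    ∀ q η k k', DPhi p ζ η k q → DPhi p ζ η k' q → k = k' := by
  intro q η k k' hk hk'
  obtain ⟨g, hg, a, ha⟩ := exists_gen_fin q
    ![onN DP ω, ltN DP, lineD.AN, ζ, xN DP.r η, onN DP (k : ℕ), onN DP (k' : ℕ)]
  have h0 : g.Den (onN DP ω) (a 0) := ha 0
  have h1 : g.Den (ltN DP) (a 1) := ha 1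
  have h2 : g.Den lineD.AN (a 2) := ha 2
  have h3 : g.Den ζ (a 3) := ha 3
  have h4 : g.Den (xN DP.r η) (a 4) := ha 4
  have h5 : g.Den (onN DP (k : ℕ)) (a 5) := ha 5
  have h6 : g.Den (onN DP (k' : ℕ)) (a 6) := ha 6
  have hf : IsFun g.E (a 3) (a 2) (a 0) :=
    hp g (g.up q hg p hk.1) ![a 0, a 1, a 2, a 3] (den4 h0 h1 h2 h3)
  obtain ⟨y, -, -, huniq⟩ := hf (a 4) ((LineN.mem_AN h2 _).2 ⟨η, h4⟩)
  have e1 : Rel g.E (a 3) (a 4) (a 5) := hk.2 g hg ![a 4, a 5, a 3] (den3 h4 h5 h3)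
  have e2 : Rel g.E (a 3) (a 4) (a 6) := hk'.2 g hg ![a 4, a 6, a 3] (den3 h4 h6 h3)
  have e3 : a 5 = a 6 := (huniq _ e1).trans (huniq _ e2).symm
  rw [e3] at h5
  exact_mod_cast onN_inj h5 h6

/-- the covering property is forced -/
theorem fc_cover {p : DP} {ζ : Name DP} {i : DI} (hi : GoodD i p (DPhi p ζ))
    (func : ∀ q η k k', DPhi p ζ η k q → DPhi p ζ η k' q → k = k') {η : Om} {k : ℕ} {q : DP}
    (h : DPhi p ζ η k q) :
    Fc q ![onN DP (k : ℕ), xN DP.r η, UN i] (fun _ E v => Rel E (v 2) (v 0) (v 1)) := by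
  refine Fc.stable (dfn_rel 2 0 1) fun q' hq' => ?_
  obtain ⟨r, hr, hr'⟩ := hi.complete η k q' (hq'.trans h.1) (h.mono hq')
  obtain ⟨s, hs, u, v, hbox, hinn⟩ := hi.box func r η k hr'
  refine ⟨s, hs.trans hr, fun g hg a ha => ?_⟩
  exact (rel_UN (ha 2)).2 ⟨k, η, s, hg, ⟨u, v, hbox, hinn⟩, ha 0, ha 1⟩

/-- the open sets are open -/
theorem fc_open {i : DI} {η : Om} {k : ℕ} {u v : ℚ} {s : DP} (hbox : DAt s i (.box k u v))
    (h : Fc s (innV DP.r η u v) InnR) :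
    Fc s ![onN DP (k : ℕ), xN DP.r η, UN i] (fun _ E v => Rel E (v 2) (v 0) (v 1)) := by
  refine Fc.stable (dfn_rel 2 0 1) fun q' hq' => ?_
  obtain ⟨r, hr, hinn⟩ := inn_of_fc realPart_dl (h.mono hq')
  refine ⟨r, hr, fun g hg a ha => ?_⟩
  exact (rel_UN (ha 2)).2 ⟨k, η, r, hg, ⟨u, v, hbox.mono (hr.trans hq'), hinn⟩, ha 0, ha 1⟩

/-- point-finiteness is forced -/
theorem fc_ptfin {p : DP} {ζ : Name DP} {i : DI} (hi : GoodD i p (DPhi p ζ))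
    (tot : ∀ q ≤ p, ∀ η, ∃ r ≤ q, ∃ k, DPhi p ζ η k r) (η : Om) :
    Fc p ![xN DP.r η, UN i, onN DP ω]
      (fun _ E v => ∃ m, E m (v 2) ∧ ∀ n, E n (v 2) → Rel E (v 1) n (v 0) → E n m) := by
  refine Fc.stable (.ex (.and (.mem _ _) (.all (.imp (.mem _ _) (.imp (dfn_rel _ _ _)
    (.mem _ _)))))) fun q hq => ?_
  obtain ⟨r, hr, m, hm⟩ := hi.out tot q hq η
  refine ⟨r, hr, fun g hg a ha => ?_⟩
  have h0 : g.Den (xN DP.r η) (a 0) := ha 0
  have h1 : g.Den (UN i) (a 1) := ha 1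
  have h2 : g.Den (onN DP ω) (a 2) := ha 2
  obtain ⟨b, hb⟩ := exists_den_nat h2 m
  refine ⟨b, (den_onN h2 b).2 ⟨_, natCast_lt_omega0 m, hb⟩, fun n _ hU => ?_⟩
  obtain ⟨k, η1, q1, hq1, ⟨u, v, hbox, hinn⟩, hn, hx⟩ := (rel_UN h1).1 hU
  have e1 : η1 = η := lineD.inj g _ _ _ hx h0
  subst e1
  obtain ⟨t, -, ht1, ht2⟩ := g.dir q1 hq1 r hg
  have hkm : k < m := by
    rcases (hbox.mono ht1).bin (hm.mono ht2) with h | h
    · exact h
    · exact absurd h (hinn.mono (DP.r_mono ht1)).not_off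
  exact (onN_mem_iff hn hb).2 (by exact_mod_cast hkm)

theorem isDelta_gen {g : Gen DP} {w l X : g.M} (hw : g.Den (onN DP ω) w)
    (hl : g.Den (ltN DP) l) (hX : g.Den lineD.AN X) : IsDelta g.E w w l X := by
  intro z hz
  obtain ⟨ζ, hζ⟩ := g.exists_den z
  have hmain := Gen.tp (g := g) (v := ![onN DP ω, ltN DP, lineD.AN, ζ]) (a := ![w, l, X, z])
    (den4 hw hl hX hζ) (R := fun _ E v => IsFun E (v 3) (v 2) (v 0)) (S := DelC)
    (dfn_isFun 3 2 0) dfn_delC ?_ hz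
  · exact hmain
  intro p hp
  have tot := dphi_tot hp
  have func := dphi_func hp
  obtain ⟨i, hi⟩ := exists_goodD (p := p) (φ := DPhi p ζ) (fun η k q q' h h' => h'.mono h)
  refine ⟨p, le_rfl, {UN i}, Set.countable_singleton _, ?_⟩
  intro g' hp' hL a ha hRa
  obtain ⟨U, hU⟩ := hL _ rfl
  have h0 : g'.Den (onN DP ω) (a 0) := ha 0
  have h1 : g'.Den (ltN DP) (a 1) := ha 1
  have h2 : g'.Den lineD.AN (a 2) := ha 2
  have h3 : g'.Den ζ (a 3) := ha 3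
  refine ⟨U, ?_, ?_, ?_⟩
  · intro x n hx hxn
    obtain ⟨η, hη⟩ := (LineN.mem_AN h2 x).1 hx
    have hη' : g'.Den (xN DP.r η) x := hη
    obtain ⟨y, hy, -, huniq⟩ := hRa x hx
    have e1 : n = y := huniq n hxn
    subst e1
    obtain ⟨β, hβ, hyβ⟩ := (den_onN h0 n).1 hy
    obtain ⟨k, rfl⟩ := lt_omega0.1 hβ
    obtain ⟨q1, hq1, hf⟩ := (Fc.truth (dfn_rel 2 0 1) (den3 hη' hyβ h3)).1 hxn
    obtain ⟨q, hq, hq2, hq3⟩ := g'.dir q1 hq1 p hp'
    exact fc_cover hi func (q := q) ⟨hq3, hf.mono hq2⟩ g' hq ![n, x, U] (den3 hyβ hη' hU)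
  · intro x n hx hn hUn
    obtain ⟨k, η, q, hq, ⟨u, v, hbox, hinn⟩, hn', hx'⟩ := (rel_UN hU).1 hUn
    obtain ⟨b, hb⟩ := exists_qN h0 u
    obtain ⟨c, hc⟩ := exists_qN h0 v
    refine ⟨b, c, qN_mem h0 hb, qN_mem h0 hc, ?_, ?_⟩
    · exact fc_inI realPart_dl hinn g' hq ![x, b, c, a 0, a 1] (den5 hx' hb hc h0 h1)
    · intro y hy hin
      obtain ⟨η', hη'⟩ := (LineN.mem_AN h2 y).1 hy
      have hη'' : g'.Den (xN DP.r η') y := hη'
      obtain ⟨q2, hq2, hf⟩ := (Fc.truth dfn_innR (v := innV DP.r η' u v)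
        (a := ![y, b, c, a 0, a 1]) (den5 hη'' hb hc h0 h1)).1 hin
      obtain ⟨s, hs, hs1, hs2⟩ := g'.dir q hq q2 hq2
      exact fc_open (hbox.mono hs1) (hf.mono hs2) g' hs ![n, y, U] (den3 hn' hη'' hU)
  · intro x hx
    obtain ⟨η, hη⟩ := (LineN.mem_AN h2 x).1 hx
    have hη' : g'.Den (xN DP.r η) x := hη
    exact fc_ptfin hi tot η g' hp' ![x, U, a 0] (den3 hη' hU h0)

end Pool.Agent.H90.Mx
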