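import Pool.Agent.H90.SN.Sys

/-!
# A weak Δ-system lemma (module DELTA)

Induction on `n` as in `Pool/Agent/H90/SN/Cohen.lean` (`cohen_aux`, copy its structure), for families with
`(D i).card = n` for all `i` in an uncountable set `S`: there are `R` and an uncountable `Y ⊆ S`.
* `n = 0`: `R = ∅`, `Y = S`.
* `n + 1`: if some `x` is in `D i` for uncountably many `i ∈ S` use the induction hypothesis for these
  `i` and `(D i).erase x`, and add `x` to `R`.  Otherwise take a maximal `Y ⊆ S` such that the `D i`, `i ∈ Y`,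
  are pairwise disjoint (`zorn_subset`).  If `Y` is countable then the union of the `D i`, `i ∈ Y`, is
  countable, so all but countably many `j ∈ S` have `D j` disjoint from all of them; such a `j ∉ Y`
  contradicts maximality.  `R = ∅`.
First pass to an uncountable set on which the cardinality is constant.
-/

set_option autoImplicit false

namespace Pool.Agent.H90.Mx

open Pool.Agent.H90.SN

private theorem delta_aux {I : Type} (n : ℕ) : ∀ (S : Set Om), ¬ S.Countable →
    ∀ D : Om → Finset I, (∀ i ∈ S, (D i).card = n) → ∃ (R : Finset I) (Y : Set Om), Y ⊆ S ∧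
      ¬ Y.Countable ∧ ∀ ν ∈ Y, ∀ μ ∈ Y, ν ≠ μ → ∀ i ∈ D ν, i ∈ D μ → i ∈ R := by
  classical
  induction n with
  | zero =>
    intro S hS D hD
    refine ⟨∅, S, Set.Subset.rfl, hS, fun ν hν μ _ _ i hi _ => ?_⟩
    rw [Finset.card_eq_zero.1 (hD ν hν)] at hi
    exact absurd hi (Finset.notMem_empty i)
  | succ n ih =>
    intro S hS D hD
    by_cases hx : ∃ x, ¬ {i | i ∈ S ∧ x ∈ D i}.Countable
    · obtain ⟨x, hx⟩ := hx
      obtain ⟨R, Y, hYS, hY, hR⟩ := ih {i | i ∈ S ∧ x ∈ D i} hx (fun i => (D i).erase x)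
        (fun i hi => by rw [Finset.card_erase_of_mem hi.2, hD i hi.1]; rfl)
      refine ⟨insert x R, Y, fun i hi => (hYS hi).1, hY, fun ν hν μ hμ hne i hi hi' => ?_⟩
      by_cases hix : i = x
      · rw [hix]
        exact Finset.mem_insert_self _ _
      · exact Finset.mem_insert_of_mem (hR ν hν μ hμ hne i (Finset.mem_erase.2 ⟨hix, hi⟩)
          (Finset.mem_erase.2 ⟨hix, hi'⟩))
    · push Not at hx
      obtain ⟨Y, hY⟩ := zorn_subset {Y : Set Om | Y ⊆ S ∧
          ∀ ν ∈ Y, ∀ μ ∈ Y, ν ≠ μ → ∀ i ∈ D ν, i ∉ D μ} (by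
        intro c hc hchain
        refine ⟨⋃₀ c, ⟨Set.sUnion_subset fun s hs => (hc hs).1, ?_⟩,
          fun s hs => Set.subset_sUnion_of_mem hs⟩
        rintro ν ⟨s, hs, hν⟩ μ ⟨t, ht, hμ⟩ hne
        rcases hchain.total hs ht with h | h
        · exact (hc ht).2 ν (h hν) μ hμ hne
        · exact (hc hs).2 ν hν μ (h hμ) hne)
      refine ⟨∅, Y, hY.prop.1, fun hcount => ?_,
        fun ν hν μ hμ hne i hi hi' => absurd hi' (hY.prop.2 ν hν μ hμ hne i hi)⟩
      have hU : (Y ∪ ⋃ ν ∈ Y, ⋃ x ∈ (D ν : Set I), {i | i ∈ S ∧ x ∈ D i}).Countable :=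
        hcount.union (hcount.biUnion fun ν _ =>
          (Finset.countable_toSet (D ν)).biUnion fun x _ => hx x)
      obtain ⟨j, hj, hjU⟩ : ∃ j ∈ S, j ∉ (Y ∪ ⋃ ν ∈ Y, ⋃ x ∈ (D ν : Set I),
          {i | i ∈ S ∧ x ∈ D i}) := by
        by_contra hcon
        push Not at hcon
        exact hS (hU.mono hcon)
      have hdis : ∀ ν ∈ Y, ∀ i ∈ D ν, i ∉ D j := by
        intro ν hν i hi hij
        refine hjU (Or.inr ?_)
        simp only [Set.mem_iUnion]
        exact ⟨ν, hν, i, hi, hj, hij⟩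
      have h1 : insert j Y ⊆ Y := by
        refine hY.le_of_ge ⟨Set.insert_subset hj hY.prop.1, ?_⟩ (Set.subset_insert j Y)
        rintro ν (rfl | hν) μ (rfl | hμ) hne i hi
        · exact absurd rfl hne
        · exact fun h => hdis μ hμ i h hi
        · exact hdis ν hν i hi
        · exact hY.prop.2 ν hν μ hμ hne i hi
      exact hjU (Or.inl (h1 (Set.mem_insert j Y)))

theorem exists_delta {I : Type} (D : Om → Finset I) : ∃ (R : Finset I) (Y : Set Om),
    ¬ Y.Countable ∧ ∀ ν ∈ Y, ∀ μ ∈ Y, ν ≠ μ → ∀ i ∈ D ν, i ∈ D μ → i ∈ R := by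
  have h1 : ∃ n, ¬ {i | (D i).card = n}.Countable := by
    by_contra hcon
    push Not at hcon
    refine om_not_countable ?_
    rw [← Set.countable_univ_iff]
    refine (Set.countable_iUnion hcon).mono fun i _ => ?_
    exact Set.mem_iUnion.2 ⟨(D i).card, rfl⟩
  obtain ⟨n, hn⟩ := h1
  obtain ⟨R, Y, -, hY, hR⟩ := delta_aux n _ hn D (fun i hi => hi)
  exact ⟨R, Y, hY, hR⟩

/-- uncountable sets are unbounded -/
theorem unbounded_of_not_countable {Y : Set Om} (hY : ¬ Y.Countable) (ζ : Om) :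
    ∃ ν ∈ Y, ζ ≤ ν := by
  by_contra hcon
  push Not at hcon
  exact hY ((om_countable_Iio ζ).mono fun ν hν => hcon ν hν)

/-- for a function into a countable type some fibre is uncountable -/
theorem exists_fiber_set {V : Type} [Countable V] (v : Om → V) {S : Set Om} (hS : ¬ S.Countable) :
    ∃ k, ¬ {i | i ∈ S ∧ v i = k}.Countable := by
  by_contra hcon
  push Not at hcon
  refine hS ((Set.countable_iUnion hcon).mono fun i hi => ?_)
  exact Set.mem_iUnion.2 ⟨v i, hi, rfl⟩

end Pool.Agent.H90.Mx
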