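import Pool.Agent.H90.Mx.DInst
import Pool.Agent.H90.Mx.Delta

/-!
# Twins for the forcing of the Δ-set theorem (module DSHAPE)

`exists_dshape`.  For `δ : Om` let `D δ : Finset (Om ⊕ DI)` be the (finite) set of all `x` with
`(q δ).Occ x`, together with `.inl (ζ δ)`.  Take `R`, `Y0` from `exists_delta`.  Remove from `Y0` the
(finitely many) `δ` with `.inl (ζ δ) ∈ R` (`ζ` is injective), and the countably many `δ` such that `D δ`
contains an element of `N \ R` (for `x ∉ R` there is at most one `δ ∈ Y0` with `x ∈ D δ`).  The remaining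
set `Y1` is uncountable.  On `Y1` consider the following data of `δ` in countable types and pass to an
uncountable `Y` on which they are constant (`exists_fiber_set`; `R` is a finite set, so the types of finite
subsets below are countable; restrict to the subtype `{x // x ∈ R}`):
* the finite set of all `(η, a, b) ∈ (q δ).r.1` with `.inl η ∈ R`;
* the finite set of all `(i, n, u, v)` with `.inr i ∈ R` and `DAt (q δ) i (.box n u v)`;
* the finite set of all `(a, b)` with `(ζ δ, a, b) ∈ (q δ).r.1`;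
* the finite set of all `(i, m)` with `.inr i ∈ R` and `DAt (q δ) i (.out (ζ δ) m)`;
* `m δ`.
For `δ ≠ δ'` in `Y`: an element occurring in both `q δ` and `q δ'` is in `R`.  For `out`: if `.inr i ∈ N` and
`DAt (q δ) i (.out (ζ δ) m)` then `.inr i ∈ D δ ∩ N`, so `.inr i ∈ R`.  `zN`: `.inl (ζ δ) ∈ D δ`, not in `R`,
so not in `N`.  `zq`: `.inl (ζ δ) ∈ D δ \ R`, so it is not in `D δ'`.
(Countable types: `Finset ({x // x ∈ R} × ℚ × ℚ)` etc.; one can also use that
`{F : Finset (Om × ℚ × ℚ) | ∀ x ∈ F, .inl x.1 ∈ R}` is countable.)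
-/

set_option autoImplicit false

namespace Pool.Agent.H90.Mx

open Pool.Agent.H90.SN

/-- `q` is a copy of `p`, `z'` the copy of `z` -/
structure DTwin (p q : DP) (z z' : Om) (N : Set (Om ⊕ DI)) : Prop where
  ord : ∀ η, (∃ a b, (η, a, b) ∈ p.r.1) → (∃ a b, (η, a, b) ∈ q.r.1) →
    ∀ a b, (η, a, b) ∈ p.r.1 ↔ (η, a, b) ∈ q.r.1
  box : ∀ i, (∃ c, DAt p i c) → (∃ c, DAt q i c) →
    ∀ n u v, DAt p i (.box n u v) ↔ DAt q i (.box n u v)
  str : ∀ a b, (z, a, b) ∈ p.r.1 → (z', a, b) ∈ q.r.1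
  out : ∀ i, .inr i ∈ N → ∀ m, DAt p i (.out z m) → DAt q i (.out z' m)
  zN : .inl z ∉ N
  zq : ¬ q.Occ (.inl z)
  ne : z ≠ z'

private def outIx (i : DI) : DC → Om ⊕ DI
  | .box _ _ _ => .inr i
  | .out η _ => .inl η

private def boxSet : DC → Finset (ℕ × ℚ × ℚ)
  | .box n u v => {(n, u, v)}
  | .out _ _ => ∅

open Classical in
private noncomputable def outSet (z : Om) : DC → Finset ℕ
  | .box _ _ _ => ∅
  | .out η m => if η = z then {m} else ∅

theorem exists_dshape (q : Om → DP) {ζ : Om → Om} (hζ : Function.Injective ζ) (m : Om → ℕ)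
    {N : Set (Om ⊕ DI)} (hN : N.Countable) :
    ∃ (Y : Set Om) (M : ℕ), ¬ Y.Countable ∧ (∀ δ ∈ Y, m δ = M) ∧
      ∀ δ ∈ Y, ∀ δ' ∈ Y, δ ≠ δ' → DTwin (q δ) (q δ') (ζ δ) (ζ δ') N := by
  classical
  choose A hA using fun δ => DP.finite_at (q δ)
  let D : Om → Finset (Om ⊕ DI) := fun δ =>
    (q δ).r.1.image (fun x => Sum.inl x.1) ∪ ((A δ).image (fun x => Sum.inr x.1) ∪
      ((A δ).image (fun x => outIx x.1 x.2) ∪ {Sum.inl (ζ δ)}))
  have hD1 : ∀ δ x, (q δ).Occ x → x ∈ D δ := by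
    rintro δ (η | i) hx
    · rcases hx with ⟨a, b, h⟩ | ⟨i, n, h⟩
      · exact Finset.mem_union_left _ (Finset.mem_image.2 ⟨_, h, rfl⟩)
      · exact Finset.mem_union_right _ (Finset.mem_union_right _ (Finset.mem_union_left _
          (Finset.mem_image.2 ⟨_, (hA δ i (.out η n)).1 h, rfl⟩)))
    · obtain ⟨c, h⟩ := hx
      exact Finset.mem_union_right _ (Finset.mem_union_left _
        (Finset.mem_image.2 ⟨_, (hA δ i c).1 h, rfl⟩))
  have hD2 : ∀ δ, Sum.inl (ζ δ) ∈ D δ := fun δ =>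
    Finset.mem_union_right _ (Finset.mem_union_right _ (Finset.mem_union_right _
      (Finset.mem_singleton_self _)))
  obtain ⟨R, Y0, hY0, hR⟩ := exists_delta D
  have hb1 : (⋃ x ∈ (R : Set (Om ⊕ DI)), {δ : Om | Sum.inl (ζ δ) = x}).Countable := by
    refine (Finset.countable_toSet R).biUnion fun x _ => Set.Subsingleton.countable ?_
    intro a ha b hb
    have ha' : Sum.inl (ζ a) = x := ha
    have hb' : Sum.inl (ζ b) = x := hb
    exact hζ (Sum.inl_injective (ha'.trans hb'.symm))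
  have hb2 : (⋃ x ∈ N, {δ : Om | δ ∈ Y0 ∧ x ∈ D δ ∧ x ∉ R}).Countable := by
    refine hN.biUnion fun x _ => Set.Subsingleton.countable ?_
    intro a ha b hb
    by_contra hne
    exact ha.2.2 (hR a ha.1 b hb.1 hne x ha.2.1 hb.2.1)
  have hY1 : ¬ (Y0 \ ((⋃ x ∈ (R : Set (Om ⊕ DI)), {δ : Om | Sum.inl (ζ δ) = x}) ∪
      ⋃ x ∈ N, {δ : Om | δ ∈ Y0 ∧ x ∈ D δ ∧ x ∉ R})).Countable := by
    intro h
    refine hY0 ((h.union (hb1.union hb2)).mono fun x hx => ?_)
    by_cases hx' : x ∈ ((⋃ x ∈ (R : Set (Om ⊕ DI)), {δ : Om | Sum.inl (ζ δ) = x}) ∪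
      ⋃ x ∈ N, {δ : Om | δ ∈ Y0 ∧ x ∈ D δ ∧ x ∉ R})
    · exact Or.inr hx'
    · exact Or.inl ⟨hx, hx'⟩
  let v : Om → (({x // x ∈ R} → Finset (ℚ × ℚ)) × ({x // x ∈ R} → Finset (ℕ × ℚ × ℚ))) ×
      (Finset (ℚ × ℚ) × ({x // x ∈ R} → Finset ℕ) × ℕ) := fun δ =>
    ((fun x => ((q δ).r.1.filter (fun t => x.1 = Sum.inl t.1)).image (fun t => t.2),
      fun x => ((A δ).filter (fun t => x.1 = Sum.inr t.1)).biUnion (fun t => boxSet t.2)),
     (((q δ).r.1.filter (fun t => t.1 = ζ δ)).image (fun t => t.2),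
      fun x => ((A δ).filter (fun t => x.1 = Sum.inr t.1)).biUnion (fun t => outSet (ζ δ) t.2),
      m δ))
  obtain ⟨k, hk⟩ := exists_fiber_set v hY1
  have hout1 : ∀ δ ∈ {i | i ∈ (Y0 \ ((⋃ x ∈ (R : Set (Om ⊕ DI)), {δ : Om | Sum.inl (ζ δ) = x}) ∪
      ⋃ x ∈ N, {δ : Om | δ ∈ Y0 ∧ x ∈ D δ ∧ x ∉ R})) ∧ v i = k},
      δ ∈ Y0 ∧ Sum.inl (ζ δ) ∉ R ∧ (∀ x ∈ N, x ∈ D δ → x ∈ R) ∧ v δ = k := by
    rintro δ ⟨⟨h1, h2⟩, h3⟩
    refine ⟨h1, fun h => h2 (Or.inl ?_), fun x hx hxD => ?_, h3⟩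
    · exact Set.mem_iUnion₂.2 ⟨_, h, rfl⟩
    · by_contra hxR
      exact h2 (Or.inr (Set.mem_iUnion₂.2 ⟨x, hx, h1, hxD, hxR⟩))
  refine ⟨_, k.2.2.2, hk, fun δ hδ => ?_, fun δ hδ δ' hδ' hne => ?_⟩
  · have h := (hout1 δ hδ).2.2.2
    rw [← h]
  · obtain ⟨a1, a2, a3, a4⟩ := hout1 δ hδ
    obtain ⟨b1, b2, b3, b4⟩ := hout1 δ' hδ'
    have hv : v δ = v δ' := a4.trans b4.symm
    have hcom : ∀ x, x ∈ D δ → x ∈ D δ' → x ∈ R := fun x h1 h2 => hR δ a1 δ' b1 hne x h1 h2
    have hv1 : ∀ x : {x // x ∈ R}, ((q δ).r.1.filter (fun t => x.1 = Sum.inl t.1)).image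
        (fun t => t.2) = ((q δ').r.1.filter (fun t => x.1 = Sum.inl t.1)).image (fun t => t.2) :=
      fun x => congrFun (congrArg (fun z => z.1.1) hv) x
    have hv2 : ∀ x : {x // x ∈ R}, ((A δ).filter (fun t => x.1 = Sum.inr t.1)).biUnion
        (fun t => boxSet t.2) = ((A δ').filter (fun t => x.1 = Sum.inr t.1)).biUnion
        (fun t => boxSet t.2) :=
      fun x => congrFun (congrArg (fun z => z.1.2) hv) x
    have hv3 : ((q δ).r.1.filter (fun t => t.1 = ζ δ)).image (fun t => t.2) =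
        ((q δ').r.1.filter (fun t => t.1 = ζ δ')).image (fun t => t.2) :=
      congrArg (fun z => z.2.1) hv
    have hv4 : ∀ x : {x // x ∈ R}, ((A δ).filter (fun t => x.1 = Sum.inr t.1)).biUnion
        (fun t => outSet (ζ δ) t.2) = ((A δ').filter (fun t => x.1 = Sum.inr t.1)).biUnion
        (fun t => outSet (ζ δ') t.2) :=
      fun x => congrFun (congrArg (fun z => z.2.2.1) hv) x
    have mem1 : ∀ (δ : Om) (η : Om) (hη : Sum.inl η ∈ R) (a b : ℚ),
        (η, a, b) ∈ (q δ).r.1 ↔ (a, b) ∈ ((q δ).r.1.filter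
          (fun t => (⟨Sum.inl η, hη⟩ : {x // x ∈ R}).1 = Sum.inl t.1)).image (fun t => t.2) := by
      intro δ η hη a b
      constructor
      · intro h
        exact Finset.mem_image.2 ⟨_, Finset.mem_filter.2 ⟨h, rfl⟩, rfl⟩
      · intro h
        obtain ⟨⟨η', a', b'⟩, h1, h2⟩ := Finset.mem_image.1 h
        obtain ⟨h3, h4⟩ := Finset.mem_filter.1 h1
        have h5 : η = η' := Sum.inl_injective h4
        subst h5
        have h6 : (a', b') = (a, b) := h2
        rw [← h6]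
        exact h3
    have mem2 : ∀ (δ : Om) (i : DI) (hi : Sum.inr i ∈ R) (n : ℕ) (u w : ℚ),
        DAt (q δ) i (.box n u w) ↔ (n, u, w) ∈ ((A δ).filter
          (fun t => (⟨Sum.inr i, hi⟩ : {x // x ∈ R}).1 = Sum.inr t.1)).biUnion
          (fun t => boxSet t.2) := by
      intro δ i hi n u w
      constructor
      · intro h
        refine Finset.mem_biUnion.2 ⟨_, Finset.mem_filter.2 ⟨(hA δ i _).1 h, rfl⟩, ?_⟩
        exact Finset.mem_singleton_self _
      · intro h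
        obtain ⟨⟨i', c⟩, h1, h2⟩ := Finset.mem_biUnion.1 h
        obtain ⟨h3, h4⟩ := Finset.mem_filter.1 h1
        have h5 : i = i' := Sum.inr_injective h4
        subst h5
        rcases c with ⟨n', u', w'⟩ | ⟨η, n'⟩
        · have h6 : (n, u, w) = (n', u', w') := Finset.mem_singleton.1 h2
          have h7 : DAt (q δ) i (.box n' u' w') := (hA δ i _).2 h3
          simp only [Prod.mk.injEq] at h6
          obtain ⟨rfl, rfl, rfl⟩ := h6
          exact h7
        · exact absurd h2 (Finset.notMem_empty _)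
    have mem4 : ∀ (δ : Om) (z : Om) (i : DI) (hi : Sum.inr i ∈ R) (n : ℕ),
        DAt (q δ) i (.out z n) ↔ n ∈ ((A δ).filter
          (fun t => (⟨Sum.inr i, hi⟩ : {x // x ∈ R}).1 = Sum.inr t.1)).biUnion
          (fun t => outSet z t.2) := by
      intro δ z i hi n
      constructor
      · intro h
        refine Finset.mem_biUnion.2 ⟨_, Finset.mem_filter.2 ⟨(hA δ i _).1 h, rfl⟩, ?_⟩
        simp [outSet]
      · intro h
        obtain ⟨⟨i', c⟩, h1, h2⟩ := Finset.mem_biUnion.1 h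
        obtain ⟨h3, h4⟩ := Finset.mem_filter.1 h1
        have h5 : i = i' := Sum.inr_injective h4
        subst h5
        rcases c with ⟨n', u', w'⟩ | ⟨η, n'⟩
        · exact absurd h2 (Finset.notMem_empty _)
        · have h7 : DAt (q δ) i (.out η n') := (hA δ i _).2 h3
          simp only [outSet] at h2
          split_ifs at h2 with h8
          · have h9 : n = n' := Finset.mem_singleton.1 h2
            rw [h9, ← h8]
            exact h7
          · exact absurd h2 (Finset.notMem_empty _)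
    refine
      { ord := ?_, box := ?_, str := ?_, out := ?_, zN := ?_, zq := ?_, ne := ?_ }
    · intro η h1 h2 a b
      have hη : Sum.inl η ∈ R := hcom _ (hD1 δ _ (Or.inl h1)) (hD1 δ' _ (Or.inl h2))
      rw [mem1 δ η hη, mem1 δ' η hη, hv1]
    · intro i h1 h2 n u w
      have hi : Sum.inr i ∈ R := hcom _ (hD1 δ (.inr i) h1) (hD1 δ' (.inr i) h2)
      rw [mem2 δ i hi, mem2 δ' i hi, hv2]
    · intro a b h
      have h1 : (a, b) ∈ ((q δ).r.1.filter (fun t => t.1 = ζ δ)).image (fun t => t.2) :=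
        Finset.mem_image.2 ⟨_, Finset.mem_filter.2 ⟨h, rfl⟩, rfl⟩
      rw [hv3] at h1
      obtain ⟨⟨η', a', b'⟩, h2, h3⟩ := Finset.mem_image.1 h1
      obtain ⟨h4, h5⟩ := Finset.mem_filter.1 h2
      have h6 : η' = ζ δ' := h5
      have h7 : (a', b') = (a, b) := h3
      rw [← h7, ← h6]
      exact h4
    · intro i hi n h
      have hiR : Sum.inr i ∈ R := a3 _ hi (hD1 δ (.inr i) ⟨_, h⟩)
      rw [mem4 δ' _ i hiR, ← hv4, ← mem4 δ _ i hiR]
      exact h
    · intro h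
      exact a2 (a3 _ h (hD2 δ))
    · intro h
      exact a2 (hcom _ (hD2 δ) (hD1 δ' _ h))
    · intro h
      exact hne (hζ h)

end Pool.Agent.H90.Mx
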