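import Pool.Agent.H90.Mx.Key

/-!
# No uncountable real suborders in the Aronszajn line, combinatorial part (module REALSUB)

* `no_real`: `φ c q`: `q` forces `c ∈ B`; `χ c u q`: `q` forces `u ∈ j(c)`, `χ' c u q`: `q` forces
  `u ∉ j(c)`.  Choose for every `ν` some `q ν ≤ p`, `c ν ≥ ν` with `φ (c ν) (q ν)`.  (1) For every `ν` there are
  `q ≤ p`, `c, d ≥ ν` with `φ c q`, `φ d q`, `Tri c d δ` in `q` for some `δ ≥ ν`: `keyA` for `q`, `c = d`, `b = true` and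
  `ξ = ν` (the conclusion contains `ν < ν'` for the two indices, so `c ν', c μ' ≥ ν`).
  (2) By `sep` we may also assume that `χ' c u q` and `χ d u q` for some `u : U`.  Choose such
  `q ν`, `c ν`, `d ν`, `u ν` for every `ν`.  There is `u` such that `u ν = u` for uncountably, so
  unboundedly many `ν` (`exists_fiber_set`, `unbounded_of_not_countable`); for every `ν` let `g ν ≥ ν` be one
  with `u (g ν) = u`, and apply `keyA` to `q (g ν)`, `c (g ν)`, `d (g ν)` and `b = false`: there are `ν < μ`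
  and `s` with `Tri (d (g μ)) (c (g ν)) δ` in `s`, and `χ' (c (g ν)) u s`, `χ (d (g μ)) u s`: contradiction
  to `mono`.
-/

set_option autoImplicit false

namespace Pool.Agent.H90.Mx

open Pool.Agent.H90.SN

theorem no_real {U : Type} [Countable U] {p : CP} {φ : Om → CP → Prop}
    {χ χ' : Om → U → CP → Prop}
    (anti : ∀ c q q', q' ≤ q → φ c q → φ c q')
    (anti1 : ∀ c u q q', q' ≤ q → χ c u q → χ c u q')
    (anti2 : ∀ c u q q', q' ≤ q → χ' c u q → χ' c u q')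
    (unb : ∀ ν, ∃ q ≤ p, ∃ c, ν ≤ c ∧ φ c q)
    (sep : ∀ q ≤ p, ∀ c d δ, φ c q → φ d q → q.t.Tri c d δ → ∃ r ≤ q, ∃ u, χ' c u r ∧ χ d u r)
    (mono : ∀ q ≤ p, ∀ c d u δ, χ' c u q → χ d u q → ¬ q.t.Tri d c δ) : False := by
  -- step 1: pairs with a late first difference
  have step1 : ∀ ν, ∃ q ≤ p, ∃ c d, ν ≤ c ∧ ν ≤ d ∧ φ c q ∧ φ d q ∧ ∃ δ, ν ≤ δ ∧
      q.t.Tri c d δ := by
    intro ν
    choose q hq c hc hφ using unb
    obtain ⟨ν', μ', hlt, -, hνν', s, hs1, hs2, δ, hδ, hT⟩ :=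
      keyA q c c hc hc (fun _ => Or.inl rfl) id ν true
    have hT' := hT (c ν') (Or.inl rfl) (c μ') (Or.inl rfl)
    simp only [if_true] at hT'
    exact ⟨s, hs1.trans (hq ν'), c ν', c μ', hνν'.le.trans (hc ν'),
      (hνν'.trans hlt).le.trans (hc μ'), anti _ _ _ hs1 (hφ ν'), anti _ _ _ hs2 (hφ μ'), δ, hδ,
      hT'⟩
  -- step 2: separated pairs
  have step2 : ∀ ν, ∃ q ≤ p, ∃ c d, ν ≤ c ∧ ν ≤ d ∧ (∃ δ, ν ≤ δ ∧ q.t.Tri c d δ) ∧
      ∃ u, χ' c u q ∧ χ d u q := by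
    intro ν
    obtain ⟨q, hq, c, d, hc, hd, h1, h2, δ, hδ, hT⟩ := step1 ν
    obtain ⟨r, hr, u, h3, h4⟩ := sep q hq c d δ h1 h2 hT
    exact ⟨r, hr.trans hq, c, d, hc, hd, ⟨δ, hδ, hT.mono (CP.t_mono hr)⟩, u, h3, h4⟩
  choose q hq c d hc hd hT u hu1 hu2 using step2
  obtain ⟨u0, hu0⟩ := exists_fiber_set u (S := Set.univ) (fun h => om_not_countable
    (Set.countable_univ_iff.1 h))
  have hg : ∀ ν, ∃ ν', ν ≤ ν' ∧ u ν' = u0 := by
    intro ν
    obtain ⟨ν', h1, h2⟩ := unbounded_of_not_countable hu0 ν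
    exact ⟨ν', h2, h1.2⟩
  choose g hg1 hg2 using hg
  obtain ⟨ν, μ, -, -, -, s, hs1, hs2, δ, -, hTT⟩ :=
    keyA (fun ν => q (g ν)) (fun ν => c (g ν)) (fun ν => d (g ν))
      (fun ν => (hg1 ν).trans (hc _)) (fun ν => (hg1 ν).trans (hd _))
      (fun ν => by
        obtain ⟨δ, hδ, h1⟩ := hT (g ν)
        exact Or.inr ⟨δ, (hg1 ν).trans hδ, Or.inl h1⟩)
      id (Classical.arbitrary Om) false
  have h1 := hTT (c (g ν)) (Or.inl rfl) (d (g μ)) (Or.inr rfl)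
  simp only [Bool.false_eq_true, if_false] at h1
  refine mono s (hs1.trans (hq _)) (c (g ν)) (d (g μ)) u0 δ ?_ ?_ h1
  · have := hu1 (g ν)
    rw [hg2] at this
    exact anti2 _ _ _ _ hs1 this
  · have := hu2 (g μ)
    rw [hg2] at this
    exact anti1 _ _ _ _ hs2 this

end Pool.Agent.H90.Mx
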