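import Pool.Agent.H90.Mx.CoLines
import Pool.Agent.H90.Mx.RealSub

/-!
# The tree line has no uncountable real suborders (module NOREAL)

Let `B ⊆ A` with `¬ SizeLe B w` and let `j` be a strictly increasing function from `(B, r)` to `(R, s)` in `g`;
`β`, `ι` names of `B`, `j`.  As `R`, `s` are not given by names we use only: for `x ∈ B` there is exactly one
`y` with `Rel j x y`, `y ⊆ w`; and if `x, x' ∈ B`, `Rel r x x'`, `Rel j x y`, `Rel j x' y'` then `y ⊊ y'`, i.e.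
`IsSub y y'` and `∃ u, u ∈ y' ∧ u ∉ y` (a proper subset, by extensionality `Gen.extensional`).  (All this
follows from `IsReals`, `IsRealOrd`, `IsCut`.)  Let `p ∈ G` force these statements and `B ⊆ A`,
`¬ SizeLe B w` (`Fc.truth`) for `![onN ω, lineA.AN, lineA.ON, β, ι]`.  Apply `no_real` with `U = ℕ`,
`φ c q := Fc q ![onN c.toOrd, β] (E (v 0) (v 1))`,
`χ c u q := Fc q ![onN c.toOrd, onN u, β, ι] (E (v 0) (v 2) ∧ ∃ y, Rel E (v 3) (v 0) y ∧ E (v 1) y)`,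
`χ' c u q := Fc q ![onN c.toOrd, onN u, β, ι] (E (v 0) (v 2) ∧ ∃ y, Rel E (v 3) (v 0) y ∧ ¬ E (v 1) y)`.
* `unb`: if for some `ν` there are no `q ≤ p`, `c ≥ ν` with `φ c q`, then in every generic `g' ∋ p` (with
  `onN ν.toOrd`, `onN ω₁`, `onN ω` denoted) `B ⊆ onN ν`: an element `x` of `B` is in `A`, so `x = onN c`
  (`mem_AN`), some condition forces `x ∈ B` (`Fc.truth`), so `c < ν`.  So `SizeLe B w`
  (`ZFC.sizeLe_of_sub`, `sizeLe_onN` or `isOmega1_of_ccc co_ccc`, `ZFC.sizeLe_trans`), contradiction.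
* `sep`: take a generic `g' ∋ q` with all names denoted; `Rel r c d` by `rel_ON`; the images `y ⊊ y'`; there is
  `z ∈ y'`, `z ∉ y`; `z ∈ w`, so `z = onN u` (`den_onN`, `Ordinal.lt_omega0`); `Fc.truth`, common extension.
* `mono`: take a generic `g' ∋ q` with all names denoted: `Rel r d c`, so `j(d) ⊆ j(c)`; `u ∈ j(d)`,
  `u ∉ j(c)` (uniqueness of the image).
-/

set_option autoImplicit false

namespace Pool.Agent.H90.Mx

open Frc Ordinal
open Pool.Agent.H90.SN (Om IsCcc om_not_countable)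

theorem toOrd_strictMono' {a b : Om} (h : a < b) : a.toOrd.1 < b.toOrd.1 :=
  ToType.mk.symm.strictMono h

/-- the statements forced about `![w, A, r, B, j]` -/
def RealPred : Pred 5 := fun _ E v =>
  IsSub E (v 3) (v 1) ∧ ¬ SizeLe E (v 3) (v 0) ∧
  (∀ x, E x (v 3) → ∃ y, Rel E (v 4) x y ∧ IsSub E y (v 0) ∧ ∀ z, Rel E (v 4) x z → z = y) ∧
  ∀ x x' y y', E x (v 3) → E x' (v 3) → Rel E (v 2) x x' → Rel E (v 4) x y →
    Rel E (v 4) x' y' → IsSub E y y' ∧ ∃ u, E u y' ∧ ¬ E u y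

theorem dfn_realPred : Dfn RealPred :=
  .and (dfn_isSub _ _) (.and (.not (dfn_sizeLe _ _)) (.and
    (.all (.imp (.mem _ _) (.ex (.and (dfn_rel _ _ _) (.and (dfn_isSub _ _)
      (.all (.imp (dfn_rel _ _ _) (.eq _ _))))))))
    (.all (.all (.all (.all (.imp (.mem _ _) (.imp (.mem _ _) (.imp (dfn_rel _ _ _)
      (.imp (dfn_rel _ _ _) (.imp (dfn_rel _ _ _) (.and (dfn_isSub _ _)
        (.ex (.and (.mem _ _) (.not (.mem _ _))))))))))))))))

/-- `u` belongs to the image of `x` -/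
def InPred : Pred 4 := fun _ E v => E (v 0) (v 2) ∧ ∃ y, Rel E (v 3) (v 0) y ∧ E (v 1) y

/-- `u` does not belong to the image of `x` -/
def OutPred : Pred 4 := fun _ E v => E (v 0) (v 2) ∧ ∃ y, Rel E (v 3) (v 0) y ∧ ¬ E (v 1) y

theorem dfn_inPred : Dfn InPred := .and (.mem _ _) (.ex (.and (dfn_rel _ _ _) (.mem _ _)))

theorem dfn_outPred : Dfn OutPred := .and (.mem _ _) (.ex (.and (dfn_rel _ _ _) (.not (.mem _ _))))

theorem not_emb_real {g : Gen CP} {w l R s A r B : g.M} (hw : g.Den (onN CP ω) w)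
    (hR : IsReals g.E w l R) (hs : IsRealOrd g.E R s) (hA : g.Den lineA.AN A)
    (hr : g.Den lineA.ON r) (hB : IsSub g.E B A) (hBw : ¬ SizeLe g.E B w) :
    ¬ Emb g.E B r R s := by
  rintro ⟨j, hj1, hj2⟩
  obtain ⟨β, hβ⟩ := g.exists_den B
  obtain ⟨ι, hι⟩ := g.exists_den j
  have hpred : RealPred g.M g.E ![w, A, r, B, j] := by
    refine ⟨hB, hBw, fun x hx => ?_, fun x x' y y' hx hx' h1 h2 h3 => ?_⟩
    · obtain ⟨y, hy, hxy, huniq⟩ := hj1 x hx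
      exact ⟨y, hxy, ((hR y).1 hy).1, huniq⟩
    · obtain ⟨-, -, h4, h5⟩ := (hs y y').1 (hj2 x x' y y' hx hx' h1 h2 h3)
      refine ⟨h4, ?_⟩
      by_contra hcon
      push Not at hcon
      exact h5 (Gen.extensional fun z => ⟨h4 z, hcon z⟩)
  obtain ⟨p, hp, hfc⟩ := (Fc.truth dfn_realPred (den5 hw hA hr hβ hι)).1 hpred
  refine no_real (U := ℕ) (p := p)
    (φ := fun c q => Fc q ![onN CP c.toOrd.1, β] (fun _ E v => E (v 0) (v 1)))
    (χ := fun c u q => Fc q ![onN CP c.toOrd.1, onN CP (u : Ordinal), β, ι] InPred)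
    (χ' := fun c u q => Fc q ![onN CP c.toOrd.1, onN CP (u : Ordinal), β, ι] OutPred)
    (fun c q q' hq h => h.mono hq) (fun c u q q' hq h => h.mono hq)
    (fun c u q q' hq h => h.mono hq) ?_ ?_ ?_
  · -- unboundedness
    intro ν
    by_contra hcon
    push Not at hcon
    obtain ⟨g', hg', a, ha⟩ := exists_gen_fin p
      ![onN CP ω, lineA.AN, lineA.ON, β, ι, onN CP ν.toOrd.1, onN CP (ω_ 1)]
    have h0 : g'.Den (onN CP ω) (a 0) := ha 0
    have h1 : g'.Den lineA.AN (a 1) := ha 1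
    have h2 : g'.Den lineA.ON (a 2) := ha 2
    have h3 : g'.Den β (a 3) := ha 3
    have h4 : g'.Den ι (a 4) := ha 4
    have h5 : g'.Den (onN CP ν.toOrd.1) (a 5) := ha 5
    have h6 : g'.Den (onN CP (ω_ 1)) (a 6) := ha 6
    obtain ⟨e1, e2, -, -⟩ := hfc g' hg' ![a 0, a 1, a 2, a 3, a 4] (den5 h0 h1 h2 h3 h4)
    have e1' : IsSub g'.E (a 3) (a 1) := e1
    have e2' : ¬ SizeLe g'.E (a 3) (a 0) := e2
    apply e2'
    have e3 : IsSub g'.E (a 3) (a 5) := by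
      intro x hx
      obtain ⟨c, hc⟩ := (LineN.mem_AN h1 x).1 (e1' x hx)
      have hc' : g'.Den (onN CP c.toOrd.1) x := hc
      obtain ⟨t, ht, hft⟩ := (Fc.truth (.mem 0 1) (den2 hc' h3)).1 hx
      obtain ⟨t', -, ht1, ht2⟩ := g'.dir t ht p hg'
      have h7 : c < ν := by
        by_contra h8
        exact hcon t' ht2 c (not_lt.1 h8) (hft.mono ht1)
      exact (onN_mem_iff hc' h5).2 (toOrd_strictMono' h7)
    have e4 : SizeLe g'.E (a 5) (a 0) :=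
      (isOmega1_of_ccc co_ccc h0 h6).2.2 (a 5) ((den_onN h6 _).2 ⟨_, ν.toOrd.2, h5⟩)
    exact g'.zfc.sizeLe_trans (g'.zfc.sizeLe_of_sub e3) e4
  · -- separation
    intro q hq c d δ hc hd hcd
    obtain ⟨g', hg', a, ha⟩ := exists_gen_fin q
      ![onN CP ω, lineA.AN, lineA.ON, β, ι, onN CP c.toOrd.1, onN CP d.toOrd.1]
    have h0 : g'.Den (onN CP ω) (a 0) := ha 0
    have h1 : g'.Den lineA.AN (a 1) := ha 1
    have h2 : g'.Den lineA.ON (a 2) := ha 2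
    have h3 : g'.Den β (a 3) := ha 3
    have h4 : g'.Den ι (a 4) := ha 4
    have h5 : g'.Den (onN CP c.toOrd.1) (a 5) := ha 5
    have h6 : g'.Den (onN CP d.toOrd.1) (a 6) := ha 6
    obtain ⟨-, -, e3, e4⟩ := hfc g' (g'.up q hg' p hq) ![a 0, a 1, a 2, a 3, a 4]
      (den5 h0 h1 h2 h3 h4)
    have e5 : g'.E (a 5) (a 3) := hc g' hg' ![a 5, a 3] (den2 h5 h3)
    have e6 : g'.E (a 6) (a 3) := hd g' hg' ![a 6, a 3] (den2 h6 h3)
    have e7 : Rel g'.E (a 2) (a 5) (a 6) :=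
      (LineN.rel_ON h2 (a := c) (b := d) h5 h6).2 ⟨q, hg', δ, hcd⟩
    obtain ⟨y, hy, hyw, -⟩ := e3 (a 5) e5
    obtain ⟨y', hy', hyw', -⟩ := e3 (a 6) e6
    obtain ⟨-, u, hu, hu'⟩ := e4 (a 5) (a 6) y y' e5 e6 e7 hy hy'
    obtain ⟨κ, hκ, huκ⟩ := (den_onN h0 u).1 (hyw' u hu)
    obtain ⟨k, rfl⟩ := Ordinal.lt_omega0.1 hκ
    obtain ⟨s1, hs1, hf1⟩ := (Fc.truth dfn_outPred (den4 h5 huκ h3 h4)).1 ⟨e5, y, hy, hu'⟩
    obtain ⟨s2, hs2, hf2⟩ := (Fc.truth dfn_inPred (den4 h6 huκ h3 h4)).1 ⟨e6, y', hy', hu⟩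
    obtain ⟨t, ht, ht1, ht2⟩ := g'.dir s1 hs1 s2 hs2
    obtain ⟨t', -, ht3, ht4⟩ := g'.dir t ht q hg'
    exact ⟨t', ht4, k, hf1.mono (ht3.trans ht1), hf2.mono (ht3.trans ht2)⟩
  · -- monotonicity
    intro q hq c d k δ hc hd hdc
    obtain ⟨g', hg', a, ha⟩ := exists_gen_fin q
      ![onN CP ω, lineA.AN, lineA.ON, β, ι, onN CP c.toOrd.1, onN CP d.toOrd.1,
        onN CP (k : Ordinal)]
    have h0 : g'.Den (onN CP ω) (a 0) := ha 0
    have h1 : g'.Den lineA.AN (a 1) := ha 1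
    have h2 : g'.Den lineA.ON (a 2) := ha 2
    have h3 : g'.Den β (a 3) := ha 3
    have h4 : g'.Den ι (a 4) := ha 4
    have h5 : g'.Den (onN CP c.toOrd.1) (a 5) := ha 5
    have h6 : g'.Den (onN CP d.toOrd.1) (a 6) := ha 6
    have h7 : g'.Den (onN CP (k : Ordinal)) (a 7) := ha 7
    obtain ⟨-, -, -, e4⟩ := hfc g' (g'.up q hg' p hq) ![a 0, a 1, a 2, a 3, a 4]
      (den5 h0 h1 h2 h3 h4)
    obtain ⟨e5, y, hy, hu⟩ := hc g' hg' ![a 5, a 7, a 3, a 4] (den4 h5 h7 h3 h4)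
    obtain ⟨e6, y', hy', hu'⟩ := hd g' hg' ![a 6, a 7, a 3, a 4] (den4 h6 h7 h3 h4)
    have e7 : Rel g'.E (a 2) (a 6) (a 5) :=
      (LineN.rel_ON h2 (a := d) (b := c) h6 h5).2 ⟨q, hg', δ, hdc⟩
    obtain ⟨h8, -⟩ := e4 (a 6) (a 5) y' y e6 e5 e7 hy' hy
    exact hu (h8 _ hu')

end Pool.Agent.H90.Mx
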