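import Pool.Agent.H90.Mx.NoChain
import Pool.Agent.H90.Mx.NoReal

/-!
# The coexistence theorem
-/

set_option autoImplicit false

namespace Pool.Agent.H90.Mx

open Frc Ordinal
open Pool.Agent.H90.SN (Om IsCcc om_not_countable)

theorem emb_lineR {g : Gen CP} {w l R s A r : g.M} (hw : g.Den (onN CP ω) w)
    (hl : g.Den (ltN CP) l) (hR : IsReals g.E w l R) (hs : IsRealOrd g.E R s)
    (hA : g.Den lineR.AN A) (hr : g.Den lineR.ON r) : Emb g.E A r R s := by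
  obtain ⟨f, hf⟩ := g.zfc.exists_rel (n := 0) (R := fun _ _ v => v 0 = v 1) (Dfn.eq 0 1) ![] A R
  have hf' : ∀ x y, Rel g.E f x y ↔ g.E x A ∧ g.E y R ∧ x = y := by
    intro x y
    rw [hf, ext_vec0, ext_vec1]
    exact Iff.rfl
  have hAR : ∀ x, g.E x A → g.E x R := by
    intro x hx
    obtain ⟨a, ha⟩ := (LineN.mem_AN hA x).1 hx
    exact (hR x).2 (isCut_xN realPart_co hw hl ha)
  refine ⟨f, fun x hx => ⟨x, hAR x hx, (hf' x x).2 ⟨hx, hAR x hx, rfl⟩, fun z hz =>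
    ((hf' x z).1 hz).2.2.symm⟩, fun x x' y y' hx hx' hxx h1 h2 => ?_⟩
  obtain rfl := ((hf' x y).1 h1).2.2
  obtain rfl := ((hf' x' y').1 h2).2.2
  obtain ⟨a, ha⟩ := (LineN.mem_AN hA x).1 hx
  obtain ⟨a', ha'⟩ := (LineN.mem_AN hA x').1 hx'
  obtain ⟨p, hp, hlt⟩ := (LineN.rel_ON hr ha ha').1 hxx
  exact (hs x x').2 ⟨hAR x hx, hAR x' hx', lt_xN realPart_co hw ha ha' hp hlt⟩

theorem exists_model_co : ∃ (M : Type) (E : M → M → Prop), ZFC E ∧ CoexistStatement E := by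
  obtain ⟨g, -, hL, -⟩ := exists_gen_set (⊤ : CP) (n := 0) Fin.elim0
    (L := {onN CP ω, onN CP (ω_ 1), ltN CP, lineR.AN, lineR.ON, lineA.AN, lineA.ON})
    (by simp)
  obtain ⟨w, hw⟩ := hL (onN CP ω) (by simp)
  obtain ⟨o, ho⟩ := hL (onN CP (ω_ 1)) (by simp)
  obtain ⟨l, hl⟩ := hL (ltN CP) (by simp)
  obtain ⟨A, hA⟩ := hL lineR.AN (by simp)
  obtain ⟨r, hr⟩ := hL lineR.ON (by simp)
  obtain ⟨B, hB⟩ := hL lineA.AN (by simp)
  obtain ⟨t, ht⟩ := hL lineA.ON (by simp)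
  have hz := g.zfc
  obtain ⟨pw, hpw⟩ := hz.power w
  obtain ⟨R, hR⟩ := hz.sep (n := 2) (R := fun _ E v => IsCut E (v 0) (v 1) (v 2))
    (dfn_isCut _ _ _) ![w, l] pw
  have hReals : IsReals g.E w l R := by
    intro x
    rw [hR, ext_vec2]
    constructor
    · exact fun h => h.2
    · exact fun h => ⟨(hpw x).2 h.1, h⟩
  obtain ⟨e, he⟩ := hz.exists_rel (n := 0) (R := fun _ E v => E (v 0) (v 1)) (.mem 0 1) ![] o o
  have he1 : IsMemRel g.E o e := by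
    intro x y
    rw [he, ext_vec0, ext_vec1]
    exact Iff.rfl
  obtain ⟨e', he'⟩ := hz.exists_rel (n := 0) (R := fun _ E v => E (v 1) (v 0)) (.mem 1 0) ![] o o
  have he2 : IsRev g.E e e' := by
    intro x y
    rw [he', ext_vec0, ext_vec1, he1]
    constructor
    · rintro ⟨h1, h2, h3⟩
      exact ⟨h2, h1, h3⟩
    · rintro ⟨h1, h2, h3⟩
      exact ⟨h2, h1, h3⟩
  obtain ⟨s, hs⟩ := hz.exists_rel (n := 0) (R := fun _ E v => IsSub E (v 0) (v 1) ∧ v 0 ≠ v 1)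
    (.and (dfn_isSub _ _) (.not (.eq _ _))) ![] R R
  have hs1 : IsRealOrd g.E R s := by
    intro x y
    rw [hs, ext_vec0, ext_vec1]
    exact Iff.rfl
  refine ⟨g.M, g.E, hz, w, o, e, e', w, l, R, s, onN_isOmega hw, isOmega1_of_ccc co_ccc hw ho,
    he1, he2, isRat_ltN hw hl, hReals, hs1,
    ⟨A, r, line_lin hA hr, line_uncountable co_ccc hA hw, emb_lineR hw hl hReals hs1 hA hr,
      lineR_strSurj hA hr⟩,
    B, t, ⟨line_lin hB ht, line_uncountable co_ccc hB hw, not_emb_omega1 ho he1 hB ht,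
      not_emb_omega1_rev ho he1 he2 hB ht, fun C hC hCw => not_emb_real hw hReals hs1 hB ht hC hCw⟩,
    lineA_strSurj hB ht⟩

end Pool.Agent.H90.Mx
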