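import Pool.Agent.H90.Mx.Key

/-!
# Good parameters for the Aronszajn line (module GOODCL)

`φ k q` says that `q` forces `k` into a set of ordinals `K`; `p` forces that `K` is nonempty.

**Aronszajn line** (`exists_E`): for every `ξ` there is `g ξ` such that for all `q ≤ p`, all `k ≥ ξ` with
`φ k q` there are `r ≤ q`, `k' < g ξ` with `φ k' r` and (`k' = k` or `Tri k k' δ` for some `δ ≥ ξ`); similarly with
`Tri k' k δ`.  Otherwise for every `ν` there are `q ν ≤ p`, `c ν ≥ ξ` with `φ (c ν) (q ν)` and no such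
`r`, `k' < ν`; then `ν ≤ c ν` and `keyA` with `c = d`, `b = false` (for the version with `Tri k k' δ`) gives
`Tri (c μ) (c ν) δ` with `ξ ≤ δ` and `c ν < μ` (`F ν = c ν`): take `k' := c ν`; contradiction.  `b = true` for
the other version.  Let `E` be the set of all `γ` such that for all `ξ < γ` there is `ξ'` with
`ξ < ξ' < γ`, and `g ξ ≤ γ` (both versions).  `IsCl E`: closed and `lim` are clear; `unb`:
`exists_closed_pt` with `𝓔 = ∅` and `Φ ξ` larger than `ξ` and `g ξ`.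
-/

set_option autoImplicit false

namespace Pool.Agent.H90.Mx

open Pool.Agent.H90.SN

private theorem gc_up {p : CP} {φ : Om → CP → Prop} (hφ : ∀ k q q', q' ≤ q → φ k q → φ k q')
    (ξ : Om) : ∃ g : Om, ∀ q ≤ p, ∀ k, ξ ≤ k → φ k q →
      ∃ r ≤ q, ∃ k' < g, φ k' r ∧ (k' = k ∨ ∃ δ, ξ ≤ δ ∧ r.t.Tri k k' δ) := by
  by_contra hcon
  push Not at hcon
  choose q hq c hξc hc hbad using hcon
  have hνc : ∀ ν, ν ≤ c ν := by
    intro ν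
    by_contra h
    push Not at h
    exact (hbad ν (q ν) le_rfl (c ν) h (hc ν)).1 rfl
  obtain ⟨ν, μ, -, hF, -, s, h1, h2, δ, hδ, h3⟩ :=
    keyA q c c hνc hνc (fun _ => Or.inl rfl) c ξ false
  have h4 := h3 (c ν) (Or.inl rfl) (c μ) (Or.inl rfl)
  simp only [Bool.false_eq_true, if_false] at h4
  exact (hbad μ s h2 (c ν) hF (hφ _ _ _ h1 (hc ν))).2 δ hδ h4

private theorem gc_dn {p : CP} {φ : Om → CP → Prop} (hφ : ∀ k q q', q' ≤ q → φ k q → φ k q')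
    (ξ : Om) : ∃ g : Om, ∀ q ≤ p, ∀ k, ξ ≤ k → φ k q →
      ∃ r ≤ q, ∃ k' < g, φ k' r ∧ (k' = k ∨ ∃ δ, ξ ≤ δ ∧ r.t.Tri k' k δ) := by
  by_contra hcon
  push Not at hcon
  choose q hq c hξc hc hbad using hcon
  have hνc : ∀ ν, ν ≤ c ν := by
    intro ν
    by_contra h
    push Not at h
    exact (hbad ν (q ν) le_rfl (c ν) h (hc ν)).1 rfl
  obtain ⟨ν, μ, -, hF, -, s, h1, h2, δ, hδ, h3⟩ :=
    keyA q c c hνc hνc (fun _ => Or.inl rfl) c ξ true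
  have h4 := h3 (c ν) (Or.inl rfl) (c μ) (Or.inl rfl)
  simp only [if_true] at h4
  exact (hbad μ s h2 (c ν) hF (hφ _ _ _ h1 (hc ν))).2 δ hδ h4

theorem exists_E {p : CP} {φ : Om → CP → Prop} (hφ : ∀ k q q', q' ≤ q → φ k q → φ k q') :
    ∃ E : Set Om, IsCl E ∧ ∀ q ≤ p, ∀ k, φ k q → ∀ γ ∈ E, ∀ ξ < γ, ξ ≤ k →
      (∃ r ≤ q, ∃ k' < γ, φ k' r ∧ (k' = k ∨ ∃ δ, ξ ≤ δ ∧ r.t.Tri k k' δ)) ∧
      (∃ r ≤ q, ∃ k' < γ, φ k' r ∧ (k' = k ∨ ∃ δ, ξ ≤ δ ∧ r.t.Tri k' k δ)) := by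
  choose g1 hg1 using fun ξ => gc_up (p := p) hφ ξ
  choose g2 hg2 using fun ξ => gc_dn (p := p) hφ ξ
  have hΦ : ∀ ξ : Om, ∃ b, ξ < b ∧ g1 ξ < b ∧ g2 ξ < b := by
    intro ξ
    obtain ⟨b, hb⟩ := om_bounded (s := {ξ, g1 ξ, g2 ξ})
      ((Set.countable_singleton _).insert _ |>.insert _)
    exact ⟨b, hb _ (by simp), hb _ (by simp), hb _ (by simp)⟩
  choose Φ h1 h2 h3 using hΦ
  refine ⟨{γ | ∀ ξ < γ, (∃ ξ', ξ < ξ' ∧ ξ' < γ) ∧ g1 ξ ≤ γ ∧ g2 ξ ≤ γ}, ⟨?_, ?_, ?_⟩, ?_⟩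
  · intro a
    obtain ⟨m, hm, -, hm2⟩ := exists_closed_pt (𝓔 := ∅) Set.countable_empty
      (fun E hE => absurd hE (Set.notMem_empty E)) Φ a
    refine ⟨m, fun ξ hξ => ⟨⟨Φ ξ, h1 ξ, hm2 ξ hξ⟩, ?_, ?_⟩, hm⟩
    · exact ((h2 ξ).trans (hm2 ξ hξ)).le
    · exact ((h3 ξ).trans (hm2 ξ hξ)).le
  · intro γ hγ ξ hξ
    obtain ⟨γ', hγ', h4, h5⟩ := hγ ξ hξ
    have h6 := hγ' ξ h4
    exact ⟨⟨γ', h4, h5⟩, h6.2.1.trans h5.le, h6.2.2.trans h5.le⟩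
  · intro γ hγ ξ hξ
    exact (hγ ξ hξ).1
  · intro q hq k hk γ hγ ξ hξ hξk
    have h4 := hγ ξ hξ
    refine ⟨?_, ?_⟩
    · obtain ⟨r, hr, k', hk', h5, h6⟩ := hg1 ξ q hq k hξk hk
      exact ⟨r, hr, k', hk'.trans_le h4.2.1, h5, h6⟩
    · obtain ⟨r, hr, k', hk', h5, h6⟩ := hg2 ξ q hq k hξk hk
      exact ⟨r, hr, k', hk'.trans_le h4.2.2, h5, h6⟩

end Pool.Agent.H90.Mx
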