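import Pool.Agent.H90.Mx.GoodE
import Pool.Agent.H90.Mx.GoodCl

/-!
# Good indices
-/

set_option autoImplicit false

namespace Pool.Agent.H90.Mx

open Pool.Agent.H90.SN

/-- an index for a subset of the line of reals -/
structure GoodR (i : CI) (e : Om) (p : CP) (φ : Om → CP → Prop) : Prop where
  kd : kd i = .R e
  le : ∀ k q, Kin i k q → q ≤ p
  sound : ∀ k q, Kin i k q → φ k q
  complete : ∀ k q, q ≤ p → φ k q → ∃ r ≤ q, Kin i k r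
  thin : ∀ q r : CP, r ≤ q → ∃ r' : CP, r ≤ r' ∧ r' ≤ q ∧ r'.r = r.r ∧ r'.t = r.t ∧
    (∀ a k, At r' i a k → At q i a k) ∧ ∀ k, Kin i k r → Kin i k r'
  ne : ∀ q ≤ p, ∃ r ≤ q, ∃ k, Kin i k r
  up : ∀ q k, Kin i k q → ∃ r ≤ q, ∃ δ < e, Kin i δ r ∧ (δ = k ∨ r.r.Lt k δ)
  dn : ∀ q k, Kin i k q → ∃ r ≤ q, ∃ δ < e, Kin i δ r ∧ (δ = k ∨ r.r.Lt δ k)
  md : ∀ q k k', Kin i k q → Kin i k' q → q.r.Lt k k' → ∃ r ≤ q, ∃ δ < e, Kin i δ r ∧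
    (δ = k ∨ r.r.Lt k δ) ∧ (δ = k' ∨ r.r.Lt δ k')

/-- an index for a subset of the Aronszajn line -/
structure GoodA (i : CI) (E : Set Om) (p : CP) (φ : Om → CP → Prop) : Prop where
  kd : kd i = .A E
  cl : IsCl E
  le : ∀ k q, Kin i k q → q ≤ p
  sound : ∀ k q, Kin i k q → φ k q
  complete : ∀ k q, q ≤ p → φ k q → ∃ r ≤ q, Kin i k r
  thin : ∀ q r : CP, r ≤ q → ∃ r' : CP, r ≤ r' ∧ r' ≤ q ∧ r'.r = r.r ∧ r'.t = r.t ∧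
    (∀ a k, At r' i a k → At q i a k) ∧ ∀ k, Kin i k r → Kin i k r'
  ne : ∀ q ≤ p, ∃ r ≤ q, ∃ k, Kin i k r
  up : ∀ q k, Kin i k q → ∀ γ ∈ E, ∀ ξ < γ, ξ ≤ k →
    ∃ r ≤ q, ∃ k' < γ, Kin i k' r ∧ (k' = k ∨ ∃ δ, ξ ≤ δ ∧ r.t.Tri k k' δ)
  dn : ∀ q k, Kin i k q → ∀ γ ∈ E, ∀ ξ < γ, ξ ≤ k →
    ∃ r ≤ q, ∃ k' < γ, Kin i k' r ∧ (k' = k ∨ ∃ δ, ξ ≤ δ ∧ r.t.Tri k' k δ)

theorem exists_goodR {p : CP} {φ : Om → CP → Prop} (hφ : ∀ k q q', q' ≤ q → φ k q → φ k q')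
    (hne : ∀ q ≤ p, ∃ r ≤ q, ∃ k, φ k r) : ∃ i e, GoodR i e p φ := by
  obtain ⟨e, h1, h2, h3⟩ := exists_e (p := p) hφ
  obtain ⟨i, H, hi, hC⟩ := Sys.exists_read (X := co) co_ccc (.R e) p hφ
  refine ⟨i, e, hi, hC.le, hC.sound, hC.complete, ?_, ?_, ?_, ?_, ?_⟩
  · intro q r hr
    obtain ⟨r', e1, e2, e3, e4, e5⟩ := hC.thin hr
    exact ⟨r', e1, e2, congrArg Prod.fst e3, congrArg Prod.snd e3, fun a k => e4 (a, k), e5⟩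
  · intro q hq
    obtain ⟨r, hr, k, hk⟩ := hne q hq
    obtain ⟨r', hr', h⟩ := hC.complete k r (hr.trans hq) hk
    exact ⟨r', hr'.trans hr, k, h⟩
  · intro q k hk
    have hq := hC.le k q hk
    obtain ⟨r, hr, δ, hδ, h4, h5⟩ := h1 q hq k (hC.sound k q hk)
    obtain ⟨r', hr', h⟩ := hC.complete δ r (hr.trans hq) h4
    exact ⟨r', hr'.trans hr, δ, hδ, h, h5.imp_right fun h => h.mono (CP.r_mono hr')⟩
  · intro q k hk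
    have hq := hC.le k q hk
    obtain ⟨r, hr, δ, hδ, h4, h5⟩ := h2 q hq k (hC.sound k q hk)
    obtain ⟨r', hr', h⟩ := hC.complete δ r (hr.trans hq) h4
    exact ⟨r', hr'.trans hr, δ, hδ, h, h5.imp_right fun h => h.mono (CP.r_mono hr')⟩
  · intro q k k' hk hk' hlt
    have hq := hC.le k q hk
    obtain ⟨r, hr, δ, hδ, h4, h5, h6⟩ := h3 q hq k k' (hC.sound k q hk) (hC.sound k' q hk') hlt
    obtain ⟨r', hr', h⟩ := hC.complete δ r (hr.trans hq) h4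
    exact ⟨r', hr'.trans hr, δ, hδ, h, h5.imp_right fun h => h.mono (CP.r_mono hr'),
      h6.imp_right fun h => h.mono (CP.r_mono hr')⟩

theorem exists_goodA {p : CP} {φ : Om → CP → Prop} (hφ : ∀ k q q', q' ≤ q → φ k q → φ k q')
    (hne : ∀ q ≤ p, ∃ r ≤ q, ∃ k, φ k r) : ∃ i E, GoodA i E p φ := by
  obtain ⟨E, hE, h1⟩ := exists_E (p := p) hφ
  obtain ⟨i, H, hi, hC⟩ := Sys.exists_read (X := co) co_ccc (.A E) p hφ
  refine ⟨i, E, hi, hE, hC.le, hC.sound, hC.complete, ?_, ?_, ?_, ?_⟩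
  · intro q r hr
    obtain ⟨r', e1, e2, e3, e4, e5⟩ := hC.thin hr
    exact ⟨r', e1, e2, congrArg Prod.fst e3, congrArg Prod.snd e3, fun a k => e4 (a, k), e5⟩
  · intro q hq
    obtain ⟨r, hr, k, hk⟩ := hne q hq
    obtain ⟨r', hr', h⟩ := hC.complete k r (hr.trans hq) hk
    exact ⟨r', hr'.trans hr, k, h⟩
  · intro q k hk γ hγ ξ hξ hξk
    have hq := hC.le k q hk
    obtain ⟨r, hr, k', hk', h4, h5⟩ := (h1 q hq k (hC.sound k q hk) γ hγ ξ hξ hξk).1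
    obtain ⟨r', hr', h⟩ := hC.complete k' r (hr.trans hq) h4
    exact ⟨r', hr'.trans hr, k', hk', h, h5.imp_right fun ⟨δ, e1, e2⟩ =>
      ⟨δ, e1, e2.mono (CP.t_mono hr')⟩⟩
  · intro q k hk γ hγ ξ hξ hξk
    have hq := hC.le k q hk
    obtain ⟨r, hr, k', hk', h4, h5⟩ := (h1 q hq k (hC.sound k q hk) γ hγ ξ hξ hξk).2
    obtain ⟨r', hr', h⟩ := hC.complete k' r (hr.trans hq) h4
    exact ⟨r', hr'.trans hr, k', hk', h, h5.imp_right fun ⟨δ, e1, e2⟩ =>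
      ⟨δ, e1, e2.mono (CP.t_mono hr')⟩⟩

end Pool.Agent.H90.Mx
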