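import Pool.Agent.H90.Mx.Key

/-!
# Good parameters for the line of reals (module GOODE)

`φ k q` says that `q` forces `k` into a set of ordinals `K`; `p` forces that `K` is nonempty.

**Line of reals** (`exists_e`): there is `e` such that (it is forced below `p` that) `K ∩ e` is order dense,
cofinal and coinitial in `K`.  Proof: first each of the three clauses `up`, `dn`, `md` separately gives some
`e`; a larger `e` is as good, so take the maximum.  Suppose `md` fails for all `e`: for every `ν` there are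
`q ν ≤ p` and `c ν`, `d ν` with `φ (c ν) (q ν)`, `φ (d ν) (q ν)`, `Lt (c ν) (d ν)` in `q ν`, such that no
`r ≤ q ν`, `δ < ν` are as required.  Then `ν ≤ c ν` (otherwise take `r = q ν`, `δ = c ν`) and
`ν ≤ d ν` (take `δ = d ν`).  By `keyR` with `b = true`, `F ν = max (c ν) (d ν)` (any upper bound) there are
`ν < μ`, `r ≤ q ν, q μ` with `Lt (c ν) (c μ)`, `Lt (d ν) (d μ)`, `Lt (c μ) (d ν)` in `r`, and
`d ν < μ`; so `δ := d ν`, `r` are as required for `q μ`, contradiction (`φ` is monotone).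
`up` fails for all `e`: `q ν`, `c ν` (`ν ≤ c ν`), `keyR` with `c = d`, `b = false` gives `Lt (c μ) (c ν)`,
`c ν < μ`: take `δ := c ν`.  `dn`: the same with `b = true`.

-/

set_option autoImplicit false

namespace Pool.Agent.H90.Mx

open Pool.Agent.H90.SN

theorem exists_e_up {p : CP} {φ : Om → CP → Prop} (hφ : ∀ k q q', q' ≤ q → φ k q → φ k q')
    (b : Bool) :
    ∃ e : Om, ∀ q ≤ p, ∀ k, φ k q → ∃ r ≤ q, ∃ δ < e, φ δ r ∧
      (δ = k ∨ if b then r.r.Lt δ k else r.r.Lt k δ) := by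
  by_contra hcon
  push Not at hcon
  choose q hq c hc hno using hcon
  have hle : ∀ ν, ν ≤ c ν := by
    intro ν
    by_contra h
    exact (hno ν (q ν) le_rfl (c ν) (not_le.1 h) (hc ν)).1 rfl
  obtain ⟨ν, μ, hνμ, hF, s, h1, h2, h3, -⟩ := keyR q c c hle hle c b
  refine (hno μ s h2 (c ν) hF (hφ _ _ _ h1 (hc ν))).2 ?_
  cases b
  · simp only [Bool.false_eq_true, if_false] at h3 ⊢
    exact h3.1
  · simp only [if_true] at h3 ⊢
    exact h3.1

theorem exists_e_md {p : CP} {φ : Om → CP → Prop} (hφ : ∀ k q q', q' ≤ q → φ k q → φ k q') :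
    ∃ e : Om, ∀ q ≤ p, ∀ k k', φ k q → φ k' q → q.r.Lt k k' → ∃ r ≤ q, ∃ δ < e, φ δ r ∧
        (δ = k ∨ r.r.Lt k δ) ∧ (δ = k' ∨ r.r.Lt δ k') := by
  by_contra hcon
  push Not at hcon
  choose q hq c d hc hd hlt hno using hcon
  have hle : ∀ ν, ν ≤ c ν := by
    intro ν
    by_contra h
    exact (hno ν (q ν) le_rfl (c ν) (not_le.1 h) (hc ν) (Or.inl rfl)).2 (hlt ν)
  have hle' : ∀ ν, ν ≤ d ν := by
    intro ν
    by_contra h
    exact (hno ν (q ν) le_rfl (d ν) (not_le.1 h) (hd ν) (Or.inr (hlt ν))).1 rfl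
  obtain ⟨ν, μ, hνμ, hF, s, h1, h2, h3, h4⟩ := keyR q c d hle hle' d true
  simp only [if_true] at h3
  exact (hno μ s h2 (d ν) hF (hφ _ _ _ h1 (hd ν)) (Or.inr (h4 (hlt ν)))).2 h3.2

theorem exists_e {p : CP} {φ : Om → CP → Prop} (hφ : ∀ k q q', q' ≤ q → φ k q → φ k q') :
    ∃ e : Om,
      (∀ q ≤ p, ∀ k, φ k q → ∃ r ≤ q, ∃ δ < e, φ δ r ∧ (δ = k ∨ r.r.Lt k δ)) ∧
      (∀ q ≤ p, ∀ k, φ k q → ∃ r ≤ q, ∃ δ < e, φ δ r ∧ (δ = k ∨ r.r.Lt δ k)) ∧
      (∀ q ≤ p, ∀ k k', φ k q → φ k' q → q.r.Lt k k' → ∃ r ≤ q, ∃ δ < e, φ δ r ∧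
        (δ = k ∨ r.r.Lt k δ) ∧ (δ = k' ∨ r.r.Lt δ k')) := by
  obtain ⟨e1, h1⟩ := exists_e_up (p := p) hφ false
  obtain ⟨e2, h2⟩ := exists_e_up (p := p) hφ true
  obtain ⟨e3, h3⟩ := exists_e_md (p := p) hφ
  refine ⟨max e1 (max e2 e3), ?_, ?_, ?_⟩
  · intro q hq k hk
    obtain ⟨r, hr, δ, hδ, h4, h5⟩ := h1 q hq k hk
    exact ⟨r, hr, δ, hδ.trans_le (le_max_left _ _), h4, by simpa using h5⟩
  · intro q hq k hk
    obtain ⟨r, hr, δ, hδ, h4, h5⟩ := h2 q hq k hk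
    exact ⟨r, hr, δ, hδ.trans_le ((le_max_left _ _).trans (le_max_right _ _)), h4, by simpa using h5⟩
  · intro q hq k k' hk hk' hlt
    obtain ⟨r, hr, δ, hδ, h4, h5, h6⟩ := h3 q hq k k' hk hk' hlt
    exact ⟨r, hr, δ, hδ.trans_le ((le_max_right _ _).trans (le_max_right _ _)), h4, h5, h6⟩

end Pool.Agent.H90.Mx
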