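import Pool.Agent.H90.Mx.Sys

/-!
# Hereditary sets of indices (module HERED)

`exists_hered`: for a set `H0` of at most `ℵ₁` indices there is a hereditary set `H ⊇ H0` with at most
`ℵ₁` elements.  Proof: `nx H := H ∪ {j | ∃ i ∈ H, ∃ t n k c, X.cond i t n = some k ∧ (j, c) ∈ k.2}` has at
most `ℵ₁` elements if `H` has (a union over `H × T × ℕ` of finite sets; `X.card_T`;
`Cardinal.mk_iUnion_le`, `Cardinal.mul_eq_self`, ...); take `H := ⋃ m, nx^[m] H0`.
-/

set_option autoImplicit false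

namespace Pool.Agent.H90.Mx

open Pool.Agent.H90.SN

namespace Sys

variable {X : Sys}

theorem exists_hered (H0 : Set X.I) (h0 : Cardinal.mk H0 ≤ Cardinal.aleph 1) :
    ∃ H : Set X.I, H0 ⊆ H ∧ Hered H ∧ Cardinal.mk H ≤ Cardinal.aleph 1 := by
  classical
  have hal : Cardinal.aleph0 ≤ Cardinal.aleph 1 := Cardinal.aleph0_le_aleph 1
  -- indices of the atoms coded by `i` at `t, n`
  let S : X.I × (X.T × ℕ) → Set X.I := fun x =>
    {j | ∃ k, X.cond x.1 x.2.1 x.2.2 = some k ∧ ∃ c, (j, c) ∈ k.2}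
  have hS : ∀ x, (S x).Finite := by
    intro x
    rcases hx : X.cond x.1 x.2.1 x.2.2 with _ | k
    · refine Set.Finite.subset Set.finite_empty ?_
      rintro j ⟨k, hk, -⟩
      rw [hx] at hk
      exact absurd hk (by simp)
    · refine Set.Finite.subset (k.2.image Prod.fst).finite_toSet ?_
      rintro j ⟨k', hk', c, hc⟩
      rw [hx, Option.some.injEq] at hk'
      subst hk'
      exact Finset.mem_coe.2 (Finset.mem_image.2 ⟨(j, c), hc, rfl⟩)
  let nx : Set X.I → Set X.I := fun (H : Set X.I) => H ∪ ⋃ x : ↥H × (X.T × ℕ), S (x.1.1, x.2)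
  have hnx : ∀ H : Set X.I, Cardinal.mk H ≤ Cardinal.aleph 1 → Cardinal.mk (nx H) ≤ Cardinal.aleph 1 := by
    intro H hH
    refine (Cardinal.mk_union_le _ _).trans ?_
    have h1 : Cardinal.mk (⋃ x : ↥H × (X.T × ℕ), S (x.1.1, x.2) : Set X.I) ≤ Cardinal.aleph 1 := by
      refine (Cardinal.mk_iUnion_le _).trans ?_
      have h2 : Cardinal.mk (X.T × ℕ) ≤ Cardinal.aleph 1 := by
        rw [Cardinal.mk_prod, Cardinal.lift_id, Cardinal.lift_id, Cardinal.mk_nat]
        refine (mul_le_mul' X.card_T hal).trans ?_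
        rw [Cardinal.mul_eq_self hal]
      have h3 : Cardinal.mk (↥H × (X.T × ℕ)) ≤ Cardinal.aleph 1 := by
        rw [Cardinal.mk_prod, Cardinal.lift_id, Cardinal.lift_id]
        refine (mul_le_mul' hH h2).trans ?_
        rw [Cardinal.mul_eq_self hal]
      have h4 : (⨆ x : ↥H × (X.T × ℕ), Cardinal.mk (S (x.1.1, x.2))) ≤ Cardinal.aleph 1 := by
        refine ciSup_le' fun x => ?_
        exact ((Cardinal.lt_aleph0_iff_finite.2 (hS _)).le).trans hal
      refine (mul_le_mul' h3 h4).trans ?_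
      rw [Cardinal.mul_eq_self hal]
    refine (add_le_add hH h1).trans ?_
    rw [Cardinal.add_eq_self hal]
  have hit : ∀ m : ℕ, Cardinal.mk (nx^[m] H0) ≤ Cardinal.aleph 1 := by
    intro m
    induction m with
    | zero => exact h0
    | succ m ih =>
      rw [Function.iterate_succ_apply']
      exact hnx _ ih
  refine ⟨⋃ m : ℕ, nx^[m] H0, fun x hx => Set.mem_iUnion.2 ⟨0, hx⟩, ?_, ?_⟩
  · intro i hi t n k hk y hy
    obtain ⟨m, hm⟩ := Set.mem_iUnion.1 hi
    refine Set.mem_iUnion.2 ⟨m + 1, ?_⟩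
    rw [Function.iterate_succ_apply']
    exact Or.inr (Set.mem_iUnion.2 ⟨(⟨i, hm⟩, (t, n)), k, hk, y.2, hy⟩)
  · refine (Cardinal.mk_iUnion_le _).trans ?_
    have h1 : (⨆ m : ℕ, Cardinal.mk (nx^[m] H0)) ≤ Cardinal.aleph 1 := ciSup_le' hit
    refine (mul_le_mul' (b := Cardinal.aleph 1) (by rw [Cardinal.mk_nat]; exact hal) h1).trans ?_
    rw [Cardinal.mul_eq_self hal]

end Sys

end Pool.Agent.H90.Mx
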