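import Pool.Agent.H90.Mx.STreeNew

/-!
# Combination of two copies in the generic tree order (module STCMB)

Let `φ`, `φ'` be realizers of `s`, `s'`, and `x0 := 1`, `y0 := 2` if `b = true`, `x0 := 2`, `y0 := 1` if `b = false`.
Call `x ∈ N` fixed if `x < ξ0`, moved if `ξ0 < x`.  The sets `N` and `{π x | x ∈ N moved}` are disjoint
(`x < m ≤ π y`).  Define `χ`:
* `χ x ζ := φ x ζ` for `ζ ≠ ξ0`, `χ x ξ0 := x0`, for `x ∈ N` moved;
* for `z = π x`, `x ∈ N` moved (`x` is unique): `χ z ζ := φ x ζ` for `ζ < ξ0`, `χ z ξ0 := y0`,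
  `χ z ζ := φ' z ζ` for `ξ0 < ζ`;
* `χ z := φ z` for all other `z` (in particular for the fixed elements of `N`).
`Row χ`: clear (`ξ0 < x`, `ξ0 < m ≤ π x`; for `ζ < ξ0 < x` we have `φ x ζ ≠ 0`).
Triples `(α, β, δ) ∈ s` (`α, β, δ ∈ N`; `δ ≤ α, β` by `Dl.le_left`, `Dl.le_right`): if `δ < ξ0` then `χ α`,
`χ β` agree with `φ α`, `φ β` up to `δ`.  If `ξ0 < δ` then `α, β` are moved; `φ α`, `φ β` agree below `δ`,
`χ α ξ0 = x0 = χ β ξ0`, so `Dl χ α β δ`.  (`δ = ξ0` is impossible by `hdich`.)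
Triples `(π α, π β, π δ) ∈ s'`: if `δ < ξ0` then `π δ = δ`, `χ (π α)`, `χ (π β)` agree with `φ α`, `φ β` up to
`δ`.  If `ξ0 < δ`: `α, β` are moved, `χ (π α)`, `χ (π β)` agree below `ξ0` (as `φ α`, `φ β` do), at `ξ0`,
and above `ξ0` they agree with `φ' (π α)`, `φ' (π β)`; `ξ0 < m ≤ π δ`; so `Dl χ (π α) (π β) (π δ)`.
So `χ` realizes the union of `s` and `s'`; let `r` be obtained from it by `exists_all` with `χ` and
`N ∪ N.image π`.  The claims: `Dl χ x (π x) ξ0` (`b = true`) for moved `x`; for `Tri s x y δ`, `δ < ξ0`: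
`Dl χ x (π y) δ`, `Dl χ (π x) y δ`, `Dl χ (π x) (π y) δ`; for `ξ0 < δ`: `x, y` are moved, `φ x`, `φ y`
agree up to `ξ0`, so `Dl χ x (π y) ξ0` and `Dl χ y (π x) ξ0` for `b = true`.
-/

set_option autoImplicit false

namespace Pool.Agent.H90.Mx

open Pool.Agent.H90.SN

namespace SE

variable {s t : SE} {α β γ δ δ' : Om}

/-- Combination of two copies (see `Twin`). -/
theorem exists_combine (s s' : SE) (N : Finset Om) (π : Om → Om) (ξ0 m : Om) (b : Bool)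
    (hinj : Set.InjOn π (N : Set Om)) (hN : ∀ x ∈ s.1, x.1 ∈ N ∧ x.2.1 ∈ N ∧ x.2.2 ∈ N)
    (hs' : ∀ y ∈ s'.1, ∃ x ∈ s.1, y = (π x.1, π x.2.1, π x.2.2))
    (hdich : ∀ x ∈ N, (x < ξ0 ∧ π x = x) ∨ (ξ0 < x ∧ x < m ∧ m ≤ π x)) :
    ∃ r : SE, r ≤ s ∧ r ≤ s' ∧
      (∀ x ∈ N, ξ0 < x → if b then Tri r x (π x) ξ0 else Tri r (π x) x ξ0) ∧
      (∀ x ∈ N, ∀ y ∈ N, ∀ δ, Tri s x y δ → δ < ξ0 →
        Tri r x (π y) δ ∧ Tri r (π x) y δ ∧ Tri r (π x) (π y) δ) ∧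
      (∀ x ∈ N, ∀ y ∈ N, ∀ δ, Tri s x y δ → ξ0 < δ →
        if b then Tri r x (π y) ξ0 ∧ Tri r y (π x) ξ0
        else Tri r (π y) x ξ0 ∧ Tri r (π x) y ξ0) := by
  classical
  obtain ⟨φ, hφR, hφ⟩ := s.2
  obtain ⟨φ', hφR', hφ'⟩ := s'.2
  let x0 : ℤ := if b then 1 else 2
  let y0 : ℤ := if b then 2 else 1
  have hx0 : x0 ≠ 0 := by simp only [x0]; split_ifs <;> norm_num
  have hy0 : y0 ≠ 0 := by simp only [y0]; split_ifs <;> norm_num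
  let χ : Om → Om → ℤ := fun z ζ =>
    if z ∈ N ∧ ξ0 < z then (if ζ = ξ0 then x0 else φ z ζ)
    else if h : ∃ x ∈ N, ξ0 < x ∧ π x = z then
      (if ζ < ξ0 then φ h.choose ζ else if ζ = ξ0 then y0 else φ' z ζ)
    else φ z ζ
  -- moved elements
  have hmv : ∀ x ∈ N, ξ0 < x → x < m ∧ m ≤ π x := by
    intro x hx h
    rcases hdich x hx with ⟨h1, -⟩ | ⟨-, h2⟩
    · exact absurd h1 (not_lt.2 h.le)
    · exact h2
  have hfx : ∀ x ∈ N, x < ξ0 → π x = x := by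
    intro x hx h
    rcases hdich x hx with ⟨-, h1⟩ | ⟨h1, -⟩
    · exact h1
    · exact absurd h1 (not_lt.2 h.le)
  have hlt : ∀ x ∈ N, ∀ y ∈ N, ξ0 < y → x < π y := by
    intro x hx y hy h
    obtain ⟨h1, h2⟩ := hmv y hy h
    rcases hdich x hx with ⟨h3, -⟩ | ⟨-, h3, -⟩
    · exact ((h3.trans h).trans h1).trans_le h2
    · exact h3.trans_le h2
  have F1 : ∀ x ∈ N, ξ0 < x → ∀ ζ, χ x ζ = if ζ = ξ0 then x0 else φ x ζ := by
    intro x hx h ζ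
    simp only [χ, if_pos (show x ∈ N ∧ ξ0 < x from ⟨hx, h⟩)]
  have F2 : ∀ x ∈ N, ξ0 < x → ∀ ζ,
      χ (π x) ζ = if ζ < ξ0 then φ x ζ else if ζ = ξ0 then y0 else φ' (π x) ζ := by
    intro x hx h ζ
    have h1 : ¬ (π x ∈ N ∧ ξ0 < π x) := fun hc => lt_irrefl _ (hlt _ hc.1 x hx h)
    have h2 : ∃ y ∈ N, ξ0 < y ∧ π y = π x := ⟨x, hx, h, rfl⟩
    have h3 : h2.choose = x := hinj h2.choose_spec.1 hx h2.choose_spec.2.2
    simp only [χ, if_neg h1, dif_pos h2, h3]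
  have F3 : ∀ x ∈ N, x < ξ0 → ∀ ζ, χ x ζ = φ x ζ := by
    intro x hx h ζ
    have h1 : ¬ (x ∈ N ∧ ξ0 < x) := fun hc => absurd h (not_lt.2 hc.2.le)
    have h2 : ¬ ∃ y ∈ N, ξ0 < y ∧ π y = x := by
      rintro ⟨y, hy, hy1, hy2⟩
      exact (hlt x hx y hy hy1).ne hy2.symm
    simp only [χ, if_neg h1, dif_neg h2]
  have F5 : ∀ x ∈ N, ∀ ζ < ξ0, χ x ζ = φ x ζ := by
    intro x hx ζ hζ
    rcases hdich x hx with ⟨h1, -⟩ | ⟨h1, -⟩
    · exact F3 x hx h1 ζ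
    · rw [F1 x hx h1, if_neg hζ.ne]
  have F6 : ∀ x ∈ N, ∀ ζ < ξ0, χ (π x) ζ = φ x ζ := by
    intro x hx ζ hζ
    rcases hdich x hx with ⟨h1, h2⟩ | ⟨h1, -⟩
    · rw [h2]
      exact F3 x hx h1 ζ
    · rw [F2 x hx h1, if_pos hζ]
  have F7 : ∀ x ∈ N, ξ0 < x → χ x ξ0 = x0 := by
    intro x hx h
    rw [F1 x hx h, if_pos rfl]
  have F8 : ∀ x ∈ N, ξ0 < x → χ (π x) ξ0 = y0 := by
    intro x hx h
    rw [F2 x hx h, if_neg (lt_irrefl _), if_pos rfl]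
  -- rows
  have hrow : Row χ := by
    intro z ζ
    by_cases h1 : z ∈ N ∧ ξ0 < z
    · rw [F1 z h1.1 h1.2]
      by_cases h2 : ζ = ξ0
      · rw [if_pos h2, h2]
        exact ⟨fun h => absurd h hx0, fun h => absurd h (not_le.2 h1.2)⟩
      · rw [if_neg h2]
        exact hφR z ζ
    · by_cases h2 : ∃ x ∈ N, ξ0 < x ∧ π x = z
      · obtain ⟨x, hx, hx1, rfl⟩ := h2
        obtain ⟨h3, h4⟩ := hmv x hx hx1
        have h5 : ξ0 < π x := (hx1.trans h3).trans_le h4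
        rw [F2 x hx hx1]
        by_cases h6 : ζ < ξ0
        · rw [if_pos h6]
          constructor
          · intro h
            exact absurd ((hφR x ζ).1 h) (not_le.2 (h6.trans hx1))
          · intro h
            exact absurd h (not_le.2 (h6.trans h5))
        · rw [if_neg h6]
          by_cases h7 : ζ = ξ0
          · rw [if_pos h7, h7]
            exact ⟨fun h => absurd h hy0, fun h => absurd h (not_le.2 h5)⟩
          · rw [if_neg h7]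
            exact hφR' (π x) ζ
      · simp only [χ, if_neg h1, dif_neg h2]
        exact hφR z ζ
  -- levels of triples
  have hlev : ∀ x ∈ s.1, x.2.2 ≤ x.1 ∧ x.2.2 ≤ x.2.1 := fun x hx =>
    ⟨(hφ x hx).le_left hφR, (hφ x hx).le_right hφR⟩
  have hcmp : ∀ δ ∈ N, δ < ξ0 ∨ ξ0 < δ := by
    intro δ hδ
    rcases hdich δ hδ with ⟨h, -⟩ | ⟨h, -⟩
    · exact Or.inl h
    · exact Or.inr h
  have hs1 : ∀ x ∈ s.1, Dl χ x.1 x.2.1 x.2.2 := by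
    rintro ⟨a, c, δ⟩ hx
    obtain ⟨ha, hc, hδ⟩ := hN _ hx
    obtain ⟨h1, h2⟩ := hlev _ hx
    have h3 := hφ _ hx
    change Dl χ a c δ
    change a ∈ N at ha
    change c ∈ N at hc
    change δ ∈ N at hδ
    change δ ≤ a at h1
    change δ ≤ c at h2
    change Dl φ a c δ at h3
    rcases hcmp δ hδ with h4 | h4
    · refine ⟨fun ζ hζ => ?_, ?_⟩
      · rw [F5 a ha ζ (hζ.trans h4), F5 c hc ζ (hζ.trans h4)]
        exact h3.1 ζ hζ
      · rw [F5 a ha δ h4, F5 c hc δ h4]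
        exact h3.2
    · have ha' : ξ0 < a := h4.trans_le h1
      have hc' : ξ0 < c := h4.trans_le h2
      refine ⟨fun ζ hζ => ?_, ?_⟩
      · rw [F1 a ha ha', F1 c hc hc']
        split_ifs
        · rfl
        · exact h3.1 ζ hζ
      · rw [F1 a ha ha', F1 c hc hc', if_neg h4.ne', if_neg h4.ne']
        exact h3.2
  have hs2 : ∀ x ∈ s'.1, Dl χ x.1 x.2.1 x.2.2 := by
    intro y hy
    obtain ⟨⟨a, c, δ⟩, hx, rfl⟩ := hs' y hy
    have h5 := hφ' _ hy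
    obtain ⟨ha, hc, hδ⟩ := hN _ hx
    obtain ⟨h1, h2⟩ := hlev _ hx
    have h3 := hφ _ hx
    change Dl χ (π a) (π c) (π δ)
    change a ∈ N at ha
    change c ∈ N at hc
    change δ ∈ N at hδ
    change δ ≤ a at h1
    change δ ≤ c at h2
    change Dl φ a c δ at h3
    change Dl φ' (π a) (π c) (π δ) at h5
    rcases hcmp δ hδ with h4 | h4
    · rw [hfx δ hδ h4]
      refine ⟨fun ζ hζ => ?_, ?_⟩
      · rw [F6 a ha ζ (hζ.trans h4), F6 c hc ζ (hζ.trans h4)]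
        exact h3.1 ζ hζ
      · rw [F6 a ha δ h4, F6 c hc δ h4]
        exact h3.2
    · have ha' : ξ0 < a := h4.trans_le h1
      have hc' : ξ0 < c := h4.trans_le h2
      have h6 := hmv δ hδ h4
      have h7 : ξ0 < π δ := (h4.trans h6.1).trans_le h6.2
      refine ⟨fun ζ hζ => ?_, ?_⟩
      · rw [F2 a ha ha', F2 c hc hc']
        split_ifs with h8 h9
        · exact h3.1 ζ (h8.trans h4)
        · rfl
        · exact h5.1 ζ hζ
      · rw [F2 a ha ha', F2 c hc hc', if_neg (not_lt.2 h7.le), if_neg (not_lt.2 h7.le),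
          if_neg h7.ne', if_neg h7.ne']
        exact h5.2
  have hrz : RzE χ (s.1 ∪ s'.1) := by
    refine ⟨hrow, fun x hx => ?_⟩
    rcases Finset.mem_union.1 hx with hx | hx
    · exact hs1 x hx
    · exact hs2 x hx
  obtain ⟨r, hr, -, hall⟩ := exists_all (s := (⟨s.1 ∪ s'.1, χ, hrz⟩ : SE)) hrz (N ∪ N.image π)
  have hZ1 : ∀ x ∈ N, x ∈ N ∪ N.image π := fun x hx => Finset.mem_union_left _ hx
  have hZ2 : ∀ x ∈ N, π x ∈ N ∪ N.image π := fun x hx =>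
    Finset.mem_union_right _ (Finset.mem_image_of_mem _ hx)
  refine ⟨r, ?_, ?_, ?_, ?_, ?_⟩
  · exact Finset.Subset.trans Finset.subset_union_left hr
  · exact Finset.Subset.trans Finset.subset_union_right hr
  · intro x hx hx1
    cases b
    · refine hall _ (hZ2 x hx) _ (hZ1 x hx) _ ⟨fun ζ hζ => ?_, ?_⟩
      · rw [F6 x hx ζ hζ, F5 x hx ζ hζ]
      · rw [F7 x hx hx1, F8 x hx hx1]
        simp [x0, y0]
    · refine hall _ (hZ1 x hx) _ (hZ2 x hx) _ ⟨fun ζ hζ => ?_, ?_⟩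
      · rw [F6 x hx ζ hζ, F5 x hx ζ hζ]
      · rw [F7 x hx hx1, F8 x hx hx1]
        simp [x0, y0]
  · intro x hx y hy δ hxy hδ
    have h3 : Dl φ x y δ := hφ _ hxy
    refine ⟨hall _ (hZ1 x hx) _ (hZ2 y hy) _ ⟨fun ζ hζ => ?_, ?_⟩,
      hall _ (hZ2 x hx) _ (hZ1 y hy) _ ⟨fun ζ hζ => ?_, ?_⟩,
      hall _ (hZ2 x hx) _ (hZ2 y hy) _ ⟨fun ζ hζ => ?_, ?_⟩⟩
    · rw [F5 x hx ζ (hζ.trans hδ), F6 y hy ζ (hζ.trans hδ)]
      exact h3.1 ζ hζ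
    · rw [F5 x hx δ hδ, F6 y hy δ hδ]
      exact h3.2
    · rw [F6 x hx ζ (hζ.trans hδ), F5 y hy ζ (hζ.trans hδ)]
      exact h3.1 ζ hζ
    · rw [F6 x hx δ hδ, F5 y hy δ hδ]
      exact h3.2
    · rw [F6 x hx ζ (hζ.trans hδ), F6 y hy ζ (hζ.trans hδ)]
      exact h3.1 ζ hζ
    · rw [F6 x hx δ hδ, F6 y hy δ hδ]
      exact h3.2
  · intro x hx y hy δ hxy hδ
    have h3 : Dl φ x y δ := hφ _ hxy
    have hx1 : ξ0 < x := hδ.trans_le (h3.le_left hφR)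
    have hy1 : ξ0 < y := hδ.trans_le (h3.le_right hφR)
    cases b
    · refine ⟨hall _ (hZ2 y hy) _ (hZ1 x hx) _ ⟨fun ζ hζ => ?_, ?_⟩,
        hall _ (hZ2 x hx) _ (hZ1 y hy) _ ⟨fun ζ hζ => ?_, ?_⟩⟩
      · rw [F6 y hy ζ hζ, F5 x hx ζ hζ]
        exact (h3.1 ζ (hζ.trans hδ)).symm
      · rw [F8 y hy hy1, F7 x hx hx1]
        simp [x0, y0]
      · rw [F6 x hx ζ hζ, F5 y hy ζ hζ]
        exact h3.1 ζ (hζ.trans hδ)
      · rw [F8 x hx hx1, F7 y hy hy1]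
        simp [x0, y0]
    · refine ⟨hall _ (hZ1 x hx) _ (hZ2 y hy) _ ⟨fun ζ hζ => ?_, ?_⟩,
        hall _ (hZ1 y hy) _ (hZ2 x hx) _ ⟨fun ζ hζ => ?_, ?_⟩⟩
      · rw [F5 x hx ζ hζ, F6 y hy ζ hζ]
        exact h3.1 ζ (hζ.trans hδ)
      · rw [F7 x hx hx1, F8 y hy hy1]
        simp [x0, y0]
      · rw [F5 y hy ζ hζ, F6 x hx ζ hζ]
        exact (h3.1 ζ (hζ.trans hδ)).symm
      · rw [F7 y hy hy1, F8 x hx hx1]
        simp [x0, y0]

end SE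

end Pool.Agent.H90.Mx
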