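import Pool.Agent.H90.Mx.Read
import Pool.Agent.H90.Mx.Index
import Pool.Agent.H90.Mx.SRealCmb
import Pool.Agent.H90.Mx.STreeCmb
import Pool.Agent.H90.Mx.CardD

/-!
# The forcing for the coexistence theorem

Static part: `SR × SE`.  Atoms `(a, k)`: the generic surjection sends the `a`-th point to the `k`-th point.
There are two kinds of indices: `Par.R e` (line of reals; `e` is an ordinal below which the suborder is
order dense) and `Par.A E` (Aronszajn line; `E` is a club).
-/

set_option autoImplicit false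

namespace Pool.Agent.H90.Mx

open Pool.Agent.H90.SN

/-! ### Blocks -/

theorem exists_bl : ∃ bl : Om → Om, (∀ k, {a | bl a = bl k}.Infinite) ∧
    ∀ k, {a | bl a = bl k}.Countable := by
  have h1 : Cardinal.mk Om = Cardinal.mk (Om × ℕ) := by
    rw [Cardinal.mk_prod, Cardinal.lift_id, Cardinal.lift_id, om_card, Cardinal.mk_nat,
      Cardinal.mul_aleph0_eq (Cardinal.aleph0_le_aleph 1)]
  obtain ⟨e⟩ := Cardinal.eq.1 h1
  refine ⟨fun a => e.symm ((e a).1, 0), fun k => ?_, fun k => ?_⟩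
  · have h2 : Set.range (fun n : ℕ => e.symm ((e k).1, n)) ⊆
        {a | e.symm ((e a).1, 0) = e.symm ((e k).1, 0)} := by
      rintro _ ⟨n, rfl⟩
      simp
    refine Set.Infinite.mono h2 (Set.infinite_range_of_injective fun n m h => ?_)
    have h3 := e.symm.injective h
    exact (Prod.mk.inj h3).2
  · have h2 : {a | e.symm ((e a).1, 0) = e.symm ((e k).1, 0)} ⊆
        Set.range (fun n : ℕ => e.symm ((e k).1, n)) := by
      intro a ha
      have h3 := e.symm.injective ha
      have h4 : (e a).1 = (e k).1 := (Prod.mk.inj h3).1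
      refine ⟨(e a).2, ?_⟩
      rw [← h4]
      exact e.symm_apply_apply a
    exact (Set.countable_range _).mono h2

/-- the block of an ordinal: all fibres are countable and infinite -/
noncomputable def bl : Om → Om := exists_bl.choose

theorem bl_infinite (k : Om) : {a | bl a = bl k}.Infinite := exists_bl.choose_spec.1 k

theorem bl_countable (k : Om) : {a | bl a = bl k}.Countable := exists_bl.choose_spec.2 k

/-! ### Clubs -/

/-- closed unbounded sets of countable limit ordinals, together with `0` -/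
structure IsCl (E : Set Om) : Prop where
  unb : ∀ a, ∃ γ ∈ E, a < γ
  closed : ∀ γ, (∀ a < γ, ∃ γ' ∈ E, a < γ' ∧ γ' < γ) → γ ∈ E
  lim : ∀ γ ∈ E, ∀ ξ < γ, ∃ ξ', ξ < ξ' ∧ ξ' < γ

/-! ### The kinds of indices and the requirements for the atoms -/

def UnaR (e : Om) (x : Om × Om) : Prop := x.2 < e ∨ bl x.1 = bl x.2

def UnaA (E : Set Om) (x : Om × Om) : Prop := ∀ γ ∈ E, γ ≤ x.2 → γ ≤ x.1

def BinR (e : Om) (L : Om → Om → Prop) (x y : Om × Om) : Prop :=
  x = y ∨ (x.2 = y.2 ∧ x.2 < e) ∨ (L x.1 y.1 ∧ L x.2 y.2) ∨ (L y.1 x.1 ∧ L y.2 x.2)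

/-- `T` is a relation `α < β with first difference δ` -/
def Lk (E : Set Om) (T : Om → Om → Om → Prop) (x y : Om × Om) : Prop :=
  ∃ δ, T x.1 y.1 δ ∧ ((x.2 = y.2 ∧ ∀ γ ∈ E, γ ≤ x.2 → γ ≤ δ) ∨
    ∃ δ', T x.2 y.2 δ' ∧ ∀ γ ∈ E, γ ≤ δ ↔ γ ≤ δ')

def BinA (E : Set Om) (T : Om → Om → Om → Prop) (x y : Om × Om) : Prop :=
  x = y ∨ Lk E T x y ∨ Lk E T y x

theorem BinR.symm {e : Om} {L : Om → Om → Prop} {x y : Om × Om} (h : BinR e L x y) :
    BinR e L y x := by
  rcases h with h | ⟨h1, h2⟩ | h | h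
  · exact Or.inl h.symm
  · exact Or.inr (Or.inl ⟨h1.symm, h1 ▸ h2⟩)
  · exact Or.inr (Or.inr (Or.inr h))
  · exact Or.inr (Or.inr (Or.inl h))

theorem BinR.mono {e : Om} {L L' : Om → Om → Prop} {x y : Om × Om} (h : BinR e L x y)
    (hL : ∀ a b, L a b → L' a b) : BinR e L' x y := by
  rcases h with h | h | h | h
  · exact Or.inl h
  · exact Or.inr (Or.inl h)
  · exact Or.inr (Or.inr (Or.inl ⟨hL _ _ h.1, hL _ _ h.2⟩))
  · exact Or.inr (Or.inr (Or.inr ⟨hL _ _ h.1, hL _ _ h.2⟩))

theorem Lk.mono {E : Set Om} {T T' : Om → Om → Om → Prop} {x y : Om × Om} (h : Lk E T x y)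
    (hT : ∀ a b c, T a b c → T' a b c) : Lk E T' x y := by
  obtain ⟨δ, h1, h2 | ⟨δ', h2, h3⟩⟩ := h
  · exact ⟨δ, hT _ _ _ h1, Or.inl h2⟩
  · exact ⟨δ, hT _ _ _ h1, Or.inr ⟨δ', hT _ _ _ h2, h3⟩⟩

theorem BinA.symm {E : Set Om} {T : Om → Om → Om → Prop} {x y : Om × Om} (h : BinA E T x y) :
    BinA E T y x := by
  rcases h with h | h | h
  · exact Or.inl h.symm
  · exact Or.inr (Or.inr h)
  · exact Or.inr (Or.inl h)

theorem BinA.mono {E : Set Om} {T T' : Om → Om → Om → Prop} {x y : Om × Om}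
    (h : BinA E T x y) (hT : ∀ a b c, T a b c → T' a b c) : BinA E T' x y := by
  rcases h with h | h | h
  · exact Or.inl h
  · exact Or.inr (Or.inl (h.mono hT))
  · exact Or.inr (Or.inr (h.mono hT))

def unaC : Kd → Om × Om → Prop
  | .R e => UnaR e
  | .A E => fun x => IsCl E ∧ UnaA E x

def binC : Kd → Om × Om → Om × Om → SR × SE → Prop
  | .R e => fun x y s => BinR e s.1.Lt x y
  | .A E => fun x y s => BinA E s.2.Tri x y

theorem exists_ix : ∃ (I : Type) (par : I → Kd) (cond : I → Om → ℕ → Option ((SR × SE) ×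
    Finset (I × (Om × Om)))), ∀ (a : Kd) (K : Om → ℕ → Option ((SR × SE) ×
      Finset (I × (Om × Om)))) (H : Set I),
        Cardinal.mk H ≤ Cardinal.aleph 1 → ∃ i, i ∉ H ∧ par i = a ∧ cond i = K :=
  haveI : Nonempty Kd := ⟨.A ∅⟩
  exists_index (SR × SE) (Om × Om) Om Kd card_data.1 card_data.2.1 (om_card).le card_data.2.2

/-- the system for the coexistence theorem -/
noncomputable def co : Sys where
  S := SR × SE
  C := Om × Om
  T := Om
  Par := Kd
  I := exists_ix.choose
  poS := inferInstance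
  topS := inferInstance
  need _ x t := t = x.2
  free _ _ := False
  una := unaC
  bin := binC
  bin_mono := by
    rintro (e | E) c d s s' hs h
    · exact BinR.mono h fun a b hab => hab.mono hs.1
    · exact BinA.mono h fun a b c hab => hab.mono hs.2
  bin_symm := by
    rintro (e | E) c d s h
    · exact BinR.symm h
    · exact BinA.symm h
  bin_refl := by
    rintro (e | E) c s
    · exact Or.inl rfl
    · exact Or.inl rfl
  card_T := (om_card).le
  par := exists_ix.choose_spec.choose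
  cond := exists_ix.choose_spec.choose_spec.choose
  surj := exists_ix.choose_spec.choose_spec.choose_spec

/-- the forcing for the coexistence theorem -/
abbrev CP : Type := co.Pt

/-- the index type -/
abbrev CI : Type := co.I

/-- the kind of an index -/
noncomputable abbrev kd (i : CI) : Kd := co.par i

/-- the real part of a condition -/
def CP.r (p : CP) : SR := p.1.1.1

/-- the tree part of a condition -/
def CP.t (p : CP) : SE := p.1.1.2

/-- the condition `p` decides that the generic surjection of index `i` sends `a` to `k` -/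
def At (p : CP) (i : CI) (a k : Om) : Prop := Sys.Has (X := co) p i (a, k)

/-- the condition `p` forces that `k` is in the set coded by `i` -/
def Kin (i : CI) (k : Om) (p : CP) : Prop := Sys.Ink (X := co) i k p

theorem CP.r_mono {p q : CP} (h : q ≤ p) : q.r ≤ p.r := h.1.1

theorem CP.t_mono {p q : CP} (h : q ≤ p) : q.t ≤ p.t := h.1.2

theorem At.mono {p q : CP} {i : CI} {a k : Om} (h : At p i a k) (hq : q ≤ p) : At q i a k :=
  Sys.Has.mono h hq

theorem Kin.mono {p q : CP} {i : CI} {k : Om} (h : Kin i k p) (hq : q ≤ p) : Kin i k q :=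
  Sys.Ink.mono h hq

theorem At.kin {p : CP} {i : CI} {a k : Om} (h : At p i a k) : Kin i k p := by
  rcases Sys.Has.need h with h1 | ⟨t, h1, h2⟩
  · exact h1.elim
  · have : t = k := h1
    subst this
    exact h2

theorem At.unaR {p : CP} {i : CI} {a k : Om} (h : At p i a k) {e : Om} (hi : kd i = .R e) :
    UnaR e (a, k) := by
  have h1 : unaC (kd i) (a, k) := Sys.Has.una h
  rw [hi] at h1
  exact h1

theorem At.unaA {p : CP} {i : CI} {a k : Om} (h : At p i a k) {E : Set Om} (hi : kd i = .A E) :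
    IsCl E ∧ UnaA E (a, k) := by
  have h1 : unaC (kd i) (a, k) := Sys.Has.una h
  rw [hi] at h1
  exact h1

theorem At.binR {p : CP} {i : CI} {a k a' k' : Om} (h : At p i a k) (h' : At p i a' k') {e : Om}
    (hi : kd i = .R e) : BinR e p.r.Lt (a, k) (a', k') := by
  have h1 : binC (kd i) (a, k) (a', k') p.1.1 := Sys.Has.bin h h'
  rw [hi] at h1
  exact h1

theorem At.binA {p : CP} {i : CI} {a k a' k' : Om} (h : At p i a k) (h' : At p i a' k')
    {E : Set Om} (hi : kd i = .A E) : BinA E p.t.Tri (a, k) (a', k') := by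
  have h1 : binC (kd i) (a, k) (a', k') p.1.1 := Sys.Has.bin h h'
  rw [hi] at h1
  exact h1

theorem CP.exists_static (p : CP) {r : SR} {t : SE} (hr : r ≤ p.r) (ht : t ≤ p.t) :
    ∃ q ≤ p, q.r = r ∧ q.t = t ∧ ∀ i a k, At q i a k ↔ At p i a k := by
  obtain ⟨q, h1, h2, h3⟩ := Sys.exists_static (X := co) p (s := (r, t)) ⟨hr, ht⟩
  refine ⟨q, h1, congrArg Prod.fst h2, congrArg Prod.snd h2, fun i a k => ?_⟩
  unfold At Sys.Has
  rw [h3]

theorem CP.exists_addR (p : CP) {i : CI} {e a k : Om} (hi : kd i = .R e) (hu : UnaR e (a, k))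
    (hk : Kin i k p) (hb : ∀ a' k', At p i a' k' → BinR e p.r.Lt (a, k) (a', k')) :
    ∃ q ≤ p, At q i a k := by
  obtain ⟨q, h1, -, h3⟩ := Sys.exists_add (X := co) p (i := i) (c := (a, k))
    (show unaC (kd i) (a, k) by rw [hi]; exact hu) (Or.inr ⟨k, rfl, hk⟩)
    (fun d hd => show binC (kd i) (a, k) d p.1.1 by rw [hi]; exact hb d.1 d.2 hd)
  exact ⟨q, h1, h3⟩

theorem CP.exists_addA (p : CP) {i : CI} {E : Set Om} {a k : Om} (hi : kd i = .A E)
    (hE : IsCl E) (hu : UnaA E (a, k))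
    (hk : Kin i k p) (hb : ∀ a' k', At p i a' k' → BinA E p.t.Tri (a, k) (a', k')) :
    ∃ q ≤ p, At q i a k := by
  obtain ⟨q, h1, -, h3⟩ := Sys.exists_add (X := co) p (i := i) (c := (a, k))
    (show unaC (kd i) (a, k) by rw [hi]; exact ⟨hE, hu⟩) (Or.inr ⟨k, rfl, hk⟩)
    (fun d hd => show binC (kd i) (a, k) d p.1.1 by rw [hi]; exact hb d.1 d.2 hd)
  exact ⟨q, h1, h3⟩

/-- amalgamation of two conditions -/
theorem CP.exists_amalgam (p q : CP) {r : SR} {t : SE} (h1 : r ≤ p.r) (h2 : t ≤ p.t)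
    (h3 : r ≤ q.r) (h4 : t ≤ q.t)
    (hR : ∀ i e, kd i = .R e → ∀ a k a' k', At p i a k → At q i a' k' →
      BinR e r.Lt (a, k) (a', k'))
    (hA : ∀ i E, kd i = .A E → ∀ a k a' k', At p i a k → At q i a' k' →
      BinA E t.Tri (a, k) (a', k')) : ∃ s ≤ p, s ≤ q ∧ s.r = r ∧ s.t = t := by
  obtain ⟨s, e1, e2, e3, -⟩ := Sys.exists_amalgam (X := co) p q (s := (r, t)) ⟨h1, h2⟩
    ⟨h3, h4⟩ (by
      intro i c d hc hd
      change binC (kd i) c d (r, t)
      rcases hi : kd i with e | E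
      · exact hR i e hi c.1 c.2 d.1 d.2 hc hd
      · exact hA i E hi c.1 c.2 d.1 d.2 hc hd)
  exact ⟨s, e1, e2, congrArg Prod.fst e3, congrArg Prod.snd e3⟩

/-- the real part is a finite set, the atoms are a finite set -/
theorem CP.finite_at (p : CP) : ∃ A : Finset (CI × Om × Om), ∀ i a k, At p i a k ↔ (i, a, k) ∈ A :=
  ⟨p.1.2, fun _ _ _ => Iff.rfl⟩

end Pool.Agent.H90.Mx
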