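import Pool.Agent.H90.Mx.Twin

/-!
# Existence of twins (module TWINEX)

Given a `Shape`, apply `exists_pair` to `Y`, `e`, `F`, the countable (finite) set of clubs
`𝓔 := {E | IsCl E ∧ ∃ i ∈ R, kd i = .A E}` and `ζ1` := the maximum of `ζ0` and of all `e` with
`kd i = .R e` for some `i ∈ R` (finitely many).  We get `ν < μ` in `Y`, `ξ0`, `m`.  Let `N` be the range of
`e ν`, and `π (e ν j) := e μ j` (`π x := x` outside `N`).  `π` is injective on `N` as `e μ` is injective.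
`Twin.mem`, `mem'`, `cl`, `le`: if `i` occurs in both conditions then `i ∈ R` (`Shape.com`); `IsCl E` for the
`E` with `kd i = .A E` by `At.unaA`.  `r'`: an element `y ∈ (p μ).r.1` has `y.1 = e μ j`, and
`(e ν j, y.2) ∈ (p ν).r.1` by `Shape.r` (for `μ, ν`).  Etc.
-/

set_option autoImplicit false

namespace Pool.Agent.H90.Mx

open Pool.Agent.H90.SN

theorem exists_twin {p : Om → CP} {c d : Om → Om} {R : Finset CI} {Y : Set Om} {n : ℕ}
    {e : Om → Fin n → Om} (h : Shape p c d R Y e) (F : Om → Om) (ζ0 : Om) :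
    ∃ ν μ, ν < μ ∧ F ν < μ ∧ ∃ N π ξ0 m, ζ0 ≤ ξ0 ∧ ξ0 < ν ∧ Twin (p ν) (p μ) N π ξ0 m ∧
      c ν ∈ N ∧ d ν ∈ N ∧ π (c ν) = c μ ∧ π (d ν) = d μ := by
  classical
  -- the clubs
  let f : CI → Set Om := fun i => match kd i with
    | .A E => E
    | .R _ => ∅
  have hc : ({E : Set Om | IsCl E ∧ ∃ i ∈ R, kd i = .A E}).Countable := by
    refine ((R.finite_toSet.image f).subset ?_).countable
    rintro E ⟨-, i, hi, hE⟩
    refine ⟨i, hi, ?_⟩
    simp only [f, hE]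
  -- the ordinal
  let gg : CI → Om := fun i => match kd i with
    | .A _ => ζ0
    | .R e => e
  haveI : Nonempty Om := ⟨ζ0⟩
  obtain ⟨ζ1, hζ1⟩ := Finset.exists_le (insert ζ0 (R.image gg))
  have hζ0 : ζ0 ≤ ζ1 := hζ1 _ (Finset.mem_insert_self _ _)
  have hζR : ∀ i ∈ R, ∀ e', kd i = .R e' → e' ≤ ζ1 := by
    intro i hi e' he'
    have h1 := hζ1 (gg i) (Finset.mem_insert_of_mem (Finset.mem_image_of_mem _ hi))
    simpa only [gg, he'] using h1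
  obtain ⟨ν, hν, μ, hμ, hνμ, hF, ξ0, m, hξ1, hξ2, -, -, hm, hblk, hdich⟩ :=
    exists_pair h.unb e F hc (fun E hE => hE.1) ζ1
  let N : Finset Om := Finset.univ.image (e ν)
  let π : Om → Om := fun x => if hx : ∃ j, e ν j = x then e μ hx.choose else x
  have hπ : ∀ j, π (e ν j) = e μ j := by
    intro j
    have hx : ∃ j', e ν j' = e ν j := ⟨j, rfl⟩
    have h1 : hx.choose = j := h.inj ν hν hx.choose_spec
    simp only [π, dif_pos hx, h1]
  have hmemN : ∀ j, e ν j ∈ N := fun j => Finset.mem_image_of_mem _ (Finset.mem_univ j)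
  have hN : ∀ x ∈ N, ∃ j, e ν j = x := by
    intro x hx
    obtain ⟨j, -, hj⟩ := Finset.mem_image.1 hx
    exact ⟨j, hj⟩
  have hNi : ∀ x, (∃ j, e ν j = x) → x ∈ N := by
    rintro x ⟨j, rfl⟩
    exact hmemN j
  obtain ⟨jc, hjc⟩ := h.cN ν hν
  obtain ⟨jd, hjd⟩ := h.dN ν hν
  refine ⟨ν, μ, hνμ, hF, N, π, ξ0, m, hζ0.trans hξ1, hξ2, ?_, ?_, ?_, ?_, ?_⟩
  · refine
      { inj := ?_, dich := ?_, rN := ?_, tN := ?_, r' := ?_, t' := ?_, tt := ?_, mem := ?_,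
        mem' := ?_, cl := ?_, le := ?_, blk := hblk }
    · intro x hx y hy hxy
      obtain ⟨j, rfl⟩ := hN x hx
      obtain ⟨k, rfl⟩ := hN y hy
      rw [hπ, hπ] at hxy
      rw [h.inj μ hμ hxy]
    · intro x hx
      obtain ⟨j, rfl⟩ := hN x hx
      rw [hπ]
      rcases hdich j with ⟨h1, h2⟩ | h1
      · exact Or.inl ⟨h2, h1.symm⟩
      · exact Or.inr h1
    · intro x hx
      exact hNi _ (h.rN ν hν x hx)
    · intro x hx
      obtain ⟨h1, h2, h3⟩ := h.tN ν hν x hx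
      exact ⟨hNi _ h1, hNi _ h2, hNi _ h3⟩
    · rintro ⟨y1, y2⟩ hy
      obtain ⟨j, hj⟩ := h.rN μ hμ _ hy
      change e μ j = y1 at hj
      subst hj
      exact ⟨(e ν j, y2), h.r μ hμ ν hν j y2 hy, by rw [hπ]⟩
    · rintro ⟨y1, y2, y3⟩ hy
      obtain ⟨⟨j, hj⟩, ⟨k, hk⟩, ⟨l, hl⟩⟩ := h.tN μ hμ _ hy
      change e μ j = y1 at hj
      change e μ k = y2 at hk
      change e μ l = y3 at hl
      subst hj hk hl
      exact ⟨(e ν j, e ν k, e ν l), h.t μ hμ ν hν j k l hy, by simp only [hπ]⟩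
    · intro x y δ hxy
      obtain ⟨⟨j, hj⟩, ⟨k, hk⟩, ⟨l, hl⟩⟩ := h.tN ν hν _ hxy
      change e ν j = x at hj
      change e ν k = y at hk
      change e ν l = δ at hl
      subst hj hk hl
      rw [hπ, hπ, hπ]
      exact h.t ν hν μ hμ j k l hxy
    · rintro i ⟨a', k', hq⟩ a k hp
      have hi : i ∈ R := h.com ν hν μ hμ hνμ.ne i ⟨a, k, hp⟩ ⟨a', k', hq⟩
      obtain ⟨⟨j, rfl⟩, ⟨l, rfl⟩⟩ := h.aN ν hν i hi a k hp
      refine ⟨hmemN j, hmemN l, ?_⟩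
      rw [hπ, hπ]
      exact h.a ν hν μ hμ i hi j l hp
    · rintro i ⟨a, k, hp⟩ a' k' hq
      have hi : i ∈ R := h.com ν hν μ hμ hνμ.ne i ⟨a, k, hp⟩ ⟨a', k', hq⟩
      obtain ⟨⟨j, rfl⟩, ⟨l, rfl⟩⟩ := h.aN μ hμ i hi a' k' hq
      exact ⟨e ν j, e ν l, h.a μ hμ ν hν i hi j l hq, (hπ j).symm, (hπ l).symm⟩
    · rintro i E ⟨a, k, hp⟩ hq hE
      have hi : i ∈ R := h.com ν hν μ hμ hνμ.ne i ⟨a, k, hp⟩ hq
      exact hm E ⟨(hp.unaA hE).1, i, hi, hE⟩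
    · rintro i e' hp hq he'
      have hi : i ∈ R := h.com ν hν μ hμ hνμ.ne i hp hq
      exact (hζR i hi e' he').trans hξ1
  · rw [← hjc]
    exact hmemN jc
  · rw [← hjd]
    exact hmemN jd
  · rw [← hjc, hπ]
    exact h.c ν hν μ hμ jc hjc
  · rw [← hjd, hπ]
    exact h.d ν hν μ hμ jd hjd

end Pool.Agent.H90.Mx
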