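import Pool.Agent.H90.Mx.Shape
import Pool.Agent.H90.Mx.TwinEx
import Pool.Agent.H90.Mx.Amalg

/-!
# The key lemma: compatible conditions with prescribed behaviour, and the chain condition
-/

set_option autoImplicit false

namespace Pool.Agent.H90.Mx

open Pool.Agent.H90.SN

instance om_nonempty : Nonempty Om := by
  by_contra h
  rw [not_nonempty_iff] at h
  exact om_not_countable inferInstance

theorem co_ccc : IsCcc CP := by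
  intro f
  obtain ⟨R, Y, n, e, h⟩ := exists_shape f id id
  obtain ⟨ν, μ, hνμ, -, N, π, ξ0, m, -, -, ht, -⟩ := exists_twin h id (Classical.arbitrary Om)
  obtain ⟨s, h1, h2, -⟩ := ht.amalg true
  exact ⟨ν, μ, hνμ.ne, s, h1, h2⟩

theorem keyR (p : Om → CP) (c d : Om → Om) (hc : ∀ ν, ν ≤ c ν) (hd : ∀ ν, ν ≤ d ν)
    (F : Om → Om) (b : Bool) : ∃ ν μ, ν < μ ∧ F ν < μ ∧ ∃ s : CP, s ≤ p ν ∧ s ≤ p μ ∧
      (if b then s.r.Lt (c ν) (c μ) ∧ s.r.Lt (d ν) (d μ)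
        else s.r.Lt (c μ) (c ν) ∧ s.r.Lt (d μ) (d ν)) ∧
      ((p ν).r.Lt (c ν) (d ν) → s.r.Lt (c μ) (d ν)) := by
  obtain ⟨R, Y, n, e, h⟩ := exists_shape p c d
  obtain ⟨ν, μ, hνμ, hF, N, π, ξ0, m, -, h0, ht, hcN, hdN, hcπ, hdπ⟩ :=
    exists_twin h F (Classical.arbitrary Om)
  obtain ⟨s, h1, h2, h3, h4, -⟩ := ht.amalg b
  refine ⟨ν, μ, hνμ, hF, s, h1, h2, ?_, fun hlt => ?_⟩
  · have e1 := h3 (c ν) hcN (h0.trans_le (hc ν))
    have e2 := h3 (d ν) hdN (h0.trans_le (hd ν))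
    rw [hcπ] at e1
    rw [hdπ] at e2
    cases b
    · simp only [Bool.false_eq_true, if_false] at e1 e2 ⊢
      exact ⟨e1.1, e2.1⟩
    · simp only [if_true] at e1 e2 ⊢
      exact ⟨e1.1, e2.1⟩
  · rw [← hcπ]
    exact h4 _ hcN _ hdN hlt

theorem keyA (p : Om → CP) (c d : Om → Om) (hc : ∀ ν, ν ≤ c ν) (hd : ∀ ν, ν ≤ d ν)
    (hcd : ∀ ν, c ν = d ν ∨ ∃ δ, ν ≤ δ ∧ ((p ν).t.Tri (c ν) (d ν) δ ∨ (p ν).t.Tri (d ν) (c ν) δ))
    (F : Om → Om) (ξ : Om) (b : Bool) : ∃ ν μ, ν < μ ∧ F ν < μ ∧ ξ < ν ∧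
      ∃ s : CP, s ≤ p ν ∧ s ≤ p μ ∧ ∃ δ, ξ ≤ δ ∧
        ∀ x, (x = c ν ∨ x = d ν) → ∀ y, (y = c μ ∨ y = d μ) →
          if b then s.t.Tri x y δ else s.t.Tri y x δ := by
  obtain ⟨R, Y, n, e, h⟩ := exists_shape p c d
  obtain ⟨ν, μ, hνμ, hF, N, π, ξ0, m, h00, h0, ht, hcN, hdN, hcπ, hdπ⟩ := exists_twin h F ξ
  obtain ⟨s, h1, h2, h3, -, h5⟩ := ht.amalg b
  refine ⟨ν, μ, hνμ, hF, h00.trans_lt h0, s, h1, h2, ξ0, h00, ?_⟩
  have e1 := h3 (c ν) hcN (h0.trans_le (hc ν))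
  have e2 := h3 (d ν) hdN (h0.trans_le (hd ν))
  rw [hcπ] at e1
  rw [hdπ] at e2
  have e3 : if b then s.t.Tri (c ν) (d μ) ξ0 ∧ s.t.Tri (d ν) (c μ) ξ0
      else s.t.Tri (d μ) (c ν) ξ0 ∧ s.t.Tri (c μ) (d ν) ξ0 := by
    rcases hcd ν with h6 | ⟨δ, hδ, h6 | h6⟩
    · have h7 : c μ = d μ := by rw [← hcπ, ← hdπ, h6]
      rw [← h7, ← h6] at *
      cases b
      · simp only [Bool.false_eq_true, if_false] at e1 ⊢
        exact ⟨e1.2, e1.2⟩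
      · simp only [if_true] at e1 ⊢
        exact ⟨e1.2, e1.2⟩
    · have h8 := h5 _ hcN _ hdN δ h6 (h0.trans_le hδ)
      rw [hcπ, hdπ] at h8
      exact h8
    · have h8 := h5 _ hdN _ hcN δ h6 (h0.trans_le hδ)
      rw [hcπ, hdπ] at h8
      cases b
      · simp only [Bool.false_eq_true, if_false] at h8 ⊢
        exact ⟨h8.2, h8.1⟩
      · simp only [if_true] at h8 ⊢
        exact ⟨h8.2, h8.1⟩
  rintro x (rfl | rfl) y (rfl | rfl) <;> cases b <;>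
    simp only [Bool.false_eq_true, if_false, if_true] at e1 e2 e3 ⊢
  · exact e1.2
  · exact e1.2
  · exact e3.1
  · exact e3.1
  · exact e3.2
  · exact e3.2
  · exact e2.2
  · exact e2.2

end Pool.Agent.H90.Mx
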