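import Pool.Agent.H90.Frc.Tools
import Pool.Agent.H90.SN.GenSp
import Pool.Agent.H90.Mx.Stmt

/-!
# Names of generic linear orders

`LineN P`: names `N a`, `a : Om`, of the points (different `a` always name different points) and a relation
`Ls a b p`: the condition `p` decides that the `a`-th point is below the `b`-th point.
`AN L` is the name of the set of all points, `ON L` is the name of the order.
-/

set_option autoImplicit false

namespace Pool.Agent.H90.Mx

open Frc Ordinal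
open Pool.Agent.H90.SN (Om IsCcc om_not_countable)

variable {P : Type} [PartialOrder P] [OrderTop P]

structure LineN (P : Type) [PartialOrder P] [OrderTop P] where
  N : Om → Name P
  Ls : Om → Om → P → Prop
  anti : ∀ {a b : Om} {p q : P}, Ls a b p → q ≤ p → Ls a b q
  tot : ∀ (p : P) {a b : Om}, a ≠ b → ∃ q ≤ p, Ls a b q ∨ Ls b a q
  irrefl : ∀ (a : Om) (p : P), ¬ Ls a a p
  trans : ∀ {a b c : Om} {p : P}, Ls a b p → Ls b c p → ∃ q ≤ p, Ls a c q
  inj : ∀ (g : Gen P) (a b : Om) (x : g.M), g.Den (N a) x → g.Den (N b) x → a = b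

namespace LineN

variable (L : LineN P)

/-- the name of the set of points -/
def AN : Name P := .mk Om L.N (fun _ => ⊤)

/-- the name of the order -/
def ON : Name P :=
  relN (ι := {z : (Om × Om) × P // L.Ls z.1.1 z.1.2 z.2}) (fun z => L.N z.1.1.1)
    (fun z => L.N z.1.1.2) (fun z => z.1.2)

variable {L} {g : Gen P}

theorem asymm {a b : Om} {p : P} (h : L.Ls a b p) : ¬ L.Ls b a p := by
  intro h'
  obtain ⟨q, -, hq⟩ := L.trans h h'
  exact L.irrefl a q hq

theorem mem_AN {A : g.M} (hA : g.Den L.AN A) (x : g.M) : g.E x A ↔ ∃ a, g.Den (L.N a) x := by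
  rw [Gen.mem_iff hA]
  constructor
  · rintro ⟨i, -, hi⟩
    exact ⟨i, hi⟩
  · rintro ⟨a, ha⟩
    exact ⟨a, g.top_mem, ha⟩

theorem rel_ON {r : g.M} (hr : g.Den L.ON r) {a b : Om} {x y : g.M} (hx : g.Den (L.N a) x)
    (hy : g.Den (L.N b) y) : Rel g.E r x y ↔ ∃ p ∈ g.G, L.Ls a b p := by
  rw [den_relN hr]
  constructor
  · rintro ⟨⟨⟨⟨a', b'⟩, p⟩, h⟩, hp, h1, h2⟩
    have e1 : a = a' := L.inj g _ _ _ hx h1
    have e2 : b = b' := L.inj g _ _ _ hy h2
    subst e1 e2
    exact ⟨p, hp, h⟩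
  · rintro ⟨p, hp, h⟩
    exact ⟨⟨((a, b), p), h⟩, hp, hx, hy⟩

theorem not_ls {a b : Om} {p : P} (h : L.Ls a b p) (hp : p ∈ g.G) :
    ¬ ∃ q ∈ g.G, L.Ls b a q := by
  rintro ⟨q, hq, h'⟩
  obtain ⟨r, -, h1, h2⟩ := g.dir p hp q hq
  exact L.asymm (L.anti h h1) (L.anti h' h2)

end LineN

end Pool.Agent.H90.Mx
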