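import Pool.Agent.H90.Mx.Line

/-!
# Linearity of a generic line (module LINLIN)

* `line_lin` (LINLIN): irreflexive and transitive by `rel_ON`, `irrefl`, `trans` (for transitivity: from
  `p, q ∈ G` with `Ls a b p`, `Ls b c q` take a common extension; `trans` gives only a smaller condition
  with `Ls a c`, so use the following density argument, or argue by contradiction with
  the negation: some condition in `G` forces `¬ Rel r x z`).  Totality: let `x = N a`, `y = N b` in `g`, `a ≠ b` (if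
  `a = b` then `x = y` by `Gen.Den.unique`).  Use `Gen.tp` with `v = ![L.N a, L.N b, L.ON]`,
  `R = True`, `S = Rel r x y ∨ Rel r y x`: for `p` take `q ≤ p` with `Ls a b q ∨ Ls b a q` (`tot`).
-/

set_option autoImplicit false

namespace Pool.Agent.H90.Mx

open Frc Ordinal
open Pool.Agent.H90.SN (Om IsCcc om_not_countable)

variable {P : Type} [PartialOrder P] [OrderTop P] {L : LineN P} {g : Gen P}

omit [OrderTop P] in
theorem den4' {σ τ ρ π : Name P} {a b c d : g.M} (h : g.Den σ a) (h' : g.Den τ b)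
    (h'' : g.Den ρ c) (h3 : g.Den π d) : ∀ i, g.Den (![σ, τ, ρ, π] i) (![a, b, c, d] i) := by
  intro i; fin_cases i; exacts [h, h', h'', h3]

theorem line_trans {r : g.M} (hr : g.Den L.ON r) {a b c : Om} {x y z : g.M}
    (hx : g.Den (L.N a) x) (hy : g.Den (L.N b) y) (hz : g.Den (L.N c) z)
    (h1 : Rel g.E r x y) (h2 : Rel g.E r y z) : Rel g.E r x z := by
  refine Gen.tp (v := ![L.N a, L.N b, L.N c, L.ON]) (a := ![x, y, z, r])
    (den4' hx hy hz hr)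
    (R := fun _ E v => Rel E (v 3) (v 0) (v 1) ∧ Rel E (v 3) (v 1) (v 2))
    (S := fun _ E v => Rel E (v 3) (v 0) (v 2))
    (Dfn.and (dfn_rel 3 0 1) (dfn_rel 3 1 2)) (dfn_rel 3 0 2) (fun p hp => ?_) ⟨h1, h2⟩
  obtain ⟨g', hg', -, u, hu⟩ := exists_gen_set p ![L.N a, L.N b, L.N c, L.ON] (L := ∅)
    Set.countable_empty
  have h0 : g'.Den (L.N a) (u 0) := hu 0
  have h1 : g'.Den (L.N b) (u 1) := hu 1
  have h2 : g'.Den (L.N c) (u 2) := hu 2
  have h3 : g'.Den L.ON (u 3) := hu 3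
  obtain ⟨r1, r2⟩ := hp g' hg' u hu
  obtain ⟨p1, hp1, hl1⟩ := (LineN.rel_ON h3 h0 h1).1 r1
  obtain ⟨p2, hp2, hl2⟩ := (LineN.rel_ON h3 h1 h2).1 r2
  obtain ⟨s, hs, hs1, hs2⟩ := g'.dir p1 hp1 p2 hp2
  obtain ⟨s', hs', hs3, hs4⟩ := g'.dir s hs p hg'
  obtain ⟨q, hq, hl⟩ := L.trans (L.anti hl1 (hs3.trans hs1)) (L.anti hl2 (hs3.trans hs2))
  refine ⟨q, hq.trans hs4, ∅, Set.countable_empty, fun g2 hg2 _ w hw _ => ?_⟩
  exact (LineN.rel_ON (hw 3) (hw 0) (hw 2)).2 ⟨q, hg2, hl⟩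

theorem line_total {r : g.M} (hr : g.Den L.ON r) {a b : Om} (hab : a ≠ b) {x y : g.M}
    (hx : g.Den (L.N a) x) (hy : g.Den (L.N b) y) : Rel g.E r x y ∨ Rel g.E r y x := by
  refine Gen.tp (v := ![L.N a, L.N b, L.ON]) (a := ![x, y, r])
    (den3 hx hy hr) (R := fun _ _ _ => True)
    (S := fun _ E v => Rel E (v 2) (v 0) (v 1) ∨ Rel E (v 2) (v 1) (v 0))
    (Dfn.const True) (Dfn.or (dfn_rel 2 0 1) (dfn_rel 2 1 0)) (fun p hp => ?_) trivial
  obtain ⟨q, hq, hl⟩ := L.tot p hab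
  refine ⟨q, hq, ∅, Set.countable_empty, fun g2 hg2 _ w hw _ => ?_⟩
  rcases hl with hl | hl
  · exact Or.inl ((LineN.rel_ON (hw 2) (hw 0) (hw 1)).2 ⟨q, hg2, hl⟩)
  · exact Or.inr ((LineN.rel_ON (hw 2) (hw 1) (hw 0)).2 ⟨q, hg2, hl⟩)

theorem line_lin {A r : g.M} (hA : g.Den L.AN A) (hr : g.Den L.ON r) : IsLin g.E A r := by
  refine ⟨?_, ?_, ?_⟩
  · intro x hx h
    obtain ⟨a, ha⟩ := (LineN.mem_AN hA x).1 hx
    obtain ⟨p, -, hp⟩ := (LineN.rel_ON hr ha ha).1 h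
    exact L.irrefl a p hp
  · intro x y z hx hy hz h1 h2
    obtain ⟨a, ha⟩ := (LineN.mem_AN hA x).1 hx
    obtain ⟨b, hb⟩ := (LineN.mem_AN hA y).1 hy
    obtain ⟨c, hc⟩ := (LineN.mem_AN hA z).1 hz
    exact line_trans hr ha hb hc h1 h2
  · intro x y hx hy
    obtain ⟨a, ha⟩ := (LineN.mem_AN hA x).1 hx
    obtain ⟨b, hb⟩ := (LineN.mem_AN hA y).1 hy
    by_cases hab : a = b
    · subst hab
      exact Or.inl (ha.unique hb)
    · exact Or.inr (line_total hr hab ha hb)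

end Pool.Agent.H90.Mx
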