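import Pool.Agent.H90.Mx.CoLines
import Pool.Agent.H90.Mx.Chain

/-!
# The tree line has no `ω₁`-chains (module NOCHAIN)

One lemma with a parameter `b` (`b = false`: no increasing sequence; `b = true`: no decreasing sequence):
let `f` be a function from `o` to `A` in `g` such that for `x, x' ∈ o` with `x ∈ x'`, `Rel f x y`,
`Rel f x' y'`: `Rel r y y'` (`b = false`) or `Rel r y' y` (`b = true`).  Let `φ` be a name of `f`, `p ∈ G` a
condition which forces this statement about `![onN ω₁, lineA.AN, lineA.ON, φ]` (`Fc.truth`; write the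
two cases separately).  Apply `no_chain b` to `p` and
`ψ ξ c q := Fc q ![onN ξ.toOrd, onN c.toOrd, φ] (fun _ E v => Rel E (v 2) (v 0) (v 1))`:
* `tot`: for `q ≤ p` take a generic `g' ∋ q` in which `![onN ω₁, AN, ON, φ, onN ξ]` are denoted
  (`exists_gen_set`); `x = onN ξ ∈ o`, so there is `y ∈ A` with `Rel f x y`, `y = onN c` (`mem_AN`);
  by `Fc.truth` some condition forces `Rel`; take a common extension with `q`.
* `inc`: take a generic `g' ∋ q` with all names `onN ω₁, AN, ON, φ, onN ξ, onN ξ', onN c, onN c'` denoted;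
  `onN ξ ∈ onN ξ'` (`onN_mem_iff`); so `Rel r y y'` (`b = false`), that is (`rel_ON`) `Ls c c' p'` for some
  `p' ∈ G'`.  This excludes `c = c'` (`irrefl`) and `Tri c' c δ` in `q` (`LineN.not_ls`).
The embedding of `(o, e)` or `(o, e')` gives such a function (`IsFun`, `IsMemRel`, `IsRev`).
-/

set_option autoImplicit false

namespace Pool.Agent.H90.Mx

open Frc Ordinal
open Pool.Agent.H90.SN (Om IsCcc om_not_countable)

theorem toOrd_strictMono {a b : Om} (h : a < b) : a.toOrd.1 < b.toOrd.1 :=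
  ToType.mk.symm.strictMono h

theorem no_fun (b : Bool) {g : Gen CP} {o A r f : g.M} (ho : g.Den (onN CP (ω_ 1)) o)
    (hA : g.Den lineA.AN A) (hr : g.Den lineA.ON r) (hf1 : IsFun g.E f o A)
    (hf2 : ∀ x x' y y', g.E x o → g.E x' o → g.E x x' → Rel g.E f x y → Rel g.E f x' y' →
      Rel g.E r (bif b then y' else y) (bif b then y else y')) : False := by
  obtain ⟨φ, hφ⟩ := g.exists_den f
  have hS : Dfn (n := 4) (fun _ E v => IsFun E (v 3) (v 0) (v 1) ∧ ∀ x x' y y', E x (v 0) →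
      E x' (v 0) → E x x' → Rel E (v 3) x y → Rel E (v 3) x' y' →
      Rel E (v 2) (bif b then y' else y) (bif b then y else y')) := by
    cases b
    · exact .and (dfn_isFun _ _ _) (.all (.all (.all (.all (.imp (.mem _ _) (.imp (.mem _ _)
        (.imp (.mem _ _) (.imp (dfn_rel _ _ _) (.imp (dfn_rel _ _ _) (dfn_rel _ _ _))))))))))
    · exact .and (dfn_isFun _ _ _) (.all (.all (.all (.all (.imp (.mem _ _) (.imp (.mem _ _)
        (.imp (.mem _ _) (.imp (dfn_rel _ _ _) (.imp (dfn_rel _ _ _) (dfn_rel _ _ _))))))))))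
  obtain ⟨p, hp, hfc⟩ := (Fc.truth hS (den4 ho hA hr hφ)).1 ⟨hf1, hf2⟩
  refine no_chain b (p := p) (ψ := fun ξ c q => Fc q ![onN CP ξ.toOrd.1, onN CP c.toOrd.1, φ]
    (fun _ E v => Rel E (v 2) (v 0) (v 1))) (fun ξ c q q' hq h => h.mono hq) ?_ ?_
  · intro ξ q hq
    obtain ⟨g', hg', a, ha⟩ := exists_gen_fin q
      ![onN CP (ω_ 1), lineA.AN, lineA.ON, φ, onN CP ξ.toOrd.1]
    have h0 : g'.Den (onN CP (ω_ 1)) (a 0) := ha 0
    have h1 : g'.Den lineA.AN (a 1) := ha 1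
    have h2 : g'.Den lineA.ON (a 2) := ha 2
    have h3 : g'.Den φ (a 3) := ha 3
    have h4 : g'.Den (onN CP ξ.toOrd.1) (a 4) := ha 4
    have hS' := hfc g' (g'.up q hg' p hq) ![a 0, a 1, a 2, a 3] (den4 h0 h1 h2 h3)
    have h5 : g'.E (a 4) (a 0) := (den_onN h0 _).2 ⟨_, ξ.toOrd.2, h4⟩
    obtain ⟨y, hy, hxy, -⟩ := hS'.1 (a 4) h5
    obtain ⟨c, hc⟩ := (LineN.mem_AN h1 y).1 hy
    have hc' : g'.Den (onN CP c.toOrd.1) y := hc
    obtain ⟨s, hs, hfs⟩ := (Fc.truth (dfn_rel 2 0 1) (den3 h4 hc' h3)).1 hxy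
    obtain ⟨t, -, ht1, ht2⟩ := g'.dir s hs q hg'
    exact ⟨t, ht2, c, hfs.mono ht1⟩
  · intro ξ ξ' c c' q hq hξ hψ hψ'
    obtain ⟨g', hg', a, ha⟩ := exists_gen_fin q
      ![onN CP (ω_ 1), lineA.AN, lineA.ON, φ, onN CP ξ.toOrd.1, onN CP ξ'.toOrd.1,
        onN CP c.toOrd.1, onN CP c'.toOrd.1]
    have h0 : g'.Den (onN CP (ω_ 1)) (a 0) := ha 0
    have h1 : g'.Den lineA.AN (a 1) := ha 1
    have h2 : g'.Den lineA.ON (a 2) := ha 2
    have h3 : g'.Den φ (a 3) := ha 3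
    have h4 : g'.Den (onN CP ξ.toOrd.1) (a 4) := ha 4
    have h5 : g'.Den (onN CP ξ'.toOrd.1) (a 5) := ha 5
    have h6 : g'.Den (onN CP c.toOrd.1) (a 6) := ha 6
    have h7 : g'.Den (onN CP c'.toOrd.1) (a 7) := ha 7
    have hS' := hfc g' (g'.up q hg' p hq) ![a 0, a 1, a 2, a 3] (den4 h0 h1 h2 h3)
    have e1 : g'.E (a 4) (a 0) := (den_onN h0 _).2 ⟨_, ξ.toOrd.2, h4⟩
    have e2 : g'.E (a 5) (a 0) := (den_onN h0 _).2 ⟨_, ξ'.toOrd.2, h5⟩
    have e3 : g'.E (a 4) (a 5) := (onN_mem_iff h4 h5).2 (toOrd_strictMono hξ)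
    have e4 : Rel g'.E (a 3) (a 4) (a 6) := hψ g' hg' ![a 4, a 6, a 3] (den3 h4 h6 h3)
    have e5 : Rel g'.E (a 3) (a 5) (a 7) := hψ' g' hg' ![a 5, a 7, a 3] (den3 h5 h7 h3)
    have e6 := hS'.2 (a 4) (a 5) (a 6) (a 7) e1 e2 e3 e4 e5
    cases b
    · obtain ⟨s, hs, hls⟩ := (LineN.rel_ON h2 (a := c) (b := c') h6 h7).1 e6
      refine ⟨?_, fun δ => ?_⟩
      · rintro rfl
        exact lineA.irrefl _ _ hls
      · intro h
        exact LineN.not_ls (L := lineA) (a := c') (b := c) ⟨δ, h⟩ hg' ⟨s, hs, hls⟩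
    · obtain ⟨s, hs, hls⟩ := (LineN.rel_ON h2 (a := c') (b := c) h7 h6).1 e6
      refine ⟨?_, fun δ => ?_⟩
      · rintro rfl
        exact lineA.irrefl _ _ hls
      · intro h
        exact LineN.not_ls (L := lineA) (a := c) (b := c') ⟨δ, h⟩ hg' ⟨s, hs, hls⟩

theorem not_emb_omega1 {g : Gen CP} {o e A r : g.M} (ho : g.Den (onN CP (ω_ 1)) o)
    (he : IsMemRel g.E o e) (hA : g.Den lineA.AN A) (hr : g.Den lineA.ON r) :
    ¬ Emb g.E o e A r := by
  rintro ⟨f, hf1, hf2⟩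
  refine no_fun false ho hA hr hf1 ?_
  intro x x' y y' hx hx' hxx' h1 h2
  exact hf2 x x' y y' hx hx' ((he x x').2 ⟨hx, hx', hxx'⟩) h1 h2

theorem not_emb_omega1_rev {g : Gen CP} {o e e' A r : g.M} (ho : g.Den (onN CP (ω_ 1)) o)
    (he : IsMemRel g.E o e) (he' : IsRev g.E e e') (hA : g.Den lineA.AN A)
    (hr : g.Den lineA.ON r) : ¬ Emb g.E o e' A r := by
  rintro ⟨f, hf1, hf2⟩
  refine no_fun true ho hA hr hf1 ?_
  intro x x' y y' hx hx' hxx' h1 h2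
  exact hf2 x' x y' y hx' hx ((he' x' x).2 ((he x x').2 ⟨hx, hx', hxx'⟩)) h2 h1

end Pool.Agent.H90.Mx
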