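import Pool.Agent.H90.Mx.Press
import Pool.Agent.H90.Mx.Delta

/-!
# Pairs of indices in good position (module PAIR)

* `exists_pair`: For `h : Fin n → Option Om` and `ξ` let `V h ξ` be the set of all `ν ∈ Y` with `ξ < ν`
  and for all `i`: `e ν i = z` if `h i = some z`, and `ξ < e ν i` if `h i = none`.  Choose an element
  `v h ξ` of `V h ξ` if it is not empty.  For `x : Om` there are only countably many `(h, ξ)` with
  `ξ ≤ x` and all values `some z` of `h` with `z ≤ x`; let `Φ x` be larger than `v h ξ`,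
  `F (v h ξ)` and `e (v h ξ) i` for all of these, and larger than all `a` with
  `bl a = bl k` for some `k ≤ x` (`bl_countable`), and larger than `x`.
  Take `m > ζ0` from `exists_closed_pt`, and `μ ∈ Y` with `m ≤ μ`.  Let `h i = some (e μ i)` if
  `e μ i < m` and `none` otherwise; let `ξ0 < m` be larger than `ζ0` and larger than all `e μ i < m`
  (a finite maximum; `Φ x > x`, `Φ x < m` for `x < m`, so there is an element strictly above the
  maximum and below `m`).  Then `μ ∈ V h ξ0` (`ξ0 < m ≤ μ`, and `ξ0 < m ≤ e μ i` if `h i = none`), so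
  `ν := v h ξ0 ∈ V h ξ0`; with `x := ξ0` we see `ν, F ν, e ν i < Φ x < m`.
-/

set_option autoImplicit false

namespace Pool.Agent.H90.Mx

open Pool.Agent.H90.SN

/-- the set of candidates with the pattern `h` -/
def PairV {n : ℕ} (Y : Set Om) (e : Om → Fin n → Om) (h : Fin n → Option Om) (ξ : Om) : Set Om :=
  {ν | ν ∈ Y ∧ ξ < ν ∧ (∀ i z, h i = some z → e ν i = z) ∧ ∀ i, h i = none → ξ < e ν i}

theorem exists_pair {n : ℕ} {Y : Set Om} (hY : ∀ ζ, ∃ ν ∈ Y, ζ ≤ ν) (e : Om → Fin n → Om)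
    (F : Om → Om) {𝓔 : Set (Set Om)} (hc : 𝓔.Countable) (hE : ∀ E ∈ 𝓔, IsCl E) (ζ0 : Om) :
    ∃ ν ∈ Y, ∃ μ ∈ Y, ν < μ ∧ F ν < μ ∧ ∃ ξ0 m, ζ0 ≤ ξ0 ∧ ξ0 < ν ∧ ν < m ∧ m ≤ μ ∧
      (∀ E ∈ 𝓔, m ∈ E) ∧ (∀ a k, bl a = bl k → (a < m ↔ k < m)) ∧
      ∀ i, (e ν i = e μ i ∧ e ν i < ξ0) ∨ (ξ0 < e ν i ∧ e ν i < m ∧ m ≤ e μ i) := by
  classical
  have hv : ∀ (h : Fin n → Option Om) (ξ : Om), ∃ v : Om,
      (PairV Y e h ξ).Nonempty → v ∈ PairV Y e h ξ := by
    intro h ξ
    by_cases hne : (PairV Y e h ξ).Nonempty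
    · obtain ⟨v, hv⟩ := hne
      exact ⟨v, fun _ => hv⟩
    · exact ⟨ξ, fun hh => absurd hh hne⟩
  choose v hv using hv
  have hIic : ∀ x : Om, (Set.Iic x).Countable := by
    intro x
    refine ((om_countable_Iio x).union (Set.countable_singleton x)).mono fun y hy => ?_
    rcases lt_or_eq_of_le (Set.mem_Iic.1 hy) with h | h
    · exact Or.inl h
    · exact Or.inr h
  -- the bounding function
  have hΦ : ∀ x : Om, ∃ b : Om, x < b ∧ (∀ a k, k ≤ x → bl a = bl k → a < b) ∧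
      ∀ (h : Fin n → Option Om) (ξ : Om), ξ ≤ x → (∀ i z, h i = some z → z ≤ x) →
        v h ξ < b ∧ F (v h ξ) < b ∧ ∀ i, e (v h ξ) i < b := by
    intro x
    have hopt : ({o | ∀ z, o = some z → z ≤ x} : Set (Option Om)).Countable := by
      refine (((hIic x).image some).union (Set.countable_singleton none)).mono fun o ho => ?_
      cases o with
      | none => exact Or.inr rfl
      | some z => exact Or.inl ⟨z, ho z rfl, rfl⟩
    have hh : ({h | ∀ i, h i ∈ ({o | ∀ z, o = some z → z ≤ x} : Set (Option Om))} :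
        Set (Fin n → Option Om)).Countable := Set.countable_pi fun _ => hopt
    have hp := hh.prod (hIic x)
    have c1 : (((fun q : (Fin n → Option Om) × Om => v q.1 q.2) ''
        ({h | ∀ i, h i ∈ ({o | ∀ z, o = some z → z ≤ x} : Set (Option Om))} ×ˢ Set.Iic x))).Countable :=
      hp.image _
    have c2 : (((fun q : (Fin n → Option Om) × Om => F (v q.1 q.2)) ''
        ({h | ∀ i, h i ∈ ({o | ∀ z, o = some z → z ≤ x} : Set (Option Om))} ×ˢ Set.Iic x))).Countable :=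
      hp.image _
    have c3 : (⋃ i : Fin n, ((fun q : (Fin n → Option Om) × Om => e (v q.1 q.2) i) ''
        ({h | ∀ i, h i ∈ ({o | ∀ z, o = some z → z ≤ x} : Set (Option Om))} ×ˢ Set.Iic x))).Countable :=
      Set.countable_iUnion fun i => hp.image _
    have c4 : (⋃ k ∈ Set.Iic x, {a | bl a = bl k}).Countable :=
      (hIic x).biUnion fun k _ => bl_countable k
    obtain ⟨b, hb⟩ := om_bounded ((((c1.union c2).union c3).union c4).union
      (Set.countable_singleton x))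
    refine ⟨b, hb x (Or.inr rfl), ?_, ?_⟩
    · intro a k hk hak
      refine hb a (Or.inl (Or.inr ?_))
      exact Set.mem_biUnion (Set.mem_Iic.2 hk) hak
    · intro h ξ hξ hz
      have hmem : (h, ξ) ∈ ({h | ∀ i, h i ∈ ({o | ∀ z, o = some z → z ≤ x} : Set (Option Om))} ×ˢ
          Set.Iic x) := ⟨fun i z hiz => hz i z hiz, hξ⟩
      refine ⟨hb _ (Or.inl (Or.inl (Or.inl (Or.inl ⟨(h, ξ), hmem, rfl⟩)))),
        hb _ (Or.inl (Or.inl (Or.inl (Or.inr ⟨(h, ξ), hmem, rfl⟩)))), fun i => ?_⟩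
      exact hb _ (Or.inl (Or.inl (Or.inr (Set.mem_iUnion.2 ⟨i, (h, ξ), hmem, rfl⟩))))
  choose Φ hΦ1 hΦ2 hΦ3 using hΦ
  obtain ⟨m, hm, hmE, hmΦ⟩ := exists_closed_pt hc hE Φ ζ0
  obtain ⟨μ, hμY, hμ⟩ := hY m
  -- the finite maximum
  have hne : (insert ζ0 ((Finset.univ.filter fun i => e μ i < m).image (e μ))).Nonempty :=
    Finset.insert_nonempty _ _
  obtain ⟨x0, hx0m, hx0ζ, hx0⟩ : ∃ x0, x0 < m ∧ ζ0 ≤ x0 ∧ ∀ i, e μ i < m → e μ i ≤ x0 := by
    refine ⟨Finset.max' _ hne, ?_, Finset.le_max' _ _ (Finset.mem_insert_self _ _), fun i hi => ?_⟩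
    · rcases Finset.mem_insert.1 (Finset.max'_mem _ hne) with h | h
      · rw [h]
        exact hm
      · obtain ⟨i, hi, hi2⟩ := Finset.mem_image.1 h
        rw [← hi2]
        exact (Finset.mem_filter.1 hi).2
    · refine Finset.le_max' _ _ (Finset.mem_insert_of_mem (Finset.mem_image.2 ⟨i, ?_, rfl⟩))
      exact Finset.mem_filter.2 ⟨Finset.mem_univ _, hi⟩
  have h1 : x0 < Φ x0 := hΦ1 x0
  have h2 : Φ x0 < m := hmΦ x0 hx0m
  set ξ0 := Φ x0 with hξ0
  set h : Fin n → Option Om := fun i => if e μ i < m then some (e μ i) else none with hh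
  have hval : ∀ i z, h i = some z → e μ i = z ∧ e μ i < m := by
    intro i z hiz
    simp only [hh] at hiz
    split_ifs at hiz with hi
    exact ⟨Option.some.inj hiz, hi⟩
  have hnone : ∀ i, h i = none → m ≤ e μ i := by
    intro i hi
    simp only [hh] at hi
    split_ifs at hi with hi2
    exact not_lt.1 hi2
  have hμV : μ ∈ PairV Y e h ξ0 :=
    ⟨hμY, lt_of_lt_of_le h2 hμ, fun i z hiz => (hval i z hiz).1,
      fun i hi => lt_of_lt_of_le h2 (hnone i hi)⟩
  obtain ⟨hνY, hν1, hν2, hν3⟩ := hv h ξ0 ⟨μ, hμV⟩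
  obtain ⟨b1, b2, b3⟩ := hΦ3 ξ0 h ξ0 le_rfl (fun i z hiz => by
    obtain ⟨h3, h4⟩ := hval i z hiz
    rw [← h3]
    exact (lt_of_le_of_lt (hx0 i h4) h1).le)
  have h3 : Φ ξ0 < m := hmΦ ξ0 h2
  refine ⟨v h ξ0, hνY, μ, hμY, lt_of_lt_of_le (b1.trans h3) hμ, lt_of_lt_of_le (b2.trans h3) hμ,
    ξ0, m, hx0ζ.trans h1.le, hν1, b1.trans h3, hμ, hmE, ?_, ?_⟩
  · intro a k hak
    constructor
    · intro ha
      exact (hΦ2 a k a le_rfl hak.symm).trans (hmΦ a ha)
    · intro hk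
      exact (hΦ2 k a k le_rfl hak).trans (hmΦ k hk)
  · intro i
    by_cases hi : e μ i < m
    · have hi2 : h i = some (e μ i) := by simp only [hh, if_pos hi]
      refine Or.inl ⟨hν2 i _ hi2, ?_⟩
      rw [hν2 i _ hi2]
      exact lt_of_le_of_lt (hx0 i hi) h1
    · have hi2 : h i = none := by simp only [hh, if_neg hi]
      exact Or.inr ⟨hν3 i hi2, (b3 i).trans h3, not_lt.1 hi⟩

end Pool.Agent.H90.Mx
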