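import Pool.Agent.H90.Mx.Inst

/-!
# Closure points (module PRESS)

* `exists_closed_pt`: build `x 0 = ζ`, and `x (n + 1)` larger than `x n`, than `Φ y` for all `y ≤ x n`
  (countably many values, `om_bounded`, `om_countable_Iio`) and than some element `γ > x n` of every
  `E ∈ 𝓔` (countably many).  Let `m` be the least upper bound of all `x n` (the minimum of the set of
  upper bounds; this set is nonempty by `om_bounded`).  For `y < m` there is `n` with `y < x n`, so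
  `Φ y < x (n + 1) ≤ m`.  For `E ∈ 𝓔`: for `a < m` there is `n` with `a < x n`, and there is
  `γ ∈ E` with `x n < γ < x (n + 1) ≤ m`; so `m ∈ E` by `closed`.
-/

set_option autoImplicit false

namespace Pool.Agent.H90.Mx

open Pool.Agent.H90.SN

theorem exists_closed_pt {𝓔 : Set (Set Om)} (hc : 𝓔.Countable) (hE : ∀ E ∈ 𝓔, IsCl E)
    (Φ : Om → Om) (ζ : Om) : ∃ m, ζ < m ∧ (∀ E ∈ 𝓔, m ∈ E) ∧ ∀ x < m, Φ x < m := by
  classical
  -- the step function
  have hstep : ∀ a : Om, ∃ b : Om, a < b ∧ (∀ y < a, Φ y < b) ∧ ∀ E ∈ 𝓔, ∃ γ ∈ E, a < γ ∧ γ < b := by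
    intro a
    have hunb : ∀ E : Set Om, ∃ γ : Om, E ∈ 𝓔 → γ ∈ E ∧ a < γ := by
      intro E
      by_cases h : E ∈ 𝓔
      · obtain ⟨γ, h1, h2⟩ := (hE E h).unb a
        exact ⟨γ, fun _ => ⟨h1, h2⟩⟩
      · exact ⟨a, fun h' => absurd h' h⟩
    choose g hg using hunb
    obtain ⟨b, hb⟩ := om_bounded (s := insert a (Φ '' Set.Iio a ∪ g '' 𝓔))
      ((((om_countable_Iio a).image Φ).union (hc.image g)).insert a)
    refine ⟨b, hb a (Set.mem_insert _ _), fun y hy => ?_, fun E h => ⟨g E, (hg E h).1, (hg E h).2, ?_⟩⟩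
    · exact hb _ (Set.mem_insert_of_mem _ (Or.inl ⟨y, hy, rfl⟩))
    · exact hb _ (Set.mem_insert_of_mem _ (Or.inr ⟨E, h, rfl⟩))
  choose S hS1 hS2 hS3 using hstep
  let x : ℕ → Om := fun n => Nat.rec ζ (fun _ a => S a) n
  have hx0 : x 0 = ζ := rfl
  have hxs : ∀ n, x (n + 1) = S (x n) := fun n => rfl
  obtain ⟨u, hu⟩ := om_bounded (s := Set.range x) (Set.countable_range x)
  have hne : ({b : Om | ∀ n, x n < b}).Nonempty := ⟨u, fun n => hu _ ⟨n, rfl⟩⟩
  obtain ⟨m, hm, hmin⟩ := WellFounded.has_min (wellFounded_lt (α := Om)) _ hne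
  have hm' : ∀ n, x n < m := hm
  have hlt : ∀ y < m, ∃ n, y < x n := by
    intro y hy
    by_contra hcon
    have hcon' : ∀ n, x n ≤ y := fun n => not_lt.1 fun h => hcon ⟨n, h⟩
    have hmem : y ∈ {b : Om | ∀ n, x n < b} := fun n =>
      lt_of_lt_of_le (hS1 (x n)) (hcon' (n + 1))
    exact hmin y hmem hy
  refine ⟨m, hm' 0, fun E h => (hE E h).closed m fun a ha => ?_, fun y hy => ?_⟩
  · obtain ⟨n, hn⟩ := hlt a ha
    obtain ⟨γ, h1, h2, h3⟩ := hS3 (x n) E h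
    exact ⟨γ, h1, hn.trans h2, h3.trans (hm' (n + 1))⟩
  · obtain ⟨n, hn⟩ := hlt y hy
    exact (hS2 (x n) y hn).trans (hm' (n + 1))

end Pool.Agent.H90.Mx
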