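import Pool.Agent.H90.Mx.Hered

/-!
# Reading names by indices (module READ)

`Codes i H p φ`: the index `i` codes the set of all `t` with `φ t` (below `p`).

* `exists_read`: for every `t` let `A t` be a maximal antichain (pairwise incompatible; Zorn,
  `zorn_subset`) in the set of all `k ≤ p` with `φ t k`; it is countable by the ccc (`IsCcc` is for families
  indexed by `Om`; an uncountable set contains an injective image of `Om`, see `exists_countable` in
  `Pool/Agent/H90/SN/GenSp.lean` and `exists_partition` in `SN/PosX.lean`; perhaps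
  `exists_countable` can be applied directly to the predense set
  `{k | (k ≤ p ∧ φ t k) ∨ (no q ≤ k satisfies (q ≤ p ∧ φ t q))}`: it gives a countable predense
  subset, from which one takes those `k` with `k ≤ p ∧ φ t k`; this is enough!).  Enumerate it:
  `K t n : Option (S × Finset (I × C))` (the value of the `n`-th member, or `none` if there is no
  such; an empty set gives `none` for all `n`).  `H0` := all indices of atoms of all `K t n` (at most
  `ℵ₁`), `H` from `exists_hered`, and `i` from `X.surj a K H`.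
  `le`, `sound`: `Ink i t q` says `Below q.1 k` where `k` is (the value of) a member of `A t`, that is `q ≤ k`.
  `complete`: for `q ≤ p` with `φ t q` some member `k` of `A t` is compatible with `q`; take a common
  extension `r`.
* `Codes.thin`: from `exists_thin`.
-/

set_option autoImplicit false

namespace Pool.Agent.H90.Mx

open Pool.Agent.H90.SN

namespace Sys

variable {X : Sys}

structure Codes (i : X.I) (H : Set X.I) (p : X.Pt) (φ : X.T → X.Pt → Prop) : Prop where
  hered : Hered H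
  nmem : i ∉ H
  supp : ∀ t n k, X.cond i t n = some k → ∀ y ∈ k.2, y.1 ∈ H
  le : ∀ t q, Ink i t q → q ≤ p
  sound : ∀ t q, Ink i t q → φ t q
  complete : ∀ t q, q ≤ p → φ t q → ∃ r ≤ q, Ink i t r

theorem Codes.thin {i : X.I} {H : Set X.I} {p : X.Pt} {φ : X.T → X.Pt → Prop}
    (h : Codes i H p φ) {q r : X.Pt} (hr : r ≤ q) :
    ∃ r' : X.Pt, r ≤ r' ∧ r' ≤ q ∧ r'.1.1 = r.1.1 ∧ (∀ c, Has r' i c → Has q i c) ∧
      ∀ t, Ink i t r → Ink i t r' := by
  obtain ⟨r', h1, h2, h3, h4, h5⟩ := exists_thin h.hered hr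
  exact ⟨r', h1, h2, h3, h4 i h.nmem, h5 i h.supp⟩

theorem exists_read (hX : IsCcc X.Pt) (a : X.Par) (p : X.Pt) {φ : X.T → X.Pt → Prop}
    (hφ : ∀ t q q', q' ≤ q → φ t q → φ t q') :
    ∃ i H, X.par i = a ∧ Codes i H p φ := by
  classical
  -- the predense sets
  have hpre : ∀ t, Predense {k : X.Pt | (k ≤ p ∧ φ t k) ∨ ∀ q ≤ k, ¬ (q ≤ p ∧ φ t q)} := by
    intro t r
    by_cases h : ∃ q ≤ r, q ≤ p ∧ φ t q
    · obtain ⟨q, hqr, hq⟩ := h
      exact ⟨q, Or.inl hq, q, hqr, le_rfl⟩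
    · push Not at h
      exact ⟨r, Or.inr fun q hq h' => h q hq h'.1 h'.2, r, le_rfl, le_rfl⟩
  choose E hE1 hE2 hE3 using fun t => exists_countable hX (hpre t)
  have hG : ∀ t, ({k | k ∈ E t ∧ k ≤ p ∧ φ t k} : Set X.Pt).Countable := fun t =>
    (hE2 t).mono fun k hk => hk.1
  have hf : ∀ t, ∃ f : ℕ → Option X.Pt, (∀ n k, f n = some k → k ∈ E t ∧ k ≤ p ∧ φ t k) ∧
      ∀ k, k ∈ E t → k ≤ p → φ t k → ∃ n, f n = some k := by
    intro t
    let := (hG t).toEncodable
    refine ⟨fun n => (Encodable.decode (α := ({k | k ∈ E t ∧ k ≤ p ∧ φ t k} : Set X.Pt)) n).map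
      Subtype.val, ?_, ?_⟩
    · intro n k hk
      obtain ⟨⟨k', hk'⟩, -, rfl⟩ := Option.map_eq_some_iff.1 hk
      exact hk'
    · intro k h1 h2 h3
      refine ⟨Encodable.encode
        (⟨k, h1, h2, h3⟩ : ({k | k ∈ E t ∧ k ≤ p ∧ φ t k} : Set X.Pt)), ?_⟩
      change Option.map Subtype.val (Encodable.decode (Encodable.encode _)) = some k
      rw [Encodable.encodek]
      rfl
  choose f hf1 hf2 using hf
  let K : X.T → ℕ → Option X.Raw := fun t n => (f t n).map Subtype.val
  let S : X.T × ℕ → Set X.I := fun x => {j | ∃ k, K x.1 x.2 = some k ∧ ∃ c, (j, c) ∈ k.2}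
  have hS : ∀ x, (S x).Finite := by
    intro x
    rcases hx : K x.1 x.2 with _ | k
    · refine Set.Finite.subset Set.finite_empty ?_
      rintro j ⟨k, hk, -⟩
      rw [hx] at hk
      exact absurd hk (by simp)
    · refine Set.Finite.subset (k.2.image Prod.fst).finite_toSet ?_
      rintro j ⟨k', hk', c, hc⟩
      rw [hx, Option.some.injEq] at hk'
      subst hk'
      exact Finset.mem_coe.2 (Finset.mem_image.2 ⟨(j, c), hc, rfl⟩)
  have hcard : Cardinal.mk (⋃ x, S x) ≤ Cardinal.aleph 1 := by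
    refine (Cardinal.mk_iUnion_le S).trans ?_
    have h1 : Cardinal.mk (X.T × ℕ) ≤ Cardinal.aleph 1 := by
      rw [Cardinal.mk_prod, Cardinal.lift_id, Cardinal.lift_id, Cardinal.mk_nat]
      refine (mul_le_mul' X.card_T (Cardinal.aleph0_le_aleph 1)).trans ?_
      rw [Cardinal.mul_eq_self (Cardinal.aleph0_le_aleph 1)]
    have h2 : (⨆ x, Cardinal.mk (S x)) ≤ Cardinal.aleph 1 := by
      refine ciSup_le' fun x => ?_
      exact ((Cardinal.lt_aleph0_iff_finite.2 (hS x)).le).trans (Cardinal.aleph0_le_aleph 1)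
    refine (mul_le_mul' h1 h2).trans ?_
    rw [Cardinal.mul_eq_self (Cardinal.aleph0_le_aleph 1)]
  obtain ⟨H, hH1, hH2, hH3⟩ := exists_hered _ hcard
  obtain ⟨i, hi1, hi2, hi3⟩ := X.surj a K H hH3
  have hInk : ∀ t q, Ink i t q → ∃ k ∈ E t, q ≤ k ∧ k ≤ p ∧ φ t k := by
    rintro t q ⟨n, k, hk, hqk⟩
    rw [hi3] at hk
    obtain ⟨k', hk', rfl⟩ := Option.map_eq_some_iff.1 hk
    obtain ⟨h1, h2, h3⟩ := hf1 t n k' hk'
    exact ⟨k', h1, hqk, h2, h3⟩
  refine ⟨i, H, hi2, ⟨hH2, hi1, ?_, ?_, ?_, ?_⟩⟩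
  · intro t n k hk y hy
    rw [hi3] at hk
    exact hH1 (Set.mem_iUnion.2 ⟨(t, n), k, hk, y.2, hy⟩)
  · intro t q h
    obtain ⟨k, -, h1, h2, -⟩ := hInk t q h
    exact h1.trans h2
  · intro t q h
    obtain ⟨k, -, h1, -, h3⟩ := hInk t q h
    exact hφ t k q h1 h3
  · intro t q hqp hq
    obtain ⟨k, hkE, r, hrq, hrk⟩ := hE3 t q
    refine ⟨r, hrq, ?_⟩
    rcases hE1 t hkE with ⟨h1, h2⟩ | h
    · obtain ⟨n, hn⟩ := hf2 t k hkE h1 h2
      refine ⟨n, k.1, ?_, hrk⟩
      rw [hi3]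
      change (f t n).map Subtype.val = some k.1
      rw [hn]
      rfl
    · exact absurd ⟨hrq.trans hqp, hφ t q r hrq hq⟩ (h r hrk)

end Sys

end Pool.Agent.H90.Mx
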