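import Pool.Agent.H90.Mx.STree

/-!
# Deciding pairs in the generic tree order (module STALL)

`exists_all`: for every pair `α, β ∈ Z` there is at most one `δ` with `Dl φ α β δ` (`Dl.unique`); add all
these triples (finitely many; e.g. the set of all `(α, β, δ)` with `α, β ∈ Z`, `Dl φ α β δ` is finite, since it
injects into `Z × Z`; or add `(α, β, d α β)` where `d` is a choice function, for the pairs with
`∃ δ, Dl φ α β δ`).  `φ` is still a realizer.
-/

set_option autoImplicit false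

namespace Pool.Agent.H90.Mx

open Pool.Agent.H90.SN

namespace SE

variable {s t : SE} {α β γ δ δ' : Om}

/-- add all triples for pairs from `Z`, as given by a realizer -/
theorem exists_all {s : SE} {φ : Om → Om → ℤ} (hφ : RzE φ s.1) (Z : Finset Om) :
    ∃ s' ≤ s, RzE φ s'.1 ∧ ∀ α ∈ Z, ∀ β ∈ Z, ∀ δ, Dl φ α β δ → Tri s' α β δ := by
  classical
  let d : Om × Om → Om := fun z => if h : ∃ δ, Dl φ z.1 z.2 δ then h.choose else z.1
  have hd : ∀ z : Om × Om, (∃ δ, Dl φ z.1 z.2 δ) → Dl φ z.1 z.2 (d z) := by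
    intro z h
    simp only [d, dif_pos h]
    exact h.choose_spec
  let D : Finset (Om × Om × Om) := ((Z ×ˢ Z).filter (fun z => ∃ δ, Dl φ z.1 z.2 δ)).image
    (fun z => (z.1, z.2, d z))
  have hR : RzE φ (s.1 ∪ D) := by
    refine ⟨hφ.1, fun x hx => ?_⟩
    rcases Finset.mem_union.1 hx with hx | hx
    · exact hφ.2 x hx
    · obtain ⟨z, hz, rfl⟩ := Finset.mem_image.1 hx
      exact hd z (Finset.mem_filter.1 hz).2
  refine ⟨⟨s.1 ∪ D, φ, hR⟩, Finset.subset_union_left, hR, fun α hα β hβ δ h => ?_⟩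
  have h1 : d (α, β) = δ := (hd (α, β) ⟨δ, h⟩).unique h
  refine Finset.mem_union_right _ (Finset.mem_image.2 ⟨(α, β), Finset.mem_filter.2
    ⟨Finset.mem_product.2 ⟨hα, hβ⟩, δ, h⟩, ?_⟩)
  rw [h1]

theorem exists_decide (s : SE) (Z : Finset Om) :
    ∃ s' ≤ s, ∀ α ∈ Z, ∀ β ∈ Z, α ≠ β → ∃ δ, Tri s' α β δ ∨ Tri s' β α δ := by
  obtain ⟨φ, hφ⟩ := s.2
  obtain ⟨s', hs, -, h⟩ := exists_all hφ Z
  refine ⟨s', hs, fun α hα β hβ hne => ?_⟩
  obtain ⟨δ, h1 | h1⟩ := exists_dl hφ.1 hne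
  · exact ⟨δ, Or.inl (h α hα β hβ δ h1)⟩
  · exact ⟨δ, Or.inr (h β hβ α hα δ h1)⟩

end SE

end Pool.Agent.H90.Mx
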