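import Pool.Agent.H90.Mx.STreeAll

/-!
# A new point of the generic tree order (module STNEW)

`ψ α ξ := if α = a then u ξ else 3 * φ α ξ`.  The triples of `s` do not mention `a` in the first two places.
-/

set_option autoImplicit false

namespace Pool.Agent.H90.Mx

open Pool.Agent.H90.SN

namespace SE

variable {s t : SE} {α β γ δ δ' : Om}

/-- A new point `a` with a prescribed sequence: for a row-like sequence `u` of length `a` the point `a` can
be given this sequence (after multiplying the given realizer by `3`). -/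
theorem exists_new {s : SE} {φ : Om → Om → ℤ} (hφ : RzE φ s.1) {a : Om}
    (ha : ∀ x ∈ s.1, x.1 ≠ a ∧ x.2.1 ≠ a) (u : Om → ℤ) (hu : ∀ ξ, u ξ = 0 ↔ a ≤ ξ) :
    ∃ ψ, RzE ψ s.1 ∧ (∀ ξ, ψ a ξ = u ξ) ∧ ∀ α, α ≠ a → ∀ ξ, ψ α ξ = 3 * φ α ξ := by
  classical
  refine ⟨fun α ξ => if α = a then u ξ else 3 * φ α ξ, ⟨fun α ξ => ?_, fun x hx => ?_⟩,
    fun ξ => if_pos rfl, fun α hα ξ => if_neg hα⟩
  · by_cases h : α = a
    · simp only [if_pos h]
      rw [h]
      exact hu ξ
    · simp only [if_neg h]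
      constructor
      · intro h1
        refine (hφ.1 α ξ).1 ?_
        omega
      · intro h1
        rw [(hφ.1 α ξ).2 h1]
        norm_num
  · obtain ⟨h1, h2⟩ := ha x hx
    obtain ⟨h3, h4⟩ := hφ.2 x hx
    refine ⟨fun ξ hξ => ?_, ?_⟩
    · simp only [if_neg h1, if_neg h2]
      rw [h3 ξ hξ]
    · simp only [if_neg h1, if_neg h2]
      omega

end SE

end Pool.Agent.H90.Mx
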