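import Pool.Agent.H90.Mx.Twin

/-!
# Uncountably many conditions of the same shape (module SHAPE)

For `ν : Om` let `D ν : Finset CI` be the set of all indices of atoms of `p ν` (`CP.finite_at`); take `R`, `Y0`
from `exists_delta`.  For every `ν` there is a finite set `N ν` of ordinals which contains the first
components of `(p ν).r.1`, all components of `(p ν).t.1`, `a`, `k` for all `At (p ν) i a k`, and `c ν`, `d ν`.
Let `n ν := (N ν).card` and `en ν : Fin (n ν) → Om` an injective enumeration of `N ν`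
(`Finset.equivFin` or `orderEmbOfFin`).  First pass to an uncountable `Y1 ⊆ Y0` where `n ν = n` is constant,
and (by cases on the equality `n ν = n`, `Fin.cast`) get `e : Om → Fin n → Om`.  The shape of `ν`:

  `(Finset (Fin n × ℚ × ℚ)) × (Finset (Fin n × Fin n × Fin n)) × (Finset (R × Fin n × Fin n)) × Fin n × Fin n`

(a countable type) given by: the preimage of `(p ν).r.1`, the preimage of `(p ν).t.1`, all `(i, j, k)` with
`At (p ν) i (e ν j) (e ν k)`, the index of `c ν`, the index of `d ν`.  (To get finite sets as preimages use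
`Finset.preimage`, or work with sets: the type
`Set (Fin n × ℚ × ℚ)` is not countable, so finite sets are needed for the first one; for the others `Set` or
`Bool`-valued functions are fine since the types are finite.)  By `exists_fiber_set` there is an
uncountable `Y ⊆ Y1` on which the shape is constant; `unbounded_of_not_countable` for `unb`.
(For `ν ∉ Y1` let `e ν` be arbitrary, e.g. `fun _ => ν`; the index of `c ν` is then arbitrary as well, use
`Classical.epsilon` or an `Option`.)
-/

set_option autoImplicit false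

namespace Pool.Agent.H90.Mx

open Pool.Agent.H90.SN

theorem exists_shape (p : Om → CP) (c d : Om → Om) : ∃ (R : Finset CI) (Y : Set Om) (n : ℕ)
    (e : Om → Fin n → Om), Shape p c d R Y e := by
  classical
  choose A hA using fun ν => CP.finite_at (p ν)
  obtain ⟨R, Y0, hY0, hR⟩ := exists_delta (fun ν => (A ν).image Prod.fst)
  -- the relevant ordinals
  let N : Om → Finset Om := fun ν => (p ν).r.1.image (fun x => x.1) ∪
    ((p ν).t.1.image (fun x => x.1) ∪ ((p ν).t.1.image (fun x => x.2.1) ∪
      ((p ν).t.1.image (fun x => x.2.2) ∪ ((A ν).image (fun x => x.2.1) ∪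
        ((A ν).image (fun x => x.2.2) ∪ {c ν, d ν})))))
  obtain ⟨n, hn⟩ := exists_fiber_set (fun ν => (N ν).card) hY0
  let e : Om → Fin n → Om := fun ν =>
    if h : (N ν).card = n then fun j => (N ν).orderEmbOfFin h j else fun _ => ν
  have he1 : ∀ ν, (N ν).card = n → Function.Injective (e ν) := by
    intro ν h a b hab
    simp only [e, dif_pos h] at hab
    exact ((N ν).orderEmbOfFin h).injective hab
  have he2 : ∀ ν, (N ν).card = n → ∀ x ∈ N ν, ∃ j, e ν j = x := by
    intro ν h x hx
    have h1 : x ∈ Set.range ((N ν).orderEmbOfFin h) := by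
      rw [Finset.range_orderEmbOfFin]
      exact hx
    obtain ⟨j, hj⟩ := h1
    refine ⟨j, ?_⟩
    simp only [e, dif_pos h]
    exact hj
  -- the shape
  let v : Om → (Finset (Fin n × ℚ × ℚ) × Set (Fin n × Fin n × Fin n)) ×
      (Set ({i // i ∈ R} × Fin n × Fin n) × Set (Fin n) × Set (Fin n)) := fun ν =>
    ((((Finset.univ : Finset (Fin n)) ×ˢ (p ν).r.1.image (fun x => x.2)).filter
        (fun x => (e ν x.1, x.2) ∈ (p ν).r.1),
      {x | (p ν).t.Tri (e ν x.1) (e ν x.2.1) (e ν x.2.2)}),
      ({x | At (p ν) x.1.1 (e ν x.2.1) (e ν x.2.2)}, {j | e ν j = c ν}, {j | e ν j = d ν}))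
  obtain ⟨k, hk⟩ := exists_fiber_set v (S := {ν | ν ∈ Y0 ∧ (N ν).card = n}) hn
  refine ⟨R, {ν | ν ∈ {ν | ν ∈ Y0 ∧ (N ν).card = n} ∧ v ν = k}, n, e, ?_⟩
  have hsame : ∀ ν ∈ {ν | ν ∈ {ν | ν ∈ Y0 ∧ (N ν).card = n} ∧ v ν = k},
      ∀ μ ∈ {ν | ν ∈ {ν | ν ∈ Y0 ∧ (N ν).card = n} ∧ v ν = k}, v ν = v μ :=
    fun ν hν μ hμ => hν.2.trans hμ.2.symm
  refine
    { unb := fun ζ => unbounded_of_not_countable hk ζ
      inj := fun ν hν => he1 ν hν.1.2
      com := ?_, rN := ?_, tN := ?_, aN := ?_, cN := ?_, dN := ?_, r := ?_, t := ?_, a := ?_,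
      c := ?_, d := ?_ }
  · rintro ν hν μ hμ hne i ⟨a, k, h⟩ ⟨a', k', h'⟩
    refine hR ν hν.1.1 μ hμ.1.1 hne i ?_ ?_
    · exact Finset.mem_image.2 ⟨(i, a, k), (hA ν i a k).1 h, rfl⟩
    · exact Finset.mem_image.2 ⟨(i, a', k'), (hA μ i a' k').1 h', rfl⟩
  · intro ν hν x hx
    exact he2 ν hν.1.2 _ (Finset.mem_union_left _ (Finset.mem_image_of_mem _ hx))
  · intro ν hν x hx
    refine ⟨he2 ν hν.1.2 _ ?_, he2 ν hν.1.2 _ ?_, he2 ν hν.1.2 _ ?_⟩
    · exact Finset.mem_union_right _ (Finset.mem_union_left _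
        (Finset.mem_image_of_mem (fun x : Om × Om × Om => x.1) hx))
    · exact Finset.mem_union_right _ (Finset.mem_union_right _ (Finset.mem_union_left _
        (Finset.mem_image_of_mem (fun x : Om × Om × Om => x.2.1) hx)))
    · exact Finset.mem_union_right _ (Finset.mem_union_right _ (Finset.mem_union_right _
        (Finset.mem_union_left _ (Finset.mem_image_of_mem (fun x : Om × Om × Om => x.2.2) hx))))
  · intro ν hν i _ a k h
    have h1 := (hA ν i a k).1 h
    refine ⟨he2 ν hν.1.2 _ ?_, he2 ν hν.1.2 _ ?_⟩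
    · exact Finset.mem_union_right _ (Finset.mem_union_right _ (Finset.mem_union_right _
        (Finset.mem_union_right _ (Finset.mem_union_left _
          (Finset.mem_image_of_mem (fun x : CI × Om × Om => x.2.1) h1)))))
    · exact Finset.mem_union_right _ (Finset.mem_union_right _ (Finset.mem_union_right _
        (Finset.mem_union_right _ (Finset.mem_union_right _ (Finset.mem_union_left _
          (Finset.mem_image_of_mem (fun x : CI × Om × Om => x.2.2) h1))))))
  · intro ν hν
    exact he2 ν hν.1.2 _ (Finset.mem_union_right _ (Finset.mem_union_right _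
      (Finset.mem_union_right _ (Finset.mem_union_right _ (Finset.mem_union_right _
        (Finset.mem_union_right _ (by simp)))))))
  · intro ν hν
    exact he2 ν hν.1.2 _ (Finset.mem_union_right _ (Finset.mem_union_right _
      (Finset.mem_union_right _ (Finset.mem_union_right _ (Finset.mem_union_right _
        (Finset.mem_union_right _ (by simp)))))))
  · intro ν hν μ hμ j u hu
    have h1 := congrArg (fun z => z.1.1) (hsame ν hν μ hμ)
    simp only [v] at h1
    have h2 : (j, u) ∈ ((Finset.univ : Finset (Fin n)) ×ˢ (p ν).r.1.image (fun x => x.2)).filter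
        (fun x => (e ν x.1, x.2) ∈ (p ν).r.1) := by
      refine Finset.mem_filter.2 ⟨Finset.mem_product.2 ⟨Finset.mem_univ _, ?_⟩, hu⟩
      exact Finset.mem_image.2 ⟨_, hu, rfl⟩
    rw [h1] at h2
    exact (Finset.mem_filter.1 h2).2
  · intro ν hν μ hμ j k l h
    have h1 := congrArg (fun z => z.1.2) (hsame ν hν μ hμ)
    simp only [v] at h1
    have h2 : (j, k, l) ∈ {x : Fin n × Fin n × Fin n |
        (p ν).t.Tri (e ν x.1) (e ν x.2.1) (e ν x.2.2)} := h
    rw [h1] at h2
    exact h2
  · intro ν hν μ hμ i hi j k h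
    have h1 := congrArg (fun z => z.2.1) (hsame ν hν μ hμ)
    simp only [v] at h1
    have h2 : ((⟨i, hi⟩ : {i // i ∈ R}), j, k) ∈ {x : {i // i ∈ R} × Fin n × Fin n |
        At (p ν) x.1.1 (e ν x.2.1) (e ν x.2.2)} := h
    rw [h1] at h2
    exact h2
  · intro ν hν μ hμ j h
    have h1 := congrArg (fun z => z.2.2.1) (hsame ν hν μ hμ)
    simp only [v] at h1
    have h2 : j ∈ {j | e ν j = c ν} := h
    rw [h1] at h2
    exact h2
  · intro ν hν μ hμ j h
    have h1 := congrArg (fun z => z.2.2.2) (hsame ν hν μ hμ)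
    simp only [v] at h1
    have h2 : j ∈ {j | e ν j = d ν} := h
    rw [h1] at h2
    exact h2

end Pool.Agent.H90.Mx
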