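import Pool.Agent.H90.SN.GenSp

/-!
# Self-coding forcing with finite conditions: the abstract scheme

A condition is a static part `s : S` together with a finite set of atoms `(i, c)`, where `i : I` is an
index.  The index `i` codes a parameter `par i` and a family `cond i t n` of (raw) conditions,
`t : T`, `n : ℕ`; it is the name of the set of all `t` such that some `cond i t n` is in the generic
filter (`InK i t r`: the condition `r` forces `t` into this set, because it is below some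
`cond i t n`).

An atom `(i, c)` must satisfy `una`, it is `free` or needs some `t` to be in the set named by `i`, and
any two atoms of the same index must satisfy `bin`.

No rank function is used: an index may occur in the conditions which it codes.  When we use a code we
choose an index `i` outside a hereditary set `H` containing everything which is needed for the
evaluation of `i` (`thin`).
-/

set_option autoImplicit false

namespace Pool.Agent.H90.Mx

open Pool.Agent.H90.SN

structure Sys where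
  S : Type
  C : Type
  T : Type
  Par : Type
  I : Type
  poS : PartialOrder S
  topS : @OrderTop S poS.toLE
  need : Par → C → T → Prop
  free : Par → C → Prop
  una : Par → C → Prop
  bin : Par → C → C → S → Prop
  bin_mono : ∀ {a : Par} {c d : C} {s s' : S}, s' ≤ s → bin a c d s → bin a c d s'
  bin_symm : ∀ {a : Par} {c d : C} {s : S}, bin a c d s → bin a d c s
  bin_refl : ∀ {a : Par} {c : C} {s : S}, bin a c c s
  card_T : Cardinal.mk T ≤ Cardinal.aleph 1
  par : I → Par
  cond : I → T → ℕ → Option (S × Finset (I × C))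
  surj : ∀ (a : Par) (K : T → ℕ → Option (S × Finset (I × C))) (H : Set I),
    Cardinal.mk H ≤ Cardinal.aleph 1 → ∃ i, i ∉ H ∧ par i = a ∧ cond i = K

namespace Sys

variable (X : Sys)

instance : PartialOrder X.S := X.poS
instance : OrderTop X.S := X.topS

/-- raw conditions -/
abbrev Raw : Type := X.S × Finset (X.I × X.C)

variable {X}

def Below (r k : X.Raw) : Prop := r.1 ≤ k.1 ∧ k.2 ⊆ r.2

theorem Below.refl (r : X.Raw) : Below r r := ⟨le_rfl, fun _ h => h⟩

theorem Below.trans {a b c : X.Raw} (h : Below a b) (h' : Below b c) : Below a c :=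
  ⟨h.1.trans h'.1, fun _ hx => h.2 (h'.2 hx)⟩

/-- `r` forces `t` into the set coded by `i` -/
def InK (i : X.I) (t : X.T) (r : X.Raw) : Prop := ∃ n k, X.cond i t n = some k ∧ Below r k

theorem InK.mono {i : X.I} {t : X.T} {r r' : X.Raw} (h : InK i t r) (h' : Below r' r) :
    InK i t r' := by
  obtain ⟨n, k, hk, hr⟩ := h
  exact ⟨n, k, hk, h'.trans hr⟩

structure Valid (r : X.Raw) : Prop where
  una : ∀ x ∈ r.2, X.una (X.par x.1) x.2
  need : ∀ x ∈ r.2, X.free (X.par x.1) x.2 ∨ ∃ t, X.need (X.par x.1) x.2 t ∧ InK x.1 t r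
  bin : ∀ x ∈ r.2, ∀ y ∈ r.2, x.1 = y.1 → X.bin (X.par x.1) x.2 y.2 r.1

variable (X)

/-- the forcing -/
def Pt : Type := {r : X.Raw // Valid r}

variable {X}

instance : PartialOrder X.Pt where
  le p q := Below p.1 q.1
  le_refl p := Below.refl p.1
  le_trans _ _ _ h h' := Below.trans h h'
  le_antisymm p q h h' := Subtype.ext (Prod.ext (le_antisymm h.1 h'.1)
    (Finset.Subset.antisymm h'.2 h.2))

theorem le_def {p q : X.Pt} : p ≤ q ↔ p.1.1 ≤ q.1.1 ∧ q.1.2 ⊆ p.1.2 := Iff.rfl

instance : OrderTop X.Pt where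
  top := ⟨(⊤, ∅), ⟨by simp, by simp, by simp⟩⟩
  le_top p := ⟨le_top, Finset.empty_subset _⟩

/-- the condition `p` contains the atom `c` of index `i` -/
def Has (p : X.Pt) (i : X.I) (c : X.C) : Prop := (i, c) ∈ p.1.2

theorem Has.mono {p q : X.Pt} {i : X.I} {c : X.C} (h : Has p i c) (hq : q ≤ p) : Has q i c :=
  hq.2 h

/-- `p` forces `t` into the set coded by `i` -/
def Ink (i : X.I) (t : X.T) (p : X.Pt) : Prop := InK i t p.1

theorem Ink.mono {i : X.I} {t : X.T} {p q : X.Pt} (h : Ink i t p) (hq : q ≤ p) : Ink i t q :=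
  InK.mono h hq

theorem Has.una {p : X.Pt} {i : X.I} {c : X.C} (h : Has p i c) : X.una (X.par i) c :=
  p.2.una _ h

theorem Has.need {p : X.Pt} {i : X.I} {c : X.C} (h : Has p i c) :
    X.free (X.par i) c ∨ ∃ t, X.need (X.par i) c t ∧ Ink i t p := p.2.need _ h

theorem Has.bin {p : X.Pt} {i : X.I} {c d : X.C} (h : Has p i c) (h' : Has p i d) :
    X.bin (X.par i) c d p.1.1 := p.2.bin _ h _ h' rfl

/-- extension of the static part -/
theorem exists_static (p : X.Pt) {s : X.S} (hs : s ≤ p.1.1) :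
    ∃ q : X.Pt, q ≤ p ∧ q.1.1 = s ∧ q.1.2 = p.1.2 := by
  refine ⟨⟨(s, p.1.2), ⟨p.2.una, fun x hx => ?_, fun x hx y hy h => ?_⟩⟩, ⟨hs, fun _ h => h⟩,
    rfl, rfl⟩
  · rcases p.2.need x hx with h | ⟨t, h1, h2⟩
    · exact Or.inl h
    · exact Or.inr ⟨t, h1, h2.mono ⟨hs, fun _ h => h⟩⟩
  · exact X.bin_mono hs (p.2.bin x hx y hy h)

/-- adding an atom -/
theorem exists_add (p : X.Pt) {i : X.I} {c : X.C} (hu : X.una (X.par i) c)
    (hn : X.free (X.par i) c ∨ ∃ t, X.need (X.par i) c t ∧ Ink i t p)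
    (hb : ∀ d, Has p i d → X.bin (X.par i) c d p.1.1) :
    ∃ q : X.Pt, q ≤ p ∧ q.1.1 = p.1.1 ∧ Has q i c := by
  classical
  have hle : Below (X := X) (p.1.1, insert (i, c) p.1.2) p.1 :=
    ⟨le_rfl, Finset.subset_insert _ _⟩
  refine ⟨⟨(p.1.1, insert (i, c) p.1.2), ⟨fun x hx => ?_, fun x hx => ?_,
    fun x hx y hy h => ?_⟩⟩, hle, rfl, Finset.mem_insert_self _ _⟩
  · rcases Finset.mem_insert.1 hx with rfl | hx
    · exact hu
    · exact p.2.una x hx
  · rcases Finset.mem_insert.1 hx with rfl | hx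
    · rcases hn with h | ⟨t, h1, h2⟩
      · exact Or.inl h
      · exact Or.inr ⟨t, h1, InK.mono h2 hle⟩
    · rcases p.2.need x hx with h | ⟨t, h1, h2⟩
      · exact Or.inl h
      · exact Or.inr ⟨t, h1, h2.mono hle⟩
  · rcases Finset.mem_insert.1 hx with rfl | hx
    · rcases Finset.mem_insert.1 hy with rfl | hy
      · exact X.bin_refl
      · obtain ⟨y1, y2⟩ := y
        cases h
        exact hb _ hy
    · rcases Finset.mem_insert.1 hy with rfl | hy
      · obtain ⟨x1, x2⟩ := x
        cases h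
        exact X.bin_symm (hb _ hx)
      · exact p.2.bin x hx y hy h

/-- amalgamation -/
theorem exists_amalgam (p q : X.Pt) {s : X.S} (h1 : s ≤ p.1.1) (h2 : s ≤ q.1.1)
    (hb : ∀ i c d, Has p i c → Has q i d → X.bin (X.par i) c d s) :
    ∃ r : X.Pt, r ≤ p ∧ r ≤ q ∧ r.1.1 = s ∧ ∀ i c, Has r i c ↔ Has p i c ∨ Has q i c := by
  classical
  have hp : Below (X := X) (s, p.1.2 ∪ q.1.2) p.1 := ⟨h1, Finset.subset_union_left⟩
  have hq : Below (X := X) (s, p.1.2 ∪ q.1.2) q.1 := ⟨h2, Finset.subset_union_right⟩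
  refine ⟨⟨(s, p.1.2 ∪ q.1.2), ⟨fun x hx => ?_, fun x hx => ?_, fun x hx y hy h => ?_⟩⟩,
    hp, hq, rfl, fun i c => Finset.mem_union⟩
  · rcases Finset.mem_union.1 hx with hx | hx
    · exact p.2.una x hx
    · exact q.2.una x hx
  · rcases Finset.mem_union.1 hx with hx | hx
    · rcases p.2.need x hx with h | ⟨t, h3, h4⟩
      · exact Or.inl h
      · exact Or.inr ⟨t, h3, h4.mono hp⟩
    · rcases q.2.need x hx with h | ⟨t, h3, h4⟩
      · exact Or.inl h
      · exact Or.inr ⟨t, h3, h4.mono hq⟩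
  · obtain ⟨x1, x2⟩ := x
    obtain ⟨y1, y2⟩ := y
    cases h
    rcases Finset.mem_union.1 hx with hx | hx <;> rcases Finset.mem_union.1 hy with hy | hy
    · exact X.bin_mono h1 (p.2.bin _ hx _ hy rfl)
    · exact hb _ _ _ hx hy
    · exact X.bin_symm (hb _ _ _ hy hx)
    · exact X.bin_mono h2 (q.2.bin _ hx _ hy rfl)

/-- a set of indices which is closed under the evaluation of names -/
def Hered (H : Set X.I) : Prop :=
  ∀ i ∈ H, ∀ t n k, X.cond i t n = some k → ∀ y ∈ k.2, y.1 ∈ H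

/-- Thinning: if `r ≤ q` we can drop from `r` all new atoms whose index is not in the hereditary set
`H`. -/
theorem exists_thin {H : Set X.I} (hH : Hered H) {q r : X.Pt} (hr : r ≤ q) :
    ∃ r' : X.Pt, r ≤ r' ∧ r' ≤ q ∧ r'.1.1 = r.1.1 ∧
      (∀ i, i ∉ H → ∀ c, Has r' i c → Has q i c) ∧
      ∀ i, (∀ t n k, X.cond i t n = some k → ∀ y ∈ k.2, y.1 ∈ H) →
        ∀ t, Ink i t r → Ink i t r' := by
  classical
  set A : Finset (X.I × X.C) := q.1.2 ∪ r.1.2.filter (fun y => y.1 ∈ H) with hA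
  have hAr : A ⊆ r.1.2 := by
    intro x hx
    rcases Finset.mem_union.1 hx with hx | hx
    · exact hr.2 hx
    · exact (Finset.mem_filter.1 hx).1
  have hInk : ∀ i, (∀ t n k, X.cond i t n = some k → ∀ y ∈ k.2, y.1 ∈ H) →
      ∀ t, Ink i t r → InK i t (r.1.1, A) := by
    rintro i hi t ⟨n, k, hk, h1, h2⟩
    refine ⟨n, k, hk, h1, fun y hy => ?_⟩
    exact Finset.mem_union_right _ (Finset.mem_filter.2 ⟨h2 hy, hi t n k hk y hy⟩)
  have hq : Below (X := X) (r.1.1, A) q.1 := ⟨hr.1, Finset.subset_union_left⟩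
  refine ⟨⟨(r.1.1, A), ⟨fun x hx => r.2.una x (hAr hx), fun x hx => ?_,
    fun x hx y hy h => r.2.bin x (hAr hx) y (hAr hy) h⟩⟩, ⟨le_rfl, hAr⟩, hq, rfl, ?_, hInk⟩
  · rcases Finset.mem_union.1 hx with hx | hx
    · rcases q.2.need x hx with h | ⟨t, h3, h4⟩
      · exact Or.inl h
      · exact Or.inr ⟨t, h3, h4.mono hq⟩
    · obtain ⟨hx1, hx2⟩ := Finset.mem_filter.1 hx
      rcases r.2.need x hx1 with h | ⟨t, h3, h4⟩
      · exact Or.inl h
      · exact Or.inr ⟨t, h3, hInk x.1 (fun t n k hk y hy => hH _ hx2 t n k hk y hy) t h4⟩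
  · intro i hi c hc
    rcases Finset.mem_union.1 hc with h | h
    · exact h
    · exact absurd (Finset.mem_filter.1 h).2 hi

end Sys

end Pool.Agent.H90.Mx
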