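import Pool.Agent.H90.Mx.Pair

/-!
# Twins

`Twin p q N π ξ0 m`: the condition `q` is the image of the condition `p` under `π` (as far as common indices
are concerned); `N` contains all relevant ordinals of `p`; those below `ξ0` are fixed by `π`, the others
are in the interval `(ξ0, m)` and are moved to ordinals `≥ m`.
-/

set_option autoImplicit false

namespace Pool.Agent.H90.Mx

open Pool.Agent.H90.SN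

structure Twin (p q : CP) (N : Finset Om) (π : Om → Om) (ξ0 m : Om) : Prop where
  inj : Set.InjOn π (N : Set Om)
  dich : ∀ x ∈ N, (x < ξ0 ∧ π x = x) ∨ (ξ0 < x ∧ x < m ∧ m ≤ π x)
  rN : ∀ x ∈ p.r.1, x.1 ∈ N
  tN : ∀ x ∈ p.t.1, x.1 ∈ N ∧ x.2.1 ∈ N ∧ x.2.2 ∈ N
  r' : ∀ y ∈ q.r.1, ∃ x ∈ p.r.1, y = (π x.1, x.2)
  t' : ∀ y ∈ q.t.1, ∃ x ∈ p.t.1, y = (π x.1, π x.2.1, π x.2.2)
  tt : ∀ x y δ, p.t.Tri x y δ → q.t.Tri (π x) (π y) (π δ)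
  mem : ∀ i, (∃ a' k', At q i a' k') → ∀ a k, At p i a k → a ∈ N ∧ k ∈ N ∧ At q i (π a) (π k)
  mem' : ∀ i, (∃ a k, At p i a k) → ∀ a' k', At q i a' k' → ∃ a k, At p i a k ∧ a' = π a ∧ k' = π k
  cl : ∀ i E, (∃ a k, At p i a k) → (∃ a' k', At q i a' k') → kd i = .A E → m ∈ E
  le : ∀ i e, (∃ a k, At p i a k) → (∃ a' k', At q i a' k') → kd i = .R e → e ≤ ξ0
  blk : ∀ a k, bl a = bl k → (a < m ↔ k < m)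

/-- all conditions `p ν`, `ν ∈ Y`, have the same shape; `e ν` enumerates the relevant ordinals -/
structure Shape (p : Om → CP) (c d : Om → Om) (R : Finset CI) (Y : Set Om) {n : ℕ}
    (e : Om → Fin n → Om) : Prop where
  unb : ∀ ζ, ∃ ν ∈ Y, ζ ≤ ν
  inj : ∀ ν ∈ Y, Function.Injective (e ν)
  com : ∀ ν ∈ Y, ∀ μ ∈ Y, ν ≠ μ → ∀ i, (∃ a k, At (p ν) i a k) → (∃ a k, At (p μ) i a k) → i ∈ R
  rN : ∀ ν ∈ Y, ∀ x ∈ (p ν).r.1, ∃ j, e ν j = x.1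
  tN : ∀ ν ∈ Y, ∀ x ∈ (p ν).t.1, (∃ j, e ν j = x.1) ∧ (∃ j, e ν j = x.2.1) ∧ ∃ j, e ν j = x.2.2
  aN : ∀ ν ∈ Y, ∀ i ∈ R, ∀ a k, At (p ν) i a k → (∃ j, e ν j = a) ∧ ∃ j, e ν j = k
  cN : ∀ ν ∈ Y, ∃ j, e ν j = c ν
  dN : ∀ ν ∈ Y, ∃ j, e ν j = d ν
  r : ∀ ν ∈ Y, ∀ μ ∈ Y, ∀ j u, (e ν j, u) ∈ (p ν).r.1 → (e μ j, u) ∈ (p μ).r.1
  t : ∀ ν ∈ Y, ∀ μ ∈ Y, ∀ j k l, (p ν).t.Tri (e ν j) (e ν k) (e ν l) →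
    (p μ).t.Tri (e μ j) (e μ k) (e μ l)
  a : ∀ ν ∈ Y, ∀ μ ∈ Y, ∀ i ∈ R, ∀ j k, At (p ν) i (e ν j) (e ν k) → At (p μ) i (e μ j) (e μ k)
  c : ∀ ν ∈ Y, ∀ μ ∈ Y, ∀ j, e ν j = c ν → e μ j = c μ
  d : ∀ ν ∈ Y, ∀ μ ∈ Y, ∀ j, e ν j = d ν → e μ j = d μ

end Pool.Agent.H90.Mx
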